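import Pool.Agent.Lib.MP_17a322_nt.SV3.Defs2
import Pool.Agent.Lib.MP_17a322_nt.TB.R1

/-!
Polynomials on principal torus bundles.
-/

universe u

namespace Pool.Agent.Lib.MP_17a322_nt.SV3

open MvPolynomial Height
open Pool.Agent.Lib.MP_17a322_nt.VA
open Pool.Agent.Lib.MP_17a322_nt.VJ
open Pool.Agent.Lib.MP_17a322_nt.SL
open Pool.Agent.Lib.MP_17a322_nt.SV2 (Box Rw Cf Tm fs sp ps)

section

variable {K : Type u} [Field K] {N q p p' m : ℕ} {A : AV K N} (B : Bun A q p p')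

theorem A_gen_coeff (ch : Fin q → Fin p')
    (b : MvPolynomial (Fin q × Fin p) (MvPolynomial (Fin (N + 1)) K)) (a : Fin q →₀ ℕ) :
    coeff a (B.gen ch b) = open Classical in ∑ μ ∈ b.support,
      if TB.yd μ = a then coeff μ b * ∏ i, B.ζ i.1 i.2 (ch i.1) ^ μ i else 0 := by
  unfold Bun.gen
  rw [TB.spR_coeff]
  rfl

/-- The coefficients are forms. -/
theorem A_hom {ch : Fin q → Fin p'} {D : ℕ}
    {b : MvPolynomial (Fin q × Fin p) (MvPolynomial (Fin (N + 1)) K)} (hb : B.WH D b)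
    (a : Fin q →₀ ℕ) (ha : coeff a (B.gen ch b) ≠ 0) :
    ∃ δ : ℕ, (coeff a (B.gen ch b)).IsHomogeneous δ ∧
      δ + ∑ i, B.k i * a i = D + ∑ i, B.e i * a i := by
  classical
  have hs : ∀ (c : Fin q → ℕ) (μ : Fin q × Fin p →₀ ℕ), TB.yd μ = a →
      ∑ i : Fin q × Fin p, c i.1 * μ i = ∑ i, c i * a i := by
    intro c μ hμ
    rw [Fintype.sum_prod_type]
    refine Finset.sum_congr rfl fun i _ => ?_
    rw [← hμ, TB.yd_apply, Finset.mul_sum]
  rw [A_gen_coeff] at ha ⊢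
  obtain ⟨μ₀, hμ₀, h0⟩ := Finset.exists_ne_zero_of_sum_ne_zero ha
  have hy₀ : TB.yd μ₀ = a := by
    by_contra hc
    rw [if_neg hc] at h0
    exact h0 rfl
  obtain ⟨δ₀, hδ₀, hδ₀'⟩ := hb μ₀ (mem_support_iff.1 hμ₀)
  rw [hs _ _ hy₀] at hδ₀'
  refine ⟨δ₀ + ∑ i, B.e i * a i, IsHomogeneous.sum _ _ _ fun μ hμ => ?_, by omega⟩
  by_cases h : TB.yd μ = a
  · rw [if_pos h]
    obtain ⟨δ, h1, h2⟩ := hb μ (mem_support_iff.1 hμ)
    rw [hs _ _ h] at h2
    have h3 : (∏ i : Fin q × Fin p, B.ζ i.1 i.2 (ch i.1) ^ μ i).IsHomogeneous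
        (∑ i : Fin q × Fin p, B.e i.1 * μ i) :=
      IsHomogeneous.prod _ _ _ fun i _ => (B.hom i.1 i.2 _).pow _
    rw [hs _ _ h] at h3
    have h4 : δ₀ = δ := by omega
    rw [h4]
    exact h1.mul h3
  · rw [if_neg h]
    exact isHomogeneous_zero _ _ _

theorem A_gen_C (ch : Fin q → Fin p') (c : MvPolynomial (Fin (N + 1)) K) :
    B.gen ch (C c : MvPolynomial (Fin q × Fin p) (MvPolynomial (Fin (N + 1)) K)) = C c := by
  unfold Bun.gen TB.spR
  rw [coe_eval₂Hom, eval₂_C]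
  rfl

theorem A_gen_mul (ch : Fin q → Fin p')
    (b b' : MvPolynomial (Fin q × Fin p) (MvPolynomial (Fin (N + 1)) K)) :
    B.gen ch (b * b') = B.gen ch b * B.gen ch b' := by
  unfold Bun.gen
  rw [map_mul]

theorem A_gen_add (ch : Fin q → Fin p')
    (b b' : MvPolynomial (Fin q × Fin p) (MvPolynomial (Fin (N + 1)) K)) :
    B.gen ch (b + b') = B.gen ch b + B.gen ch b' := by
  unfold Bun.gen
  rw [map_add]

theorem A_gen_X (ch : Fin q → Fin p') (i : Fin q × Fin p) :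
    B.gen ch (X i : MvPolynomial (Fin q × Fin p) (MvPolynomial (Fin (N + 1)) K)) =
      C (B.ζ i.1 i.2 (ch i.1)) * X i.1 := by
  unfold Bun.gen TB.spR
  rw [coe_eval₂Hom, eval₂_X]

theorem A_ev_mul {L : Type u} [Field L] [Algebra K L] (P : A.Pts L) (y : Fin q × Fin p → L)
    (b b' : MvPolynomial (Fin q × Fin p) (MvPolynomial (Fin (N + 1)) K)) :
    ev P y (b * b') = ev P y b * ev P y b' := by
  unfold ev
  rw [map_mul, map_mul]

theorem A_ev_add {L : Type u} [Field L] [Algebra K L] (P : A.Pts L) (y : Fin q × Fin p → L)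
    (b b' : MvPolynomial (Fin q × Fin p) (MvPolynomial (Fin (N + 1)) K)) :
    ev P y (b + b') = ev P y b + ev P y b' := by
  unfold ev
  rw [map_add, map_add]

theorem A_ev_zero {L : Type u} [Field L] [Algebra K L] (P : A.Pts L) (y : Fin q × Fin p → L) :
    ev P y (0 : MvPolynomial (Fin q × Fin p) (MvPolynomial (Fin (N + 1)) K)) = 0 := by
  unfold ev
  rw [map_zero, map_zero]

theorem A_ev_C {L : Type u} [Field L] [Algebra K L] (P : A.Pts L) (y : Fin q × Fin p → L)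
    (f : MvPolynomial (Fin (N + 1)) K) :
    ev P y (C f : MvPolynomial (Fin q × Fin p) (MvPolynomial (Fin (N + 1)) K)) =
      aeval (A.x P) f := by
  unfold ev
  rw [map_C, eval_C]
  rfl

theorem A_ev_sum' {L : Type u} [Field L] [Algebra K L] (P : A.Pts L) (y : Fin q × Fin p → L)
    {ι : Type*} (J : Finset ι)
    (b : ι → MvPolynomial (Fin q × Fin p) (MvPolynomial (Fin (N + 1)) K)) :
    ev P y (∑ i ∈ J, b i) = ∑ i ∈ J, ev P y (b i) := by
  unfold ev
  rw [map_sum, map_sum]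

theorem A_ev {L : Type u} [Field L] [Algebra K L] (P : A.Pts L) (ch : Fin q → Fin p')
    (t : Fin q → L) (b : MvPolynomial (Fin q × Fin p) (MvPolynomial (Fin (N + 1)) K)) :
    ev P (B.yt ch P t) b = eval t (sp A P (B.gen ch b)) := by
  induction b using MvPolynomial.induction_on with
  | C c =>
    rw [A_ev_C, A_gen_C]
    unfold sp
    rw [map_C, eval_C]
    rfl
  | add b b' h h' =>
    rw [A_ev_add, h, h', A_gen_add]
    unfold sp
    rw [map_add, map_add]
  | mul_X b i h =>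
    rw [A_ev_mul, h, A_gen_mul, A_gen_X]
    unfold sp
    rw [map_mul, map_mul, map_mul, map_C, map_X, map_mul, eval_C, eval_X]
    congr 1
    unfold ev Bun.yt
    rw [map_X, eval_X, mul_comm]
    rfl

theorem A_on {L : Type u} [Field L] [Algebra K L] {P : A.Pts L} {ch : Fin q → Fin p'}
    (hP : B.In ch P) {y : Fin q × Fin p → L} (hy : B.On P y) :
    ∃ t : Fin q → L, (∀ i, t i ≠ 0) ∧ y = B.yt ch P t := by
  choose b hb using hP
  obtain ⟨t, ht⟩ : ∃ t : Fin q → L,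
      t = fun i => y (i, b i) / aeval (A.x P) (B.ζ i (b i) (ch i)) := ⟨_, rfl⟩
  have h1 : ∀ i c, y (i, c) = t i * aeval (A.x P) (B.ζ i c (ch i)) := by
    intro i c
    have h2 := (hy i).2 c (b i) (ch i)
    rw [ht]
    show y (i, c) = y (i, b i) / aeval (A.x P) (B.ζ i (b i) (ch i)) *
      aeval (A.x P) (B.ζ i c (ch i))
    rw [div_mul_eq_mul_div, eq_div_iff (hb i)]
    exact h2
  refine ⟨t, fun i h0 => ?_, ?_⟩
  · obtain ⟨c, hc⟩ := (hy i).1
    apply hc
    rw [h1, h0, zero_mul]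
  · funext i
    exact h1 i.1 i.2

theorem A_rk {L : Type u} [Field L] [Algebra K L] (P : A.Pts L) (i : Fin q) (b b' : Fin p)
    (c c' : Fin p') : aeval (A.x P) (B.ζ i b c) * aeval (A.x P) (B.ζ i b' c') =
      aeval (A.x P) (B.ζ i b c') * aeval (A.x P) (B.ζ i b' c) := by
  have h1 := A.x_isPt P _ (B.rk i b b' c c')
  rw [map_sub, map_mul, map_mul, sub_eq_zero] at h1
  exact h1

theorem A_on' {L : Type u} [Field L] [Algebra K L] {P : A.Pts L} {ch : Fin q → Fin p'}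
    (hP : B.In ch P) {t : Fin q → L} (ht : ∀ i, t i ≠ 0) : B.On P (B.yt ch P t) := by
  intro i
  obtain ⟨b, hb⟩ := hP i
  refine ⟨⟨b, mul_ne_zero (ht i) hb⟩, ?_⟩
  intro b₁ b₂ c
  show t i * aeval (A.x P) (B.ζ i b₁ (ch i)) * aeval (A.x P) (B.ζ i b₂ c) =
    t i * aeval (A.x P) (B.ζ i b₂ (ch i)) * aeval (A.x P) (B.ζ i b₁ c)
  rw [mul_assoc, A_rk B P i b₁ b₂ (ch i) c]
  ring

theorem A_in {L : Type u} [Field L] [Algebra K L] (P : A.Pts L) : ∃ ch, B.In ch P := by
  choose b c h using fun i => B.ne i L P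
  exact ⟨c, fun i => ⟨b i, h i⟩⟩

theorem A_in_ch {L : Type u} [Field L] [Algebra K L] {P : A.Pts L} {ch : Fin q → Fin p'}
    (hP : B.In ch P) : B.Ch ch := by
  intro i
  obtain ⟨b, hb⟩ := hP i
  exact ⟨b, fun h => hb (A.x_isPt P _ h)⟩

theorem A_gen_in {L : Type u} [Field L] [Algebra K L] {P : A.Pts L} (hP : Gen A P)
    {ch : Fin q → Fin p'} (h : B.Ch ch) : B.In ch P := by
  intro i
  obtain ⟨b, hb⟩ := h i
  exact ⟨b, fun h0 => hb (hP _ _ (B.hom i b (ch i)) h0)⟩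

theorem A_exists_ch : ∃ ch, B.Ch ch := by
  obtain ⟨L, _, _, _, P, _⟩ := EF.T_gen A
  obtain ⟨ch, hch⟩ := A_in B P
  exact ⟨ch, A_in_ch B hch⟩

/-- Two charts: the matrices `ζ i` have rank one. -/
theorem A_charts {D : ℕ} {b : MvPolynomial (Fin q × Fin p) (MvPolynomial (Fin (N + 1)) K)}
    (hb : B.WH D b) (ch ch' : Fin q → Fin p') (c : Fin q → Fin p) (a : Fin q →₀ ℕ)
    {L : Type u} [Field L] [Algebra K L] (P : A.Pts L) :
    aeval (A.x P) (coeff a (B.gen ch b)) * ∏ i, aeval (A.x P) (B.ζ i (c i) (ch' i)) ^ a i =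
      aeval (A.x P) (coeff a (B.gen ch' b)) * ∏ i, aeval (A.x P) (B.ζ i (c i) (ch i)) ^ a i := by
  classical
  rw [A_gen_coeff, A_gen_coeff, map_sum, map_sum, Finset.sum_mul, Finset.sum_mul]
  refine Finset.sum_congr rfl fun μ _ => ?_
  by_cases h : TB.yd μ = a
  · rw [if_pos h, if_pos h, map_mul, map_mul, map_prod, map_prod, mul_assoc, mul_assoc]
    congr 1
    have h1 : ∀ z : Fin q → L, ∏ i, z i ^ a i = ∏ i : Fin q × Fin p, z i.1 ^ μ i := by
      intro z
      rw [Fintype.prod_prod_type]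
      refine Finset.prod_congr rfl fun i _ => ?_
      show z i ^ a i = ∏ c, z i ^ μ (i, c)
      rw [Finset.prod_pow_eq_pow_sum, ← h]
      rfl
    rw [h1, h1, ← Finset.prod_mul_distrib, ← Finset.prod_mul_distrib]
    refine Finset.prod_congr rfl fun i _ => ?_
    rw [map_pow, map_pow, ← mul_pow, ← mul_pow, A_rk B P i.1 i.2 (c i.1) (ch i.1) (ch' i.1)]
  · rw [if_neg h, if_neg h, map_zero, zero_mul, zero_mul]

theorem A_mem {D : ℕ} {b : MvPolynomial (Fin q × Fin p) (MvPolynomial (Fin (N + 1)) K)}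
    (hb : B.WH D b) (ch : Fin q → Fin p') (a : Fin q →₀ ℕ) {L : Type u} [Field L] [Algebra K L]
    {P : A.Pts L} (hP : Gen A P) (h : aeval (A.x P) (coeff a (B.gen ch b)) = 0) :
    coeff a (B.gen ch b) ∈ A.I := by
  by_cases h0 : coeff a (B.gen ch b) = 0
  · rw [h0]
    exact A.I.zero_mem
  · obtain ⟨δ, h1, _⟩ := A_hom B hb a h0
    exact hP _ δ h1 h

theorem A_van {ch : Fin q → Fin p'} (h : B.Ch ch) {D : ℕ}
    {b : MvPolynomial (Fin q × Fin p) (MvPolynomial (Fin (N + 1)) K)} (hb : B.WH D b) :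
    B.Van b ↔ ∀ a, coeff a (B.gen ch b) ∈ A.I := by
  classical
  obtain ⟨L₀, _, _, _, P₀, hP₀⟩ := EF.T_gen A
  constructor
  · intro hv a
    refine A_mem B hb ch a hP₀ ?_
    have h1 : (∏ i : Fin q, (X i : MvPolynomial (Fin q) L₀)) * sp A P₀ (B.gen ch b) = 0 := by
      have : Infinite L₀ := IsAlgClosed.instInfinite
      refine MvPolynomial.funext fun t => ?_
      rw [map_mul, map_prod, map_zero]
      simp only [eval_X]
      by_cases ht : ∀ i, t i ≠ 0
      · have h2 := hv L₀ P₀ _ (A_on' B (A_gen_in B hP₀ h) ht)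
        rw [A_ev] at h2
        rw [h2, mul_zero]
      · push Not at ht
        obtain ⟨i, hi⟩ := ht
        rw [Finset.prod_eq_zero (Finset.mem_univ i) hi, zero_mul]
    have h2 : sp A P₀ (B.gen ch b) = 0 :=
      (mul_eq_zero.1 h1).resolve_left (Finset.prod_ne_zero_iff.2 fun i _ => X_ne_zero i)
    have h3 := congrArg (coeff a) h2
    unfold sp at h3
    rw [coeff_map, coeff_zero] at h3
    exact h3
  · intro ha L _ _ P y hy
    obtain ⟨ch', hch'⟩ := A_in B P
    obtain ⟨t, _, rfl⟩ := A_on B hch' hy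
    rw [A_ev]
    have h1 : sp A P (B.gen ch' b) = 0 := by
      ext a
      unfold sp
      rw [coeff_map, coeff_zero]
      refine A.x_isPt P _ (A_mem B hb ch' a hP₀ ?_)
      choose c hc using A_gen_in B hP₀ h
      have h2 := A_charts B hb ch ch' c a P₀
      rw [A.x_isPt P₀ _ (ha a), zero_mul] at h2
      exact (mul_eq_zero.1 h2.symm).resolve_right
        (Finset.prod_ne_zero_iff.2 fun i _ => pow_ne_zero _ (hc i))
    rw [h1, map_zero]

theorem A_coeff_pt (a : Fin q → ℕ)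
    (b : MvPolynomial (Fin q × Fin p) (MvPolynomial (Fin (N + 1)) K)) (μ : Fin q × Fin p →₀ ℕ) :
    coeff μ (pt a b) = open Classical in if md μ = a then coeff μ b else 0 := by
  classical
  unfold pt
  rw [coeff_sum]
  simp only [coeff_monomial]
  rw [Finset.sum_ite_eq']
  by_cases h1 : md μ = a
  · by_cases h2 : coeff μ b = 0
    · rw [if_pos h1, h2]
      split_ifs <;> rfl
    · rw [if_pos h1, if_pos]
      exact Finset.mem_filter.2 ⟨mem_support_iff.2 h2, h1⟩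
  · rw [if_neg h1, if_neg]
    intro h2
    exact h1 (Finset.mem_filter.1 h2).2

theorem A_WH_pt {D : ℕ} {b : MvPolynomial (Fin q × Fin p) (MvPolynomial (Fin (N + 1)) K)}
    (hb : B.WH D b) (a : Fin q → ℕ) : B.WH D (pt a b) := by
  classical
  intro μ hμ
  rw [A_coeff_pt] at hμ ⊢
  by_cases h : md μ = a
  · rw [if_pos h] at hμ ⊢
    exact hb μ hμ
  · rw [if_neg h] at hμ
    exact absurd rfl hμ

theorem A_md_yd (μ : Fin q × Fin p →₀ ℕ) : fs (md μ) = TB.yd μ := rfl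

theorem A_gen_pt (ch : Fin q → Fin p') (a : Fin q → ℕ)
    (b : MvPolynomial (Fin q × Fin p) (MvPolynomial (Fin (N + 1)) K)) (a' : Fin q →₀ ℕ) :
    coeff a' (B.gen ch (pt a b)) =
      open Classical in if a' = fs a then coeff a' (B.gen ch b) else 0 := by
  classical
  have hsub : (pt a b).support ⊆ b.support := by
    intro μ hμ
    rw [mem_support_iff, A_coeff_pt] at hμ
    rw [mem_support_iff]
    intro h0
    rw [h0, ite_self] at hμ
    exact hμ rfl
  have h1 : coeff a' (B.gen ch (pt a b)) = ∑ μ ∈ b.support,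
      if TB.yd μ = a' then coeff μ (pt a b) * ∏ i, B.ζ i.1 i.2 (ch i.1) ^ μ i else 0 := by
    rw [A_gen_coeff]
    refine Finset.sum_subset hsub fun μ _ hμ => ?_
    rw [notMem_support_iff.1 hμ, zero_mul, ite_self]
  rw [h1]
  by_cases h : a' = fs a
  · rw [if_pos h, A_gen_coeff]
    refine Finset.sum_congr rfl fun μ _ => ?_
    by_cases h2 : TB.yd μ = a'
    · rw [if_pos h2, if_pos h2, A_coeff_pt, if_pos]
      rw [h, ← A_md_yd] at h2
      exact Finsupp.equivFunOnFinite.symm.injective h2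
    · rw [if_neg h2, if_neg h2]
  · rw [if_neg h]
    refine Finset.sum_eq_zero fun μ _ => ?_
    by_cases h2 : TB.yd μ = a'
    · rw [if_pos h2, A_coeff_pt, if_neg, zero_mul]
      intro h3
      apply h
      rw [← h2, ← A_md_yd, h3]
    · rw [if_neg h2]

theorem A_new {ch : Fin q → Fin p'} (h : B.Ch ch) {D : ℕ}
    {g : Fin m → MvPolynomial (Fin q × Fin p) (MvPolynomial (Fin (N + 1)) K)}
    (hg : ∀ k, B.WH D (g k)) (a : Fin q → ℕ) :
    a ∈ B.New g ↔ ∃ k, coeff (fs a) (B.gen ch (g k)) ∉ A.I := by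
  classical
  have h1 : a ∈ B.New g ↔ ∃ k, ¬ B.Van (pt a (g k)) := Iff.rfl
  rw [h1]
  refine exists_congr fun k => ?_
  rw [A_van B h (A_WH_pt B (hg k) a)]
  constructor
  · intro h2 h3
    apply h2
    intro a'
    rw [A_gen_pt]
    by_cases h4 : a' = fs a
    · rw [if_pos h4, h4]
      exact h3
    · rw [if_neg h4]
      exact A.I.zero_mem
  · intro h2 h3
    apply h2
    have h4 := h3 (fs a)
    rw [A_gen_pt, if_pos rfl] at h4
    exact h4

theorem A_pt_zero {a : Fin q → ℕ}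
    {b : MvPolynomial (Fin q × Fin p) (MvPolynomial (Fin (N + 1)) K)}
    (h : a ∉ b.support.image md) : pt a b = 0 := by
  classical
  ext1 μ
  rw [A_coeff_pt, coeff_zero]
  by_cases h1 : md μ = a
  · rw [if_pos h1]
    by_contra h2
    exact h (Finset.mem_image.2 ⟨μ, mem_support_iff.2 h2, h1⟩)
  · rw [if_neg h1]

theorem A_new_fin (g : Fin m → MvPolynomial (Fin q × Fin p) (MvPolynomial (Fin (N + 1)) K)) :
    (B.New g).Finite := by
  classical
  refine (Finset.finite_toSet (Finset.univ.biUnion fun k => (g k).support.image md)).subset ?_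
  rintro a ⟨k, hk⟩
  rw [Finset.mem_coe, Finset.mem_biUnion]
  refine ⟨k, Finset.mem_univ k, ?_⟩
  by_contra h
  apply hk
  rw [A_pt_zero h]
  intro L _ _ P y _
  exact A_ev_zero P y

theorem A_new_ne {D : ℕ} {g : Fin m → MvPolynomial (Fin q × Fin p) (MvPolynomial (Fin (N + 1)) K)}
    (hg : ∀ k, B.WH D (g k)) {k : Fin m} (hk : ¬ B.Van (g k)) : (B.New g).Nonempty := by
  obtain ⟨ch, hch⟩ := A_exists_ch B
  rw [A_van B hch (hg k)] at hk
  push Not at hk
  obtain ⟨a, ha⟩ := hk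
  refine ⟨fun i => a i, (A_new B hch hg _).2 ⟨k, ?_⟩⟩
  have h1 : fs (fun i => a i) = a := by
    ext i
    rfl
  rw [h1]
  exact ha

/-- The value is the sum of the parts in `B.New g`. -/
theorem A_ev_sum {g : Fin m → MvPolynomial (Fin q × Fin p) (MvPolynomial (Fin (N + 1)) K)}
    (k : Fin m) {L : Type u} [Field L] [Algebra K L] {P : A.Pts L} {y : Fin q × Fin p → L}
    (hy : B.On P y) : ev P y (g k) = ∑ a ∈ (A_new_fin B g).toFinset, ev P y (pt a (g k)) := by
  classical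
  have h1 : g k = ∑ a ∈ (g k).support.image md, pt a (g k) := by
    ext1 μ
    rw [coeff_sum]
    simp only [A_coeff_pt]
    rw [Finset.sum_ite_eq]
    by_cases h : coeff μ (g k) = 0
    · rw [h]
      split_ifs <;> rfl
    · rw [if_pos (Finset.mem_image.2 ⟨μ, mem_support_iff.2 h, rfl⟩)]
  have h2 : ev P y (g k) = ∑ a ∈ (g k).support.image md, ev P y (pt a (g k)) := by
    conv_lhs => rw [h1]
    exact A_ev_sum' P y _ _
  rw [h2]
  have h3 : ∑ a ∈ (g k).support.image md, ev P y (pt a (g k)) =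
      ∑ a ∈ (g k).support.image md ∪ (A_new_fin B g).toFinset, ev P y (pt a (g k)) := by
    refine Finset.sum_subset Finset.subset_union_left fun a _ ha => ?_
    rw [A_pt_zero ha, A_ev_zero]
  have h4 : ∑ a ∈ (A_new_fin B g).toFinset, ev P y (pt a (g k)) =
      ∑ a ∈ (g k).support.image md ∪ (A_new_fin B g).toFinset, ev P y (pt a (g k)) := by
    refine Finset.sum_subset Finset.subset_union_right fun a _ ha => ?_
    rw [Set.Finite.mem_toFinset] at ha
    by_contra hc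
    exact ha ⟨k, fun hv => hc (hv L P y hy)⟩
  rw [h3, h4]

theorem A_sup_le {g : Fin m → MvPolynomial (Fin q × Fin p) (MvPolynomial (Fin (N + 1)) K)}
    {a : Fin q → ℕ} (ha : a ∈ B.New g) (τ : Fin q → ℝ) :
    ∑ i, (a i : ℝ) * τ i ≤ B.sup g τ := by
  have : Finite (B.New g) := A_new_fin B g
  exact Finite.le_ciSup_of_le (f := fun a : B.New g => ∑ i, (a.1 i : ℝ) * τ i) ⟨a, ha⟩ le_rfl

theorem A_sup_ex {g : Fin m → MvPolynomial (Fin q × Fin p) (MvPolynomial (Fin (N + 1)) K)}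
    (h : (B.New g).Nonempty) (τ : Fin q → ℝ) :
    ∃ a ∈ B.New g, B.sup g τ = ∑ i, (a i : ℝ) * τ i := by
  have : Finite (B.New g) := A_new_fin B g
  have : Nonempty (B.New g) := h.to_subtype
  obtain ⟨a, ha⟩ := exists_eq_ciSup_of_finite
    (f := fun a : B.New g => ∑ i, (a.1 i : ℝ) * τ i)
  exact ⟨a.1, a.2, ha.symm⟩

theorem A_WH_mul {D D' : ℕ} {b b' : MvPolynomial (Fin q × Fin p) (MvPolynomial (Fin (N + 1)) K)}
    (hb : B.WH D b) (hb' : B.WH D' b') : B.WH (D + D') (b * b') := by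
  obtain ⟨ch, hch⟩ := A_exists_ch B
  exact TB.R1_WH_mul (B.tor ch hch) hb hb'

theorem A_WH_C {D : ℕ} {f : MvPolynomial (Fin (N + 1)) K} (hf : f.IsHomogeneous D) :
    B.WH D (C f : MvPolynomial (Fin q × Fin p) (MvPolynomial (Fin (N + 1)) K)) := by
  obtain ⟨ch, hch⟩ := A_exists_ch B
  exact TB.R1_WH_C (B.tor ch hch) hf

theorem A_WH_one : B.WH 0 (1 : MvPolynomial (Fin q × Fin p) (MvPolynomial (Fin (N + 1)) K)) := by
  rw [← C_1]
  exact A_WH_C B (isHomogeneous_one _ _)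

theorem A_van_mul {D D' : ℕ}
    {b b' : MvPolynomial (Fin q × Fin p) (MvPolynomial (Fin (N + 1)) K)}
    (hb : B.WH D b) (hb' : B.WH D' b') (h : ¬ B.Van b) (h' : ¬ B.Van b') :
    ¬ B.Van (b * b') := by
  classical
  obtain ⟨ch, hch⟩ := A_exists_ch B
  obtain ⟨L₀, _, _, _, P₀, hP₀⟩ := EF.T_gen A
  have key : ∀ {D : ℕ} {b : MvPolynomial (Fin q × Fin p) (MvPolynomial (Fin (N + 1)) K)},
      B.WH D b → ¬ B.Van b → sp A P₀ (B.gen ch b) ≠ 0 := by
    intro D b hb h h0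
    apply h
    rw [A_van B hch hb]
    intro a
    refine A_mem B hb ch a hP₀ ?_
    have h3 := congrArg (coeff a) h0
    unfold sp at h3
    rw [coeff_map, coeff_zero] at h3
    exact h3
  intro hv
  rw [A_van B hch (A_WH_mul B hb hb')] at hv
  apply mul_ne_zero (key hb h) (key hb' h')
  have h1 : sp A P₀ (B.gen ch b) * sp A P₀ (B.gen ch b') = sp A P₀ (B.gen ch (b * b')) := by
    rw [A_gen_mul]
    unfold sp
    rw [map_mul]
  rw [h1]
  ext a
  unfold sp
  rw [coeff_map, coeff_zero]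
  exact A.x_isPt P₀ _ (hv a)

theorem A_van_one :
    ¬ B.Van (1 : MvPolynomial (Fin q × Fin p) (MvPolynomial (Fin (N + 1)) K)) := by
  intro hv
  obtain ⟨ch, hch⟩ := A_exists_ch B
  obtain ⟨L₀, _, _, _, P₀, hP₀⟩ := EF.T_gen A
  have h1 := hv L₀ P₀ _ (A_on' B (A_gen_in B hP₀ hch) (t := fun _ => 1) fun _ => one_ne_zero)
  rw [← C_1, A_ev_C, map_one] at h1
  exact one_ne_zero h1

theorem A_van_C {D : ℕ} {f : MvPolynomial (Fin (N + 1)) K} (hf' : f.IsHomogeneous D)
    (hf : f ∉ A.I) :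
    ¬ B.Van (C f : MvPolynomial (Fin q × Fin p) (MvPolynomial (Fin (N + 1)) K)) := by
  intro hv
  obtain ⟨ch, hch⟩ := A_exists_ch B
  obtain ⟨L₀, _, _, _, P₀, hP₀⟩ := EF.T_gen A
  have h1 := hv L₀ P₀ _ (A_on' B (A_gen_in B hP₀ hch) (t := fun _ => 1) fun _ => one_ne_zero)
  rw [A_ev_C] at h1
  exact hf (hP₀ f D hf' h1)

end

end Pool.Agent.Lib.MP_17a322_nt.SV3
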