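import Pool.Agent.Lib.MP_17a322_nt.SV3.A1
import Pool.Agent.Lib.MP_17a322_nt.TB.N1

/-!
Vojta's inequality over principal torus bundles over `A`: the divisor.
-/

universe u

namespace Pool.Agent.Lib.MP_17a322_nt.SV3

open MvPolynomial Height
open Pool.Agent.Lib.MP_17a322_nt.VA
open Pool.Agent.Lib.MP_17a322_nt.VJ
open Pool.Agent.Lib.MP_17a322_nt.SL
open Pool.Agent.Lib.MP_17a322_nt.SV2 (Box Rw Cf Tm fs sp ps)

section

variable {K : Type u} [Field K] {N q p p' m : ℕ} {A : AV K N} (B : Bun A q p p')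

theorem F1_coeff_pt (a : Fin q → ℕ)
    (b : MvPolynomial (Fin q × Fin p) (MvPolynomial (Fin (N + 1)) K))
    (μ : Fin q × Fin p →₀ ℕ) :
    coeff μ (pt a b) = if md μ = a then coeff μ b else 0 := by
  classical
  unfold pt
  rw [coeff_sum]
  have h1 : ∀ x ∈ b.support.filter fun x => md x = a,
      coeff μ (monomial x (coeff x b)) = if μ = x then coeff μ b else 0 := by
    intro x _
    rw [coeff_monomial]
    by_cases h2 : x = μ
    · rw [if_pos h2, if_pos h2.symm, h2]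
    · rw [if_neg h2, if_neg fun h3 => h2 h3.symm]
  rw [Finset.sum_congr rfl h1, Finset.sum_ite_eq]
  by_cases h2 : md μ = a
  · rw [if_pos h2]
    by_cases h3 : μ ∈ b.support
    · rw [if_pos (Finset.mem_filter.2 ⟨h3, h2⟩)]
    · rw [if_neg fun h4 => h3 (Finset.mem_filter.1 h4).1, notMem_support_iff.1 h3]
  · rw [if_neg h2]
    have h3 : μ ∉ b.support.filter fun x => md x = a := fun h4 => h2 (Finset.mem_filter.1 h4).2
    rw [if_neg h3]

theorem F1_coeff_sum (Δ : Finset (Fin q → ℕ))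
    (b : MvPolynomial (Fin q × Fin p) (MvPolynomial (Fin (N + 1)) K))
    (μ : Fin q × Fin p →₀ ℕ) :
    coeff μ (∑ a ∈ Δ, pt a b) = if md μ ∈ Δ then coeff μ b else 0 := by
  classical
  rw [coeff_sum]
  rw [Finset.sum_congr rfl fun a _ => F1_coeff_pt a b μ, Finset.sum_ite_eq]

theorem F1_md_yd (μ : Fin q × Fin p →₀ ℕ) (a : Fin q → ℕ) : TB.yd μ = fs a ↔ md μ = a := by
  constructor
  · intro h
    funext i
    exact DFunLike.congr_fun h i
  · intro h
    ext i
    exact congrFun h i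

theorem F1_wt (τ : Fin q → ℝ) (μ : Fin q × Fin p →₀ ℕ) :
    TB.wt τ μ = ∑ i, (md μ i : ℝ) * τ i := by
  rw [← TB.wt_yd]
  rfl

/-- The part of `f` with the multidegrees in `New`. -/
noncomputable def f1 (f : MvPolynomial (Fin q × Fin p) (MvPolynomial (Fin (N + 1)) K)) :
    MvPolynomial (Fin q × Fin p) (MvPolynomial (Fin (N + 1)) K) :=
  ∑ a ∈ (A_new_fin B (fun _ : Fin 1 => f)).toFinset, pt a f

theorem F1_coeff (f : MvPolynomial (Fin q × Fin p) (MvPolynomial (Fin (N + 1)) K))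
    (μ : Fin q × Fin p →₀ ℕ) :
    coeff μ (f1 B f) = open Classical in
      if md μ ∈ B.New (fun _ : Fin 1 => f) then coeff μ f else 0 := by
  classical
  unfold f1
  rw [F1_coeff_sum]
  by_cases h : md μ ∈ B.New (fun _ : Fin 1 => f)
  · rw [if_pos h, if_pos ((Set.Finite.mem_toFinset _).2 h)]
  · rw [if_neg h, if_neg fun h1 => h ((Set.Finite.mem_toFinset _).1 h1)]

theorem F1_WH {e : ℕ} {f : MvPolynomial (Fin q × Fin p) (MvPolynomial (Fin (N + 1)) K)}
    (hf : B.WH e f) : B.WH e (f1 B f) := by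
  classical
  intro μ hμ
  have h1 := F1_coeff B f μ
  by_cases h : md μ ∈ B.New (fun _ : Fin 1 => f)
  · rw [if_pos h] at h1
    rw [h1] at hμ ⊢
    exact hf μ hμ
  · rw [if_neg h] at h1
    exact absurd h1 hμ

/-- The multidegrees in `New` occur. -/
theorem F1_new {f : MvPolynomial (Fin q × Fin p) (MvPolynomial (Fin (N + 1)) K)}
    {a : Fin q → ℕ} (ha : a ∈ B.New (fun _ : Fin 1 => f)) :
    ∃ μ, md μ = a ∧ coeff μ f ≠ 0 := by
  classical
  by_contra hcon
  push Not at hcon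
  obtain ⟨k, hk⟩ := ha
  have h1 : pt a f = 0 := by
    ext1 μ
    rw [F1_coeff_pt, coeff_zero]
    split_ifs with h
    · exact hcon μ h
    · rfl
  refine hk fun L _ _ P y _ => ?_
  rw [h1]
  unfold ev
  rw [map_zero, map_zero]

theorem F1_maxWt (f : MvPolynomial (Fin q × Fin p) (MvPolynomial (Fin (N + 1)) K))
    (τ : Fin q → ℝ) :
    TB.maxWt τ (fun _ : Fin 1 => f1 B f) = B.sup (fun _ : Fin 1 => f) τ := by
  classical
  unfold TB.maxWt Bun.sup
  have h1 : ∀ μ, μ ∈ TB.supp (fun _ : Fin 1 => f1 B f) ↔ coeff μ (f1 B f) ≠ 0 := by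
    intro μ
    unfold TB.supp
    rw [Finset.mem_biUnion]
    constructor
    · rintro ⟨_, _, h⟩
      exact mem_support_iff.1 h
    · intro h
      exact ⟨0, Finset.mem_univ _, mem_support_iff.2 h⟩
  have h2 : Set.range (fun m : TB.supp (fun _ : Fin 1 => f1 B f) =>
        TB.wt τ (m : Fin q × Fin p →₀ ℕ)) =
      Set.range (fun a : B.New (fun _ : Fin 1 => f) => ∑ i, (a.1 i : ℝ) * τ i) := by
    ext x
    constructor
    · rintro ⟨⟨μ, hμ⟩, rfl⟩
      have h3 := (h1 μ).1 hμ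
      rw [F1_coeff] at h3
      by_cases h : md μ ∈ B.New (fun _ : Fin 1 => f)
      · exact ⟨⟨md μ, h⟩, (F1_wt τ μ).symm⟩
      · rw [if_neg h] at h3
        exact absurd rfl h3
    · rintro ⟨⟨a, ha⟩, rfl⟩
      obtain ⟨μ, hμ, hμ0⟩ := F1_new B ha
      have h3 : coeff μ (f1 B f) ≠ 0 := by
        rw [F1_coeff, if_pos (by rw [hμ]; exact ha)]
        exact hμ0
      refine ⟨⟨μ, (h1 μ).2 h3⟩, ?_⟩
      show TB.wt τ μ = _
      rw [F1_wt, hμ]
  unfold iSup
  rw [h2]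

/-- The polynomial at a point. -/
theorem F1_sp (ch : Fin q → Fin p') (h : B.Ch ch) {L : Type u} [Field L] [Algebra K L]
    (P : A.Pts L) (b : MvPolynomial (Fin q × Fin p) (MvPolynomial (Fin (N + 1)) K)) :
    (B.tor ch h).sp P b = sp A P (B.gen ch b) := by
  classical
  rw [TB.sp_eq]
  unfold SV2.sp Bun.gen
  rw [TB.spR_eq, TB.spR_eq, map_sum]
  refine Finset.sum_congr rfl fun μ _ => ?_
  rw [map_monomial, RingHom.id_apply]
  have h1 : (aeval (A.x P) : MvPolynomial (Fin (N + 1)) K →ₐ[K] L).toRingHom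
      (coeff μ b * ∏ i : Fin q × Fin p, B.ζ i.1 i.2 (ch i.1) ^ μ i) =
      (aeval (A.x P) : MvPolynomial (Fin (N + 1)) K →ₐ[K] L).toRingHom (coeff μ b) *
        ∏ i : Fin q × Fin p, aeval (A.x P) (B.ζ i.1 i.2 (ch i.1)) ^ μ i := by
    rw [map_mul, map_prod]
    refine congrArg _ (Finset.prod_congr rfl fun i _ => ?_)
    exact map_pow _ _ _
  rw [h1]
  rfl

/-- The coefficients of the part in `New`. -/
theorem F1_gen (ch : Fin q → Fin p')
    (f : MvPolynomial (Fin q × Fin p) (MvPolynomial (Fin (N + 1)) K)) {a : Fin q → ℕ}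
    (ha : a ∈ B.New (fun _ : Fin 1 => f)) :
    coeff (fs a) (B.gen ch (f1 B f)) = coeff (fs a) (B.gen ch f) := by
  classical
  rw [A_gen_coeff, A_gen_coeff]
  have h1 : (f1 B f).support ⊆ f.support := by
    intro μ hμ
    rw [mem_support_iff, F1_coeff] at hμ
    rw [mem_support_iff]
    intro h0
    rw [h0, ite_self] at hμ
    exact hμ rfl
  rw [Finset.sum_subset h1 fun μ _ hμ => by
    rw [notMem_support_iff.1 hμ, zero_mul, ite_self]]
  refine Finset.sum_congr rfl fun μ _ => ?_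
  by_cases h2 : TB.yd μ = fs a
  · rw [if_pos h2, if_pos h2, F1_coeff, if_pos]
    rw [(F1_md_yd μ a).1 h2]
    exact ha
  · rw [if_neg h2, if_neg h2]

/-- The part in `New` does not vanish on any stratum of the boundary. -/
theorem F1_NZ {ch : Fin q → Fin p'} (h : B.Ch ch) {e : ℕ}
    {f : MvPolynomial (Fin q × Fin p) (MvPolynomial (Fin (N + 1)) K)} (hf : B.WH e f)
    (hf0 : ¬ B.Van f) : (B.tor ch h).NZ (f1 B f) := by
  classical
  intro τ L _ _ P hP h0
  rw [F1_maxWt] at h0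
  obtain ⟨a, ha, hs⟩ := A_sup_ex B (A_new_ne B (g := fun _ : Fin 1 => f) (fun _ => hf)
    (k := 0) hf0) τ
  rw [hs, TB.sp_eq, TB.spR_partWt] at h0
  have h1 : SG.wt τ (fs a) = ∑ i, (a i : ℝ) * τ i := rfl
  have h2 := congrArg (coeff (fs a)) h0
  rw [SG.coeff_partWt_eq h1, ← TB.sp_eq, F1_sp, coeff_zero] at h2
  unfold SV2.sp at h2
  rw [coeff_map, F1_gen B ch f ha] at h2
  obtain ⟨k, hk⟩ := (A_new B h (g := fun _ : Fin 1 => f) (fun _ => hf) a).1 ha
  have h3 : coeff (fs a) (B.gen ch f) ≠ 0 := fun h4 => hk (by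
    show coeff (fs a) (B.gen ch f) ∈ A.I
    rw [h4]
    exact A.I.zero_mem)
  obtain ⟨δ, hδ, -⟩ := A_hom B hf (fs a) h3
  exact hk (hP _ δ hδ h2)

theorem F1_ev (f : MvPolynomial (Fin q × Fin p) (MvPolynomial (Fin (N + 1)) K))
    {L : Type u} [Field L] [Algebra K L] {P : A.Pts L} {y : Fin q × Fin p → L}
    (hy : B.On P y) : ev P y (f1 B f) = ev P y f := by
  have h1 := A_ev_sum B (g := fun _ : Fin 1 => f) 0 hy
  rw [h1]
  unfold f1 ev
  rw [map_sum, map_sum]

/-- Points of the bundle in a chart. -/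
theorem F1_on {ch : Fin q → Fin p'} (h : B.Ch ch) {L : Type u} [Field L] [Algebra K L]
    {P : A.Pts L} (hP : B.In ch P) {y : Fin q × Fin p → L} (hy : B.On P y) :
    (B.tor ch h).On P y := by
  intro i
  refine ⟨(hy i).1, ?_⟩
  obtain ⟨t, -, ht⟩ := A_on B hP hy
  refine ⟨t i, fun c => ?_⟩
  rw [ht]
  rfl

/-- The local heights. -/
theorem F1_lam {ch : Fin q → Fin p'} (h : B.Ch ch) {L : Type u} [Field L] [Algebra K L]
    (v : AbsoluteValue L ℝ) (e : ℕ)
    (f : MvPolynomial (Fin q × Fin p) (MvPolynomial (Fin (N + 1)) K)) {P : A.Pts L}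
    {y : Fin q × Fin p → L} (hy : B.On P y) :
    (B.tor ch h).lam v e (fun _ : Fin 1 => f1 B f) P y (fun _ => 1) =
      B.loc v e (fun _ : Fin 1 => f) P y := by
  unfold TB.Tor.lam Bun.loc
  have h1 : (B.tor ch h).tau v P y = B.tau v P y := rfl
  have h2 : TB.ev P y (f1 B f) = ev P y f := F1_ev B f hy
  rw [h1, F1_maxWt]
  rw [Fin.sum_univ_one, h2, mul_one, ciSup_const, ciSup_const, map_one, Real.log_one, zero_add]

/-! ### The exceptional polynomial -/

/-- The polynomial at `X = 1`. -/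
noncomputable def F1ex (F : MvPolynomial (Fin (N + 1) ⊕ (Fin q × Fin p) ⊕ Fin 1) K) :
    MvPolynomial (Fin q × Fin p) (MvPolynomial (Fin (N + 1)) K) :=
  aeval (Sum.elim (fun i => C (X i)) (Sum.elim (fun z => X z) fun _ => 1)) F

theorem F1ex_ev (F : MvPolynomial (Fin (N + 1) ⊕ (Fin q × Fin p) ⊕ Fin 1) K)
    {L : Type u} [Field L] [Algebra K L] (P : A.Pts L) (y : Fin q × Fin p → L) :
    ev P y (F1ex F) = aeval (Sum.elim (A.x P) (Sum.elim y fun _ => 1)) F := by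
  have h1 : ((eval y).comp (MvPolynomial.map
      (aeval (A.x P) : MvPolynomial (Fin (N + 1)) K →ₐ[K] L).toRingHom)).comp
      (aeval (Sum.elim (fun i => C (X i)) (Sum.elim (fun z => X z) fun _ => 1)) :
        MvPolynomial (Fin (N + 1) ⊕ (Fin q × Fin p) ⊕ Fin 1) K →ₐ[K]
          MvPolynomial (Fin q × Fin p) (MvPolynomial (Fin (N + 1)) K)).toRingHom =
      (aeval (Sum.elim (A.x P) (Sum.elim y fun _ => 1)) :
        MvPolynomial (Fin (N + 1) ⊕ (Fin q × Fin p) ⊕ Fin 1) K →ₐ[K] L).toRingHom := by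
    refine ringHom_ext (fun r => ?_) fun i => ?_
    · show eval y (MvPolynomial.map _ (aeval _ (C r))) = aeval _ (C r)
      rw [aeval_C, aeval_C, MvPolynomial.algebraMap_apply, MvPolynomial.algebraMap_eq, map_C,
        eval_C]
      show aeval (A.x P) (C r) = _
      rw [aeval_C]
    · show eval y (MvPolynomial.map _ (aeval _ (X i))) = aeval _ (X i)
      rw [aeval_X, aeval_X]
      rcases i with i | i | i
      · simp only [Sum.elim_inl, map_C, eval_C]
        show aeval (A.x P) (X i) = _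
        rw [aeval_X]
      · simp only [Sum.elim_inl, Sum.elim_inr, map_X, eval_X]
      · simp only [Sum.elim_inr, map_one]
  exact RingHom.congr_fun h1 F

theorem F1ex_sp (F : MvPolynomial (Fin (N + 1) ⊕ (Fin q × Fin p) ⊕ Fin 1) K)
    {ch : Fin q → Fin p'} (h : B.Ch ch) {L : Type u} [Field L] [Algebra K L] (P : A.Pts L) :
    (B.tor ch h).sp P (F1ex F) =
      eval (fun _ : Fin 1 => (1 : MvPolynomial (Fin q) L)) (aeval (Sum.elim
        (fun i => (C (C (A.x P i)) : MvPolynomial (Fin 1) (MvPolynomial (Fin q) L)))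
        (Sum.elim (fun i => C (C (aeval (A.x P) ((B.tor ch h).η i.1 i.2)) * X i.1)) X)) F) := by
  rw [TB.sp_eq]
  have h1 : (TB.spR (aeval (A.x P) : MvPolynomial (Fin (N + 1)) K →ₐ[K] L).toRingHom
      (fun i => aeval (A.x P) ((B.tor ch h).η i.1 i.2))).comp
      (aeval (Sum.elim (fun i => C (X i)) (Sum.elim (fun z => X z) fun _ => 1)) :
        MvPolynomial (Fin (N + 1) ⊕ (Fin q × Fin p) ⊕ Fin 1) K →ₐ[K]
          MvPolynomial (Fin q × Fin p) (MvPolynomial (Fin (N + 1)) K)).toRingHom =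
      (eval (fun _ : Fin 1 => (1 : MvPolynomial (Fin q) L))).comp (aeval (Sum.elim
        (fun i => (C (C (A.x P i)) : MvPolynomial (Fin 1) (MvPolynomial (Fin q) L)))
        (Sum.elim (fun i => C (C (aeval (A.x P) ((B.tor ch h).η i.1 i.2)) * X i.1)) X)) :
          MvPolynomial (Fin (N + 1) ⊕ (Fin q × Fin p) ⊕ Fin 1) K →ₐ[K]
            MvPolynomial (Fin 1) (MvPolynomial (Fin q) L)).toRingHom := by
    refine ringHom_ext (fun r => ?_) fun i => ?_
    · show TB.spR _ _ (aeval _ (C r)) = eval _ (aeval _ (C r))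
      rw [aeval_C, aeval_C, MvPolynomial.algebraMap_apply, MvPolynomial.algebraMap_eq,
        MvPolynomial.algebraMap_apply, eval_C, MvPolynomial.algebraMap_apply]
      unfold TB.spR
      rw [coe_eval₂Hom, eval₂_C, RingHom.comp_apply]
      show C (aeval (A.x P) (C r)) = _
      rw [aeval_C]
    · show TB.spR _ _ (aeval _ (X i)) = eval _ (aeval _ (X i))
      rw [aeval_X, aeval_X]
      unfold TB.spR
      rw [coe_eval₂Hom]
      rcases i with i | i | i
      · simp only [Sum.elim_inl, eval₂_C, eval_C]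
        show C (aeval (A.x P) (X i)) = _
        rw [aeval_X]
      · simp only [Sum.elim_inl, Sum.elim_inr, eval₂_X, eval_C]
      · simp only [Sum.elim_inr, eval₂_one, eval_X]
  exact RingHom.congr_fun h1 F

/-- The exponent of the coordinates of the bundle. -/
noncomputable def F1m (m : Fin (N + 1) ⊕ (Fin q × Fin p) ⊕ Fin 1 →₀ ℕ) :
    Fin q × Fin p →₀ ℕ :=
  Finsupp.equivFunOnFinite.symm fun z => m (Sum.inr (Sum.inl z))

theorem F1ex_mon (m : Fin (N + 1) ⊕ (Fin q × Fin p) ⊕ Fin 1 →₀ ℕ) (c : K) :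
    aeval (Sum.elim (fun i => C (X i)) (Sum.elim (fun z => X z) fun _ => 1))
      (monomial m c) = (monomial (F1m m) (C c * ∏ i, X i ^ m (Sum.inl i)) :
        MvPolynomial (Fin q × Fin p) (MvPolynomial (Fin (N + 1)) K)) := by
  rw [aeval_monomial, Finsupp.prod_fintype _ _ fun i => pow_zero _, Fintype.prod_sum_type,
    Fintype.prod_sum_type]
  simp only [Sum.elim_inl, Sum.elim_inr, one_pow, Finset.prod_const_one, mul_one]
  rw [MvPolynomial.algebraMap_apply, MvPolynomial.algebraMap_eq]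
  have h1 : ∏ i, (C (X i) : MvPolynomial (Fin q × Fin p) (MvPolynomial (Fin (N + 1)) K)) ^
      m (Sum.inl i) = C (∏ i, X i ^ m (Sum.inl i)) := by
    rw [map_prod]
    exact Finset.prod_congr rfl fun i _ => (map_pow _ _ _).symm
  have h2 : ∏ z, (X z : MvPolynomial (Fin q × Fin p) (MvPolynomial (Fin (N + 1)) K)) ^
      m (Sum.inr (Sum.inl z)) = monomial (F1m m) 1 := by
    rw [monomial_eq, C_1, one_mul, Finsupp.prod_fintype _ _ fun i => pow_zero _]
    rfl
  rw [h1, h2, ← mul_assoc, ← C_mul, C_mul_monomial, mul_one]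

theorem F1ex_WH {F : MvPolynomial (Fin (N + 1) ⊕ (Fin q × Fin p) ⊕ Fin 1) K} {a : ℕ}
    (hF : ∀ m ∈ F.support,
      ∑ i, m (Sum.inl i) + ∑ i : Fin q × Fin p, B.k i.1 * m (Sum.inr (Sum.inl i)) = a) :
    B.WH a (F1ex F) := by
  classical
  have h1 : F1ex F = ∑ m ∈ F.support,
      monomial (F1m m) (C (coeff m F) * ∏ i, X i ^ m (Sum.inl i)) := by
    unfold F1ex
    conv_lhs => rw [F.as_sum]
    rw [map_sum]
    exact Finset.sum_congr rfl fun m _ => F1ex_mon m _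
  intro μ hμ
  have h2 : coeff μ (F1ex F) = ∑ m ∈ F.support,
      if F1m m = μ then C (coeff m F) * ∏ i, X i ^ m (Sum.inl i) else 0 := by
    rw [h1, coeff_sum]
    exact Finset.sum_congr rfl fun m _ => coeff_monomial _ _ _
  have h3 : ∀ m ∈ F.support, F1m m = μ →
      ∑ i, m (Sum.inl i) + ∑ i, B.k i.1 * μ i = a := by
    intro m hm hmμ
    rw [← hF m hm, ← hmμ]
    rfl
  have h4 := hμ
  rw [h2] at h4
  obtain ⟨m₀, hm₀, hm₀'⟩ := Finset.exists_ne_zero_of_sum_ne_zero h4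
  have h5 : F1m m₀ = μ := by
    by_contra h6
    rw [if_neg h6] at hm₀'
    exact hm₀' rfl
  refine ⟨∑ i, m₀ (Sum.inl i), ?_, h3 m₀ hm₀ h5⟩
  rw [h2]
  refine IsHomogeneous.sum _ _ _ fun m hm => ?_
  split_ifs with h6
  · have h7 : ∑ i, m₀ (Sum.inl i) = 0 + ∑ i, m (Sum.inl i) := by
      have h8 := h3 m hm h6
      have h9 := h3 m₀ hm₀ h5
      omega
    rw [h7]
    refine (isHomogeneous_C _ _).mul (IsHomogeneous.prod _ _ _ fun i _ => ?_)
    have h8 := (isHomogeneous_X K i).pow (m (Sum.inl i))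
    rw [one_mul] at h8
    exact h8
  · exact isHomogeneous_zero _ _ _

/-- The exceptional polynomial does not vanish on the bundle. -/
theorem F1ex_van {ch : Fin q → Fin p'} (h : B.Ch ch)
    (G : Matrix (Fin 0) (Fin 1) (MvPolynomial (Fin (N + 1)) K))
    {F : MvPolynomial (Fin (N + 1) ⊕ (Fin q × Fin p) ⊕ Fin 1) K}
    (hF : (B.tor ch h).Exc G F) : (∃ a, B.WH a (F1ex F)) ∧ ¬ B.Van (F1ex F) := by
  classical
  obtain ⟨⟨a, b, hab⟩, hF⟩ := hF
  have hw : B.WH a (F1ex F) := F1ex_WH B fun m hm => (hab m hm).1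
  refine ⟨⟨a, hw⟩, fun hv => ?_⟩
  obtain ⟨L, _, _, _, P, hP⟩ := EF.T_gen A
  obtain ⟨c, m, z, hc, hz, hFe⟩ := hF L P hP
  have h1 := F1ex_sp B F h P
  rw [hFe, F1_sp, map_mul, eval_C, map_prod] at h1
  have h2 : sp A P (B.gen ch (F1ex F)) = 0 := by
    unfold SV2.sp
    ext a
    rw [coeff_map, coeff_zero]
    exact A.x_isPt P _ ((A_van B h hw).1 hv a)
  rw [h2] at h1
  have h3 := (mul_eq_zero.1 h1.symm).resolve_left hc
  obtain ⟨k, -, hk⟩ := Finset.prod_eq_zero_iff.1 h3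
  obtain ⟨w, -, hw⟩ := hz k
  rw [Fin.sum_univ_one] at hk hw
  rw [map_mul, eval_C, eval_X, mul_one] at hk
  rw [hk, zero_mul] at hw
  exact hw rfl

end

section

variable {K : Type u} [Field K] [NumberField K] {N q p p' m : ℕ} {A : AV K N}
  (B : Bun A q p p')

theorem F_part (Γ : AddSubgroup (A.Pts K)) (hΓ : Γ.FG) {e : ℕ}
    {f : MvPolynomial (Fin q × Fin p) (MvPolynomial (Fin (N + 1)) K)} (hf : B.WH e f)
    (hf0 : ¬ B.Van f) (S : Finset (NumberField.FinitePlace K)) (ε : ℝ) (hε : 0 < ε) :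
    ∃ (C : ℝ) (G : MvPolynomial (Fin q × Fin p) (MvPolynomial (Fin (N + 1)) K)) (E : ℕ),
      B.WH E G ∧ ¬ B.Van G ∧ ∀ P ∈ Γ, ∀ y, B.On P y → ev P y G ≠ 0 →
        ev P y f ≠ 0 ∧
        ps S (fun v => B.loc v e (fun _ : Fin 1 => f) P y) ≤
          ε * (logHeight (A.x P) + ∑ i, B.ht P y i) + C * (1 + B.NS S P y) := by
  classical
  obtain ⟨ch, h⟩ := A_exists_ch B
  obtain ⟨G₀, -⟩ : ∃ G : Matrix (Fin 0) (Fin 1) (MvPolynomial (Fin (N + 1)) K),
      G = fun i _ => i.elim0 := ⟨_, rfl⟩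
  obtain ⟨C₀, F, hF, h1⟩ := TB.N_main (B.tor ch h) Γ hΓ G₀ (f1 B f) (F1_WH B hf)
    (F1_NZ B h hf hf0) S ε hε
  obtain ⟨⟨a, hFw⟩, hFv⟩ := F1ex_van B h G₀ hF
  have h' : ∀ i, ∃ b, B.ζ i b (ch i) ∉ A.I := h
  choose b hb using h'
  obtain ⟨H, hH⟩ : ∃ H : MvPolynomial (Fin (N + 1)) K, H = ∏ i, B.ζ i (b i) (ch i) := ⟨_, rfl⟩
  have hHh : H.IsHomogeneous (∑ i, B.e i) := by
    rw [hH]
    exact IsHomogeneous.prod _ _ _ fun i _ => B.hom i _ _
  have hHI : H ∉ A.I := by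
    intro hI
    obtain ⟨L, _, _, _, P, hP⟩ := EF.T_gen A
    have h2 := A.x_isPt P _ hI
    rw [hH, map_prod] at h2
    obtain ⟨i, -, hi⟩ := Finset.prod_eq_zero_iff.1 h2
    exact hb i (hP _ _ (B.hom i _ _) hi)
  refine ⟨C₀, F1ex F * C H, a + ∑ i, B.e i, A_WH_mul B hFw (A_WH_C B hHh),
    A_van_mul B hFw (A_WH_C B hHh) hFv (A_van_C B hHh hHI), ?_⟩
  intro P hP y hy hG
  rw [A_ev_mul, A_ev_C] at hG
  have h2 : ev P y (F1ex F) ≠ 0 := left_ne_zero_of_mul hG
  have h3 : B.In ch P := by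
    intro i
    refine ⟨b i, fun h4 => right_ne_zero_of_mul hG ?_⟩
    rw [hH, map_prod]
    exact Finset.prod_eq_zero (Finset.mem_univ i) h4
  rw [F1ex_ev] at h2
  obtain ⟨h4, h5⟩ := h1 P hP y (F1_on B h h3 hy) (fun _ => 1) h2
  have h6 : TB.ev P y (f1 B f) = ev P y f := F1_ev B f hy
  refine ⟨h6 ▸ h4, ?_⟩
  simp only [F1_lam B h _ e f hy] at h5
  exact h5

end

end Pool.Agent.Lib.MP_17a322_nt.SV3
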