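import Pool.Agent.Lib.MP_17a322_nt.SV3.A1
import Pool.Agent.Lib.MP_17a322_nt.VA.Z3

/-!
If the coefficients of the `g k` vanish at a point of `A`, then the point has codimension at least
two.
-/

universe u

namespace Pool.Agent.Lib.MP_17a322_nt.SV3

open MvPolynomial Height
open Pool.Agent.Lib.MP_17a322_nt.VA
open Pool.Agent.Lib.MP_17a322_nt.VJ
open Pool.Agent.Lib.MP_17a322_nt.SL
open Pool.Agent.Lib.MP_17a322_nt.SV2 (Box Rw Cf Tm fs sp ps)

section

variable {K : Type u} [Field K] {N q p p' m : ℕ} {A : AV K N} (B : Bun A q p p')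

/-- Forms at the image of a point. -/
theorem C1_img {F E : Type u} [Field F] [Algebra K F] [Field E] [Algebra K E] {φ : F →ₐ[K] E}
    {P : A.Pts F} {P' : A.Pts E} {c : E} (h : ∀ i, φ (A.x P i) = c * A.x P' i)
    {f : MvPolynomial (Fin (N + 1)) K} {d : ℕ} (hf : f.IsHomogeneous d) :
    φ (aeval (A.x P) f) = c ^ d * aeval (A.x P') f := by
  rw [← aeval_mul_homog hf c (A.x P'), ← AlgHom.comp_apply, MvPolynomial.comp_aeval]
  congr 2
  funext i
  exact h i

/-- A point over `P` with generic coordinates in the fibre. -/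
theorem C1_td {F : Type u} [Field F] [Algebra K F] {P : A.Pts F} {ch : Fin q → Fin p'}
    (hP : B.In ch P) :
    ∃ (E : Type u) (_ : Field E) (_ : Algebra K E) (φ : F →ₐ[K] E) (P' : A.Pts E)
      (t : Fin q → E), A.Img φ P P' ∧ (∀ i, t i ≠ 0) ∧
        tdeg K (A.x P) + q ≤ B.td P' (B.yt ch P' t) := by
  obtain ⟨E, i1, -, i2, τ, hτ⟩ := Z_closed_ext F (ULift.{u} (Fin q))
  let i3 : Algebra K E := ((algebraMap F E).comp (algebraMap K F)).toAlgebra
  have i4 : IsScalarTower K F E := IsScalarTower.of_algebraMap_eq fun _ => rfl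
  obtain ⟨P', c, hc, hc'⟩ := Z_exists_img A (IsScalarTower.toAlgHom K F E) P
  choose b hb using hP
  obtain ⟨j, hj⟩ : ∃ j, A.x P j ≠ 0 := by
    by_contra hcon
    push Not at hcon
    exact Z_x_ne A P (funext hcon)
  obtain ⟨T, hT, -, hT'⟩ := Z_exists_basis (K := K) (A.x P)
  have hφ : Function.Injective (algebraMap F E) := (algebraMap F E).injective
  have hj' : A.x P' j ≠ 0 := by
    intro h0
    have h1 := hc' j
    rw [h0, mul_zero] at h1
    exact hj (hφ (h1.trans (map_zero _).symm))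
  have hb' : ∀ i, aeval (A.x P') (B.ζ i (b i) (ch i)) ≠ 0 := by
    intro i h0
    have h1 := C1_img hc' (B.hom i (b i) (ch i))
    rw [h0, mul_zero] at h1
    exact hb i (hφ (h1.trans (map_zero _).symm))
  have hτ0 : ∀ i, τ i ≠ 0 := fun i => hτ.ne_zero i
  obtain ⟨t, ht⟩ : ∃ t : Fin q → E, t = fun i => τ (ULift.up i) * A.x P' j ^ B.k i /
      aeval (A.x P') (B.ζ i (b i) (ch i)) := ⟨_, rfl⟩
  refine ⟨E, i1, i3, IsScalarTower.toAlgHom K F E, P', t, ⟨c, hc, hc'⟩, ?_, ?_⟩
  · intro i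
    rw [ht]
    exact div_ne_zero (mul_ne_zero (hτ0 _) (pow_ne_zero _ hj')) (hb' i)
  obtain ⟨U, hU⟩ : ∃ U : Set E, U =
      ((Set.range fun z : Fin (N + 1) × Fin (N + 1) => A.x P' z.1 / A.x P' z.2) ∪
        Set.range fun z : (Fin q × Fin p) × Fin (N + 1) =>
          B.yt ch P' t z.1 / A.x P' z.2 ^ B.k z.1.1) := ⟨_, rfl⟩
  have h0 : B.td P' (B.yt ch P' t) = Algebra.trdeg K (IntermediateField.adjoin K U) := by
    rw [hU]
    rfl
  have h1 : AlgebraicIndependent K
      (Sum.elim τ (algebraMap F E ∘ fun z : T => rt (A.x P) z)) :=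
    AlgebraicIndependent.sumElim_comp hT hτ
  have h2 : ∀ z, (Sum.elim τ (algebraMap F E ∘ fun z : T => rt (A.x P) z)) z ∈
      IntermediateField.adjoin K U := by
    intro z
    apply IntermediateField.subset_adjoin
    rw [hU]
    rcases z with i | z
    · right
      refine ⟨((i.down, b i.down), j), ?_⟩
      show t i.down * aeval (A.x P') (B.ζ i.down (b i.down) (ch i.down)) /
        A.x P' j ^ B.k i.down = τ i
      rw [ht]
      show τ i * A.x P' j ^ B.k i.down / aeval (A.x P') (B.ζ i.down (b i.down) (ch i.down)) *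
        aeval (A.x P') (B.ζ i.down (b i.down) (ch i.down)) / A.x P' j ^ B.k i.down = τ i
      rw [div_mul_cancel₀ _ (hb' _), mul_div_cancel_right₀ _ (pow_ne_zero _ hj')]
    · left
      refine ⟨z.1, ?_⟩
      show A.x P' z.1.1 / A.x P' z.1.2 = algebraMap F E (A.x P z.1.1 / A.x P z.1.2)
      have h3 : algebraMap F E (A.x P z.1.1) = c * A.x P' z.1.1 := hc' _
      have h4 : algebraMap F E (A.x P z.1.2) = c * A.x P' z.1.2 := hc' _
      rw [map_div₀, h3, h4, mul_div_mul_left _ _ hc]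
  have h3 : AlgebraicIndependent K fun z => (⟨_, h2 z⟩ : IntermediateField.adjoin K U) :=
    AlgebraicIndependent.of_comp (IntermediateField.val _) h1
  have h4 := h3.lift_cardinalMk_le_trdeg
  rw [h0, hT']
  have h5 : (Nat.card T : Cardinal.{u}) + q =
      Cardinal.lift.{u} (Cardinal.mk (ULift.{u} (Fin q) ⊕ T)) := by
    rw [← Nat.cast_card (α := ULift.{u} (Fin q) ⊕ T), Cardinal.lift_natCast, Nat.card_sum,
      Nat.card_ulift, Nat.card_fin, add_comm (q : ℕ), Nat.cast_add]
  rw [h5]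
  refine h4.trans ?_
  rw [Cardinal.lift_id]

/-- If the coefficients vanish at `P`, then `P` has codimension at least two. -/
theorem C_coef {D : ℕ} {g : Fin m → MvPolynomial (Fin q × Fin p) (MvPolynomial (Fin (N + 1)) K)}
    (hg : ∀ k, B.WH D (g k)) (hY : B.CodTwo g) {F : Type u} [Field F] [Algebra K F]
    {P : A.Pts F} {ch : Fin q → Fin p'} (hP : B.In ch P)
    (h : ∀ k, sp A P (B.gen ch (g k)) = 0) :
    ∃ (F' : Type u) (_ : Field F') (_ : Algebra K F') (Q : A.Pts F'),
      tdeg K (A.x P) + 2 ≤ tdeg K (A.x Q) := by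
  obtain ⟨E, _, _, φ, P', t, ⟨c, hc, hc'⟩, ht, htd⟩ := C1_td B hP
  have hP' : B.In ch P' := by
    intro i
    obtain ⟨b, hb⟩ := hP i
    refine ⟨b, fun h0 => hb ?_⟩
    have h1 := C1_img hc' (B.hom i b (ch i))
    rw [h0, mul_zero] at h1
    exact φ.injective (h1.trans (map_zero _).symm)
  obtain ⟨F', i1, i2, Q, hQ⟩ := hY E P' (B.yt ch P' t) (A_on' B hP' ht) (by
    intro k
    rw [A_ev]
    have h1 : sp A P' (B.gen ch (g k)) = 0 := by
      ext a
      unfold SV2.sp
      rw [coeff_map, coeff_zero]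
      show aeval (A.x P') (coeff a (B.gen ch (g k))) = 0
      by_cases ha : coeff a (B.gen ch (g k)) = 0
      · rw [ha, map_zero]
      obtain ⟨δ, hδ, -⟩ := A_hom B (hg k) a ha
      have h2 := C1_img hc' hδ
      have h3 : aeval (A.x P) (coeff a (B.gen ch (g k))) = 0 := by
        have h4 := congrArg (coeff a) (h k)
        unfold SV2.sp at h4
        rw [coeff_map, coeff_zero] at h4
        exact h4
      rw [h3, map_zero] at h2
      exact (mul_eq_zero.1 h2.symm).resolve_left (pow_ne_zero _ hc)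
    rw [h1, map_zero])
  refine ⟨F', i1, i2, Q, ?_⟩
  obtain ⟨T, -, -, hT⟩ := Z_exists_basis (K := K) (A.x P)
  obtain ⟨T', -, -, hT'⟩ := Z_exists_basis (K := K) (A.x Q)
  have h5 : tdeg K (A.x P) + q + 2 ≤ tdeg K (A.x Q) + q :=
    (add_le_add htd (le_refl _)).trans hQ
  rw [hT, hT'] at h5 ⊢
  have h6 : Nat.card T + q + 2 ≤ Nat.card T' + q := by exact_mod_cast h5
  have h7 : Nat.card T + 2 ≤ Nat.card T' := by omega
  exact_mod_cast h7

end

end Pool.Agent.Lib.MP_17a322_nt.SV3
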