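import Pool.Agent.Lib.MP_17a322_nt.SV3.A1
import Pool.Agent.Lib.MP_17a322_nt.SV2.CL
import Pool.Agent.Lib.MP_17a322_nt.VA.A3b
import Pool.Agent.Lib.MP_17a322_nt.VA.Z7
import Pool.Agent.Lib.MP_17a322_nt.EF.T1

/-!
The reduced polynomials: extension of the field, transcendence degrees, coprimality.
-/

universe u

namespace Pool.Agent.Lib.MP_17a322_nt.SV3

open MvPolynomial
open Pool.Agent.Lib.MP_17a322_nt.VA
open Pool.Agent.Lib.MP_17a322_nt.VN
open Pool.Agent.Lib.MP_17a322_nt.SL
open Pool.Agent.Lib.MP_17a322_nt.SV2 (fs sp cl_card_le cl_self)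

section

variable {K : Type u} [Field K] {N q p p' m : ℕ} {A : AV K N} (B : Bun A q p p')

/-- A point of the bundle over an extension field, given by `τ` in one chart. -/
theorem C2_bc {L F : Type u} [Field L] [Algebra K L] [Field F] [Algebra K F] [Algebra L F]
    [IsScalarTower K L F] (P : A.Pts L) {ch : Fin q → Fin p'} (hP : B.In ch P) (τ : Fin q → F)
    (hτ : ∀ i, τ i ≠ 0) :
    ∃ (P' : A.Pts F) (y : Fin q × Fin p → F), B.On P' y ∧
      (∀ (D : ℕ) (b : MvPolynomial (Fin q × Fin p) (MvPolynomial (Fin (N + 1)) K)), B.WH D b →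
        eval τ (MvPolynomial.map (algebraMap L F) (sp A P (B.gen ch b))) = 0 → ev P' y b = 0) ∧
      (∀ z, rt (A.x P') z = algebraMap L F (rt (A.x P) z)) ∧
      (∀ i b a, y (i, b) / A.x P' a ^ B.k i =
        τ i * algebraMap L F (aeval (A.x P) (B.ζ i b (ch i)) / A.x P a ^ B.k i)) := by
  classical
  let φ : L →ₐ[K] F := IsScalarTower.toAlgHom K L F
  have hφ : ∀ z, algebraMap L F z = φ z := fun z => rfl
  obtain ⟨P', c, hc, hP'⟩ := A.exists_img φ P
  have hx : ∀ {δ : ℕ} {f : MvPolynomial (Fin (N + 1)) K}, f.IsHomogeneous δ →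
      φ (aeval (A.x P) f) = c ^ δ * aeval (A.x P') f := by
    intro δ f hf
    rw [← AlgHom.comp_apply, MvPolynomial.comp_aeval, funext hP', aeval_mul_homog hf]
  have hxi : ∀ i, φ (A.x P i) = c * A.x P' i := hP'
  let t' : Fin q → F := fun i => c ^ B.e i * (c ^ B.k i)⁻¹ * τ i
  have ht' : ∀ i, t' i ≠ 0 := fun i =>
    mul_ne_zero (mul_ne_zero (pow_ne_zero _ hc) (inv_ne_zero (pow_ne_zero _ hc))) (hτ i)
  have hIn : B.In ch P' := by
    intro i
    obtain ⟨b, hb⟩ := hP i
    refine ⟨b, fun h0 => hb ?_⟩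
    have h1 := hx (B.hom i b (ch i))
    rw [h0, mul_zero] at h1
    exact (map_eq_zero φ).1 h1
  have hy : ∀ i b, c ^ B.k i * B.yt ch P' t' (i, b) =
      τ i * φ (aeval (A.x P) (B.ζ i b (ch i))) := by
    intro i b
    rw [hx (B.hom i b (ch i))]
    show c ^ B.k i * (c ^ B.e i * (c ^ B.k i)⁻¹ * τ i * aeval (A.x P') (B.ζ i b (ch i))) = _
    have h1 : c ^ B.k i ≠ 0 := pow_ne_zero _ hc
    field_simp
  refine ⟨P', B.yt ch P' t', A_on' B hIn ht', ?_, ?_, ?_⟩
  · intro D b hb h0
    rw [A_ev]
    have key : c ^ D * eval t' (sp A P' (B.gen ch b)) =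
        eval τ (MvPolynomial.map (algebraMap L F) (sp A P (B.gen ch b))) := by
      unfold sp
      rw [MvPolynomial.map_map, eval_map, eval_map, eval₂_eq', eval₂_eq', Finset.mul_sum]
      refine Finset.sum_congr rfl fun a ha => ?_
      obtain ⟨δ, h1, h2⟩ := A_hom B hb a (mem_support_iff.1 ha)
      have h3 : ((algebraMap L F).comp (aeval (A.x P) : MvPolynomial (Fin (N + 1)) K →ₐ[K]
          L).toRingHom) (coeff a (B.gen ch b)) =
          c ^ δ * aeval (A.x P') (coeff a (B.gen ch b)) := hx h1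
      rw [h3]
      have h4 : ∏ i, t' i ^ a i = c ^ (∑ i, B.e i * a i) * (c ^ (∑ i, B.k i * a i))⁻¹ *
          ∏ i, τ i ^ a i := by
        rw [← Finset.prod_pow_eq_pow_sum, ← Finset.prod_pow_eq_pow_sum, ← Finset.prod_inv_distrib,
          ← Finset.prod_mul_distrib, ← Finset.prod_mul_distrib]
        refine Finset.prod_congr rfl fun i _ => ?_
        show (c ^ B.e i * (c ^ B.k i)⁻¹ * τ i) ^ a i = _
        rw [mul_pow, mul_pow, inv_pow, ← pow_mul, ← pow_mul]
      rw [h4]
      have h5 : c ^ D * c ^ (∑ i, B.e i * a i) = c ^ δ * c ^ (∑ i, B.k i * a i) := by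
        rw [← pow_add, ← pow_add, h2]
      have h6 : c ^ (∑ i, B.k i * a i) ≠ 0 := pow_ne_zero _ hc
      show c ^ D * (aeval (A.x P') (coeff a (B.gen ch b)) * _) = _
      calc c ^ D * (aeval (A.x P') (coeff a (B.gen ch b)) *
            (c ^ (∑ i, B.e i * a i) * (c ^ (∑ i, B.k i * a i))⁻¹ * ∏ i, τ i ^ a i))
          = (c ^ D * c ^ (∑ i, B.e i * a i)) * (c ^ (∑ i, B.k i * a i))⁻¹ *
            aeval (A.x P') (coeff a (B.gen ch b)) * ∏ i, τ i ^ a i := by ring
        _ = c ^ δ * aeval (A.x P') (coeff a (B.gen ch b)) * ∏ i, τ i ^ a i := by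
          rw [h5]
          field_simp
    rw [h0] at key
    exact (mul_eq_zero.1 key).resolve_left (pow_ne_zero _ hc)
  · intro z
    rw [hφ]
    unfold rt
    rw [map_div₀, hxi, hxi, mul_div_mul_left _ _ hc]
  · intro i b a
    rw [hφ, map_div₀, map_pow, hxi, ← mul_div_assoc, ← hy, mul_pow,
      mul_div_mul_left _ _ (pow_ne_zero _ hc)]

/-- Lower bound for the transcendence degree of such a point. -/
theorem C2_td {L F : Type u} [Field L] [Algebra K L] [Field F] [Algebra K F] [Algebra L F]
    [IsScalarTower K L F] (P : A.Pts L) {ch : Fin q → Fin p'} (hP : B.In ch P) (τ : Fin q → F)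
    (J : Set (Fin q)) (hJ : AlgebraicIndependent L fun i : J => τ i) {P' : A.Pts F}
    {y : Fin q × Fin p → F} (h1 : ∀ z, rt (A.x P') z = algebraMap L F (rt (A.x P) z))
    (h2 : ∀ i b a, y (i, b) / A.x P' a ^ B.k i =
      τ i * algebraMap L F (aeval (A.x P) (B.ζ i b (ch i)) / A.x P a ^ B.k i)) :
    tdeg K (A.x P) + (Nat.card J : Cardinal.{u}) ≤ B.td P' y := by
  classical
  obtain ⟨a, ha⟩ := A.exists_x_ne P
  choose b hb using hP
  obtain ⟨T, hT, -, hc⟩ := Z_exists_basis (K := K) (A.x P)
  let w : (Fin (N + 1) × Fin (N + 1)) ⊕ ((Fin q × Fin p) × Fin (N + 1)) → F :=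
    Sum.elim (rt (A.x P')) fun z => y z.1 / A.x P' z.2 ^ B.k z.1.1
  have hw : B.td P' y = Algebra.trdeg K (IntermediateField.adjoin K (Set.range w)) := by
    unfold Bun.td
    rw [Set.Sum.elim_range]
    rfl
  let cc : Fin q → L := fun i => aeval (A.x P) (B.ζ i (b i) (ch i)) / A.x P a ^ B.k i
  have hcc : ∀ i, cc i ≠ 0 := fun i => div_ne_zero (hb i) (pow_ne_zero _ ha)
  have h3 : AlgebraicIndependent L fun i : J => τ i * algebraMap L F (cc i) := by
    have h4 := hJ.polynomial_aeval_of_transcendental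
      (f := fun i : J => Polynomial.C (cc i) * Polynomial.X) fun i h => by
        have h5 : IsAlgebraic L (Polynomial.C (cc i)⁻¹ * (Polynomial.C (cc i) * Polynomial.X)) :=
          (isAlgebraic_algebraMap (A := Polynomial L) (cc i)⁻¹).mul h
        rw [← mul_assoc, ← Polynomial.C_mul, inv_mul_cancel₀ (hcc i), Polynomial.C_1,
          one_mul] at h5
        exact Polynomial.transcendental_X L h5
    have h5 : (fun i : J => τ i * algebraMap L F (cc i)) = fun i : J =>
        Polynomial.aeval (τ i) (Polynomial.C (cc i) * Polynomial.X) := by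
      funext i
      rw [map_mul, Polynomial.aeval_C, Polynomial.aeval_X, mul_comm]
    rw [h5]
    exact h4
  have h5 := AlgebraicIndependent.sumElim_comp hT h3
  obtain ⟨-, h6⟩ := cl_card_le (K := K) w _ h5 fun i => by
    rcases i with i | t
    · refine cl_self (IntermediateField.subset_adjoin K _ ⟨Sum.inr ((i, b i), a), ?_⟩)
      exact h2 i (b i) a
    · refine cl_self (IntermediateField.subset_adjoin K _ ⟨Sum.inl t, ?_⟩)
      exact h1 t
  rw [hw, hc]
  refine le_trans ?_ h6
  rw [Nat.card_sum]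
  push_cast
  rw [add_comm]

/-- The zeros on the generic fibre. -/
theorem C2_absurd {g : Fin m → MvPolynomial (Fin q × Fin p) (MvPolynomial (Fin (N + 1)) K)}
    {D : ℕ} (hg : ∀ k, B.WH D (g k)) (hY : B.CodTwo g) {L F : Type u} [Field L] [Algebra K L]
    [Field F] [Algebra K F] [Algebra L F] [IsScalarTower K L F] {P : A.Pts L} (hP : Gen A P)
    {ch : Fin q → Fin p'} (hch : B.Ch ch) (τ : Fin q → F) (hτ : ∀ i, τ i ≠ 0) (J : Set (Fin q))
    (hJ : AlgebraicIndependent L fun i : J => τ i) (hJc : q ≤ Nat.card J + 1)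
    (h0 : ∀ k, eval τ (MvPolynomial.map (algebraMap L F) (sp A P (B.gen ch (g k)))) = 0) :
    False := by
  have hIn := A_gen_in B hP hch
  obtain ⟨P', y, hon, hev, h1, h2⟩ := C2_bc B P hIn τ hτ
  obtain ⟨F', i1, i2, Q, hQ⟩ := hY F P' y hon fun k => hev D (g k) (hg k) (h0 k)
  have h3 := C2_td B P hIn τ J hJ h1 h2
  have h4 : tdeg K (A.x Q) ≤ tdeg K (A.x P) := Z_generic_tdeg A
    (fun G d hG hGI h => hGI (hP G d hG h)) Q
  obtain ⟨T₁, -, -, hc₁⟩ := Z_exists_basis (K := K) (A.x P)
  have h5 : tdeg K (A.x P) + (Nat.card J : Cardinal.{u}) + 2 ≤ tdeg K (A.x P) + q :=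
    (add_le_add_left h3 2).trans (hQ.trans (add_le_add_left h4 q))
  rw [hc₁] at h5
  have h6 : Nat.card T₁ + Nat.card J + 2 ≤ Nat.card T₁ + q := by exact_mod_cast h5
  omega

/-- The variables other than `j` modulo a polynomial that contains `j`. -/
theorem C2_indep {L : Type u} [Field L] {φ : MvPolynomial (Fin q) L} {j : Fin q}
    (hj : degreeOf j φ ≠ 0) :
    AlgebraicIndependent L fun i : ({j}ᶜ : Set (Fin q)) =>
      Ideal.Quotient.mk (Ideal.span {φ}) (X (i : Fin q) : MvPolynomial (Fin q) L) := by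
  classical
  have hφ : φ ≠ 0 := by
    rintro rfl
    exact hj (degreeOf_zero j)
  rw [algebraicIndependent_iff]
  intro f hf
  have h1 : aeval (fun i : ({j}ᶜ : Set (Fin q)) =>
      Ideal.Quotient.mk (Ideal.span {φ}) (X (i : Fin q) : MvPolynomial (Fin q) L)) f =
      Ideal.Quotient.mk (Ideal.span {φ}) (rename (fun i : ({j}ᶜ : Set (Fin q)) => (i : Fin q)) f) := by
    have h2 : (aeval (fun i : ({j}ᶜ : Set (Fin q)) =>
        Ideal.Quotient.mk (Ideal.span {φ}) (X (i : Fin q) : MvPolynomial (Fin q) L)) :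
        MvPolynomial ({j}ᶜ : Set (Fin q)) L →ₐ[L] _) =
        (Ideal.Quotient.mkₐ L (Ideal.span {φ})).comp
          (rename fun i : ({j}ᶜ : Set (Fin q)) => (i : Fin q)) := by
      refine MvPolynomial.algHom_ext fun i => ?_
      rw [aeval_X, AlgHom.comp_apply, rename_X]
      rfl
    rw [h2]
    rfl
  rw [h1, Ideal.Quotient.eq_zero_iff_mem, Ideal.mem_span_singleton] at hf
  obtain ⟨h, hh⟩ := hf
  by_contra hne
  have h3 : rename (fun i : ({j}ᶜ : Set (Fin q)) => (i : Fin q)) f ≠ 0 := fun h0 => hne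
    (rename_injective _ Subtype.val_injective (by rw [h0, map_zero]))
  have h4 : h ≠ 0 := by
    rintro rfl
    rw [mul_zero] at hh
    exact h3 hh
  have h5 : degreeOf j (rename (fun i : ({j}ᶜ : Set (Fin q)) => (i : Fin q)) f) = 0 := by
    refine Nat.le_zero.1 (degreeOf_le_iff.2 fun μ hμ => Nat.le_zero.2 ?_)
    by_contra h6
    have h7 : j ∈ (rename (fun i : ({j}ᶜ : Set (Fin q)) => (i : Fin q)) f).vars := by
      rw [mem_vars_iff_mem_support]
      exact ⟨μ, hμ, Finsupp.mem_support_iff.2 h6⟩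
    obtain ⟨i, -, hi⟩ := mem_vars_rename _ _ h7
    exact i.2 hi
  rw [hh, degreeOf_mul_eq hφ h4] at h5
  omega

/-- A common factor is a monomial. -/
theorem C2_cop {g : Fin m → MvPolynomial (Fin q × Fin p) (MvPolynomial (Fin (N + 1)) K)}
    {D : ℕ} (hg : ∀ k, B.WH D (g k)) (hY : B.CodTwo g) {L : Type u} [Field L] [Algebra K L]
    {P : A.Pts L} (hP : Gen A P) {ch : Fin q → Fin p'} (hch : B.Ch ch)
    {φ : MvPolynomial (Fin q) L} (hφ : Irreducible φ) (hX : ∀ j, ¬ φ ∣ X j)
    (h0 : ∀ k, φ ∣ sp A P (B.gen ch (g k))) : False := by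
  classical
  have hφp : Prime φ := hφ.prime
  have hI : (Ideal.span {φ}).IsPrime := (Ideal.span_singleton_prime hφ.ne_zero).2 hφp
  obtain ⟨j, hj⟩ : ∃ j, degreeOf j φ ≠ 0 := by
    by_contra hcon
    push Not at hcon
    apply hφ.not_isUnit
    have h1 : φ = C (coeff 0 φ) := by
      ext1 μ
      rw [coeff_C]
      split_ifs with h
      · rw [← h]
      · by_contra h2
        apply h
        refine (Finsupp.ext fun i => ?_).symm
        have h3 := monomial_le_degreeOf i (mem_support_iff.2 h2)
        rw [hcon i] at h3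
        exact Nat.le_zero.1 h3
    rw [h1]
    have h2 : coeff 0 φ ≠ 0 := by
      intro h3
      rw [h3, C_0] at h1
      exact hφ.ne_zero h1
    exact (IsUnit.mk0 _ h2).map C
  let S := MvPolynomial (Fin q) L ⧸ Ideal.span {φ}
  let F := FractionRing S
  let τ : Fin q → F := fun i => algebraMap S F (Ideal.Quotient.mk (Ideal.span {φ}) (X i))
  have hinj : Function.Injective (algebraMap S F) := IsFractionRing.injective S F
  refine C2_absurd B (F := F) hg hY hP hch τ ?_ ({j}ᶜ : Set (Fin q)) ?_ ?_ ?_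
  · intro i h
    have h1 := (map_eq_zero_iff _ hinj).1 h
    rw [Ideal.Quotient.eq_zero_iff_mem, Ideal.mem_span_singleton] at h1
    exact hX i h1
  · exact (C2_indep hj).map' (f := IsScalarTower.toAlgHom L S F) hinj
  · rw [Nat.card_eq_fintype_card, Fintype.card_compl_set, Fintype.card_fin]
    simp only [Fintype.card_unique]
    omega
  · intro k
    have h1 : eval τ (MvPolynomial.map (algebraMap L F) (sp A P (B.gen ch (g k)))) =
        algebraMap S F (Ideal.Quotient.mk (Ideal.span {φ}) (sp A P (B.gen ch (g k)))) := by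
      have h2 : ∀ f : MvPolynomial (Fin q) L, eval τ (MvPolynomial.map (algebraMap L F) f) =
          algebraMap S F (Ideal.Quotient.mk (Ideal.span {φ}) f) := by
        intro f
        have h3 : (eval τ).comp (MvPolynomial.map (algebraMap L F)) =
            (algebraMap S F).comp (Ideal.Quotient.mk (Ideal.span {φ})) := by
          refine MvPolynomial.ringHom_ext (fun c => ?_) fun i => ?_
          · rw [RingHom.comp_apply, map_C, eval_C]
            rfl
          · rw [RingHom.comp_apply, map_X, eval_X]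
            rfl
        exact congrArg (fun ψ : MvPolynomial (Fin q) L →+* F => ψ f) h3
      exact h2 _
    rw [h1, Ideal.Quotient.eq_zero_iff_mem.2 (Ideal.mem_span_singleton.2 (h0 k)), map_zero]

/-- Some part does not vanish on the bundle. -/
theorem C2_ne {g : Fin m → MvPolynomial (Fin q × Fin p) (MvPolynomial (Fin (N + 1)) K)}
    {D : ℕ} (hg : ∀ k, B.WH D (g k)) (hY : B.CodTwo g) : (B.New g).Nonempty := by
  classical
  by_contra hcon
  rw [Set.not_nonempty_iff_eq_empty] at hcon
  obtain ⟨ch, hch⟩ := A_exists_ch B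
  obtain ⟨L, i1, i2, i3, P, hP⟩ := EF.T_gen A
  have h0 : ∀ k, sp A P (B.gen ch (g k)) = 0 := by
    intro k
    ext1 a
    unfold sp
    rw [coeff_map, coeff_zero]
    have h1 : coeff a (B.gen ch (g k)) ∈ A.I := by
      by_contra h2
      have h3 : (a : Fin q → ℕ) ∈ B.New g := (A_new B hch hg _).2 ⟨k, by
        have h4 : fs (a : Fin q → ℕ) = a := by
          ext i
          rfl
        rwa [h4]⟩
      rw [hcon] at h3
      exact h3
    exact Z_x_isPt A P _ h1
  let S := MvPolynomial (Fin q) L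
  let F := FractionRing S
  have hinj : Function.Injective (algebraMap S F) := IsFractionRing.injective S F
  refine C2_absurd B (F := F) hg hY hP hch (fun i => algebraMap S F (X i)) ?_
    (Set.univ : Set (Fin q)) ?_ ?_ ?_
  · intro i h
    exact X_ne_zero i ((map_eq_zero_iff _ hinj).1 h)
  · have h1 : AlgebraicIndependent L (X : Fin q → MvPolynomial (Fin q) L) :=
      MvPolynomial.algebraicIndependent_X _ _
    have h2 := h1.map' (f := IsScalarTower.toAlgHom L S F) hinj
    exact h2.comp _ Subtype.val_injective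
  · rw [Nat.card_eq_fintype_card]
    simp
  · intro k
    rw [h0 k, map_zero, map_zero]

/-- The reduced polynomials. -/
theorem C_red {D : ℕ} {g : Fin 2 → MvPolynomial (Fin q × Fin p) (MvPolynomial (Fin (N + 1)) K)}
    (hg : ∀ i, B.WH D (g i)) (hn : ∀ i, B.New (fun _ : Fin 1 => g i) = B.New g)
    (hY : B.CodTwo g) {ch : Fin q → Fin p'} (hch : B.Ch ch) : Nonempty (B.Red ch D g) := by
  classical
  have hfin := A_new_fin B g
  obtain ⟨a₀, ha₀⟩ := C2_ne B hg hY
  have hmin : ∀ j, ∃ a ∈ B.New g, ∀ b ∈ B.New g, a j ≤ b j := fun j =>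
    Set.exists_min_image (B.New g) (fun a => a j) hfin ⟨a₀, ha₀⟩
  have hmax : ∀ j, ∃ a ∈ B.New g, ∀ b ∈ B.New g, b j ≤ a j := fun j =>
    Set.exists_max_image (B.New g) (fun a => a j) hfin ⟨a₀, ha₀⟩
  choose mi hmi hmi' using hmin
  choose ma hma hma' using hmax
  let o : Fin q → ℕ := fun j => mi j j
  let d : Fin q → ℕ := fun j => ma j j - mi j j
  have hlo : ∀ a ∈ B.New g, ∀ j, o j ≤ a j := fun a ha j => hmi' j a ha
  have hod : ∀ j, o j + d j = ma j j := fun j => Nat.add_sub_of_le (hmi' j _ (hma j))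
  let Q : Fin 2 → MvPolynomial (Fin q) (MvPolynomial (Fin (N + 1)) K) := fun i =>
    ∑ a ∈ hfin.toFinset, monomial (fs fun j => a j - o j) (coeff (fs a) (B.gen ch (g i)))
  have hfs : ∀ (a b : Fin q → ℕ), fs a = fs b ↔ a = b := fun a b =>
    Finsupp.equivFunOnFinite.symm.injective.eq_iff
  have hQ : ∀ i a, coeff (fs a) (Q i) =
      if a + o ∈ B.New g then coeff (fs (a + o)) (B.gen ch (g i)) else 0 := by
    intro i a
    show coeff (fs a) (∑ b ∈ hfin.toFinset, monomial (fs fun j => b j - o j)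
      (coeff (fs b) (B.gen ch (g i)))) = _
    rw [coeff_sum]
    simp only [coeff_monomial, hfs]
    split_ifs with h
    · rw [Finset.sum_eq_single (a + o)]
      · rw [if_pos]
        funext j
        rw [Pi.add_apply, Nat.add_sub_cancel]
      · intro b hb hne
        rw [if_neg]
        intro h1
        apply hne
        funext j
        have h2 : b j - o j = a j := congrFun h1 j
        have h3 := hlo b (hfin.mem_toFinset.1 hb) j
        rw [Pi.add_apply]
        omega
      · intro h1
        exact absurd (hfin.mem_toFinset.2 h) h1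
    · refine Finset.sum_eq_zero fun b hb => ?_
      rw [if_neg]
      intro h1
      apply h
      have h4 : a + o = b := by
        funext j
        have h2 : b j - o j = a j := congrFun h1 j
        have h3 := hlo b (hfin.mem_toFinset.1 hb) j
        rw [Pi.add_apply]
        omega
      rw [h4]
      exact hfin.mem_toFinset.1 hb
  -- the polynomials on the generic fibre
  have hfib : ∀ {L : Type u} [Field L] [Algebra K L] (P : A.Pts L) (i : Fin 2),
      sp A P (B.gen ch (g i)) = monomial (fs o) 1 * sp A P (Q i) := by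
    intro L _ _ P i
    have h1 : sp A P (Q i) = ∑ a ∈ hfin.toFinset, monomial (fs fun j => a j - o j)
        (aeval (A.x P) (coeff (fs a) (B.gen ch (g i)))) := by
      unfold sp
      show MvPolynomial.map _ (∑ a ∈ hfin.toFinset, monomial (fs fun j => a j - o j)
        (coeff (fs a) (B.gen ch (g i)))) = _
      rw [map_sum]
      refine Finset.sum_congr rfl fun a _ => ?_
      rw [map_monomial]
      rfl
    rw [h1, Finset.mul_sum]
    have h2 : ∀ a ∈ hfin.toFinset, monomial (fs o) 1 * monomial (fs fun j => a j - o j)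
        (aeval (A.x P) (coeff (fs a) (B.gen ch (g i)))) =
        monomial (fs a) (aeval (A.x P) (coeff (fs a) (B.gen ch (g i)))) := by
      intro a ha
      have h3 : fs o + fs (fun j => a j - o j) = fs a := by
        ext j
        show o j + (a j - o j) = a j
        exact Nat.add_sub_of_le (hlo a (hfin.mem_toFinset.1 ha) j)
      rw [monomial_mul, one_mul, h3]
    rw [Finset.sum_congr rfl h2]
    ext1 b
    unfold sp
    rw [coeff_map, coeff_sum]
    simp only [coeff_monomial]
    have hb : fs (b : Fin q → ℕ) = b := by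
      ext j
      rfl
    by_cases h : (b : Fin q → ℕ) ∈ B.New g
    · rw [Finset.sum_eq_single (b : Fin q → ℕ)]
      · rw [hb, if_pos rfl]
        rfl
      · intro a _ hne
        rw [if_neg]
        intro h3
        apply hne
        rw [← h3]
        rfl
      · intro h3
        exact absurd (hfin.mem_toFinset.2 h) h3
    · rw [Finset.sum_eq_zero]
      · have h3 : coeff b (B.gen ch (g i)) ∈ A.I := by
          by_contra h4
          apply h
          rw [A_new B hch hg]
          exact ⟨i, by rwa [hb]⟩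
        exact Z_x_isPt A P _ h3
      · intro a ha
        rw [if_neg]
        intro h3
        apply h
        rw [← h3]
        exact hfin.mem_toFinset.1 ha
  refine ⟨⟨o, d, Q, hch, hg, hn, hlo, ?_, ?_, fun j => ⟨mi j, hmi j, rfl⟩, ?_, ?_, ?_⟩⟩
  · intro a ha j
    rw [hod]
    exact hma' j a ha
  · intro j
    exact ⟨ma j, hma j, (hod j).symm⟩
  · intro i a h
    rw [hQ, if_pos h]
  · intro i a h
    rw [hQ, if_neg h]
  · obtain ⟨L, i1, i2, i3, P, hP⟩ := EF.T_gen A
    refine ⟨L, i1, i2, i3, P, hP, ?_⟩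
    -- the coefficients
    have hco : ∀ a ∈ B.New g, coeff (fs fun l => a l - o l) (sp A P (Q 0)) ≠ 0 := by
      intro a ha
      have h1 : a ∈ B.New fun _ : Fin 1 => g 0 := by
        rw [hn]
        exact ha
      rw [A_new B hch fun _ => hg 0] at h1
      obtain ⟨-, h1⟩ := h1
      have h3 : (fun l => a l - o l) + o = a := by
        funext l
        rw [Pi.add_apply]
        exact Nat.sub_add_cancel (hlo _ ha l)
      have h4 : coeff (fs fun l => a l - o l) (sp A P (Q 0)) =
          aeval (A.x P) (coeff (fs a) (B.gen ch (g 0))) := by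
        unfold sp
        rw [coeff_map, hQ, if_pos (by rw [h3]; exact ha), h3]
        rfl
      rw [h4]
      intro h3
      obtain ⟨δ, h4, -⟩ := A_hom B (hg 0) (fs a) fun h5 => h1 (by
        rw [h5]
        exact A.I.zero_mem)
      exact h1 (hP _ δ h4 h3)
    -- no variable divides
    have hlow : ∀ j, ¬ X j ∣ sp A P (Q 0) := by
      intro j hj
      obtain ⟨h, hh⟩ := hj
      apply hco (mi j) (hmi j)
      rw [hh, coeff_X_mul', if_neg]
      rw [Finsupp.mem_support_iff, not_not]
      show mi j j - o j = 0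
      exact Nat.sub_self _
    refine WfDvdMonoid.isRelPrime_of_no_irreducible_factors ?_ ?_
    · rintro ⟨h1, -⟩
      apply hco a₀ ha₀
      rw [h1, coeff_zero]
    · intro φ hφ h1 h2
      refine C2_cop B hg hY hP hch hφ ?_ ?_
      · intro j hj
        have h3 : Associated φ (X j) := hφ.associated_of_dvd (X_prime.irreducible) hj
        exact hlow j (h3.symm.dvd.trans h1)
      · intro k
        rw [hfib P k]
        refine Dvd.dvd.mul_left ?_ _
        fin_cases k
        · exact h1
        · exact h2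

end

end Pool.Agent.Lib.MP_17a322_nt.SV3
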