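import Pool.Agent.Lib.MP_17a322_nt.SV3.A1
import Pool.Agent.Lib.MP_17a322_nt.SV2.C3

/-!
Two general members, for principal torus bundles.
-/

universe u

namespace Pool.Agent.Lib.MP_17a322_nt.SV3

open MvPolynomial
open Pool.Agent.Lib.MP_17a322_nt.VA
open Pool.Agent.Lib.MP_17a322_nt.VN
open Pool.Agent.Lib.MP_17a322_nt.SV2 (fs sp vl vl_C vl_X vl_gn vl_map vl_apply gn gn_adjoin
  cl_self cl_trans cl_basis cl_ge cl_le IR mem_IR IR_prime IR_le c3_lt c3_le C_avoid')

section

variable {K : Type u} [Field K] {N q p p' m : ℕ} {A : AV K N} (B : Bun A q p p')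

/-- The value at `(P, t η)` and the value of the polynomial in `t`. -/
theorem C3_ev {L : Type u} [Field L] [Algebra K L] (P : A.Pts L) (ch : Fin q → Fin p')
    (t : Fin q → L) (b : MvPolynomial (Fin q × Fin p) (MvPolynomial (Fin (N + 1)) K)) :
    ev P (B.yt ch P t) b = vl (A.x P) t (B.gen ch b) := by
  rw [A_ev, vl_apply]
  unfold sp
  rw [eval_map]

/-- The weights. -/
theorem C3_mul {D : ℕ} {b : MvPolynomial (Fin q × Fin p) (MvPolynomial (Fin (N + 1)) K)}
    (hb : B.WH D b) (ch : Fin q → Fin p') {L : Type u} [Field L] [Algebra K L]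
    (x : Fin (N + 1) → L) (t : Fin q → L) {c : L} (hc : c ≠ 0) :
    vl (fun i => c * x i) (fun i => c ^ B.k i / c ^ B.e i * t i) (B.gen ch b) =
      c ^ D * vl x t (B.gen ch b) := by
  rw [vl_apply, vl_apply, eval₂_eq', eval₂_eq', Finset.mul_sum]
  refine Finset.sum_congr rfl fun a ha => ?_
  obtain ⟨δ, h1, h2⟩ := A_hom B hb a (mem_support_iff.1 ha)
  have h3 : (aeval fun i => c * x i : MvPolynomial (Fin (N + 1)) K →ₐ[K] L).toRingHom
      (coeff a (B.gen ch b)) = c ^ δ * (aeval x : MvPolynomial (Fin (N + 1)) K →ₐ[K] L).toRingHom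
        (coeff a (B.gen ch b)) := aeval_mul_homog h1 c x
  have h4 : ∏ i, (c ^ B.k i / c ^ B.e i * t i) ^ a i =
      c ^ (∑ i, B.k i * a i) / c ^ (∑ i, B.e i * a i) * ∏ i, t i ^ a i := by
    rw [← Finset.prod_pow_eq_pow_sum, ← Finset.prod_pow_eq_pow_sum, ← Finset.prod_div_distrib,
      ← Finset.prod_mul_distrib]
    refine Finset.prod_congr rfl fun i _ => ?_
    rw [mul_pow, div_pow, ← pow_mul, ← pow_mul]
  have h5 : c ^ δ * (c ^ (∑ i, B.k i * a i) / c ^ (∑ i, B.e i * a i)) = c ^ D := by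
    rw [← mul_div_assoc, ← pow_add, h2, pow_add, mul_div_assoc, div_self (pow_ne_zero _ hc),
      mul_one]
  rw [h3, h4]
  calc c ^ δ * (aeval x : MvPolynomial (Fin (N + 1)) K →ₐ[K] L).toRingHom
        (coeff a (B.gen ch b)) *
        (c ^ (∑ i, B.k i * a i) / c ^ (∑ i, B.e i * a i) * ∏ i, t i ^ a i) =
      c ^ δ * (c ^ (∑ i, B.k i * a i) / c ^ (∑ i, B.e i * a i)) *
        ((aeval x : MvPolynomial (Fin (N + 1)) K →ₐ[K] L).toRingHom (coeff a (B.gen ch b)) *
          ∏ i, t i ^ a i) := by ring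
    _ = _ := by rw [h5]

/-- The generators of the field of the point `(P, y)`. -/
noncomputable def C3w {L : Type u} [Field L] [Algebra K L] (P : A.Pts L)
    (y : Fin q × Fin p → L) :
    (Fin (N + 1) × Fin (N + 1)) ⊕ ((Fin q × Fin p) × Fin (N + 1)) → L :=
  Sum.elim (rt (A.x P)) fun z => y z.1 / A.x P z.2 ^ B.k z.1.1

theorem C3_td {L : Type u} [Field L] [Algebra K L] (P : A.Pts L) (y : Fin q × Fin p → L) :
    B.td P y = Algebra.trdeg K (IntermediateField.adjoin K (Set.range (C3w B P y))) := by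
  unfold Bun.td C3w
  rw [Set.Sum.elim_range]
  rfl

theorem C3_alg1 {L : Type*} [Field L] {c x z : L} (t : L) (k e : ℕ) (hc : c ≠ 0) (hx : x ≠ 0)
    (hz : z ≠ 0) : c ^ k / c ^ e * t = (c * x) ^ k * (t * z / x ^ k) * (c ^ e * z)⁻¹ := by
  have h1 : c ^ e ≠ 0 := pow_ne_zero _ hc
  have h2 : x ^ k ≠ 0 := pow_ne_zero _ hx
  rw [mul_pow]
  field_simp

theorem C3_alg2 {L : Type*} [Field L] {c : L} (x z t : L) (k e : ℕ) (hc : c ≠ 0) :
    t * z / x ^ k = c ^ k / c ^ e * t * (c ^ e * z) * ((c * x) ^ k)⁻¹ := by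
  have h1 : c ^ e ≠ 0 := pow_ne_zero _ hc
  have h2 : c ^ k ≠ 0 := pow_ne_zero _ hc
  rw [mul_pow, mul_inv, div_eq_mul_inv, div_eq_mul_inv]
  calc t * z * (x ^ k)⁻¹ =
      (c ^ k * (c ^ k)⁻¹) * (c ^ e * (c ^ e)⁻¹) * (t * z * (x ^ k)⁻¹) := by
        rw [mul_inv_cancel₀ h1, mul_inv_cancel₀ h2, one_mul, one_mul]
    _ = _ := by ring

theorem C3_aeval_mem {L : Type u} [Field L] [Algebra K L] {S : Set L} (x : Fin (N + 1) → L)
    (hx : ∀ i, x i ∈ IntermediateField.adjoin K S) (f : MvPolynomial (Fin (N + 1)) K) :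
    aeval x f ∈ IntermediateField.adjoin K S := by
  induction f using MvPolynomial.induction_on with
  | C c =>
    rw [aeval_C]
    exact IntermediateField.algebraMap_mem _ c
  | add f g hf hg =>
    rw [map_add]
    exact add_mem hf hg
  | mul_X f i hf =>
    rw [map_mul, aeval_X]
    exact mul_mem hf (hx i)

/-- A prime ideal that is not irrelevant and a point. -/
theorem C3_L2 {ch : Fin q → Fin p'}
    (P₀ : Ideal (MvPolynomial (Fin q) (MvPolynomial (Fin (N + 1)) K))) [P₀.IsPrime]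
    (hI : ∀ f ∈ A.I, C f ∈ P₀) (hX : ∀ j, X j ∉ P₀) {a : Fin (N + 1)} (ha : C (X a) ∉ P₀)
    (hz : ∀ i, ∃ b, C (B.ζ i b (ch i)) ∉ P₀) :
    ∃ (F : Type u) (_ : Field F) (_ : Algebra K F) (P : A.Pts F) (t : Fin q → F),
      B.In ch P ∧ (∀ j, t j ≠ 0) ∧
      (∀ (f : MvPolynomial (Fin q × Fin p) (MvPolynomial (Fin (N + 1)) K)) (D : ℕ),
        B.WH D f → (ev P (B.yt ch P t) f = 0 ↔ B.gen ch f ∈ P₀)) ∧
      Algebra.trdeg K (MvPolynomial (Fin q) (MvPolynomial (Fin (N + 1)) K) ⧸ P₀) ≤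
        B.td P (B.yt ch P t) + 1 := by
  let R := MvPolynomial (Fin q) (MvPolynomial (Fin (N + 1)) K) ⧸ P₀
  let F := FractionRing R
  let σ : R →ₐ[K] F := IsScalarTower.toAlgHom K R F
  have hσ : Function.Injective σ := IsFractionRing.injective R F
  let y : Fin (N + 1) → F := fun i => σ (Ideal.Quotient.mk P₀ (C (X i)))
  let u : Fin q → F := fun j => σ (Ideal.Quotient.mk P₀ (X j))
  have hv : ∀ f, vl (K := K) y u f = σ (Ideal.Quotient.mk P₀ f) := by
    intro f
    have h1 : vl (K := K) y u = σ.comp (Ideal.Quotient.mkₐ K P₀) := by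
      refine AlgHom.ext_of_adjoin_eq_top (gn_adjoin (K := K) (N := N) (q := q)) ?_
      rintro _ ⟨k, rfl⟩
      rw [vl_gn]
      rcases k with i | j <;> rfl
    rw [h1]
    rfl
  have hv0 : ∀ f, vl (K := K) y u f = 0 ↔ f ∈ P₀ := by
    intro f
    rw [hv, map_eq_zero_iff σ hσ, Ideal.Quotient.eq_zero_iff_mem]
  have hu : ∀ j, u j ≠ 0 := by
    intro j h
    rw [← vl_X (K := K) y u j, hv0] at h
    exact hX j h
  have hya : y a ≠ 0 := by
    intro h
    have h1 : vl (K := K) y u (C (X a)) = 0 := by rw [vl_C, aeval_X, h]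
    rw [hv0] at h1
    exact ha h1
  have hy : y ≠ 0 := fun h => hya (congrFun h a)
  have hpt : A.IsPt y := by
    intro f hf
    rw [← vl_C y u, hv0]
    exact hI f hf
  obtain ⟨P, c, hc, hP⟩ := AV.exists_rep hy hpt
  have hP' : y = fun i => c * A.x P i := funext hP
  obtain ⟨t, ht⟩ : ∃ t : Fin q → F, t = fun i => c ^ B.e i / c ^ B.k i * u i := ⟨_, rfl⟩
  have hu' : u = fun i => c ^ B.k i / c ^ B.e i * t i := by
    funext i
    rw [ht]
    show u i = c ^ B.k i / c ^ B.e i * (c ^ B.e i / c ^ B.k i * u i)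
    rw [← mul_assoc, div_mul_div_cancel₀ (pow_ne_zero _ hc), div_self (pow_ne_zero _ hc),
      one_mul]
  have hin : B.In ch P := by
    intro i
    obtain ⟨b, hb⟩ := hz i
    refine ⟨b, fun h => hb ?_⟩
    rw [← hv0, vl_C, hP', aeval_mul_homog (B.hom i b (ch i)), h, mul_zero]
  refine ⟨F, inferInstance, inferInstance, P, t, hin, fun j => ?_, fun f D hf => ?_, ?_⟩
  · rw [ht]
    exact mul_ne_zero (div_ne_zero (pow_ne_zero _ hc) (pow_ne_zero _ hc)) (hu j)
  · rw [C3_ev, ← hv0, hP', hu', C3_mul B hf ch _ _ hc]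
    constructor
    · intro h
      rw [h, mul_zero]
    · intro h
      exact (mul_eq_zero.1 h).resolve_left (pow_ne_zero _ hc)
  · obtain ⟨T, hT, hT', hcard⟩ := cl_basis (K := K) (C3w B P (B.yt ch P t))
    rw [C3_td, hcard]
    have h1 := cl_le σ hσ (gn K N q) gn_adjoin
      (Sum.elim (fun z : T => C3w B P (B.yt ch P t) z) (fun _ : Unit => y a) : T ⊕ Unit → F)
      fun k => by
        have hT1 : ∀ i, IsAlgebraic (IntermediateField.adjoin K (Set.range
            (Sum.elim (fun z : T => C3w B P (B.yt ch P t) z) (fun _ : Unit => y a) :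
              T ⊕ Unit → F))) (C3w B P (B.yt ch P t) i) := by
          intro i
          have h3 := hT' i
          rw [Set.image_eq_range] at h3
          refine cl_trans ?_ h3
          rintro _ ⟨z, rfl⟩
          exact cl_self (IntermediateField.subset_adjoin K _ ⟨Sum.inl z, rfl⟩)
        have hTa : IsAlgebraic (IntermediateField.adjoin K (Set.range
            (Sum.elim (fun z : T => C3w B P (B.yt ch P t) z) (fun _ : Unit => y a) :
              T ⊕ Unit → F))) (y a) :=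
          cl_self (IntermediateField.subset_adjoin K _ ⟨Sum.inr (), rfl⟩)
        have hxa : A.x P a ≠ 0 := by
          intro h5
          rw [hP a, h5, mul_zero] at hya
          exact hya rfl
        have hyi : ∀ i, IsAlgebraic (IntermediateField.adjoin K (Set.range
            (Sum.elim (fun z : T => C3w B P (B.yt ch P t) z) (fun _ : Unit => y a) :
              T ⊕ Unit → F))) (y i) := by
          intro i
          have h4 : y i = rt (A.x P) (i, a) * y a := by
            rw [hP i, hP a]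
            show c * A.x P i = A.x P i / A.x P a * (c * A.x P a)
            rw [mul_left_comm, div_mul_cancel₀ _ hxa]
          rw [h4]
          exact (hT1 (Sum.inl (i, a))).mul hTa
        rcases k with i | j
        · exact hyi i
        · show IsAlgebraic _ (u j)
          obtain ⟨b, hb⟩ := hin j
          have h6 : u j = (y a ^ B.k j) * (C3w B P (B.yt ch P t) (Sum.inr ((j, b), a))) *
              (aeval y (B.ζ j b (ch j)))⁻¹ := by
            have h7 : aeval y (B.ζ j b (ch j)) = c ^ B.e j * aeval (A.x P) (B.ζ j b (ch j)) := by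
              rw [hP', aeval_mul_homog (B.hom j b (ch j))]
            have h8 : C3w B P (B.yt ch P t) (Sum.inr ((j, b), a)) =
                t j * aeval (A.x P) (B.ζ j b (ch j)) / A.x P a ^ B.k j := rfl
            have h9 : u j = c ^ B.k j / c ^ B.e j * t j := congrFun hu' j
            rw [h7, h8, h9, hP a]
            exact C3_alg1 _ _ _ hc hxa hb
          rw [h6]
          refine ((hTa.pow _).mul (hT1 _)).mul ?_
          refine IsAlgebraic.inv ?_
          have hyr : ∀ i, y i ∈ IntermediateField.adjoin K (Set.range y) :=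
            fun i => IntermediateField.subset_adjoin K _ (Set.mem_range_self i)
          refine cl_trans (S := Set.range y) ?_ (cl_self (C3_aeval_mem y hyr _))
          rintro _ ⟨i, rfl⟩
          exact hyi i
    rw [Nat.card_sum, Nat.card_unique (α := Unit)] at h1
    exact_mod_cast h1

/-- A point and a prime ideal that is not irrelevant. -/
theorem C3_L1 {ch : Fin q → Fin p'} {F : Type u} [Field F] [Algebra K F] (P : A.Pts F)
    (hP : B.In ch P) (t : Fin q → F) (ht : ∀ j, t j ≠ 0) :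
    ∃ P₀ : Ideal (MvPolynomial (Fin q) (MvPolynomial (Fin (N + 1)) K)), P₀.IsPrime ∧
      (∀ f ∈ A.I, C f ∈ P₀) ∧ (∀ j, X j ∉ P₀) ∧ (∃ a : Fin (N + 1), C (X a) ∉ P₀) ∧
      (∀ i, ∃ b, C (B.ζ i b (ch i)) ∉ P₀) ∧
      (∀ (f : MvPolynomial (Fin q × Fin p) (MvPolynomial (Fin (N + 1)) K)) (D : ℕ),
        B.WH D f → (ev P (B.yt ch P t) f = 0 ↔ B.gen ch f ∈ P₀)) ∧
      B.td P (B.yt ch P t) + 1 ≤
        Algebra.trdeg K (MvPolynomial (Fin q) (MvPolynomial (Fin (N + 1)) K) ⧸ P₀) := by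
  obtain ⟨a, ha⟩ : ∃ a, A.x P a ≠ 0 := by
    by_contra hcon
    push Not at hcon
    exact P.1.rep_nonzero (funext hcon)
  let Ω := FractionRing (Polynomial F)
  have iΩ : IsScalarTower K F Ω := inferInstance
  let φ : F →ₐ[K] Ω := IsScalarTower.toAlgHom K F Ω
  let Λ : Ω := algebraMap (Polynomial F) Ω Polynomial.X
  have hΛ : Transcendental F Λ := by
    have h1 : Transcendental F (Polynomial.X : Polynomial F) := Polynomial.transcendental_X F
    exact (transcendental_algebraMap_iff (IsFractionRing.injective (Polynomial F) Ω)).2 h1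
  have hΛ0 : Λ ≠ 0 := fun h => hΛ (by rw [h]; exact isAlgebraic_zero)
  let c : Ω := Λ * φ (A.x P a)⁻¹
  have hφa : φ (A.x P a) ≠ 0 := (map_ne_zero φ).2 ha
  have hc : c ≠ 0 := mul_ne_zero hΛ0 ((map_ne_zero φ).2 (inv_ne_zero ha))
  let y : Fin (N + 1) → Ω := fun i => c * φ (A.x P i)
  have hya : y a = Λ := by
    show Λ * φ (A.x P a)⁻¹ * φ (A.x P a) = Λ
    rw [map_inv₀, mul_assoc, inv_mul_cancel₀ hφa, mul_one]
  let u' : Fin q → Ω := fun j => c ^ B.k j / c ^ B.e j * φ (t j)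
  have hu' : ∀ j, u' j ≠ 0 := fun j => mul_ne_zero
    (div_ne_zero (pow_ne_zero _ hc) (pow_ne_zero _ hc)) ((map_ne_zero φ).2 (ht j))
  have hζ : ∀ i b, aeval y (B.ζ i b (ch i)) =
      c ^ B.e i * φ (aeval (A.x P) (B.ζ i b (ch i))) := by
    intro i b
    have h1 : aeval y (B.ζ i b (ch i)) =
        c ^ B.e i * aeval (fun i => φ (A.x P i)) (B.ζ i b (ch i)) :=
      aeval_mul_homog (B.hom i b (ch i)) c _
    have h2 : aeval (fun i => φ (A.x P i)) (B.ζ i b (ch i)) =
        φ (aeval (A.x P) (B.ζ i b (ch i))) := by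
      have h3 : (aeval (fun i => φ (A.x P i)) : MvPolynomial (Fin (N + 1)) K →ₐ[K] Ω) =
          φ.comp (aeval (A.x P)) := by
        refine MvPolynomial.algHom_ext fun i => ?_
        rw [aeval_X, AlgHom.comp_apply, aeval_X]
      rw [h3, AlgHom.comp_apply]
    rw [h1, h2]
  let P₀ : Ideal (MvPolynomial (Fin q) (MvPolynomial (Fin (N + 1)) K)) :=
    RingHom.ker (vl (K := K) y u').toRingHom
  have hp : ∀ f, f ∈ P₀ ↔ vl (K := K) y u' f = 0 := fun f => RingHom.mem_ker
  have hpr : P₀.IsPrime := RingHom.ker_isPrime _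
  refine ⟨P₀, hpr, fun f hf => ?_, fun j hj => ?_, ⟨a, fun h => ?_⟩, fun i => ?_,
    fun f D hf => ?_, ?_⟩
  · rw [hp, vl_C]
    exact (AV.IsPt.smul ((Z_x_isPt A P).map φ) c) f hf
  · rw [hp, vl_X] at hj
    exact hu' j hj
  · rw [hp, vl_C, aeval_X, hya] at h
    exact hΛ0 h
  · obtain ⟨b, hb⟩ := hP i
    refine ⟨b, fun h => ?_⟩
    rw [hp, vl_C, hζ] at h
    exact mul_ne_zero (pow_ne_zero _ hc) ((map_ne_zero φ).2 hb) h
  · have h1 : vl (K := K) y u' (B.gen ch f) = c ^ D * φ (ev P (B.yt ch P t) f) := by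
      rw [C3_ev, ← vl_map φ (A.x P) t]
      exact C3_mul B hf ch _ _ hc
    rw [hp, h1]
    constructor
    · intro h
      rw [h, map_zero, mul_zero]
    · intro h
      exact (map_eq_zero φ).1 ((mul_eq_zero.1 h).resolve_left (pow_ne_zero _ hc))
  · let σ : (MvPolynomial (Fin q) (MvPolynomial (Fin (N + 1)) K) ⧸ P₀) →ₐ[K] Ω :=
      Ideal.Quotient.liftₐ P₀ (vl (K := K) y u') fun f hf => (hp f).1 hf
    obtain ⟨T, hT, hT', hcard⟩ := cl_basis (K := K) (C3w B P (B.yt ch P t))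
    rw [C3_td, hcard]
    have hx : AlgebraicIndependent F (fun _ : Unit => Λ) :=
      algebraicIndependent_unique_type_iff.2 hΛ
    have h1 : AlgebraicIndependent K (Sum.elim (fun _ : Unit => Λ)
        fun z : T => algebraMap F Ω (C3w B P (B.yt ch P t) z)) :=
      AlgebraicIndependent.sumElim_comp hT hx
    have h2 := cl_ge σ (gn K N q) _ h1 fun i => by
      have hg : ∀ k, σ (Ideal.Quotient.mk P₀ (gn K N q k)) = Sum.elim y u' k := fun k =>
        vl_gn y u' k
      have hg' : (Set.range fun k => σ (Ideal.Quotient.mk P₀ (gn K N q k))) =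
          Set.range (Sum.elim y u') := congrArg Set.range (funext hg)
      rw [hg']
      have hy0 : ∀ k, y k ∈ IntermediateField.adjoin K (Set.range (Sum.elim y u')) :=
        fun k => IntermediateField.subset_adjoin K _ ⟨Sum.inl k, rfl⟩
      have hy : ∀ k, IsAlgebraic (IntermediateField.adjoin K (Set.range (Sum.elim y u')))
          (y k) := fun k => cl_self (hy0 k)
      rcases i with _ | ⟨z | ⟨⟨j, b⟩, k⟩, hz⟩
      · show IsAlgebraic _ Λ
        rw [← hya]
        exact hy a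
      · show IsAlgebraic _ (φ (rt (A.x P) z))
        have h3 : φ (rt (A.x P) z) = y z.1 * (y z.2)⁻¹ := by
          show φ (A.x P z.1 / A.x P z.2) = c * φ (A.x P z.1) * (c * φ (A.x P z.2))⁻¹
          rw [map_div₀, mul_inv, div_eq_mul_inv, mul_mul_mul_comm, mul_inv_cancel₀ hc, one_mul]
        rw [h3]
        exact (hy _).mul (hy _).inv
      · show IsAlgebraic _ (φ (t j * aeval (A.x P) (B.ζ j b (ch j)) / A.x P k ^ B.k j))
        have h3 : φ (t j * aeval (A.x P) (B.ζ j b (ch j)) / A.x P k ^ B.k j) =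
            u' j * aeval y (B.ζ j b (ch j)) * (y k ^ B.k j)⁻¹ := by
          rw [hζ, map_div₀, map_mul, map_pow]
          exact C3_alg2 _ _ _ _ _ hc
        rw [h3]
        have hu0 : u' j ∈ IntermediateField.adjoin K (Set.range (Sum.elim y u')) :=
          IntermediateField.subset_adjoin K _ ⟨Sum.inr j, rfl⟩
        exact ((cl_self hu0).mul (cl_self (C3_aeval_mem y hy0 _))).mul ((hy k).pow _).inv
    have h3 := h2.2
    rw [Nat.card_sum, Nat.card_unique (α := Unit)] at h3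
    rw [add_comm]
    exact_mod_cast h3

/-- The polynomial in `t`, a linear map. -/
noncomputable def C3gen (ch : Fin q → Fin p') :
    MvPolynomial (Fin q × Fin p) (MvPolynomial (Fin (N + 1)) K) →ₗ[K]
      MvPolynomial (Fin q) (MvPolynomial (Fin (N + 1)) K) where
  toFun := B.gen ch
  map_add' := A_gen_add B ch
  map_smul' c f := by
    rw [Algebra.smul_def, Algebra.smul_def, A_gen_mul]
    congr 1
    exact A_gen_C B ch (C c)

theorem C3_smul (c : Fin m → ℤ)
    (g : Fin m → MvPolynomial (Fin q × Fin p) (MvPolynomial (Fin (N + 1)) K)) :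
    ∑ k, (c k : K) • g k =
      ∑ k, (c k : MvPolynomial (Fin q × Fin p) (MvPolynomial (Fin (N + 1)) K)) * g k := by
  refine Finset.sum_congr rfl fun k _ => ?_
  rw [Algebra.smul_def, map_intCast]

theorem C3_WH {D : ℕ} (c : Fin m → ℤ)
    {g : Fin m → MvPolynomial (Fin q × Fin p) (MvPolynomial (Fin (N + 1)) K)}
    (hg : ∀ k, B.WH D (g k)) :
    B.WH D (∑ k, (c k : MvPolynomial (Fin q × Fin p) (MvPolynomial (Fin (N + 1)) K)) * g k) := by
  intro μ hμ
  have hco : coeff μ (∑ k, (c k : MvPolynomial (Fin q × Fin p)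
      (MvPolynomial (Fin (N + 1)) K)) * g k) = ∑ k, C (c k : K) * coeff μ (g k) := by
    rw [coeff_sum]
    refine Finset.sum_congr rfl fun k _ => ?_
    have h : (c k : MvPolynomial (Fin q × Fin p) (MvPolynomial (Fin (N + 1)) K)) =
        C (C (c k : K)) := by rw [map_intCast, map_intCast]
    rw [h, coeff_C_mul]
  rw [hco] at hμ ⊢
  obtain ⟨k₀, _, hk₀⟩ := Finset.exists_ne_zero_of_sum_ne_zero hμ
  obtain ⟨δ, _, hδ⟩ := hg k₀ μ (right_ne_zero_of_mul hk₀)
  refine ⟨δ, IsHomogeneous.sum _ _ _ fun k _ => ?_, hδ⟩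
  have h2 : (coeff μ (g k)).IsHomogeneous δ := by
    by_cases hk : coeff μ (g k) = 0
    · rw [hk]
      exact isHomogeneous_zero _ _ _
    · obtain ⟨δ', hδ', hδ''⟩ := hg k μ hk
      have h3 : δ' = δ := by omega
      rw [← h3]
      exact hδ'
  have h1 := (isHomogeneous_C (Fin (N + 1)) (c k : K)).mul h2
  rwa [zero_add] at h1

end

section

variable {K : Type u} [Field K] [CharZero K] {N q p p' m : ℕ} {A : AV K N} (B : Bun A q p p')

/-- Two general members. -/
theorem C_two {D : ℕ} {g : Fin m → MvPolynomial (Fin q × Fin p) (MvPolynomial (Fin (N + 1)) K)}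
    (hg : ∀ k, B.WH D (g k)) (hY : B.CodTwo g) :
    ∃ c : Fin 2 → Fin m → ℤ,
      (∀ i, B.New (fun _ : Fin 1 => ∑ k, (c i k : MvPolynomial (Fin q × Fin p)
        (MvPolynomial (Fin (N + 1)) K)) * g k) = B.New g) ∧
      B.CodTwo (fun i => ∑ k, (c i k : MvPolynomial (Fin q × Fin p)
        (MvPolynomial (Fin (N + 1)) K)) * g k) := by
  classical
  obtain ⟨ch₀, hch₀⟩ := A_exists_ch B
  have _ : Finite (B.New g) := (A_new_fin B g).to_subtype
  let U : B.New g → Submodule K (MvPolynomial (Fin q × Fin p) (MvPolynomial (Fin (N + 1)) K)) :=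
    fun a => (A.I.restrictScalars K).comap
      (((lcoeff (MvPolynomial (Fin (N + 1)) K) (fs a.1)).restrictScalars K).comp (C3gen B ch₀))
  have hU : ∀ a f, f ∈ U a ↔ coeff (fs a.1) (B.gen ch₀ f) ∈ A.I := fun a f => Iff.rfl
  have hU0 : ∀ a, ∃ k, g k ∉ U a := by
    intro a
    obtain ⟨k, hk⟩ := (A_new B hch₀ hg a.1).1 a.2
    exact ⟨k, hk⟩
  have hnew : ∀ c : Fin m → ℤ, (∀ a, ∑ k, (c k : K) • g k ∉ U a) →
      B.New (fun _ : Fin 1 => ∑ k, (c k : MvPolynomial (Fin q × Fin p)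
        (MvPolynomial (Fin (N + 1)) K)) * g k) = B.New g := by
    intro c hc
    ext a
    rw [A_new B hch₀ fun _ => C3_WH B c hg]
    constructor
    · rintro ⟨_, h⟩
      rw [A_new B hch₀ hg]
      by_contra hcon
      push Not at hcon
      apply h
      have h1 : B.gen ch₀ (∑ k, (c k : MvPolynomial (Fin q × Fin p)
          (MvPolynomial (Fin (N + 1)) K)) * g k) = ∑ k, (c k : K) • B.gen ch₀ (g k) := by
        rw [← C3_smul]
        show C3gen B ch₀ (∑ k, (c k : K) • g k) = _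
        rw [map_sum]
        exact Finset.sum_congr rfl fun k _ => map_smul _ _ _
      rw [h1, coeff_sum]
      refine Ideal.sum_mem _ fun k _ => ?_
      rw [coeff_smul, Algebra.smul_def]
      exact Ideal.mul_mem_left _ _ (hcon k)
    · intro ha
      refine ⟨0, fun h => hc ⟨a, ha⟩ ?_⟩
      rw [hU, C3_smul]
      exact h
  obtain ⟨c₀, hc₀⟩ := C_avoid' (k := K) g U hU0
  obtain ⟨g₀, hg₀⟩ : ∃ g₀, g₀ = ∑ k, (c₀ k : MvPolynomial (Fin q × Fin p)
    (MvPolynomial (Fin (N + 1)) K)) * g k := ⟨_, rfl⟩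
  have hWH₀ : B.WH D g₀ := by
    rw [hg₀]
    exact C3_WH B c₀ hg
  let J : (Fin q → Fin p') → Ideal (MvPolynomial (Fin q) (MvPolynomial (Fin (N + 1)) K)) :=
    fun ch => IR A q ⊔ Ideal.span {B.gen ch g₀}
  have hJfin : ∀ ch, (J ch).minimalPrimes.Finite := fun ch =>
    Ideal.finite_minimalPrimes_of_isNoetherianRing _ (J ch)
  let M : (Fin q → Fin p') → Set (Ideal (MvPolynomial (Fin q) (MvPolynomial (Fin (N + 1)) K))) :=
    fun ch => {P₀ | P₀ ∈ (J ch).minimalPrimes ∧ ∃ k, B.gen ch (g k) ∉ P₀}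
  have hMfin : ∀ ch, Finite (M ch) := fun ch =>
    ((hJfin ch).subset fun P₀ hP₀ => hP₀.1).to_subtype
  have _ : Finite (Σ ch : Fin q → Fin p', M ch) := inferInstance
  obtain ⟨c₁, hc₁⟩ := C_avoid' (k := K) g
    (Sum.elim U fun z : Σ ch : Fin q → Fin p', M ch =>
      (z.2.1.restrictScalars K).comap (C3gen B z.1)) fun i => by
      rcases i with a | z
      · exact hU0 a
      · exact z.2.2.2
  obtain ⟨g₁, hg₁⟩ : ∃ g₁, g₁ = ∑ k, (c₁ k : MvPolynomial (Fin q × Fin p)
    (MvPolynomial (Fin (N + 1)) K)) * g k := ⟨_, rfl⟩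
  have hWH₁ : B.WH D g₁ := by
    rw [hg₁]
    exact C3_WH B c₁ hg
  have hc₁'' : ∀ ch, ∀ P₀ ∈ M ch, B.gen ch g₁ ∉ P₀ := by
    intro ch P₀ hP₀ h
    apply hc₁ (Sum.inr ⟨ch, P₀, hP₀⟩)
    show C3gen B ch (∑ k, (c₁ k : K) • g k) ∈ P₀
    rw [C3_smul, ← hg₁]
    exact h
  refine ⟨![c₀, c₁], ?_, ?_⟩
  · rw [Fin.forall_fin_two]
    exact ⟨hnew c₀ hc₀, hnew c₁ fun a => hc₁ (Sum.inl a)⟩
  · intro F _ _ P y hy hval
    by_cases hne : (B.New g).Nonempty
    swap
    · refine hY F P y hy fun k => ?_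
      by_contra hk
      exact hne (A_new_ne B hg (k := k) fun hv => hk (hv F P y hy))
    have h0 : ev P y g₀ = 0 := by
      rw [hg₀]
      exact hval 0
    have h1 : ev P y g₁ = 0 := by
      rw [hg₁]
      exact hval 1
    obtain ⟨ch, hin⟩ := A_in B P
    have hch := A_in_ch B hin
    obtain ⟨t, ht, rfl⟩ := A_on B hin hy
    obtain ⟨P₁, hP₁, hpI, hpX, ⟨a, ha⟩, hpz, hpv, hptd⟩ := C3_L1 B P hin t ht
    have hg₀p : B.gen ch g₀ ∈ P₁ := (hpv g₀ D hWH₀).1 h0
    have hg₁p : B.gen ch g₁ ∈ P₁ := (hpv g₁ D hWH₁).1 h1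
    have hJp : J ch ≤ P₁ := sup_le (IR_le A hpI) ((Ideal.span_singleton_le_iff_mem _).2 hg₀p)
    obtain ⟨q₀, hq₀, hqp⟩ := Ideal.exists_minimalPrimes_le hJp
    have hq₀pr : q₀.IsPrime := hq₀.1.1
    have hJq : J ch ≤ q₀ := hq₀.1.2
    have hIq : IR A q ≤ q₀ := le_sup_left.trans hJq
    by_cases hall : ∀ k, B.gen ch (g k) ∈ q₀
    · obtain ⟨F'', i1, i2, P'', t'', hin'', ht'', hv'', htd''⟩ := C3_L2 B (ch := ch) q₀
        (fun f hf => hIq (by
          rw [mem_IR]
          intro μ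
          rw [coeff_C]
          split_ifs
          · exact hf
          · exact A.I.zero_mem)) (fun j h => hpX j (hqp h)) (a := a) (fun h => ha (hqp h))
        fun i => by
          obtain ⟨b, hb⟩ := hpz i
          exact ⟨b, fun h => hb (hqp h)⟩
      obtain ⟨F', i3, i4, Q, hQ⟩ := hY F'' P'' _ (A_on' B hin'' ht'') fun k =>
        (hv'' (g k) D (hg k)).2 (hall k)
      refine ⟨F', i3, i4, Q, le_trans ?_ hQ⟩
      have h3 : B.td P (B.yt ch P t) + 1 ≤ B.td P'' (B.yt ch P'' t'') + 1 :=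
        (hptd.trans (c3_le hqp)).trans htd''
      have h4 : B.td P (B.yt ch P t) ≤ B.td P'' (B.yt ch P'' t'') :=
        (Cardinal.add_le_add_iff_of_lt_aleph0 Cardinal.one_lt_aleph0).1 h3
      exact add_le_add_left h4 2
    · push Not at hall
      have hqM : q₀ ∈ M ch := ⟨hq₀, hall⟩
      have hne1 : q₀ < P₁ := lt_of_le_of_ne hqp fun h => hc₁'' ch q₀ hqM (h ▸ hg₁p)
      have hne' : IR A q < q₀ := by
        refine lt_of_le_of_ne hIq fun h => ?_
        have h3 : B.gen ch g₀ ∈ q₀ :=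
          hJq (Ideal.mem_sup_right (Ideal.mem_span_singleton_self _))
        rw [← h, mem_IR] at h3
        obtain ⟨b, hb⟩ := hne
        have h4 : B.New (fun _ : Fin 1 => g₀) = B.New g := by
          rw [hg₀]
          exact hnew c₀ hc₀
        rw [← h4, A_new B hch fun _ => hWH₀] at hb
        obtain ⟨_, hb⟩ := hb
        exact hb (h3 _)
      have _ := IR_prime A (q := q)
      obtain ⟨F', i3, i4, Q, hQ⟩ := SV2.L3 A (q := q)
      refine ⟨F', i3, i4, Q, ?_⟩
      have h3 := c3_lt (k := K) hne1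
      have h4 := c3_lt (k := K) hne'
      have h5 : B.td P (B.yt ch P t) + 2 + 1 ≤ tdeg K (A.x Q) + q + 1 := by
        refine le_trans ?_ hQ
        refine le_trans ?_ h4
        have h6 : B.td P (B.yt ch P t) + 2 + 1 = B.td P (B.yt ch P t) + 1 + 1 + 1 := by
          rw [← one_add_one_eq_two]
          ring
        rw [h6]
        exact add_le_add_left ((add_le_add_left hptd 1).trans h3) 1
      exact (Cardinal.add_le_add_iff_of_lt_aleph0 Cardinal.one_lt_aleph0).1 h5

end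

end Pool.Agent.Lib.MP_17a322_nt.SV3
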