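import Pool.Agent.Lib.MP_17a322_nt.VA.AV

/-!
Vojta's inequality over principal torus bundles over `A`: definitions of the final statement.
-/

universe u

namespace Pool.Agent.Lib.MP_17a322_nt.SV3

open MvPolynomial Height
open Pool.Agent.Lib.MP_17a322_nt.VA

/-! ### Polynomials in the coordinates `x` of `A` and `y` of the bundle -/

section

variable {K : Type u} [Field K] {N q p m : ℕ} {A : AV K N}

/-- The value of `b` at `(P, y)`. -/
noncomputable def ev {L : Type u} [Field L] [Algebra K L] (P : A.Pts L) (y : Fin q × Fin p → L)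
    (b : MvPolynomial (Fin q × Fin p) (MvPolynomial (Fin (N + 1)) K)) : L :=
  eval y (MvPolynomial.map (aeval (A.x P) : MvPolynomial (Fin (N + 1)) K →ₐ[K] L).toRingHom b)

/-- The multidegree of an exponent. -/
def md (μ : Fin q × Fin p →₀ ℕ) : Fin q → ℕ := fun i => ∑ c, μ (i, c)

/-- The part of multidegree `a` in `y` of the polynomial `b`. -/
noncomputable def pt (a : Fin q → ℕ)
    (b : MvPolynomial (Fin q × Fin p) (MvPolynomial (Fin (N + 1)) K)) :
    MvPolynomial (Fin q × Fin p) (MvPolynomial (Fin (N + 1)) K) :=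
  open Classical in ∑ μ ∈ b.support.filter fun μ => md μ = a, monomial μ (coeff μ b)

end

/-! ### Bundles -/

/-- A principal bundle over `A` for the group `𝔾_m ^ q`. For `i < q` the matrix of the forms `ζ i b c`
of degree `e i` has rank one at every point of `A`. A point of the bundle over the point `P` of `A`
with the coordinates `x` is given by nonzero multiples `y i` of the columns of the matrices `ζ i` at
`x`; for `c ≠ 0` the points `(x, y)` and `(c x, c ^ k i y i)` are the same. -/
structure Bun {K : Type u} [Field K] {N : ℕ} (A : AV K N) (q p p' : ℕ) where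
  /-- The forms. -/
  ζ : Fin q → Fin p → Fin p' → MvPolynomial (Fin (N + 1)) K
  /-- Their degrees. -/
  e : Fin q → ℕ
  /-- The twists. -/
  k : Fin q → ℕ
  hom : ∀ i b c, (ζ i b c).IsHomogeneous (e i)
  rk : ∀ i b b' c c', ζ i b c * ζ i b' c' - ζ i b c' * ζ i b' c ∈ A.I
  ne : ∀ (i : Fin q) (L : Type u) [Field L] [Algebra K L] (P : A.Pts L),
    ∃ b c, aeval (A.x P) (ζ i b c) ≠ 0

section

variable {K : Type u} [Field K] {N q p p' m : ℕ} {A : AV K N} (B : Bun A q p p')

/-- `y` is a point of the bundle over `P`. -/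
def Bun.On {L : Type u} [Field L] [Algebra K L] (P : A.Pts L) (y : Fin q × Fin p → L) : Prop :=
  ∀ i, (∃ b, y (i, b) ≠ 0) ∧ ∀ b b' c,
    y (i, b) * aeval (A.x P) (B.ζ i b' c) = y (i, b') * aeval (A.x P) (B.ζ i b c)

/-- `b` is weighted homogeneous of degree `D`: the coordinates of `A` have the weight one, the
coordinates `y (i, c)` have the weight `k i`. -/
def Bun.WH (D : ℕ) (b : MvPolynomial (Fin q × Fin p) (MvPolynomial (Fin (N + 1)) K)) : Prop :=
  ∀ μ, coeff μ b ≠ 0 → ∃ δ : ℕ, (coeff μ b).IsHomogeneous δ ∧ δ + ∑ i, B.k i.1 * μ i = D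

/-- `b` vanishes identically on the bundle. -/
def Bun.Van (b : MvPolynomial (Fin q × Fin p) (MvPolynomial (Fin (N + 1)) K)) : Prop :=
  ∀ (L : Type u) [Field L] [Algebra K L] (P : A.Pts L) (y : Fin q × Fin p → L),
    B.On P y → ev P y b = 0

/-- The multidegrees of the parts of the polynomials `g k` which do not vanish identically on the
bundle. -/
def Bun.New (g : Fin m → MvPolynomial (Fin q × Fin p) (MvPolynomial (Fin (N + 1)) K)) :
    Set (Fin q → ℕ) :=
  {a | ∃ k, ¬ B.Van (pt a (g k))}

/-- The support function of the convex hull of `B.New g`. -/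
noncomputable def Bun.sup (g : Fin m → MvPolynomial (Fin q × Fin p) (MvPolynomial (Fin (N + 1)) K))
    (τ : Fin q → ℝ) : ℝ :=
  ⨆ a : B.New g, ∑ i, (a.1 i : ℝ) * τ i

/-- The transcendence degree over `K` of the point `(P, y)` of the bundle. -/
noncomputable def Bun.td {F : Type u} [Field F] [Algebra K F] (P : A.Pts F)
    (y : Fin q × Fin p → F) : Cardinal.{u} :=
  Algebra.trdeg K (IntermediateField.adjoin K
    ((Set.range fun z : Fin (N + 1) × Fin (N + 1) => A.x P z.1 / A.x P z.2) ∪
      Set.range fun z : (Fin q × Fin p) × Fin (N + 1) => y z.1 / A.x P z.2 ^ B.k z.1.1))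

/-- The common zeros of the `g k` in the bundle have codimension at least two. -/
def Bun.CodTwo (g : Fin m → MvPolynomial (Fin q × Fin p) (MvPolynomial (Fin (N + 1)) K)) : Prop :=
  ∀ (F : Type u) [Field F] [Algebra K F] (P : A.Pts F) (y : Fin q × Fin p → F), B.On P y →
    (∀ k, ev P y (g k) = 0) →
    ∃ (F' : Type u) (_ : Field F') (_ : Algebra K F') (Q : A.Pts F'),
      B.td P y + 2 ≤ tdeg K (A.x Q) + q

/-- The logarithm of the norm of `y i`. -/
noncomputable def Bun.tau {L : Type u} [Field L] [Algebra K L] (v : AbsoluteValue L ℝ)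
    (P : A.Pts L) (y : Fin q × Fin p → L) (i : Fin q) : ℝ :=
  Real.log (⨆ c, v (y (i, c))) - B.k i * Real.log (⨆ j, v (A.x P j))

/-- The local height of the point `(P, y)` with respect to the closed subscheme `g 0 = g 1 = ... = 0`,
the polynomials `g k` being weighted homogeneous of degree `D`. -/
noncomputable def Bun.loc {L : Type u} [Field L] [Algebra K L] (v : AbsoluteValue L ℝ) (D : ℕ)
    (g : Fin m → MvPolynomial (Fin q × Fin p) (MvPolynomial (Fin (N + 1)) K)) (P : A.Pts L)
    (y : Fin q × Fin p → L) : ℝ :=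
  D * Real.log (⨆ j, v (A.x P j)) + B.sup g (B.tau v P y) - Real.log (⨆ k, v (ev P y (g k)))

/-- The height of `y i`. -/
noncomputable def Bun.ht [NumberField K] (P : A.Pts K) (y : Fin q × Fin p → K) (i : Fin q) : ℝ :=
  logHeight (Sum.elim (fun j => A.x P j ^ B.k i) fun c => y (i, c))

/-- The part outside `S` of the height of the point `(P, y)` with respect to the boundary. -/
noncomputable def Bun.NS [NumberField K] (S : Finset (NumberField.FinitePlace K)) (P : A.Pts K)
    (y : Fin q × Fin p → K) : ℝ :=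
  ∑ i, ∑ᶠ v : {v : NumberField.FinitePlace K // v ∉ S}, |B.tau v.1.val P y i|

end

/-! ### Semiabelian varieties -/

/-- The semiabelian variety of the points `(P, y)`, `y i` coordinates of `P + a i`. -/
noncomputable def semiZ {K : Type u} [Field K] {N : ℕ} (A : AV K N) (a : A.Pts K)
    (b c : Fin (N + 1)) : MvPolynomial (Fin (N + 1)) K :=
  aeval (Sum.elim X fun i => C (A.x a i)) (A.S b c)

end Pool.Agent.Lib.MP_17a322_nt.SV3
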