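import Pool.Agent.Lib.MP_17a322_nt.SV3.Defs
import Pool.Agent.Lib.MP_17a322_nt.SV2.Defs
import Pool.Agent.Lib.MP_17a322_nt.TB.T0
import Pool.Agent.Lib.MP_17a322_nt.VJ.Defs

/-!
Vojta's inequality over principal torus bundles over `A`: definitions used in the proof.
-/

universe u

namespace Pool.Agent.Lib.MP_17a322_nt.SV3

open MvPolynomial Height
open Pool.Agent.Lib.MP_17a322_nt.VA
open Pool.Agent.Lib.MP_17a322_nt.SL
open Pool.Agent.Lib.MP_17a322_nt.SV2 (Box Rw Cf Tm fs sp ps)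

section

variable {K : Type u} [Field K] {N q p p' m : ℕ} {A : AV K N} (B : Bun A q p p')

/-- The columns `ch i` of the matrices `ζ i` do not vanish identically on `A`. -/
def Bun.Ch (ch : Fin q → Fin p') : Prop := ∀ i, ∃ b, B.ζ i b (ch i) ∉ A.I

/-- The point `P` is in the chart `ch`. -/
def Bun.In (ch : Fin q → Fin p') {L : Type u} [Field L] [Algebra K L] (P : A.Pts L) : Prop :=
  ∀ i, ∃ b, aeval (A.x P) (B.ζ i b (ch i)) ≠ 0

/-- The point `(P, y)` with `y i = t i η i (P)`. -/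
noncomputable def Bun.yt (ch : Fin q → Fin p') {L : Type u} [Field L] [Algebra K L] (P : A.Pts L)
    (t : Fin q → L) (i : Fin q × Fin p) : L :=
  t i.1 * aeval (A.x P) (B.ζ i.1 i.2 (ch i.1))

/-- The polynomial `b` at `y i = t i η i`, a polynomial in `t`. -/
noncomputable def Bun.gen (ch : Fin q → Fin p')
    (b : MvPolynomial (Fin q × Fin p) (MvPolynomial (Fin (N + 1)) K)) :
    MvPolynomial (Fin q) (MvPolynomial (Fin (N + 1)) K) :=
  TB.spR (RingHom.id _) (fun i => B.ζ i.1 i.2 (ch i.1)) b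

/-- The bundle with the chart `ch`. -/
noncomputable def Bun.tor (ch : Fin q → Fin p') (h : B.Ch ch) : TB.Tor A q p where
  η i b := B.ζ i b (ch i)
  e := B.e
  k := B.k
  hom i b := B.hom i b (ch i)
  ne := h

/-- The logarithm of the norm of `η i` for the chart `ch`. -/
noncomputable def Bun.lr (ch : Fin q → Fin p') {L : Type u} [Field L] [Algebra K L]
    (v : AbsoluteValue L ℝ) (P : A.Pts L) (i : Fin q) : ℝ :=
  Real.log (⨆ b, v (aeval (A.x P) (B.ζ i b (ch i)))) - B.k i * Real.log (⨆ j, v (A.x P j))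

/-- The polynomials `Q i = t ^ (- o) (gen (g i))` without the coefficients that vanish on `A`. -/
structure Bun.Red (ch : Fin q → Fin p') (D : ℕ)
    (g : Fin 2 → MvPolynomial (Fin q × Fin p) (MvPolynomial (Fin (N + 1)) K)) where
  /-- The smallest exponents. -/
  o : Fin q → ℕ
  /-- The degrees. -/
  d : Fin q → ℕ
  /-- The polynomials. -/
  Q : Fin 2 → MvPolynomial (Fin q) (MvPolynomial (Fin (N + 1)) K)
  hch : B.Ch ch
  wh : ∀ i, B.WH D (g i)
  new : ∀ i, B.New (fun _ : Fin 1 => g i) = B.New g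
  lo : ∀ a ∈ B.New g, ∀ j, o j ≤ a j
  hi : ∀ a ∈ B.New g, ∀ j, a j ≤ o j + d j
  hi' : ∀ j, ∃ a ∈ B.New g, a j = o j + d j
  lo' : ∀ j, ∃ a ∈ B.New g, a j = o j
  co : ∀ i a, (a + o) ∈ B.New g → coeff (fs a) (Q i) = coeff (fs (a + o)) (B.gen ch (g i))
  co' : ∀ i a, (a + o) ∉ B.New g → coeff (fs a) (Q i) = 0
  cop : ∃ (L : Type u) (_ : Field L) (_ : IsAlgClosed L) (_ : Algebra K L) (P : A.Pts L),
    Gen A P ∧ IsRelPrime (sp A P (Q 0)) (sp A P (Q 1))

/-- The logarithm of the Gauss norm of the coefficients of the `Q i` with the weights given by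
`B.lr`. -/
noncomputable def Bun.lW (ch : Fin q → Fin p') (d : Fin q → ℕ)
    (Q : Fin 2 → MvPolynomial (Fin q) (MvPolynomial (Fin (N + 1)) K))
    {L : Type u} [Field L] [Algebra K L] (v : AbsoluteValue L ℝ) (P : A.Pts L) : ℝ :=
  Real.log (⨆ z : Fin 2 × Cf q d, v (aeval (A.x P) (coeff (fs fun j => (z.2 j : ℕ)) (Q z.1))) *
    Real.exp (-∑ i, (z.2 i : ℝ) * B.lr ch v P i))

/-- The forms that define the lines: `x_j ^ ex η ^ μ` for `μ` of multidegree `b`. -/
noncomputable def Bun.w (ch : Fin q → Fin p') (M : ℕ) (z : Fin 2 × Box q M)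
    (κ : TB.Kp N q p M) : MvPolynomial (Fin (N + 1)) K :=
  open Classical in
  if TB.Mt z.2 κ.2 then X κ.1 ^ TB.ex B.k z.2 * ∏ i, B.ζ i.1 i.2 (ch i.1) ^ (κ.2 i : ℕ) else 0

/-- The vector of the `x_j ^ ex y ^ μ Z_i`. -/
noncomputable def Bun.Y {R : Type*} [CommRing R] (M : ℕ) (x : Fin (N + 1) → R)
    (y : Fin q × Fin p → R) (Z : Fin 2 → R) (z : (Fin 2 × Box q M) × TB.Kp N q p M) : R :=
  TB.phi B.k M x y Z (z.1.2, z.2, z.1.1)

/-- The coordinates `(i, a)` with `i = 1` or `a` not in `c + Rw q M d`. -/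
def Jv (M : ℕ) (d : Fin q → ℕ) (c : Fin q → ℕ) : Finset (Fin 2 × Box q M) :=
  open Classical in
  Finset.univ.filter fun z =>
    ¬ (z.1 = 0 ∧ ∃ b : Rw q M d, ∀ j, (z.2 j : ℕ) = (b.1 j : ℕ) + c j)

end

/-! ### Twisted bundles -/

section

variable {K : Type u} [Field K] {N : ℕ} (A : AV K N) {γ ι κ σ : Type} [Fintype ι] [Fintype κ]

/-- The exceptional forms for the vectors `w p c * Z p`, `Z` in the kernel of `G`. -/
def ExcX (w : ι → κ → MvPolynomial (Fin (N + 1)) K) (G : γ → ι → MvPolynomial (Fin (N + 1)) K)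
    (F : MvPolynomial (Fin (N + 1) ⊕ (ι × κ)) K) : Prop :=
  (∃ a b : ℕ, ∀ m ∈ F.support, ∑ i, m (Sum.inl i) = a ∧ ∑ x, m (Sum.inr x) = b) ∧
  ∀ (L : Type u) [Field L] [IsAlgClosed L] [Algebra K L] (P : A.Pts L), Gen A P →
    ∃ (c : L) (m : ℕ) (y : Fin m → ι × κ → L), c ≠ 0 ∧
      (∀ k, ∃ Z : ι → L, (∀ i, ∑ p, aeval (A.x P) (G i p) * Z p = 0) ∧
        ∑ x, y k x * (aeval (A.x P) (w x.1 x.2) * Z x.1) ≠ 0) ∧
      aeval (Sum.elim (fun i => (C (A.x P i) : MvPolynomial (ι × κ) L)) X) F =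
        C c * ∏ k, ∑ x, C (y k x) * X x

/-- The rows of `G` and the linear forms `Λ j`, `j ∈ T`, restricted to the vectors `w p c * Z p`, are
linearly independent. -/
def IndX (w : ι → κ → MvPolynomial (Fin (N + 1)) K) (G : γ → ι → MvPolynomial (Fin (N + 1)) K)
    (Λ : σ → ι × κ → MvPolynomial (Fin (N + 1)) K) (T : Finset σ) : Prop :=
  ∀ (L : Type u) [Field L] [Algebra K L] (P : A.Pts L), Gen A P →
    LinearIndependent L (Sum.elim (fun (i : γ) (p : ι) => aeval (A.x P) (G i p))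
      fun (j : T) (p : ι) => ∑ c, aeval (A.x P) (Λ j (p, c)) * aeval (A.x P) (w p c))

end

end Pool.Agent.Lib.MP_17a322_nt.SV3
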