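import Pool.Agent.Lib.MP_17a322_nt.SV3.A1

/-!
The reduced polynomials.
-/

universe u

namespace Pool.Agent.Lib.MP_17a322_nt.SV3

open MvPolynomial Height
open Pool.Agent.Lib.MP_17a322_nt.VA
open Pool.Agent.Lib.MP_17a322_nt.SL
open Pool.Agent.Lib.MP_17a322_nt.SV2 (fs sp)

section

variable {K : Type u} [Field K] {N q p p' m : ℕ} {A : AV K N} {B : Bun A q p p'}

theorem R1_fs {q : ℕ} (m : Fin q →₀ ℕ) : m = fs fun i => m i := by
  unfold fs
  ext i
  rfl

theorem R1_fs_apply {q : ℕ} (a : Fin q → ℕ) (i : Fin q) : fs a i = a i := rfl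

theorem R1_sp_coeff {L : Type u} [Field L] [Algebra K L] (P : A.Pts L)
    (Q : MvPolynomial (Fin q) (MvPolynomial (Fin (N + 1)) K)) (a : Fin q →₀ ℕ) :
    coeff a (sp A P Q) = aeval (A.x P) (coeff a Q) := by
  unfold SV2.sp
  rw [coeff_map]
  rfl

theorem R1_new {D : ℕ} {ch : Fin q → Fin p'}
    {g : Fin 2 → MvPolynomial (Fin q × Fin p) (MvPolynomial (Fin (N + 1)) K)}
    (R : B.Red ch D g) (i : Fin 2) (a : Fin q → ℕ) :
    a ∈ B.New g ↔ coeff (fs a) (B.gen ch (g i)) ∉ A.I := by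
  rw [← R.new i, A_new B R.hch (fun _ => R.wh i) a]
  exact ⟨fun ⟨_, h⟩ => h, fun h => ⟨0, h⟩⟩

theorem R1_pt {L : Type u} [Field L] [Algebra K L] (P : A.Pts L)
    {f : MvPolynomial (Fin (N + 1)) K} (hf : f ∈ A.I) : aeval (A.x P) f = 0 :=
  P.2 f hf

/-- `t ^ o * Q i = gen (g i)` over every point. -/
theorem R1_key {D : ℕ} {ch : Fin q → Fin p'}
    {g : Fin 2 → MvPolynomial (Fin q × Fin p) (MvPolynomial (Fin (N + 1)) K)}
    (R : B.Red ch D g) {L : Type u} [Field L] [Algebra K L] (P : A.Pts L) (i : Fin 2) :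
    sp A P (R.Q i) * monomial (fs R.o) 1 = sp A P (B.gen ch (g i)) := by
  classical
  ext b
  rw [coeff_mul_monomial', R1_sp_coeff, R1_sp_coeff, mul_one]
  by_cases h1 : fs R.o ≤ b
  · rw [if_pos h1]
    have h2 : b = fs ((fun j => b j - R.o j) + R.o) := by
      ext j
      rw [R1_fs_apply, Pi.add_apply]
      exact (Nat.sub_add_cancel (h1 j)).symm
    have h3 : b - fs R.o = fs fun j => b j - R.o j := by
      ext j
      rw [Finsupp.tsub_apply, R1_fs_apply, R1_fs_apply]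
    rw [h3]
    by_cases h4 : ((fun j => b j - R.o j) + R.o) ∈ B.New g
    · rw [R.co i _ h4, ← h2]
    · rw [R.co' i _ h4, map_zero]
      have h5 := mt (R1_new R i _).2 h4
      rw [not_not, ← h2] at h5
      exact (R1_pt P h5).symm
  · rw [if_neg h1]
    have h4 : (fun j => b j) ∉ B.New g := fun h => h1 fun j => R.lo _ h j
    have h5 := mt (R1_new R i _).2 h4
    rw [not_not, ← R1_fs] at h5
    exact (R1_pt P h5).symm

variable (B)

theorem R_eval {D : ℕ} {ch : Fin q → Fin p'}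
    {g : Fin 2 → MvPolynomial (Fin q × Fin p) (MvPolynomial (Fin (N + 1)) K)}
    (R : B.Red ch D g) {L : Type u} [Field L] [Algebra K L] (P : A.Pts L) (t : Fin q → L)
    (i : Fin 2) :
    eval t (sp A P (R.Q i)) * ∏ j, t j ^ R.o j = ev P (B.yt ch P t) (g i) := by
  rw [A_ev, ← R1_key R P i, map_mul, eval_monomial, one_mul,
    Finsupp.prod_fintype _ _ fun i => pow_zero _]
  rfl

theorem R_deg {D : ℕ} {ch : Fin q → Fin p'}
    {g : Fin 2 → MvPolynomial (Fin q × Fin p) (MvPolynomial (Fin (N + 1)) K)}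
    (R : B.Red ch D g) (i : Fin 2) (j : Fin q) : degreeOf j (R.Q i) ≤ R.d j := by
  rw [degreeOf_le_iff]
  intro a ha
  have h1 : ((fun j => a j) + R.o) ∈ B.New g := by
    by_contra h
    rw [mem_support_iff, R1_fs a] at ha
    exact ha (R.co' i _ h)
  have h2 := R.hi _ h1 j
  rw [Pi.add_apply] at h2
  omega

theorem R_hom {D : ℕ} {ch : Fin q → Fin p'}
    {g : Fin 2 → MvPolynomial (Fin q × Fin p) (MvPolynomial (Fin (N + 1)) K)}
    (R : B.Red ch D g) (i : Fin 2) (a : Fin q →₀ ℕ) (ha : coeff a (R.Q i) ≠ 0) :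
    ∃ μ : ℕ, (coeff a (R.Q i)).IsHomogeneous μ ∧
      μ + ∑ j, B.k j * (a j + R.o j) = D + ∑ j, B.e j * (a j + R.o j) := by
  have h1 : ((fun j => a j) + R.o) ∈ B.New g := by
    by_contra h
    rw [R1_fs a] at ha
    exact ha (R.co' i _ h)
  have h2 := R.co i _ h1
  rw [← R1_fs a] at h2
  rw [h2] at ha ⊢
  exact A_hom B (R.wh i) _ ha

theorem R_ne {D : ℕ} {ch : Fin q → Fin p'}
    {g : Fin 2 → MvPolynomial (Fin q × Fin p) (MvPolynomial (Fin (N + 1)) K)}
    (R : B.Red ch D g) {L : Type u} [Field L] [Algebra K L] {P : A.Pts L} (hP : Gen A P)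
    (i : Fin 2) (a : Fin q → ℕ) :
    coeff (fs a) (sp A P (R.Q i)) ≠ 0 ↔ (a + R.o) ∈ B.New g := by
  rw [R1_sp_coeff]
  constructor
  · intro h
    by_contra h1
    rw [R.co' i _ h1, map_zero] at h
    exact h rfl
  · intro h h0
    rw [R.co i _ h] at h0
    have h1 := (R1_new R i _).1 h
    have h2 : coeff (fs (a + R.o)) (B.gen ch (g i)) ≠ 0 := by
      intro h3
      rw [h3] at h1
      exact h1 A.I.zero_mem
    obtain ⟨δ, h3, -⟩ := A_hom B (R.wh i) _ h2
    exact h1 (hP _ _ h3 h0)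

theorem R_gdeg {D : ℕ} {ch : Fin q → Fin p'}
    {g : Fin 2 → MvPolynomial (Fin q × Fin p) (MvPolynomial (Fin (N + 1)) K)}
    (R : B.Red ch D g) {L : Type u} [Field L] [Algebra K L] {P : A.Pts L} (hP : Gen A P)
    (i : Fin 2) (j : Fin q) : degreeOf j (sp A P (R.Q i)) = R.d j := by
  apply le_antisymm
  · rw [degreeOf_le_iff]
    intro a ha
    rw [mem_support_iff, R1_fs a] at ha
    have h1 := R.hi _ ((R_ne B R hP i _).1 ha) j
    rw [Pi.add_apply] at h1
    omega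
  · obtain ⟨a, ha, hj⟩ := R.hi' j
    have h1 : a = (fun l => a l - R.o l) + R.o := by
      funext l
      rw [Pi.add_apply]
      exact (Nat.sub_add_cancel (R.lo a ha l)).symm
    rw [h1] at ha
    have h2 := (R_ne B R hP i _).2 ha
    have h3 := monomial_le_degreeOf j (mem_support_iff.2 h2)
    rw [R1_fs_apply] at h3
    omega

end

end Pool.Agent.Lib.MP_17a322_nt.SV3
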