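import Pool.Agent.Lib.MP_17a322_nt.SV3.Defs2
import Pool.Agent.Lib.MP_17a322_nt.SV2.GL

/-!
Vojta's inequality over principal torus bundles over `A`: the Gauss lemma with weights.
-/

universe u

namespace Pool.Agent.Lib.MP_17a322_nt.SV3

open MvPolynomial Height
open Pool.Agent.Lib.MP_17a322_nt.VJ
open Pool.Agent.Lib.MP_17a322_nt.SV2 (Box Rw Cf Tm fs)

section

variable {q : ℕ} {K : Type u} [Field K]

/-- The polynomial `g (s_1 X_1, ..., s_q X_q)`. -/
noncomputable def T1sc (s : Fin q → K) (g : MvPolynomial (Fin q) K) : MvPolynomial (Fin q) K :=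
  ∑ m ∈ g.support, monomial m (coeff m g * ∏ j, s j ^ m j)

theorem T1sc_coeff (s : Fin q → K) (g : MvPolynomial (Fin q) K) (m : Fin q →₀ ℕ) :
    coeff m (T1sc s g) = coeff m g * ∏ j, s j ^ m j := by
  classical
  unfold T1sc
  rw [coeff_sum]
  simp only [coeff_monomial]
  rw [Finset.sum_ite_eq' g.support m]
  by_cases h : m ∈ g.support
  · rw [if_pos h]
  · rw [if_neg h, notMem_support_iff.1 h, zero_mul]

theorem T1sc_degreeOf {s : Fin q → K} {g : MvPolynomial (Fin q) K} {j : Fin q} {e : ℕ}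
    (hg : degreeOf j g ≤ e) : degreeOf j (T1sc s g) ≤ e := by
  rw [degreeOf_le_iff]
  intro m hm
  rw [mem_support_iff, T1sc_coeff] at hm
  have h1 : coeff m g ≠ 0 := left_ne_zero_of_mul hm
  exact (monomial_le_degreeOf j (mem_support_iff.2 h1)).trans hg

theorem T1sc_entry (s : Fin q → K) (hs : ∀ j, s j ≠ 0) (M : ℕ) (d : Fin q → ℕ)
    (g : Fin 2 → MvPolynomial (Fin q) K) (b : Rw q M d) (p : Fin 2 × Box q M) :
    Tm M d (fun i => T1sc s (g i)) b p =
      (∏ j, (s j)⁻¹ ^ (b.1 j : ℕ)) * (Tm M d g b p * ∏ j, s j ^ (p.2 j : ℕ)) := by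
  classical
  obtain ⟨i, a⟩ := p
  have key : ∀ G : MvPolynomial (Fin q) K,
      coeff (fs fun j => (a j : ℕ)) (monomial (fs fun j => (b.1 j : ℕ)) 1 * T1sc s G) =
        (∏ j, (s j)⁻¹ ^ (b.1 j : ℕ)) *
          (coeff (fs fun j => (a j : ℕ)) (monomial (fs fun j => (b.1 j : ℕ)) 1 * G) *
            ∏ j, s j ^ (a j : ℕ)) := by
    intro G
    simp only [coeff_monomial_mul', one_mul]
    by_cases h : fs (fun j => (b.1 j : ℕ)) ≤ fs (fun j => (a j : ℕ))
    · rw [if_pos h, if_pos h, T1sc_coeff]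
      have h1 : ∏ j, s j ^ ((fs (fun j => (a j : ℕ)) - fs (fun j => (b.1 j : ℕ)) :
          Fin q →₀ ℕ) j) =
          (∏ j, (s j)⁻¹ ^ (b.1 j : ℕ)) * ∏ j, s j ^ (a j : ℕ) := by
        rw [← Finset.prod_mul_distrib]
        refine Finset.prod_congr rfl fun j _ => ?_
        have h2 : (b.1 j : ℕ) ≤ a j := h j
        show s j ^ ((a j : ℕ) - (b.1 j : ℕ)) = _
        rw [inv_pow, inv_mul_eq_div, pow_sub₀ _ (hs j) h2, div_eq_mul_inv]
      rw [h1]
      ring
    · rw [if_neg h, if_neg h]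
      ring
  fin_cases i
  · exact key (g 1)
  · show coeff (fs fun j => (a j : ℕ))
        (monomial (fs fun j => (b.1 j : ℕ)) 1 * -T1sc s (g 0)) = _ *
          (coeff (fs fun j => (a j : ℕ)) (monomial (fs fun j => (b.1 j : ℕ)) 1 * -g 0) * _)
    rw [mul_neg, coeff_neg, key (g 0), mul_neg, coeff_neg]
    ring

theorem T1sc_det (s : Fin q → K) (hs : ∀ j, s j ≠ 0) (M : ℕ) (d : Fin q → ℕ)
    (g : Fin 2 → MvPolynomial (Fin q) K) (e : Rw q M d ↪ Fin 2 × Box q M) :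
    ((Tm M d fun i => T1sc s (g i)).submatrix id e).det =
      (∏ b : Rw q M d, ∏ j, (s j)⁻¹ ^ (b.1 j : ℕ)) *
        ((∏ b, ∏ j, s j ^ ((e b).2 j : ℕ)) * ((Tm M d g).submatrix id e).det) := by
  classical
  rw [← Matrix.det_mul_row, ← Matrix.det_mul_column]
  congr 1
  ext b b'
  simp only [Matrix.submatrix_apply, Matrix.of_apply, id_eq]
  rw [T1sc_entry s hs]
  ring

theorem T1_log_prod (v : AbsoluteValue K ℝ) {s : Fin q → K} (hs : ∀ j, s j ≠ 0) (a : Fin q → ℕ) :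
    Real.log (v (∏ j, s j ^ a j)) = ∑ j, (a j : ℝ) * Real.log (v (s j)) := by
  rw [map_prod, Real.log_prod fun j _ => by
    rw [map_pow]; exact (pow_pos (v.pos (hs j)) _).ne']
  refine Finset.sum_congr rfl fun j _ => ?_
  rw [map_pow, Real.log_pow]

end

/-- From the Gauss lemma at a place to the Gauss lemma with weights at this place. -/
theorem T1_place {q : ℕ} (M : ℕ) (d : Fin q → ℕ) {K : Type u} [Field K] (v : AbsoluteValue K ℝ)
    {κ : ℝ} (hκ : 0 < κ)
    (h : ∀ g : Fin 2 → MvPolynomial (Fin q) K, (∀ i j, degreeOf j (g i) ≤ d j) →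
      κ * (⨆ z : Fin 2 × Cf q d, v (coeff (fs fun j => (z.2 j : ℕ)) (g z.1))) ^
        Fintype.card (Rw q M d) ≤
      ⨆ e : Rw q M d ↪ Fin 2 × Box q M, v (((Tm M d g).submatrix id e).det))
    (g : Fin 2 → MvPolynomial (Fin q) K) (hg : ∀ i j, degreeOf j (g i) ≤ d j) (hg0 : g ≠ 0)
    (r : Fin q → K) (hr : ∀ j, r j ≠ 0) :
    ∃ e : Rw q M d ↪ Fin 2 × Box q M, ((Tm M d g).submatrix id e).det ≠ 0 ∧
      (Fintype.card (Rw q M d) : ℝ) * Real.log (⨆ z : Fin 2 × Cf q d,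
          v (coeff (fs fun j => (z.2 j : ℕ)) (g z.1)) *
            Real.exp (-∑ j, (z.2 j : ℝ) * Real.log (v (r j)))) +
        ∑ b, ∑ j, ((e b).2 j : ℝ) * Real.log (v (r j)) ≤
      Real.log (v ((Tm M d g).submatrix id e).det) +
        ∑ b : Rw q M d, ∑ j, (b.1 j : ℝ) * Real.log (v (r j)) + -Real.log κ := by
  classical
  have hs : ∀ j, (r j)⁻¹ ≠ 0 := fun j => inv_ne_zero (hr j)
  have hne : Nonempty (Rw q M d ↪ Fin 2 × Box q M) :=
    ⟨⟨fun b => (0, b.1), fun b b' h => Subtype.ext (congrArg Prod.snd h)⟩⟩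
  -- the coefficients
  have hco : ∀ z : Fin 2 × Cf q d,
      v (coeff (fs fun j => (z.2 j : ℕ)) (T1sc (fun j => (r j)⁻¹) (g z.1))) =
        v (coeff (fs fun j => (z.2 j : ℕ)) (g z.1)) *
          Real.exp (-∑ j, (z.2 j : ℝ) * Real.log (v (r j))) := by
    intro z
    rw [T1sc_coeff, map_mul]
    congr 1
    have h1 : 0 < v (∏ j, (r j)⁻¹ ^ (fs (fun j => (z.2 j : ℕ)) j)) :=
      v.pos (Finset.prod_ne_zero_iff.2 fun j _ => pow_ne_zero _ (hs j))
    rw [← Real.exp_log h1, T1_log_prod v hs, ← Finset.sum_neg_distrib]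
    congr 1
    refine Finset.sum_congr rfl fun j _ => ?_
    rw [map_inv₀, Real.log_inv]
    show ((z.2 j : ℕ) : ℝ) * _ = _
    ring
  have hg' : ∀ i j, degreeOf j (T1sc (fun j => (r j)⁻¹) (g i)) ≤ d j :=
    fun i j => T1sc_degreeOf (hg i j)
  have h1 := h (fun i => T1sc (fun j => (r j)⁻¹) (g i)) hg'
  simp only [hco] at h1
  -- the maximum is positive
  obtain ⟨i, hi⟩ := Function.ne_iff.1 hg0
  obtain ⟨m, hm⟩ := MvPolynomial.ne_zero_iff.1 hi
  obtain ⟨c, hc⟩ := SV2.GL_exists_fc (hg i) hm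
  have hpos : 0 < ⨆ z : Fin 2 × Cf q d, v (coeff (fs fun j => (z.2 j : ℕ)) (g z.1)) *
      Real.exp (-∑ j, (z.2 j : ℝ) * Real.log (v (r j))) := by
    have h2 : 0 < v (coeff (fs fun j => (c j : ℕ)) (g i)) := by
      have h3 : fs (fun j => (c j : ℕ)) = m := hc
      rw [h3]
      exact v.pos hm
    exact (mul_pos h2 (Real.exp_pos _)).trans_le (Finite.le_ciSup
      (fun z : Fin 2 × Cf q d => v (coeff (fs fun j => (z.2 j : ℕ)) (g z.1)) *
        Real.exp (-∑ j, (z.2 j : ℝ) * Real.log (v (r j)))) (i, c))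
  obtain ⟨e, he⟩ := exists_eq_ciSup_of_finite (f := fun e : Rw q M d ↪ Fin 2 × Box q M =>
    v (((Tm M d fun i => T1sc (fun j => (r j)⁻¹) (g i)).submatrix id e).det))
  rw [← he] at h1
  have hlt : 0 < v (((Tm M d fun i => T1sc (fun j => (r j)⁻¹) (g i)).submatrix id e).det) :=
    (mul_pos hκ (pow_pos hpos _)).trans_le h1
  have h2 := Real.log_le_log (mul_pos hκ (pow_pos hpos _)) h1
  rw [Real.log_mul hκ.ne' (pow_pos hpos _).ne', Real.log_pow] at h2
  rw [T1sc_det _ hs] at h2 hlt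
  have hne1 : (∏ b : Rw q M d, ∏ j, (r j)⁻¹⁻¹ ^ (b.1 j : ℕ)) ≠ 0 :=
    Finset.prod_ne_zero_iff.2 fun b _ => Finset.prod_ne_zero_iff.2 fun j _ =>
      pow_ne_zero _ (inv_ne_zero (hs j))
  have hne2 : (∏ b, ∏ j, (r j)⁻¹ ^ ((e b).2 j : ℕ)) ≠ 0 :=
    Finset.prod_ne_zero_iff.2 fun b _ => Finset.prod_ne_zero_iff.2 fun j _ =>
      pow_ne_zero _ (hs j)
  have hne3 : ((Tm M d g).submatrix id e).det ≠ 0 := by
    intro h0
    rw [h0, mul_zero, mul_zero, map_zero] at hlt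
    exact lt_irrefl _ hlt
  refine ⟨e, hne3, ?_⟩
  rw [map_mul, map_mul, Real.log_mul (v.pos hne1).ne' (mul_pos (v.pos hne2) (v.pos hne3)).ne',
    Real.log_mul (v.pos hne2).ne' (v.pos hne3).ne'] at h2
  have h3 : Real.log (v (∏ b : Rw q M d, ∏ j, (r j)⁻¹⁻¹ ^ (b.1 j : ℕ))) =
      ∑ b : Rw q M d, ∑ j, (b.1 j : ℝ) * Real.log (v (r j)) := by
    rw [map_prod, Real.log_prod fun b _ => (v.pos (Finset.prod_ne_zero_iff.2 fun j _ =>
      pow_ne_zero _ (inv_ne_zero (hs j)))).ne']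
    refine Finset.sum_congr rfl fun b _ => ?_
    rw [T1_log_prod v fun j => inv_ne_zero (hs j)]
    simp only [inv_inv]
  have h4 : Real.log (v (∏ b, ∏ j, (r j)⁻¹ ^ ((e b).2 j : ℕ))) =
      -∑ b, ∑ j, ((e b).2 j : ℝ) * Real.log (v (r j)) := by
    rw [map_prod, Real.log_prod fun b _ => (v.pos (Finset.prod_ne_zero_iff.2 fun j _ =>
      pow_ne_zero _ (hs j))).ne', ← Finset.sum_neg_distrib]
    refine Finset.sum_congr rfl fun b _ => ?_
    rw [T1_log_prod v hs, ← Finset.sum_neg_distrib]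
    refine Finset.sum_congr rfl fun j _ => ?_
    rw [map_inv₀, Real.log_inv]
    ring
  rw [h3, h4] at h2
  linarith

theorem T_gauss {q : ℕ} (M : ℕ) (d : Fin q → ℕ) (K : Type u) [Field K] [NumberField K] :
    ∃ c : AbsoluteValue K ℝ → ℝ, FS c ∧ (∀ v, 0 ≤ c v) ∧ ∀ v, Pl v →
      ∀ g : Fin 2 → MvPolynomial (Fin q) K, (∀ i j, degreeOf j (g i) ≤ d j) → g ≠ 0 →
      ∀ r : Fin q → K, (∀ j, r j ≠ 0) →
        ∃ e : Rw q M d ↪ Fin 2 × Box q M, ((Tm M d g).submatrix id e).det ≠ 0 ∧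
          (Fintype.card (Rw q M d) : ℝ) * Real.log (⨆ z : Fin 2 × Cf q d,
              v (coeff (fs fun j => (z.2 j : ℕ)) (g z.1)) *
                Real.exp (-∑ j, (z.2 j : ℝ) * Real.log (v (r j)))) +
            ∑ b, ∑ j, ((e b).2 j : ℝ) * Real.log (v (r j)) ≤
          Real.log (v ((Tm M d g).submatrix id e).det) +
            ∑ b : Rw q M d, ∑ j, (b.1 j : ℝ) * Real.log (v (r j)) + c v := by
  classical
  obtain ⟨κ, hκ, hinf⟩ := SV2.gauss_infinite K q M d
  refine ⟨fun v => if IsNonarchimedean v then 0 else max 0 (-Real.log κ), ?_, ?_, ?_⟩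
  · have h0 : ∀ v : AdmissibleAbsValues.nonarchAbsVal (K := K),
        (if IsNonarchimedean v.val then (0 : ℝ) else max 0 (-Real.log κ)) = 0 := by
      intro v
      rw [if_pos (AdmissibleAbsValues.isNonarchimedean v.val v.property)]
    simp [FS, h0]
  · intro v
    show 0 ≤ if IsNonarchimedean v then (0 : ℝ) else max 0 (-Real.log κ)
    split_ifs
    · exact le_rfl
    · exact le_max_left _ _
  · intro v hv g hg hg0 r hr
    show ∃ e : Rw q M d ↪ Fin 2 × Box q M, ((Tm M d g).submatrix id e).det ≠ 0 ∧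
          (Fintype.card (Rw q M d) : ℝ) * Real.log (⨆ z : Fin 2 × Cf q d,
              v (coeff (fs fun j => (z.2 j : ℕ)) (g z.1)) *
                Real.exp (-∑ j, (z.2 j : ℝ) * Real.log (v (r j)))) +
            ∑ b, ∑ j, ((e b).2 j : ℝ) * Real.log (v (r j)) ≤
          Real.log (v ((Tm M d g).submatrix id e).det) +
            ∑ b : Rw q M d, ∑ j, (b.1 j : ℝ) * Real.log (v (r j)) +
              if IsNonarchimedean v then (0 : ℝ) else max 0 (-Real.log κ)
    by_cases hna : IsNonarchimedean v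
    · rw [if_pos hna]
      obtain ⟨e, he, h⟩ := T1_place M d v one_pos (fun g hg => by
        rw [one_mul]
        exact SV2.GL_fin M d v hna g hg) g hg hg0 r hr
      refine ⟨e, he, ?_⟩
      rw [Real.log_one, neg_zero] at h
      exact h
    · rw [if_neg hna]
      have hv' : v ∈ AdmissibleAbsValues.archAbsVal (K := K) := by
        rcases hv with h | h
        · exact h
        · exact absurd (AdmissibleAbsValues.isNonarchimedean v h) hna
      have hw : NumberField.IsInfinitePlace v := NumberField.mem_multisetInfinitePlace.mp hv'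
      obtain ⟨e, he, h⟩ := T1_place M d v hκ (fun g hg => hinf ⟨v, hw⟩ g hg) g hg hg0 r hr
      refine ⟨e, he, h.trans ?_⟩
      have := le_max_right 0 (-Real.log κ)
      linarith

end Pool.Agent.Lib.MP_17a322_nt.SV3
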