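import Pool.Agent.Lib.MP_17a322_nt.SV3.N1
import Pool.Agent.Lib.MP_17a322_nt.SV3.R1
import Pool.Agent.Lib.MP_17a322_nt.SV3.T1
import Pool.Agent.Lib.MP_17a322_nt.VJ.A4

/-!
The height of the bundle.
-/

universe u

namespace Pool.Agent.Lib.MP_17a322_nt.SV3

open MvPolynomial Height
open Pool.Agent.Lib.MP_17a322_nt.VA
open Pool.Agent.Lib.MP_17a322_nt.VJ
open Pool.Agent.Lib.MP_17a322_nt.SL
open Pool.Agent.Lib.MP_17a322_nt.SV2 (Box Rw Cf Tm fs sp ps)

section

variable {K : Type u} [Field K] {N q p p' m : ℕ} {A : AV K N} (B : Bun A q p p')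

/-- The form that gives the largest coordinate of the line. -/
theorem E_w (ch : Fin q → Fin p') (M : ℕ) (P : A.Pts K) (a : Fin (N + 1)) (b : Fin q → Fin p)
    (z : Fin 2 × Box q M) :
    aeval (A.x P) (B.w ch M z (a, fun i => if i.2 = b i.1 then z.2 i.1 else 0)) =
      A.x P a ^ TB.ex B.k z.2 * ∏ i, aeval (A.x P) (B.ζ i (b i) (ch i)) ^ (z.2 i : ℕ) := by
  classical
  have hM : TB.Mt z.2 fun i : Fin q × Fin p => if i.2 = b i.1 then z.2 i.1 else 0 := by
    intro i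
    rw [Finset.sum_eq_single (b i)]
    · show ((if b i = b i then z.2 i else 0 : Fin (M + 1)) : ℕ) = _
      rw [if_pos rfl]
    · intro c _ hc
      show ((if c = b i then z.2 i else 0 : Fin (M + 1)) : ℕ) = _
      rw [if_neg hc]
      rfl
    · intro h
      exact absurd (Finset.mem_univ _) h
  unfold Bun.w
  rw [if_pos hM, map_mul, map_pow, aeval_X, map_prod, Fintype.prod_prod_type]
  congr 1
  refine Finset.prod_congr rfl fun i _ => ?_
  rw [Finset.prod_eq_single (b i)]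
  · rw [map_pow]
    show _ ^ ((if b i = b i then z.2 i else 0 : Fin (M + 1)) : ℕ) = _
    rw [if_pos rfl]
  · intro c _ hc
    rw [map_pow]
    show _ ^ ((if c = b i then z.2 i else 0 : Fin (M + 1)) : ℕ) = _
    rw [if_neg hc]
    exact pow_zero _
  · intro h
    exact absurd (Finset.mem_univ _) h

theorem E_lw (ch : Fin q → Fin p') (M : ℕ) (P : A.Pts K) (v : AbsoluteValue K ℝ)
    (a : Fin (N + 1)) (b : Fin q → Fin p) (ha : v (A.x P a) = ⨆ j, v (A.x P j))
    (ha0 : A.x P a ≠ 0)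
    (hb : ∀ i, v (aeval (A.x P) (B.ζ i (b i) (ch i))) =
      ⨆ c, v (aeval (A.x P) (B.ζ i c (ch i))))
    (hb0 : ∀ i, aeval (A.x P) (B.ζ i (b i) (ch i)) ≠ 0) (z : Fin 2 × Box q M) :
    aeval (A.x P) (B.w ch M z (a, fun i => if i.2 = b i.1 then z.2 i.1 else 0)) ≠ 0 ∧
    Real.log (v (aeval (A.x P) (B.w ch M z
        (a, fun i => if i.2 = b i.1 then z.2 i.1 else 0)))) =
      M * (∑ i, (B.k i : ℝ)) * Real.log (⨆ j, v (A.x P j)) +
        ∑ i, (z.2 i : ℝ) * B.lr ch v P i := by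
  rw [E_w]
  have h1 : A.x P a ^ TB.ex B.k z.2 ≠ 0 := pow_ne_zero _ ha0
  have h2 : ∏ i, aeval (A.x P) (B.ζ i (b i) (ch i)) ^ (z.2 i : ℕ) ≠ 0 :=
    Finset.prod_ne_zero_iff.2 fun i _ => pow_ne_zero _ (hb0 i)
  refine ⟨mul_ne_zero h1 h2, ?_⟩
  rw [map_mul, Real.log_mul (v.pos h1).ne' (v.pos h2).ne', map_pow, Real.log_pow, map_prod,
    Real.log_prod fun i _ => (v.pos (pow_ne_zero _ (hb0 i))).ne', ha]
  have h3 : ∀ i, Real.log (v (aeval (A.x P) (B.ζ i (b i) (ch i)) ^ (z.2 i : ℕ))) =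
      (z.2 i : ℝ) * B.lr ch v P i +
        (z.2 i : ℝ) * (B.k i * Real.log (⨆ j, v (A.x P j))) := by
    intro i
    rw [map_pow, Real.log_pow, hb i]
    unfold Bun.lr
    ring
  have h4 : ((TB.ex B.k z.2 : ℕ) : ℝ) = ∑ i, (B.k i : ℝ) * (M - z.2 i) := by
    unfold TB.ex
    rw [Nat.cast_sum]
    refine Finset.sum_congr rfl fun i _ => ?_
    rw [Nat.cast_mul, Nat.cast_sub (Nat.lt_succ_iff.1 (z.2 i).2)]
  rw [Finset.sum_congr rfl fun i _ => h3 i, Finset.sum_add_distrib, h4, Finset.sum_mul,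
    Finset.mul_sum, Finset.sum_mul]
  have h5 : ∑ i, (B.k i : ℝ) * (M - (z.2 i : ℝ)) * Real.log (⨆ j, v (A.x P j)) +
      ∑ i, (z.2 i : ℝ) * (B.k i * Real.log (⨆ j, v (A.x P j))) =
      ∑ i, (M : ℝ) * B.k i * Real.log (⨆ j, v (A.x P j)) := by
    rw [← Finset.sum_add_distrib]
    refine Finset.sum_congr rfl fun i _ => ?_
    ring
  linarith

/-- The matrix at a point. -/
theorem E_Tm (P : A.Pts K) (M : ℕ) (d : Fin q → ℕ)
    (Q : Fin 2 → MvPolynomial (Fin q) (MvPolynomial (Fin (N + 1)) K)) (b : Rw q M d)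
    (z : Fin 2 × Box q M) :
    aeval (A.x P) (Tm M d Q b z) = Tm M d (fun i => sp A P (Q i)) b z := by
  unfold Tm sp
  rw [Matrix.of_apply, Matrix.of_apply]
  have h1 : (![MvPolynomial.map (aeval (A.x P)).toRingHom (Q 1),
      - MvPolynomial.map (aeval (A.x P)).toRingHom (Q 0)] : Fin 2 → MvPolynomial (Fin q) K) z.1 =
      MvPolynomial.map (aeval (A.x P)).toRingHom ((![Q 1, - Q 0] : Fin 2 → _) z.1) := by
    rcases z with ⟨i, z⟩
    fin_cases i
    · rfl
    · show - MvPolynomial.map _ (Q 0) = MvPolynomial.map _ (- Q 0)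
      rw [map_neg]
  rw [h1]
  have h2 : (monomial (fs fun j => (b.1 j : ℕ)) (1 : K)) *
      MvPolynomial.map (aeval (A.x P)).toRingHom ((![Q 1, - Q 0] : Fin 2 → _) z.1) =
      MvPolynomial.map (aeval (A.x P)).toRingHom
        ((monomial (fs fun j => (b.1 j : ℕ)) 1) * (![Q 1, - Q 0] : Fin 2 → _) z.1) := by
    rw [map_mul, map_monomial]
    congr 2
    exact (map_one _).symm
  rw [h2, coeff_map]
  rfl

theorem E_deg (P : A.Pts K) {Q : MvPolynomial (Fin q) (MvPolynomial (Fin (N + 1)) K)} {d : ℕ}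
    {j : Fin q} (h : degreeOf j Q ≤ d) : degreeOf j (sp A P Q) ≤ d := by
  rw [degreeOf_le_iff] at h ⊢
  intro m hm
  exact h m (support_map_subset _ _ hm)

end

section

variable {K : Type u} [Field K] [NumberField K] {N q p p' m : ℕ} {A : AV K N}
  (B : Bun A q p p')

theorem E_card (M : ℕ) (i : Fin q) :
    ∑ z : Fin 2 × Box q M, ((z.2 i : ℕ) : ℝ) = 2 * ∑ a : Box q M, ((a i : ℕ) : ℝ) := by
  rw [Fintype.sum_prod_type]
  show ∑ _ : Fin 2, ∑ a : Box q M, ((a i : ℕ) : ℝ) = _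
  rw [Finset.sum_const, Finset.card_univ, Fintype.card_fin, nsmul_eq_mul, Nat.cast_ofNat]

theorem E_main {D : ℕ} {ch : Fin q → Fin p'}
    {g : Fin 2 → MvPolynomial (Fin q × Fin p) (MvPolynomial (Fin (N + 1)) K)}
    (R : B.Red ch D g) (M : ℕ) :
    ∃ C : ℝ, ∀ P : A.Pts K, B.In ch P → (∀ i, sp A P (R.Q i) ≠ 0) →
      (2 * ((M : ℝ) + 1) ^ q - Fintype.card (Rw q M R.d)) * M * (∑ i, (B.k i : ℝ)) *
          logHeight (A.x P) +
        ∑ i, (2 * ∑ a : Box q M, (a i : ℝ) - ∑ b : Rw q M R.d, (b.1 i : ℝ)) *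
          gs (fun v => B.lr ch v P i) +
        Fintype.card (Rw q M R.d) * gs (fun v => B.lW ch R.d R.Q v P) - C ≤
      logHeight (fun z : (Rw q M R.d ↪ Fin 2 × Box q M) ×
          (Fin 2 × Box q M → TB.Kp N q p M) =>
        (Matrix.of fun a b => aeval (A.x P) (Tm M R.d R.Q a (z.1 b))).det *
          ∏ x ∈ (Finset.univ.map z.1)ᶜ, aeval (A.x P) (B.w ch M x (z.2 x))) := by
  classical
  obtain ⟨c, hcF, hc0, hc⟩ := T_gauss M R.d K
  refine ⟨gs c, fun P hP hQ => ?_⟩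
  obtain ⟨V, hV⟩ : ∃ V : (Rw q M R.d ↪ Fin 2 × Box q M) ×
      (Fin 2 × Box q M → TB.Kp N q p M) → K, V = fun z =>
        (Matrix.of fun a b => aeval (A.x P) (Tm M R.d R.Q a (z.1 b))).det *
          ∏ x ∈ (Finset.univ.map z.1)ᶜ, aeval (A.x P) (B.w ch M x (z.2 x)) := ⟨_, rfl⟩
  rw [← hV]
  have hx0 : A.x P ≠ 0 := P.1.rep_nonzero
  -- one place
  have key : ∀ v, Pl v → ∃ z, V z ≠ 0 ∧
      Fintype.card (Rw q M R.d) * B.lW ch R.d R.Q v P +
          ((2 * ((M : ℝ) + 1) ^ q - Fintype.card (Rw q M R.d)) * M * (∑ i, (B.k i : ℝ))) *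
            Real.log (⨆ j, v (A.x P j)) +
          ∑ i, (2 * ∑ a : Box q M, (a i : ℝ) - ∑ b : Rw q M R.d, (b.1 i : ℝ)) *
            B.lr ch v P i - c v ≤ Real.log (v (V z)) := by
    intro v hv
    obtain ⟨a, ha⟩ := exists_eq_ciSup_of_finite (f := fun j => v (A.x P j))
    have ha0 : A.x P a ≠ 0 := by
      intro h
      have h1 : (⨆ j, v (A.x P j)) = 0 := by rw [← ha, h, map_zero]
      obtain ⟨j, hj⟩ := Function.ne_iff.1 hx0
      have h2 := le_ciSup (Set.finite_range fun j => v (A.x P j)).bddAbove j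
      exact absurd (v.pos hj) (not_lt.2 (h2.trans h1.le))
    have hb : ∀ i, ∃ b, v (aeval (A.x P) (B.ζ i b (ch i))) =
        (⨆ c, v (aeval (A.x P) (B.ζ i c (ch i)))) ∧ aeval (A.x P) (B.ζ i b (ch i)) ≠ 0 := by
      intro i
      obtain ⟨b₀, hb₀⟩ := hP i
      have : Nonempty (Fin p) := ⟨b₀⟩
      obtain ⟨b, hb⟩ := exists_eq_ciSup_of_finite
        (f := fun c => v (aeval (A.x P) (B.ζ i c (ch i))))
      refine ⟨b, hb, fun h => ?_⟩
      have h1 : (⨆ c, v (aeval (A.x P) (B.ζ i c (ch i)))) = 0 := by rw [← hb, h, map_zero]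
      have h2 := le_ciSup (Set.finite_range fun c =>
        v (aeval (A.x P) (B.ζ i c (ch i)))).bddAbove b₀
      exact absurd (v.pos hb₀) (not_lt.2 (h2.trans h1.le))
    choose b hb hb0 using hb
    obtain ⟨r, hr⟩ : ∃ r : Fin q → K, r = fun j =>
      aeval (A.x P) (B.ζ j (b j) (ch j)) / A.x P a ^ B.k j := ⟨_, rfl⟩
    have hr0 : ∀ j, r j ≠ 0 := fun j => by
      rw [hr]
      exact div_ne_zero (hb0 j) (pow_ne_zero _ ha0)
    have hlr : ∀ j, Real.log (v (r j)) = B.lr ch v P j := by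
      intro j
      rw [hr]
      show Real.log (v (aeval (A.x P) (B.ζ j (b j) (ch j)) / A.x P a ^ B.k j)) = _
      rw [map_div₀, Real.log_div (v.pos (hb0 j)).ne' (v.pos (pow_ne_zero _ ha0)).ne', hb j,
        map_pow, Real.log_pow, ha]
      rfl
    obtain ⟨e, he0, he⟩ := hc v hv (fun i => sp A P (R.Q i))
      (fun i j => E_deg P (R_deg B R i j)) (fun h => hQ 0 (congrFun h 0)) r hr0
    obtain ⟨z, hz⟩ : ∃ z : (Rw q M R.d ↪ Fin 2 × Box q M) ×
      (Fin 2 × Box q M → TB.Kp N q p M), z = (e, fun x =>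
        (a, fun i => if i.2 = b i.1 then x.2 i.1 else 0)) := ⟨_, rfl⟩
    have hdet : (Matrix.of fun a b => aeval (A.x P) (Tm M R.d R.Q a (z.1 b))) =
        (Tm M R.d fun i => sp A P (R.Q i)).submatrix id e := by
      ext x y
      rw [Matrix.of_apply, Matrix.submatrix_apply, hz, E_Tm]
      rfl
    have hw := fun x => E_lw B ch M P v a b ha ha0 hb hb0 x
    have hprod0 : ∏ x ∈ (Finset.univ.map z.1)ᶜ, aeval (A.x P) (B.w ch M x (z.2 x)) ≠ 0 := by
      rw [hz]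
      exact Finset.prod_ne_zero_iff.2 fun x _ => (hw x).1
    refine ⟨z, ?_, ?_⟩
    · rw [hV]
      show _ * _ ≠ 0
      rw [hdet]
      exact mul_ne_zero he0 hprod0
    · rw [hV]
      show _ ≤ Real.log (v (_ * _))
      rw [hdet, map_mul, Real.log_mul (v.pos he0).ne' (v.pos hprod0).ne', map_prod,
        Real.log_prod fun x hx => (v.pos (Finset.prod_ne_zero_iff.1 hprod0 x hx)).ne']
      have h1 : ∑ x ∈ (Finset.univ.map z.1)ᶜ,
          Real.log (v (aeval (A.x P) (B.w ch M x (z.2 x)))) =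
          ∑ x ∈ (Finset.univ.map e)ᶜ, (M * (∑ i, (B.k i : ℝ)) *
            Real.log (⨆ j, v (A.x P j)) + ∑ i, (x.2 i : ℝ) * B.lr ch v P i) := by
        rw [hz]
        exact Finset.sum_congr rfl fun x _ => (hw x).2
      have h2 : ∀ φ : Fin 2 × Box q M → ℝ, ∑ x ∈ (Finset.univ.map e)ᶜ, φ x =
          ∑ x, φ x - ∑ b, φ (e b) := by
        intro φ
        rw [← Finset.sum_add_sum_compl (Finset.univ.map e) φ, Finset.sum_map]
        ring
      have h3 : (Fintype.card (Fin 2 × Box q M) : ℝ) = 2 * ((M : ℝ) + 1) ^ q := by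
        rw [Fintype.card_prod, Fintype.card_fin, Fintype.card_fun, Fintype.card_fin,
          Fintype.card_fin]
        push_cast
        ring
      rw [h1, h2, Finset.sum_add_distrib, Finset.sum_add_distrib, Finset.sum_const,
        Finset.sum_const, Finset.card_univ, Finset.card_univ, nsmul_eq_mul, nsmul_eq_mul, h3,
        Finset.sum_comm, Finset.sum_comm (s := (Finset.univ : Finset (Rw q M R.d)))]
      have h4 : ∀ i, ∑ x : Fin 2 × Box q M, (x.2 i : ℝ) * B.lr ch v P i =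
          (2 * ∑ a : Box q M, (a i : ℝ)) * B.lr ch v P i := fun i => by
        rw [← Finset.sum_mul, E_card]
      rw [Finset.sum_congr rfl fun i _ => h4 i]
      have h5 : ∑ i, (2 * ∑ a : Box q M, (a i : ℝ) - ∑ b : Rw q M R.d, (b.1 i : ℝ)) *
            B.lr ch v P i = ∑ i, (2 * ∑ a : Box q M, (a i : ℝ)) * B.lr ch v P i -
              ∑ b : Rw q M R.d, ∑ i, (b.1 i : ℝ) * B.lr ch v P i := by
        rw [Finset.sum_comm (s := (Finset.univ : Finset (Rw q M R.d))),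
          ← Finset.sum_sub_distrib]
        refine Finset.sum_congr rfl fun i _ => ?_
        rw [← Finset.sum_mul]
        ring
      have h6 : ∑ i, ∑ b, ((e b).2 i : ℝ) * B.lr ch v P i =
          ∑ b, ∑ i, ((e b).2 i : ℝ) * B.lr ch v P i := Finset.sum_comm
      simp only [hlr] at he
      have h7 : (Real.log (⨆ z : Fin 2 × Cf q R.d,
              v (coeff (fs fun j => (z.2 j : ℕ)) (sp A P (R.Q z.1))) *
                Real.exp (-∑ j, (z.2 j : ℝ) * B.lr ch v P j))) = B.lW ch R.d R.Q v P := by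
        unfold Bun.lW SV2.sp
        simp only [coeff_map]
        rfl
      rw [h7] at he
      rw [h5, h6]
      linarith
  -- the vector is not zero
  have hV0 : V ≠ 0 := by
    obtain ⟨v₀⟩ := (inferInstance : Nonempty (NumberField.InfinitePlace K))
    obtain ⟨z, hz, -⟩ := key v₀.val
      (Or.inl (NumberField.mem_multisetInfinitePlace.2 v₀.isInfinitePlace))
    exact Function.ne_iff.2 ⟨z, hz⟩
  have f1 : FS fun v => (Fintype.card (Rw q M R.d) : ℝ) * B.lW ch R.d R.Q v P :=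
    FS_const_mul _ (N_FS_lW B hP R.d (R_deg B R) (hQ 0))
  have f2 : FS fun v : AbsoluteValue K ℝ => ((2 * ((M : ℝ) + 1) ^ q -
      Fintype.card (Rw q M R.d)) * M * (∑ i, (B.k i : ℝ))) * Real.log (⨆ j, v (A.x P j)) :=
    FS_const_mul _ (N_FS_X P)
  have f3 : ∀ i, FS fun v => (2 * ∑ a : Box q M, (a i : ℝ) - ∑ b : Rw q M R.d, (b.1 i : ℝ)) *
      B.lr ch v P i := fun i => FS_const_mul _ (N_FS_lr B hP i)
  have f4 := FS_sum Finset.univ fun i (_ : i ∈ Finset.univ) => f3 i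
  have f5 := FS_sub (FS_add (FS_add f1 f2) f4) hcF
  have h1 := gs_le f5 (FS_log_iSup hV0) fun v hv => by
    obtain ⟨z, hz, h⟩ := key v hv
    refine h.trans (Real.log_le_log (v.pos hz) ?_)
    exact le_ciSup (Set.finite_range fun z => v (V z)).bddAbove z
  rw [gs_log_iSup hV0, gs_sub (FS_add (FS_add f1 f2) f4) hcF, gs_add (FS_add f1 f2) f4,
    gs_add f1 f2, gs_sum Finset.univ fun i (_ : i ∈ Finset.univ) => f3 i, gs_const_mul,
    gs_const_mul, gs_log_iSup hx0] at h1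
  simp only [gs_const_mul] at h1
  linarith

end

end Pool.Agent.Lib.MP_17a322_nt.SV3
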