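import Pool.Agent.Lib.MP_17a322_nt.SV3.X1

/-!
The independent coordinates.
-/

universe u

namespace Pool.Agent.Lib.MP_17a322_nt.SV3

open MvPolynomial Height
open Pool.Agent.Lib.MP_17a322_nt.VA
open Pool.Agent.Lib.MP_17a322_nt.SL
open Pool.Agent.Lib.MP_17a322_nt.SV2 (Box Rw Cf Tm fs sp ps be Tm_zero Tm_one)

/-- The coordinate of the line `z` given by the coordinate `a` of `A` and the coordinates `b i` of
`y i`. -/
def kc {N q p : ℕ} (M : ℕ) (a : Fin (N + 1)) (b : Fin q → Fin p) (z : Fin 2 × Box q M) :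
    TB.Kp N q p M :=
  (a, fun i => if i.2 = b i.1 then z.2 i.1 else 0)

theorem kc_Mt {N q p : ℕ} (M : ℕ) (a : Fin (N + 1)) (b : Fin q → Fin p)
    (z : Fin 2 × Box q M) : TB.Mt z.2 (kc M a b z).2 := by
  classical
  intro i
  have h3 : ∀ c' : Fin p, (((kc M a b z).2 (i, c') : Fin (M + 1)) : ℕ) =
      if c' = b i then (z.2 i : ℕ) else 0 := by
    intro c'
    unfold kc
    simp only
    split_ifs <;> rfl
  rw [Finset.sum_congr rfl fun c' _ => h3 c',
    Finset.sum_ite_eq' Finset.univ (b i) fun _ => (z.2 i : ℕ), if_pos (Finset.mem_univ _)]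

/-- The coordinate forms. -/
noncomputable def Lc {K : Type u} [Field K] {N : ℕ} {χ : Type} (j x : χ) :
    MvPolynomial (Fin (N + 1)) K :=
  open Classical in if x = j then 1 else 0

theorem Lc_hom {K : Type u} [Field K] {N : ℕ} {χ : Type} (j x : χ) :
    (Lc j x : MvPolynomial (Fin (N + 1)) K).IsHomogeneous 0 := by
  unfold Lc
  split_ifs
  · exact isHomogeneous_one _ _
  · exact isHomogeneous_zero _ _ _

theorem Lc_sum {K : Type u} [Field K] {N : ℕ} {A : AV K N} {χ : Type} [Fintype χ] (j : χ)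
    {L : Type u} [Field L] [Algebra K L] (P : A.Pts L) (Y : χ → L) :
    ∑ x, aeval (A.x P) (Lc j x : MvPolynomial (Fin (N + 1)) K) * Y x = Y j := by
  classical
  unfold Lc
  rw [Finset.sum_eq_single j]
  · rw [if_pos rfl, map_one, one_mul]
  · intro x _ hx
    rw [if_neg hx, map_zero, zero_mul]
  · intro h
    exact absurd (Finset.mem_univ _) h

section

variable {K : Type u} [Field K] [NumberField K] {N q p p' m : ℕ} {A : AV K N}
  (B : Bun A q p p')

theorem R_new_ne {D : ℕ} {ch : Fin q → Fin p'}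
    {g : Fin 2 → MvPolynomial (Fin q × Fin p) (MvPolynomial (Fin (N + 1)) K)}
    (R : B.Red ch D g) : (B.New g).Nonempty := by
  obtain ⟨L, _, _, _, P, hP, hcop⟩ := R.cop
  by_contra hcon
  rw [Set.not_nonempty_iff_eq_empty] at hcon
  have h3 : ∀ i, sp A P (R.Q i) = 0 := by
    intro i
    ext a
    rw [coeff_zero]
    by_contra h4
    have h5 := (R_ne B R hP i (fun j => a j)).1 (by
      have h6 : fs (fun j => a j) = a := by
        ext j
        rfl
      rw [h6]
      exact h4)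
    rw [hcon] at h5
    exact h5
  rw [h3 0, h3 1] at hcop
  exact not_isUnit_zero (hcop (dvd_refl 0) (dvd_refl 0))

theorem R_g_van {D : ℕ} {ch : Fin q → Fin p'}
    {g : Fin 2 → MvPolynomial (Fin q × Fin p) (MvPolynomial (Fin (N + 1)) K)}
    (R : B.Red ch D g) (i : Fin 2) : ¬ B.Van (g i) := by
  intro h
  obtain ⟨a, ha⟩ := R_new_ne B R
  rw [← R.new i, A_new B R.hch (fun _ => R.wh i)] at ha
  obtain ⟨_, ha⟩ := ha
  exact ha ((A_van B R.hch (R.wh i)).1 h _)

omit [NumberField K] in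
theorem R_w_ne {ch : Fin q → Fin p'} {M : ℕ} {L : Type u} [Field L] [Algebra K L] {P : A.Pts L}
    {a : Fin (N + 1)} (ha : A.x P a ≠ 0) {b : Fin q → Fin p}
    (hb : ∀ i, aeval (A.x P) (B.ζ i (b i) (ch i)) ≠ 0) (z : Fin 2 × Box q M) :
    aeval (A.x P) (B.w ch M z (kc M a b z)) ≠ 0 := by
  classical
  unfold Bun.w
  rw [if_pos (kc_Mt M a b z), map_mul, map_pow, map_prod, aeval_X]
  refine mul_ne_zero (pow_ne_zero _ ha) (Finset.prod_ne_zero_iff.2 fun i _ => ?_)
  rw [map_pow]
  by_cases h : i.2 = b i.1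
  · refine pow_ne_zero _ ?_
    rw [h]
    exact hb i.1
  · have h1 : ((kc M a b z).2 i : ℕ) = 0 := by
      unfold kc
      simp only
      rw [if_neg h]
      rfl
    rw [h1, pow_zero]
    exact one_ne_zero

theorem G_ind {D : ℕ} {ch : Fin q → Fin p'}
    {g : Fin 2 → MvPolynomial (Fin q × Fin p) (MvPolynomial (Fin (N + 1)) K)}
    (R : B.Red ch D g) (M : ℕ) (τ : Fin q → ℝ) :
    ∃ c : Fin q → ℕ, (∀ j, c j ≤ R.d j) ∧
      ∑ j, (c j : ℝ) * τ j = B.sup g τ - ∑ j, (R.o j : ℝ) * τ j ∧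
      ∀ (a : Fin (N + 1)) (b : Fin q → Fin p), (X a : MvPolynomial (Fin (N + 1)) K) ∉ A.I →
        (∀ i, B.ζ i (b i) (ch i) ∉ A.I) →
        SG.IndT A (Tm M R.d R.Q) (fun j => TB.redT (B.w ch M) (Lc j))
          (open Classical in (Jv M R.d c).image fun z => (z, kc M a b z)) := by
  classical
  obtain ⟨Δ, hΔ⟩ : ∃ Δ : Finset (Fin q → ℕ), Δ = (A_new_fin B g).toFinset.image
    fun a => a - R.o := ⟨_, rfl⟩
  have hmem : ∀ a, a ∈ Δ ↔ a + R.o ∈ B.New g := by
    intro a
    rw [hΔ, Finset.mem_image]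
    constructor
    · rintro ⟨a', ha', rfl⟩
      rw [Set.Finite.mem_toFinset] at ha'
      have h1 : a' - R.o + R.o = a' := by
        funext j
        exact Nat.sub_add_cancel (R.lo a' ha' j)
      rw [h1]
      exact ha'
    · intro h
      refine ⟨a + R.o, (Set.Finite.mem_toFinset _).2 h, ?_⟩
      funext j
      exact Nat.add_sub_cancel _ _
  have hne : Δ.Nonempty := by
    obtain ⟨a, ha⟩ := R_new_ne B R
    rw [hΔ]
    exact ⟨a - R.o, Finset.mem_image_of_mem _ ((Set.Finite.mem_toFinset _).2 ha)⟩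
  obtain ⟨c, hc, hmax, hind⟩ := J_ind.{u} Δ hne τ
  have hcN := (hmem c).1 hc
  have hcd : ∀ j, c j ≤ R.d j := by
    intro j
    have h1 := R.hi _ hcN j
    rw [Pi.add_apply] at h1
    omega
  have hadd : ∀ a : Fin q → ℕ, ∑ j, ((a + R.o) j : ℝ) * τ j =
      ∑ j, (a j : ℝ) * τ j + ∑ j, (R.o j : ℝ) * τ j := by
    intro a
    rw [← Finset.sum_add_distrib]
    refine Finset.sum_congr rfl fun j _ => ?_
    rw [Pi.add_apply]
    push_cast
    ring
  refine ⟨c, hcd, ?_, ?_⟩
  · have h1 := A_sup_le B hcN τ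
    obtain ⟨a, ha, hsup⟩ := A_sup_ex B (R_new_ne B R) τ
    have h2 : a - R.o + R.o = a := by
      funext j
      exact Nat.sub_add_cancel (R.lo a ha j)
    have h3 := hmax (a - R.o) ((hmem _).2 (by rw [h2]; exact ha))
    have h4 := hadd (a - R.o)
    rw [h2] at h4
    rw [hadd c] at h1
    rw [hsup] at h1 ⊢
    linarith
  · intro a b ha hb L _ _ P hP
    have hQ : coeff (fs c) (sp A P (R.Q 1)) ≠ 0 := (R_ne B R hP 1 c).2 hcN
    have h1 := hind L (fun i => sp A P (R.Q i)) M R.d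
      (fun i j => X_sp_deg (R_deg B R i) P j)
      (fun a' ha' => (hmem a').2 ((R_ne B R hP 1 a').1 ha')) hQ
    have hxa : A.x P a ≠ 0 := by
      intro h0
      refine ha (hP _ 1 (isHomogeneous_X _ _) ?_)
      rw [aeval_X]
      exact h0
    have hζ : ∀ i, aeval (A.x P) (B.ζ i (b i) (ch i)) ≠ 0 := fun i h0 =>
      hb i (hP _ _ (B.hom _ _ _) h0)
    obtain ⟨J, hJ⟩ : ∃ J : Finset ((Fin 2 × Box q M) × TB.Kp N q p M),
      J = (Jv M R.d c).image fun z => (z, kc M a b z) := ⟨_, rfl⟩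
    have hJ1 : ∀ j ∈ J, j.1 ∈ Jv M R.d c ∧ j.2 = kc M a b j.1 := by
      intro j hj
      rw [hJ, Finset.mem_image] at hj
      obtain ⟨z, hz, rfl⟩ := hj
      exact ⟨hz, rfl⟩
    rw [← hJ]
    have h2 := h1.comp (Sum.map id fun j : J => (⟨j.1.1, (hJ1 j.1 j.2).1⟩ : Jv M R.d c))
      (Function.injective_id.sumMap fun j j' hjj => by
        apply Subtype.ext
        have h3 : j.1.1 = j'.1.1 := congrArg Subtype.val hjj
        refine Prod.ext h3 ?_
        rw [(hJ1 j.1 j.2).2, (hJ1 j'.1 j'.2).2, h3])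
    have hw : ∀ j : J, aeval (A.x P) (B.w ch M j.1.1 j.1.2) ≠ 0 := by
      intro j
      rw [(hJ1 j.1 j.2).2]
      exact R_w_ne B hxa hζ _
    have h3 := h2.units_smul (Sum.elim (fun _ => 1) fun j : J => Units.mk0 _ (hw j))
    refine (congrArg (fun f => LinearIndependent L f) ?_).mp h3
    funext x
    rcases x with b' | j
    · funext z
      show (1 : Lˣ) • Tm M R.d (fun i => sp A P (R.Q i)) b' z = aeval (A.x P) (Tm M R.d R.Q b' z)
      rw [one_smul, X_Tm_sp]
    · funext z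
      show (Units.mk0 _ (hw j)) • (if z = j.1.1 then (1 : L) else 0) =
        aeval (A.x P) (TB.redT (B.w ch M) (Lc j.1) z)
      unfold TB.redT
      rw [map_sum, Units.smul_def, Units.val_mk0, smul_eq_mul]
      by_cases hz : z = j.1.1
      · rw [if_pos hz, mul_one, Finset.sum_eq_single j.1.2]
        · unfold Lc
          rw [if_pos (by rw [hz]), one_mul, hz]
        · intro κ _ hκ
          unfold Lc
          rw [if_neg, zero_mul, map_zero]
          intro h4
          exact hκ (congrArg Prod.snd h4)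
        · intro h4
          exact absurd (Finset.mem_univ _) h4
      · rw [if_neg hz, mul_zero]
        symm
        refine Finset.sum_eq_zero fun κ _ => ?_
        unfold Lc
        rw [if_neg, zero_mul, map_zero]
        intro h4
        exact hz (congrArg Prod.fst h4)

end

end Pool.Agent.Lib.MP_17a322_nt.SV3
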