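import Pool.Agent.Lib.MP_17a322_nt.TB.H1
import Pool.Agent.Lib.MP_17a322_nt.SV3.A1

/-!
Sums over the places.
-/

universe u

namespace Pool.Agent.Lib.MP_17a322_nt.SV3

open MvPolynomial Height
open Pool.Agent.Lib.MP_17a322_nt.VA
open Pool.Agent.Lib.MP_17a322_nt.VJ
open Pool.Agent.Lib.MP_17a322_nt.SL
open Pool.Agent.Lib.MP_17a322_nt.SV2 (Box Rw Cf Tm fs sp ps)

section

variable {K : Type u} [Field K] [NumberField K] {N q p p' m : ℕ} {A : AV K N}
  (B : Bun A q p p')

/-- A function that vanishes where finitely many functions vanish. -/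
theorem N_FS_of {ι : Type*} [Finite ι] {f : ι → AbsoluteValue K ℝ → ℝ} (hf : ∀ i, FS (f i))
    {φ : AbsoluteValue K ℝ → ℝ} (h : ∀ v, (∀ i, f i v = 0) → φ v = 0) : FS φ := by
  refine (Set.finite_iUnion fun i => hf i).subset fun v hv => ?_
  by_contra hc
  rw [Set.mem_iUnion, not_exists] at hc
  refine hv (h v.val fun i => ?_)
  by_contra h1
  exact hc i h1

theorem N_FS_X (P : A.Pts K) : FS fun v : AbsoluteValue K ℝ => Real.log (⨆ j, v (A.x P j)) :=
  FS_log_iSup (A.x_ne P)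

theorem N_FS_tau {P : A.Pts K} {y : Fin q × Fin p → K} (hy : B.On P y) (i : Fin q) :
    FS fun v => B.tau v P y i :=
  FS_sub (FS_log_iSup (Function.ne_iff.mpr (hy i).1)) (FS_const_mul _ (N_FS_X P))

theorem N_FS_lr {P : A.Pts K} {ch : Fin q → Fin p'} (hP : B.In ch P) (i : Fin q) :
    FS fun v => B.lr ch v P i :=
  FS_sub (FS_log_iSup (Function.ne_iff.mpr (hP i))) (FS_const_mul _ (N_FS_X P))

theorem N_FS_sup {P : A.Pts K} {y : Fin q × Fin p → K} (hy : B.On P y)
    (g : Fin m → MvPolynomial (Fin q × Fin p) (MvPolynomial (Fin (N + 1)) K)) :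
    FS fun v => B.sup g (B.tau v P y) := by
  refine N_FS_of (fun i => N_FS_tau B hy i) fun v hv => ?_
  unfold Bun.sup
  have h1 : ∀ a : B.New g, ∑ i, (a.1 i : ℝ) * B.tau v P y i = 0 := fun a =>
    Finset.sum_eq_zero fun i _ => by rw [hv i, mul_zero]
  simp only [h1]
  exact Real.iSup_const_zero

theorem N_FS_loc {P : A.Pts K} {y : Fin q × Fin p → K} (hy : B.On P y) (D : ℕ)
    (g : Fin m → MvPolynomial (Fin q × Fin p) (MvPolynomial (Fin (N + 1)) K)) {k : Fin m}
    (hk : ev P y (g k) ≠ 0) : FS fun v => B.loc v D g P y := by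
  have h1 : (fun k => ev P y (g k)) ≠ 0 := Function.ne_iff.mpr ⟨k, hk⟩
  exact FS_sub (FS_add (FS_const_mul _ (N_FS_X P)) (N_FS_sup B hy g)) (FS_log_iSup h1)

theorem N_FS_lW {P : A.Pts K} {ch : Fin q → Fin p'} (hP : B.In ch P) (d : Fin q → ℕ)
    {Q : Fin 2 → MvPolynomial (Fin q) (MvPolynomial (Fin (N + 1)) K)}
    (hQ : ∀ i j, degreeOf j (Q i) ≤ d j) {i : Fin 2} (hi : sp A P (Q i) ≠ 0) :
    FS fun v => B.lW ch d Q v P := by
  classical
  set c : Fin 2 × Cf q d → K := fun z =>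
    aeval (A.x P) (coeff (fs fun j => (z.2 j : ℕ)) (Q z.1)) with hc
  have hc0 : c ≠ 0 := by
    obtain ⟨a, ha⟩ := MvPolynomial.ne_zero_iff.mp hi
    have h1 : coeff a (sp A P (Q i)) = aeval (A.x P) (coeff a (Q i)) := coeff_map _ _ _
    have h2 : coeff a (Q i) ≠ 0 := fun h => ha (by rw [h1, h, map_zero])
    have h3 : ∀ j, a j ≤ d j := fun j =>
      (monomial_le_degreeOf j (mem_support_iff.mpr h2)).trans (hQ i j)
    refine Function.ne_iff.mpr ⟨(i, fun j => ⟨a j, Nat.lt_succ_of_le (h3 j)⟩), ?_⟩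
    have h4 : fs (fun j => a j) = a := by
      ext j
      rfl
    simp only [hc, h4]
    rw [← h1]
    exact ha
  refine N_FS_of (ι := Option (Fin q)) (f := fun o v => match o with
    | none => Real.log (⨆ z, v (c z))
    | some j => B.lr ch v P j) (fun o => ?_) fun v hv => ?_
  · cases o with
    | none => exact FS_log_iSup hc0
    | some j => exact N_FS_lr B hP j
  · have h1 : ∀ j, B.lr ch v P j = 0 := fun j => hv (some j)
    have h2 : Real.log (⨆ z, v (c z)) = 0 := hv none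
    unfold Bun.lW
    rw [← h2]
    congr 1
    refine iSup_congr fun z => ?_
    rw [Finset.sum_eq_zero fun j _ => by rw [h1 j, mul_zero], neg_zero, Real.exp_zero, mul_one]

theorem N_FS_max {φ : AbsoluteValue K ℝ → ℝ} (h : FS φ) : FS fun v => max (φ v) 0 :=
  N_FS_of (ι := Unit) (fun _ => h) fun v hv => by rw [hv (), max_self]

theorem N_FS_abs {φ : AbsoluteValue K ℝ → ℝ} (h : FS φ) : FS fun v => |φ v| :=
  N_FS_of (ι := Unit) (fun _ => h) fun v hv => by rw [hv (), abs_zero]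

/-- The sum over all places, as in the final statement. -/
theorem N_gs (φ : AbsoluteValue K ℝ → ℝ) :
    (∑ v : NumberField.InfinitePlace K, (v.mult : ℝ) * φ v.val) +
      ∑ᶠ v : NumberField.FinitePlace K, φ v.val = gs φ := by
  unfold gs
  rw [NumberField.sum_archAbsVal_eq, NumberField.sum_nonarchAbsVal_eq φ]
  congr 1
  exact Finset.sum_congr rfl fun v _ => by rw [nsmul_eq_mul]

theorem N_gs_tau {P : A.Pts K} {y : Fin q × Fin p → K} (hy : B.On P y) {ch : Fin q → Fin p'}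
    (hP : B.In ch P) (i : Fin q) :
    gs (fun v => B.tau v P y i) = gs fun v => B.lr ch v P i := by
  obtain ⟨t, ht, rfl⟩ := A_on B hP hy
  have h1 : ∀ v : AbsoluteValue K ℝ, B.tau v P (B.yt ch P t) i =
      Real.log (v (t i)) + B.lr ch v P i := by
    intro v
    obtain ⟨b, hb, hb'⟩ := TB.H_att v (hP i)
    have h2 : ⨆ c, v (B.yt ch P t (i, c)) =
        v (t i) * ⨆ b, v (aeval (A.x P) (B.ζ i b (ch i))) := by
      rw [Real.mul_iSup_of_nonneg (v.nonneg _)]
      exact iSup_congr fun c => by rw [Bun.yt, map_mul]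
    unfold Bun.tau Bun.lr
    rw [h2, Real.log_mul (v.pos (ht i)).ne' (hb ▸ hb').ne']
    ring
  simp only [h1]
  rw [gs_add (FS_log_abv (ht i)) (N_FS_lr B hP i), gs_log_abv (ht i), zero_add]

theorem N_gs_max {P : A.Pts K} {y : Fin q × Fin p → K} (hy : B.On P y) (i : Fin q) :
    gs (fun v => max (B.tau v P y i) 0) = B.ht P y i - B.k i * logHeight (A.x P) := by
  have hx := Function.ne_iff.mp (A.x_ne P)
  have hne := TB.H_elim_ne (B.k i) P (fun c => y (i, c)) (hy i).1
  have h2 : ∀ v : AbsoluteValue K ℝ, max (B.tau v P y i) 0 =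
      Real.log (⨆ z, v ((Sum.elim (fun j => A.x P j ^ B.k i) fun c => y (i, c) :
        Fin (N + 1) ⊕ Fin p → K) z)) - B.k i * Real.log (⨆ j, v (A.x P j)) := by
    intro v
    obtain ⟨j₀, h₀, h₁⟩ := TB.H_att v hx
    obtain ⟨c, hc, hc'⟩ := TB.H_att v (z := fun c => y (i, c)) (hy i).1
    have hX : 0 < (⨆ j, v (A.x P j)) ^ B.k i := pow_pos (h₀ ▸ h₁) _
    have hs : 0 < ⨆ c, v (y (i, c)) := hc ▸ hc'
    rw [TB.H_max v hx]
    unfold Bun.tau
    have hlog : Real.log ((⨆ j, v (A.x P j)) ^ B.k i) = B.k i * Real.log (⨆ j, v (A.x P j)) :=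
      Real.log_pow _ _
    rcases le_total ((⨆ j, v (A.x P j)) ^ B.k i) (⨆ c, v (y (i, c))) with h | h
    · have h3 := Real.log_le_log hX h
      rw [max_eq_right h, max_eq_left (by linarith)]
    · have h3 := Real.log_le_log hs h
      rw [max_eq_left h, max_eq_right (by linarith), hlog]
      ring
  simp only [h2]
  rw [gs_sub (FS_log_iSup hne) (FS_const_mul _ (N_FS_X P)), gs_const_mul,
    gs_log_iSup (A.x_ne P), gs_log_iSup hne]
  rfl

/-- The part outside `S`. -/
theorem N_split (S : Finset (NumberField.FinitePlace K)) {φ : AbsoluteValue K ℝ → ℝ}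
    (hφ : FS φ) : gs φ - ps S φ =
      ∑ᶠ v : {v : NumberField.FinitePlace K // v ∉ S}, φ v.1.val := by
  rw [SG.H_gs S hφ, ps]
  ring

theorem N_fin (S : Finset (NumberField.FinitePlace K)) {φ : AbsoluteValue K ℝ → ℝ}
    (hφ : FS φ) :
    (Function.support fun v : {v : NumberField.FinitePlace K // v ∉ S} => φ v.1.val).Finite := by
  have h0 : (Function.support fun v : NumberField.FinitePlace K => φ v.val).Finite := hφ
  exact Set.Finite.preimage (Subtype.val_injective.injOn) h0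

theorem N_mono (S : Finset (NumberField.FinitePlace K)) {φ ψ : AbsoluteValue K ℝ → ℝ}
    (hφ : FS φ) (hψ : FS ψ) (h : ∀ v : NumberField.FinitePlace K, v ∉ S → φ v.val ≤ ψ v.val) :
    gs φ - ps S φ ≤ gs ψ - ps S ψ := by
  rw [N_split S hφ, N_split S hψ]
  exact finsum_le_finsum' (N_fin S hφ) (N_fin S hψ) fun v => h v.1 v.2

/-- Functions bounded by the `|tau_i|`: the part outside `S`. -/
theorem N_out (S : Finset (NumberField.FinitePlace K)) {P : A.Pts K} {y : Fin q × Fin p → K}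
    (hy : B.On P y) {φ : AbsoluteValue K ℝ → ℝ} (hφ : FS φ) {c : ℝ} (hc : 0 ≤ c)
    (h : ∀ v : NumberField.FinitePlace K, v ∉ S → φ v.val ≤ c * ∑ i, |B.tau v.val P y i|) :
    gs φ ≤ ps S φ + c * B.NS S P y := by
  have h1 : ∀ i, FS fun v => |B.tau v P y i| := fun i => N_FS_abs (N_FS_tau B hy i)
  have h2 : FS fun v => c * ∑ i, |B.tau v P y i| :=
    FS_const_mul c (FS_sum Finset.univ fun i _ => h1 i)
  have h3 : gs φ - ps S φ ≤ c * B.NS S P y := by
    rw [N_split S hφ]
    refine (finsum_le_finsum' (N_fin S hφ) (N_fin S h2) fun v => h v.1 v.2).trans_eq ?_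
    rw [← mul_finsum, Bun.NS,
      finsum_sum_comm _ _ fun i _ => N_fin S (h1 i)]
  linarith

theorem N_NS_nonneg (S : Finset (NumberField.FinitePlace K)) (P : A.Pts K)
    (y : Fin q × Fin p → K) : 0 ≤ B.NS S P y :=
  Finset.sum_nonneg fun _ _ => finsum_nonneg fun _ => abs_nonneg _

end

end Pool.Agent.Lib.MP_17a322_nt.SV3
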