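import Pool.Agent.Lib.MP_17a322_nt.SV3.N1

/-!
The vectors `x_j ^ ex y ^ μ Z_i` at one place.
-/

universe u

namespace Pool.Agent.Lib.MP_17a322_nt.SV3

open MvPolynomial Height
open Pool.Agent.Lib.MP_17a322_nt.VA
open Pool.Agent.Lib.MP_17a322_nt.VJ
open Pool.Agent.Lib.MP_17a322_nt.SL
open Pool.Agent.Lib.MP_17a322_nt.SV2 (Box Rw Cf Tm fs sp ps)

section

variable {K : Type u} [Field K] {N q p p' m : ℕ} {A : AV K N} (B : Bun A q p p')

/-- the reindexing -/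
def V_eqv (N q p M : ℕ) : (Fin 2 × Box q M) × TB.Kp N q p M ≃ TB.Cx N q p M 2 where
  toFun z := (z.1.2, z.2, z.1.1)
  invFun z := ((z.2.2, z.1), z.2.1)
  left_inv _ := rfl
  right_inv _ := rfl

theorem V_Y_ne (M : ℕ) {P : A.Pts K} {y : Fin q × Fin p → K} (hy : B.On P y) {Z : Fin 2 → K}
    (hZ : Z ≠ 0) : B.Y M (A.x P) y Z ≠ 0 := by
  classical
  obtain ⟨j, hj⟩ := Function.ne_iff.mp (A.x_ne P)
  obtain ⟨l, hl⟩ := Function.ne_iff.mp hZ
  choose ch hch using fun i => (hy i).1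
  refine Function.ne_iff.mpr ⟨((l, 0), (j, TB.H_mu ch 0)), ?_⟩
  unfold Bun.Y TB.phi
  simp only [if_pos (TB.H_mu_mt ch (0 : Box q M))]
  refine mul_ne_zero (mul_ne_zero (pow_ne_zero _ hj) ?_) hl
  rw [TB.H_mu_prod]
  exact Finset.prod_ne_zero_iff.mpr fun i _ => pow_ne_zero _ (hch i)

theorem V_Y (v : AbsoluteValue K ℝ) (M : ℕ) (P : A.Pts K) {y : Fin q × Fin p → K}
    (hy : B.On P y) {Z : Fin 2 → K} (hZ : Z ≠ 0) :
    Real.log (⨆ x, v (B.Y M (A.x P) y Z x)) = Real.log (⨆ l, v (Z l)) +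
      M * ∑ i, (B.k i * Real.log (⨆ j, v (A.x P j)) + max (B.tau v P y i) 0) := by
  have hx := Function.ne_iff.mp (A.x_ne P)
  have hZ' := Function.ne_iff.mp hZ
  have h1 : ⨆ x, v (B.Y M (A.x P) y Z x) = ⨆ c, v (TB.phi B.k M (A.x P) y Z c) :=
    (V_eqv N q p M).iSup_comp (g := fun c => v (TB.phi B.k M (A.x P) y Z c))
  rw [h1, TB.H_sup M v B.k hx (fun i => (hy i).1) hZ']
  obtain ⟨j₀, h₀, h₁⟩ := TB.H_att v hx
  obtain ⟨l₀, hl₀, hl₁⟩ := TB.H_att v hZ'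
  have hs : ∀ i, 0 < ⨆ c, v (y (i, c)) := by
    intro i
    obtain ⟨c, hc, hc'⟩ := TB.H_att v (z := fun c => y (i, c)) (hy i).1
    exact hc ▸ hc'
  have hX : ∀ i, 0 < (⨆ j, v (A.x P j)) ^ B.k i := fun i => pow_pos (h₀ ▸ h₁) _
  have h3 : ∀ i, 0 < max ((⨆ j, v (A.x P j)) ^ B.k i) (⨆ c, v (y (i, c))) := fun i =>
    lt_max_of_lt_right (hs i)
  rw [Real.log_mul (Finset.prod_pos fun i _ => pow_pos (h3 i) M).ne' (hl₀ ▸ hl₁).ne',
    Real.log_prod fun i _ => (pow_pos (h3 i) M).ne', add_comm, Finset.mul_sum]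
  congr 1
  refine Finset.sum_congr rfl fun i _ => ?_
  rw [Real.log_pow]
  congr 1
  unfold Bun.tau
  have hlog : Real.log ((⨆ j, v (A.x P j)) ^ B.k i) = B.k i * Real.log (⨆ j, v (A.x P j)) :=
    Real.log_pow _ _
  rcases le_total ((⨆ j, v (A.x P j)) ^ B.k i) (⨆ c, v (y (i, c))) with h | h
  · have h4 := Real.log_le_log (hX i) h
    rw [max_eq_right h, max_eq_left (by linarith)]
    ring
  · have h4 := Real.log_le_log (hs i) h
    rw [max_eq_left h, max_eq_right (by linarith), hlog, add_zero]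

theorem V_H [NumberField K] (M : ℕ) {P : A.Pts K} {y : Fin q × Fin p → K} (hy : B.On P y)
    {Z : Fin 2 → K} (hZ : Z ≠ 0) :
    logHeight (B.Y M (A.x P) y Z) = logHeight Z + M * ∑ i, B.ht P y i := by
  have h1 : ∀ i, FS fun v => max (B.tau v P y i) 0 := fun i => N_FS_max (N_FS_tau B hy i)
  have h2 : ∀ i, FS fun v : AbsoluteValue K ℝ => (B.k i : ℝ) * Real.log (⨆ j, v (A.x P j)) :=
    fun i => FS_const_mul _ (N_FS_X P)
  have h3 : ∀ i ∈ Finset.univ, FS fun v : AbsoluteValue K ℝ =>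
      (B.k i : ℝ) * Real.log (⨆ j, v (A.x P j)) + max (B.tau v P y i) 0 :=
    fun i _ => FS_add (h2 i) (h1 i)
  rw [← gs_log_iSup (V_Y_ne B M hy hZ)]
  simp only [fun v => V_Y B v M P hy hZ]
  rw [gs_add (FS_log_iSup hZ) (FS_const_mul _ (FS_sum _ h3)), gs_log_iSup hZ, gs_const_mul,
    gs_sum _ h3]
  congr 2
  refine Finset.sum_congr rfl fun i _ => ?_
  rw [gs_add (h2 i) (h1 i), gs_const_mul, gs_log_iSup (A.x_ne P), N_gs_max B hy i]
  ring

/-- The coordinate `(z, κ)` with the maximal coordinates `a` of `P` and `c i` of `y i`. -/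
theorem V_coord (v : AbsoluteValue K ℝ) (M : ℕ) (P : A.Pts K) {y : Fin q × Fin p → K}
    (hy : B.On P y) (a : Fin (N + 1)) (ha : v (A.x P a) = ⨆ j, v (A.x P j)) (c : Fin q → Fin p)
    (hc : ∀ i, v (y (i, c i)) = ⨆ b, v (y (i, b))) {Z : Fin 2 → K} (z : Fin 2 × Box q M)
    (hZ : Z z.1 ≠ 0) :
    Real.log (v (B.Y M (A.x P) y Z (z, (a, fun i => if i.2 = c i.1 then z.2 i.1 else 0)))) =
      Real.log (v (Z z.1)) + M * ∑ i, B.k i * Real.log (⨆ j, v (A.x P j)) +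
        ∑ i, (z.2 i : ℝ) * B.tau v P y i := by
  classical
  have hx := Function.ne_iff.mp (A.x_ne P)
  obtain ⟨j₀, h₀, h₁⟩ := TB.H_att v hx
  have hX : 0 < ⨆ j, v (A.x P j) := h₀ ▸ h₁
  have hs : ∀ i, 0 < ⨆ c, v (y (i, c)) := by
    intro i
    obtain ⟨c, hc, hc'⟩ := TB.H_att v (z := fun c => y (i, c)) (hy i).1
    exact hc ▸ hc'
  have h2 : B.Y M (A.x P) y Z (z, (a, fun i => if i.2 = c i.1 then z.2 i.1 else 0)) =
      A.x P a ^ TB.ex B.k z.2 * (∏ i, y (i, c i) ^ (z.2 i : ℕ)) * Z z.1 := by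
    show TB.phi B.k M (A.x P) y Z (z.2, (a, TB.H_mu c z.2), z.1) = _
    unfold TB.phi
    simp only [if_pos (TB.H_mu_mt c z.2), TB.H_mu_prod]
  have h3 : ∏ i, v (y (i, c i)) ^ (z.2 i : ℕ) = ∏ i, (⨆ b, v (y (i, b))) ^ (z.2 i : ℕ) :=
    Finset.prod_congr rfl fun i _ => by rw [hc i]
  rw [h2, map_mul, map_mul, map_pow, ha, map_prod]
  simp only [map_pow]
  rw [h3, Real.log_mul (mul_pos (pow_pos hX _) (Finset.prod_pos fun i _ => pow_pos (hs i) _)).ne'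
    (v.pos hZ).ne', Real.log_mul (pow_pos hX _).ne'
    (Finset.prod_pos fun i _ => pow_pos (hs i) _).ne', Real.log_pow,
    Real.log_prod fun i _ => (pow_pos (hs i) _).ne']
  have h4 : ((TB.ex B.k z.2 : ℕ) : ℝ) = ∑ i, (B.k i : ℝ) * (M - z.2 i) := by
    rw [TB.ex]
    push_cast
    refine Finset.sum_congr rfl fun i _ => ?_
    rw [Nat.cast_sub (Nat.lt_succ_iff.mp (z.2 i).2)]
  have h5 : ∀ i, (z.2 i : ℝ) * B.tau v P y i = Real.log ((⨆ b, v (y (i, b))) ^ (z.2 i : ℕ)) -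
      (z.2 i : ℝ) * (B.k i * Real.log (⨆ j, v (A.x P j))) := by
    intro i
    rw [Real.log_pow]
    unfold Bun.tau
    ring
  rw [h4, Finset.sum_congr rfl fun i _ => h5 i, Finset.sum_sub_distrib, Finset.sum_mul,
    Finset.mul_sum]
  have h6 : ∑ i, (B.k i : ℝ) * (M - z.2 i) * Real.log (⨆ j, v (A.x P j)) =
      ∑ i, (M : ℝ) * (B.k i * Real.log (⨆ j, v (A.x P j))) -
        ∑ i, (z.2 i : ℝ) * (B.k i * Real.log (⨆ j, v (A.x P j))) := by
    rw [← Finset.sum_sub_distrib]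
    exact Finset.sum_congr rfl fun i _ => by ring
  rw [h6]
  ring

end

end Pool.Agent.Lib.MP_17a322_nt.SV3
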