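import Pool.Agent.Lib.MP_17a322_nt.SV3.G1
import Pool.Agent.Lib.MP_17a322_nt.SV3.V1
import Pool.Agent.Lib.MP_17a322_nt.SV3.N1
import Pool.Agent.Lib.MP_17a322_nt.SV2.P

/-!
The local inequality.
-/

universe u

namespace Pool.Agent.Lib.MP_17a322_nt.SV3

open MvPolynomial Height
open Pool.Agent.Lib.MP_17a322_nt.VA
open Pool.Agent.Lib.MP_17a322_nt.VJ
open Pool.Agent.Lib.MP_17a322_nt.SL
open Pool.Agent.Lib.MP_17a322_nt.SV2 (Box Rw Cf Tm fs sp ps be)

section

variable {K : Type u} [Field K] [NumberField K] {N q p p' m : ℕ} {A : AV K N}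
  (B : Bun A q p p')

theorem G_loc {M : ℕ} {d o : Fin q → ℕ} (v : AbsoluteValue K ℝ) (P : A.Pts K)
    {y : Fin q × Fin p → K} (hy : B.On P y) {Z : Fin 2 → K} (hZ : ∀ i, Z i ≠ 0) {bd : ℝ}
    (hbd : ∀ i, Real.log (v (Z i)) ≤ bd) {c : Fin q → ℕ} (hc : ∀ j, c j ≤ d j) {s : ℝ}
    (hs : ∑ j, (c j : ℝ) * B.tau v P y j = s - ∑ j, (o j : ℝ) * B.tau v P y j)
    (a : Fin (N + 1)) (ha : v (A.x P a) = ⨆ j, v (A.x P j)) (b : Fin q → Fin p)
    (hb : ∀ i, v (y (i, b i)) = ⨆ b', v (y (i, b'))) :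
    ((Fintype.card (Fin 2 × Box q M) : ℝ) - Fintype.card (Rw q M d)) *
        (Real.log (⨆ i, v (Z i)) + M * ∑ i, max (B.tau v P y i) 0 - bd) -
      (2 * ∑ a : Box q M, ∑ j, (a j : ℝ) * B.tau v P y j -
        ∑ b : Rw q M d, ∑ j, (b.1 j : ℝ) * B.tau v P y j) +
      Fintype.card (Rw q M d) * (s - ∑ j, (o j : ℝ) * B.tau v P y j) ≤
    ∑ j ∈ (open Classical in (Jv M d c).image fun z => (z, kc M a b z)),
      SG.lamT A v 0 (Lc j) P (B.Y M (A.x P) y Z) := by
  classical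
  have hZ0 : Z ≠ 0 := fun h => hZ 0 (congrFun h 0)
  have hcard : ((Jv M d c).card : ℝ) =
      (Fintype.card (Fin 2 × Box q M) : ℝ) - Fintype.card (Rw q M d) := by
    rw [← J_card (M := M) (d := d) hc]
    push_cast
    ring
  rw [Finset.sum_image (fun z _ z' _ h => congrArg Prod.fst h)]
  have h1 : ∀ z : Fin 2 × Box q M, SG.lamT A v 0 (Lc (z, kc M a b z)) P
      (B.Y M (A.x P) y Z) = (Real.log (⨆ i, v (Z i)) + M * ∑ i, max (B.tau v P y i) 0) -
        (Real.log (v (Z z.1)) + ∑ j, (z.2 j : ℝ) * B.tau v P y j) := by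
    intro z
    unfold SG.lamT
    rw [V_Y B v M P hy hZ0, Nat.cast_zero, zero_mul, add_zero, Lc_sum]
    have h2 := V_coord B v M P hy a ha b hb z (hZ z.1)
    have h3 : (z, kc M a b z) = (z, (a, fun i : Fin q × Fin p =>
      if i.2 = b i.1 then z.2 i.1 else (0 : Fin (M + 1)))) := rfl
    rw [h3, h2, Finset.sum_add_distrib, mul_add]
    ring
  rw [Finset.sum_congr rfl fun z _ => h1 z, Finset.sum_sub_distrib, Finset.sum_const,
    nsmul_eq_mul, hcard, Finset.sum_add_distrib (f := fun z : Fin 2 × Box q M =>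
      Real.log (v (Z z.1))), J_exp hc, hs]
  have h3 : ∑ z ∈ Jv M d c, Real.log (v (Z z.1)) ≤
      ((Fintype.card (Fin 2 × Box q M) : ℝ) - Fintype.card (Rw q M d)) * bd := by
    rw [← hcard, ← nsmul_eq_mul]
    exact Finset.sum_le_card_nsmul _ _ _ fun z _ => hbd z.1
  linarith

omit [NumberField K] in
/-- The maximal coordinates. -/
theorem G_maxc (v : AbsoluteValue K ℝ) (P : A.Pts K) {y : Fin q × Fin p → K} (hy : B.On P y) :
    ∃ (a : Fin (N + 1)) (b : Fin q → Fin p), v (A.x P a) = ⨆ j, v (A.x P j) ∧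
      (∀ i, v (y (i, b i)) = ⨆ b', v (y (i, b'))) ∧ A.x P a ≠ 0 ∧ ∀ i, y (i, b i) ≠ 0 := by
  obtain ⟨a, ha⟩ := exists_eq_ciSup_of_finite (f := fun j => v (A.x P j))
  have h1 : ∀ i, Nonempty (Fin p) := fun i => ⟨(hy i).1.choose⟩
  have h2 : ∀ i, ∃ b, v (y (i, b)) = ⨆ b', v (y (i, b')) := fun i => by
    have := h1 i
    exact exists_eq_ciSup_of_finite (f := fun b' => v (y (i, b')))
  choose b hb using h2
  refine ⟨a, b, ha, hb, ?_, fun i => ?_⟩
  · intro h0
    rw [h0, map_zero] at ha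
    obtain ⟨j, hj⟩ := A.exists_x_ne P
    have h3 : v (A.x P j) ≤ 0 := by
      rw [ha]
      exact Finite.le_ciSup (fun j => v (A.x P j)) j
    exact hj ((map_eq_zero v).1 (le_antisymm h3 (v.nonneg _)))
  · intro h0
    obtain ⟨b', hb'⟩ := (hy i).1
    have h4 := hb i
    rw [h0, map_zero] at h4
    have h3 : v (y (i, b')) ≤ 0 := by
      rw [h4]
      exact Finite.le_ciSup (fun b' => v (y (i, b'))) b'
    exact hb' ((map_eq_zero v).1 (le_antisymm h3 (v.nonneg _)))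

/-- Sums of multiples of the `tau_i` over the places in `S`. -/
theorem G_ps_tau (S : Finset (NumberField.FinitePlace K)) {P : A.Pts K} {y : Fin q × Fin p → K}
    (hy : B.On P y) (c : Fin q → ℝ) {E : ℝ} (hE : 0 ≤ E) (hc : ∀ i, |c i| ≤ E) :
    |gs (fun v => ∑ i, c i * B.tau v P y i) - ps S (fun v => ∑ i, c i * B.tau v P y i)| ≤
      E * B.NS S P y := by
  have hFS : ∀ c : Fin q → ℝ, FS fun v => ∑ i, c i * B.tau v P y i := fun c =>
    FS_sum _ fun i _ => FS_const_mul _ (N_FS_tau B hy i)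
  have h1 : ∀ c : Fin q → ℝ, (∀ i, |c i| ≤ E) → gs (fun v => ∑ i, c i * B.tau v P y i) -
      ps S (fun v => ∑ i, c i * B.tau v P y i) ≤ E * B.NS S P y := by
    intro c hc
    have h2 := N_out B S hy (hFS c) hE fun v _ => by
      rw [Finset.mul_sum]
      refine Finset.sum_le_sum fun i _ => ?_
      refine (le_abs_self _).trans ?_
      rw [abs_mul]
      exact mul_le_mul_of_nonneg_right (hc i) (abs_nonneg _)
    linarith
  rw [abs_le]
  refine ⟨?_, h1 c hc⟩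
  have h3 := h1 (fun i => - c i) fun i => by rw [abs_neg]; exact hc i
  have h4 : (fun v => ∑ i, (fun i => - c i) i * B.tau v P y i) =
      fun v : AbsoluteValue K ℝ => (-1) * ∑ i, c i * B.tau v P y i := by
    funext v
    rw [Finset.mul_sum]
    exact Finset.sum_congr rfl fun i _ => by ring
  rw [h4, gs_const_mul, SV2.ps_smul] at h3
  linarith

end

end Pool.Agent.Lib.MP_17a322_nt.SV3
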