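import Pool.Agent.Lib.MP_17a322_nt.SV3.G2

/-!
The data for the subspace theorem.
-/

universe u

namespace Pool.Agent.Lib.MP_17a322_nt.SV3

open MvPolynomial Height
open Pool.Agent.Lib.MP_17a322_nt.VA
open Pool.Agent.Lib.MP_17a322_nt.VJ
open Pool.Agent.Lib.MP_17a322_nt.SL
open Pool.Agent.Lib.MP_17a322_nt.SV2 (Box Rw Cf Tm fs sp ps be mn Tm_zero Tm_one Tm_fib col_card
  Rw_card_le)

section

variable {K : Type u} [Field K] [NumberField K] {N q p p' m : ℕ} {A : AV K N}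
  (B : Bun A q p p')

/-- The degrees of the rows. -/
theorem G_rows {D : ℕ} {ch : Fin q → Fin p'}
    {g : Fin 2 → MvPolynomial (Fin q × Fin p) (MvPolynomial (Fin (N + 1)) K)}
    (R : B.Red ch D g) (M : ℕ) (b : Rw q M R.d) (z : Fin 2 × Box q M) :
    Tm M R.d R.Q b z = 0 ∨ ∃ μ, (Tm M R.d R.Q b z).IsHomogeneous μ ∧
      μ + (∑ j, B.e j * (b.1 j : ℕ) + ∑ j, B.k j * (M - b.1 j) + ∑ j, B.k j * R.o j) =
        (D + ∑ j, B.e j * R.o j) + (TB.ex B.k z.2 + ∑ j, B.e j * z.2 j) := by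
  classical
  obtain ⟨i, a⟩ := z
  have key : ∀ i : Fin 2, coeff (be a) (monomial (be b.1) 1 * R.Q i) = 0 ∨ ∃ μ,
      (coeff (be a) (monomial (be b.1) 1 * R.Q i)).IsHomogeneous μ ∧
      μ + (∑ j, B.e j * (b.1 j : ℕ) + ∑ j, B.k j * (M - b.1 j) + ∑ j, B.k j * R.o j) =
        (D + ∑ j, B.e j * R.o j) + (TB.ex B.k a + ∑ j, B.e j * a j) := by
    intro i
    rw [coeff_monomial_mul']
    split_ifs with hle
    swap
    · exact Or.inl rfl
    rw [one_mul]
    by_cases h0 : coeff (be a - be b.1) (R.Q i) = 0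
    · exact Or.inl h0
    right
    obtain ⟨μ, hμ, hμ2⟩ := R_hom B R i _ h0
    refine ⟨μ, hμ, ?_⟩
    have hj : ∀ j, (b.1 j : ℕ) ≤ a j := fun j => hle j
    have hM : ∀ j, (a j : ℕ) ≤ M := fun j => by
      have := (a j).2
      omega
    have hsub : ∀ j, (be a - be b.1) j = (a j : ℕ) - b.1 j := fun j => rfl
    simp only [hsub] at hμ2
    have h1 : ∑ j, B.k j * ((a j : ℕ) - b.1 j + R.o j) + TB.ex B.k a =
        ∑ j, B.k j * (M - b.1 j) + ∑ j, B.k j * R.o j := by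
      unfold TB.ex
      rw [← Finset.sum_add_distrib, ← Finset.sum_add_distrib]
      refine Finset.sum_congr rfl fun j _ => ?_
      rw [← mul_add, ← mul_add]
      congr 1
      have := hj j
      have := hM j
      omega
    have h2 : ∑ j, B.e j * ((a j : ℕ) - b.1 j + R.o j) + ∑ j, B.e j * (b.1 j : ℕ) =
        ∑ j, B.e j * (a j : ℕ) + ∑ j, B.e j * R.o j := by
      rw [← Finset.sum_add_distrib, ← Finset.sum_add_distrib]
      refine Finset.sum_congr rfl fun j _ => ?_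
      rw [← mul_add, ← mul_add]
      congr 1
      have := hj j
      omega
    omega
  fin_cases i
  · exact key 1
  · show Tm M R.d R.Q b (1, a) = 0 ∨ ∃ μ, (Tm M R.d R.Q b (1, a)).IsHomogeneous μ ∧ _
    rw [Tm_one]
    rcases key 0 with h | ⟨μ, h1, h2⟩
    · left
      rw [h, neg_zero]
    · right
      exact ⟨μ, h1.neg, h2⟩

omit [NumberField K] in
theorem G_w_hom {ch : Fin q → Fin p'} (h : B.Ch ch) (M : ℕ) (z : Fin 2 × Box q M)
    (κ : TB.Kp N q p M) :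
    (B.w ch M z κ).IsHomogeneous (TB.ex B.k z.2 + ∑ j, B.e j * z.2 j) :=
  TB.wB_hom (B.tor ch h) M z.2 κ

omit [NumberField K] in
theorem G_w_ne {ch : Fin q → Fin p'} (h : B.Ch ch) (M : ℕ) (z : Fin 2 × Box q M) :
    ∃ κ : TB.Kp N q p M, B.w ch M z κ ∉ A.I :=
  TB.wB_ne (B.tor ch h) M z.2

/-- The rows are independent. -/
theorem G_li {D : ℕ} {ch : Fin q → Fin p'}
    {g : Fin 2 → MvPolynomial (Fin q × Fin p) (MvPolynomial (Fin (N + 1)) K)}
    (R : B.Red ch D g) (M : ℕ) :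
    ∃ (L : Type u) (_ : Field L) (_ : Algebra K L) (P : A.Pts L), Gen A P ∧
      LinearIndependent L (fun i z => aeval (A.x P) (Tm M R.d R.Q i z)) := by
  obtain ⟨L, _, _, _, P, hP, hcop⟩ := R.cop
  refine ⟨L, _, _, P, hP, ?_⟩
  obtain ⟨a, ha⟩ := A.exists_x_ne P
  have haI : (X a : MvPolynomial (Fin (N + 1)) K) ∉ A.I := by
    intro h
    have h1 := A.x_isPt P _ h
    rw [aeval_X] at h1
    exact ha h1
  choose b hb using R.hch
  obtain ⟨c, -, -, hc⟩ := G_ind B R M (fun _ => 0)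
  have h1 := (hc a b haI hb L P hP).comp Sum.inl Sum.inl_injective
  exact h1

/-- The point of the kernel. -/
theorem G_fib {D : ℕ} {ch : Fin q → Fin p'}
    {g : Fin 2 → MvPolynomial (Fin q × Fin p) (MvPolynomial (Fin (N + 1)) K)}
    (R : B.Red ch D g) (M : ℕ) (P : A.Pts K) (t : Fin q → K) :
    (fun z : Fin 2 × Box q M => (∏ j, t j ^ R.o j) *
      eval t (sp A P (R.Q z.1) * monomial (be z.2) 1)) ∈ SG.FibT A (Tm M R.d R.Q) P := by
  intro b
  have h1 := Tm_fib (M := M) (d := R.d) (fun i => sp A P (R.Q i))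
    (fun i j => X_sp_deg (R_deg B R i) P j) t b
  have h2 : ∀ z : Fin 2 × Box q M, aeval (A.x P) (Tm M R.d R.Q b z) *
      ((∏ j, t j ^ R.o j) * eval t (sp A P (R.Q z.1) * monomial (be z.2) 1)) =
      (∏ j, t j ^ R.o j) * (Tm M R.d (fun i => sp A P (R.Q i)) b z *
        (eval t (sp A P (R.Q z.1)) * mn t z.2)) := by
    intro z
    rw [X_Tm_sp, map_mul, SV2.eval_mon, one_mul]
    ring
  rw [Finset.sum_congr rfl fun z _ => h2 z, ← Finset.mul_sum, h1, mul_zero]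

end

end Pool.Agent.Lib.MP_17a322_nt.SV3
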