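import Pool.Agent.Lib.MP_17a322_nt.SV3.A1
import Pool.Agent.Lib.MP_17a322_nt.VJ.A4

/-!
Upper bounds for the values of weighted homogeneous polynomials on the bundle, at all places.
-/

universe u

namespace Pool.Agent.Lib.MP_17a322_nt.SV3

open MvPolynomial Height
open Pool.Agent.Lib.MP_17a322_nt.VA
open Pool.Agent.Lib.MP_17a322_nt.VJ
open Pool.Agent.Lib.MP_17a322_nt.SL

section

variable {K : Type u} [Field K] {N q p p' m : ℕ} {A : AV K N} (B : Bun A q p p')

theorem L1_x_pos {L : Type u} [Field L] [Algebra K L] (v : AbsoluteValue L ℝ) (P : A.Pts L) :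
    0 < ⨆ j, v (A.x P j) := by
  obtain ⟨j, hj⟩ := A.exists_x_ne P
  exact (v.pos hj).trans_le (Finite.le_ciSup_of_le (f := fun j => v (A.x P j)) j le_rfl)

theorem L1_y_pos {L : Type u} [Field L] [Algebra K L] (v : AbsoluteValue L ℝ) {P : A.Pts L}
    {y : Fin q × Fin p → L} (hy : B.On P y) (i : Fin q) : 0 < ⨆ c, v (y (i, c)) := by
  obtain ⟨c, hc⟩ := (hy i).1
  exact (v.pos hc).trans_le (Finite.le_ciSup_of_le (f := fun c => v (y (i, c))) c le_rfl)

/-- The size of a form. -/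
theorem L1_form {L : Type u} [Field L] [Algebra K L] {n : ℕ} (v : AbsoluteValue L ℝ) {δ : ℕ}
    {f : MvPolynomial (Fin n) K} (hf : f.IsHomogeneous δ) {E : ℝ} (hE : 0 ≤ E)
    (h : ∀ m, v (algebraMap K L (coeff m f)) ≤ E) (x : Fin n → L) :
    v (aeval x f) ≤ cst v f.support.card * (E * (⨆ j, v (x j)) ^ δ) := by
  have hX : 0 ≤ ⨆ j, v (x j) := Real.iSup_nonneg fun j => v.nonneg _
  rw [aeval_def, eval₂_eq']
  refine (SN_self v).sum_le _ _ (mul_nonneg hE (pow_nonneg hX _)) fun m hm => ?_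
  rw [map_mul, map_prod]
  refine mul_le_mul (h m) ?_ (Finset.prod_nonneg fun i _ => v.nonneg _) hE
  have h1 : ∑ i, m i = δ := by
    have h2 := hf (mem_support_iff.1 hm)
    rw [← h2, Finsupp.weight_apply, Finsupp.sum_fintype _ _ (by simp)]
    simp
  rw [← h1, ← Finset.prod_pow_eq_pow_sum]
  refine Finset.prod_le_prod (fun i _ => v.nonneg _) fun i _ => ?_
  rw [map_pow]
  exact pow_le_pow_left₀ (v.nonneg _) (Finite.le_ciSup_of_le (f := fun j => v (x j)) i le_rfl) _

theorem L1_mon {L : Type u} [Field L] [Algebra K L] (v : AbsoluteValue L ℝ) {P : A.Pts L}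
    {y : Fin q × Fin p → L} (hy : B.On P y) (μ : Fin q × Fin p →₀ ℕ) :
    v (∏ i, y i ^ μ i) ≤ Real.exp (∑ i, (md μ i : ℝ) * B.tau v P y i) *
      (⨆ j, v (A.x P j)) ^ (∑ i, B.k i.1 * μ i) := by
  have hx := L1_x_pos v P
  have h0 : ∑ i, (md μ i : ℝ) * B.tau v P y i =
      ∑ i : Fin q × Fin p, (μ i : ℝ) * B.tau v P y i.1 := by
    rw [Fintype.sum_prod_type]
    refine Finset.sum_congr rfl fun i _ => ?_
    unfold md
    rw [Nat.cast_sum, Finset.sum_mul]
  have h1 : Real.exp (∑ i, (md μ i : ℝ) * B.tau v P y i) *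
      (⨆ j, v (A.x P j)) ^ (∑ i, B.k i.1 * μ i) =
      ∏ i : Fin q × Fin p, (⨆ c, v (y (i.1, c))) ^ μ i := by
    rw [h0, Real.exp_sum, ← Finset.prod_pow_eq_pow_sum, ← Finset.prod_mul_distrib]
    refine Finset.prod_congr rfl fun i _ => ?_
    rw [Real.exp_nat_mul, pow_mul, ← mul_pow]
    unfold Bun.tau
    rw [Real.exp_sub, Real.exp_log (L1_y_pos B v hy i.1), Real.exp_nat_mul, Real.exp_log hx,
      div_mul_cancel₀ _ (pow_pos hx _).ne']
  rw [h1, map_prod]
  refine Finset.prod_le_prod (fun i _ => v.nonneg _) fun i _ => ?_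
  rw [map_pow]
  exact pow_le_pow_left₀ (v.nonneg _)
    (Finite.le_ciSup_of_le (f := fun c => v (y (i.1, c))) i.2 le_rfl) _

theorem L1_pt_support (a : Fin q → ℕ)
    (b : MvPolynomial (Fin q × Fin p) (MvPolynomial (Fin (N + 1)) K)) {μ : Fin q × Fin p →₀ ℕ}
    (hμ : μ ∈ (pt a b).support) : μ ∈ b.support ∧ md μ = a ∧ coeff μ (pt a b) = coeff μ b := by
  classical
  have h1 : coeff μ (pt a b) = if μ ∈ b.support.filter fun μ => md μ = a then coeff μ b else 0 := by
    unfold pt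
    rw [coeff_sum]
    simp only [coeff_monomial]
    rw [Finset.sum_ite_eq']
  rw [mem_support_iff, h1] at hμ
  by_cases h2 : μ ∈ b.support.filter fun μ => md μ = a
  · rw [if_pos h2] at h1
    exact ⟨(Finset.mem_filter.1 h2).1, (Finset.mem_filter.1 h2).2, h1⟩
  · rw [if_neg h2] at hμ
    exact absurd rfl hμ

/-- The size of the part of multidegree `a`. -/
theorem L1_pt (v : AbsoluteValue K ℝ) {D : ℕ}
    {b : MvPolynomial (Fin q × Fin p) (MvPolynomial (Fin (N + 1)) K)} (hb : B.WH D b)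
    {E : ℝ} (hE : 0 ≤ E) (h : ∀ μ m, v (coeff m (coeff μ b)) ≤ E) {n₁ n₂ : ℕ}
    (hn₁ : ∀ μ ∈ b.support, (coeff μ b).support.card ≤ n₁) (hn₂ : b.support.card ≤ n₂)
    (a : Fin q → ℕ) {P : A.Pts K} {y : Fin q × Fin p → K} (hy : B.On P y) :
    v (ev P y (pt a b)) ≤ cst v n₂ * (cst v n₁ * (E * ((⨆ j, v (A.x P j)) ^ D *
      Real.exp (∑ i, (a i : ℝ) * B.tau v P y i)))) := by
  have hx := L1_x_pos v P
  have h0 : 0 ≤ cst v n₁ * (E * ((⨆ j, v (A.x P j)) ^ D *
      Real.exp (∑ i, (a i : ℝ) * B.tau v P y i))) :=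
    mul_nonneg (cst_nonneg v _) (mul_nonneg hE (mul_nonneg (pow_nonneg hx.le _)
      (Real.exp_pos _).le))
  have h1 : ev P y (pt a b) =
      ∑ μ ∈ (pt a b).support, aeval (A.x P) (coeff μ b) * ∏ i, y i ^ μ i := by
    unfold ev
    rw [eval_map, eval₂_eq']
    refine Finset.sum_congr rfl fun μ hμ => ?_
    rw [(L1_pt_support a b hμ).2.2]
    rfl
  rw [h1]
  refine ((SN_self v).sum_le _ _ h0 fun μ hμ => ?_).trans
    (mul_le_mul_of_nonneg_right (cst_mono v ?_) h0)
  · obtain ⟨h2, h3, -⟩ := L1_pt_support a b hμ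
    obtain ⟨δ, h4, h5⟩ := hb μ (mem_support_iff.1 h2)
    have h6 := L1_form v h4 hE (fun m => h μ m) (A.x P)
    have h7 := L1_mon B v hy μ
    rw [h3] at h7
    rw [map_mul]
    have h8 : v (aeval (A.x P) (coeff μ b)) ≤
        cst v n₁ * (E * (⨆ j, v (A.x P j)) ^ δ) :=
      h6.trans (mul_le_mul_of_nonneg_right (cst_mono v (hn₁ μ h2))
        (mul_nonneg hE (pow_nonneg hx.le _)))
    refine (mul_le_mul h8 h7 (v.nonneg _) (mul_nonneg (cst_nonneg v _)
      (mul_nonneg hE (pow_nonneg hx.le _)))).trans (le_of_eq ?_)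
    rw [← h5, pow_add]
    ring
  · exact (Finset.card_le_card fun μ hμ => (L1_pt_support a b hμ).1).trans hn₂

end

section

variable {K : Type u} [Field K] [NumberField K] {N q p p' m : ℕ} {A : AV K N}
  (B : Bun A q p p')

theorem L_ge {D : ℕ} {g : Fin m → MvPolynomial (Fin q × Fin p) (MvPolynomial (Fin (N + 1)) K)}
    (hg : ∀ k, B.WH D (g k)) :
    ∃ c : AbsoluteValue K ℝ → ℝ, FS c ∧ (∀ v, 0 ≤ c v) ∧ ∀ v, Pl v → ∀ (P : A.Pts K)
      (y : Fin q × Fin p → K), B.On P y → ∀ k, ev P y (g k) ≠ 0 →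
        Real.log (v (ev P y (g k))) ≤
          D * Real.log (⨆ j, v (A.x P j)) + B.sup g (B.tau v P y) + c v := by
  classical
  obtain ⟨n₃, hn₃⟩ : ∃ n, n = (A_new_fin B g).toFinset.card + 1 := ⟨_, rfl⟩
  obtain ⟨n₂, hn₂⟩ : ∃ n, n = ∑ k, (g k).support.card + 1 := ⟨_, rfl⟩
  obtain ⟨n₁, hn₁⟩ : ∃ n, n = ∑ k, ∑ μ ∈ (g k).support, (coeff μ (g k)).support.card + 1 :=
    ⟨_, rfl⟩
  obtain ⟨l, hl⟩ : ∃ l : AbsoluteValue K ℝ → ℝ, l = fun v => ∑ k, ∑ μ ∈ (g k).support,
      ∑ m ∈ (coeff μ (g k)).support, Real.log (max 1 (v (coeff m (coeff μ (g k))))) := ⟨_, rfl⟩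
  have hl0 : ∀ (v : AbsoluteValue K ℝ) (x : K), 0 ≤ Real.log (max 1 (v x)) := fun v x =>
    Real.log_nonneg (le_max_left _ _)
  have hlv : ∀ v, 0 ≤ l v := fun v => by
    rw [hl]
    exact Finset.sum_nonneg fun k _ => Finset.sum_nonneg fun μ _ => Finset.sum_nonneg fun m _ =>
      hl0 _ _
  have hlc : ∀ (v : AbsoluteValue K ℝ) k μ m, v (coeff m (coeff μ (g k))) ≤ Real.exp (l v) := by
    intro v k μ m
    by_cases h0 : coeff m (coeff μ (g k)) = 0
    · rw [h0, map_zero]
      exact (Real.exp_pos _).le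
    · have h1 : μ ∈ (g k).support := by
        rw [mem_support_iff]
        intro h
        exact h0 (by rw [h, coeff_zero])
      have h2 : Real.log (max 1 (v (coeff m (coeff μ (g k))))) ≤ l v := by
        rw [hl]
        refine le_trans ?_ (Finset.single_le_sum (f := fun k => ∑ μ ∈ (g k).support,
          ∑ m ∈ (coeff μ (g k)).support, Real.log (max 1 (v (coeff m (coeff μ (g k))))))
          (fun k _ => Finset.sum_nonneg fun μ _ => Finset.sum_nonneg fun m _ => hl0 _ _)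
          (Finset.mem_univ k))
        refine le_trans ?_ (Finset.single_le_sum (f := fun μ =>
          ∑ m ∈ (coeff μ (g k)).support, Real.log (max 1 (v (coeff m (coeff μ (g k))))))
          (fun μ _ => Finset.sum_nonneg fun m _ => hl0 _ _) h1)
        exact Finset.single_le_sum (f := fun m =>
          Real.log (max 1 (v (coeff m (coeff μ (g k)))))) (fun m _ => hl0 _ _)
          (mem_support_iff.2 h0)
      calc v (coeff m (coeff μ (g k))) ≤ max 1 (v (coeff m (coeff μ (g k)))) := le_max_right _ _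
        _ = Real.exp (Real.log (max 1 (v (coeff m (coeff μ (g k)))))) :=
          (Real.exp_log (lt_of_lt_of_le one_pos (le_max_left _ _))).symm
        _ ≤ _ := Real.exp_le_exp.2 h2
  have hcst : ∀ v : AbsoluteValue K ℝ, ∀ n, 1 ≤ n → 0 ≤ Real.log (cst v n) := fun v n hn =>
    Real.log_nonneg (one_le_cst v hn)
  have h₃ : 1 ≤ n₃ := by omega
  have h₂ : 1 ≤ n₂ := by omega
  have h₁ : 1 ≤ n₁ := by omega
  refine ⟨fun v => Real.log (cst v n₃) + (Real.log (cst v n₂) + (Real.log (cst v n₁) + l v)),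
    ?_, ?_, ?_⟩
  · refine FS_add (FS_log_cst _) (FS_add (FS_log_cst _) (FS_add (FS_log_cst _) ?_))
    rw [hl]
    exact FS_sum _ fun k _ => FS_sum _ fun μ _ => FS_sum _ fun m _ => FS_log_max _
  · intro v
    have := hlv v
    have := hcst v _ h₁
    have := hcst v _ h₂
    have := hcst v _ h₃
    positivity
  · intro v _ P y hy k hk
    have hx := L1_x_pos v P
    have h1 : v (ev P y (g k)) ≤ cst v n₃ * (cst v n₂ * (cst v n₁ * (Real.exp (l v) *
        ((⨆ j, v (A.x P j)) ^ D * Real.exp (B.sup g (B.tau v P y)))))) := by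
      have h0 : 0 ≤ cst v n₂ * (cst v n₁ * (Real.exp (l v) *
        ((⨆ j, v (A.x P j)) ^ D * Real.exp (B.sup g (B.tau v P y))))) :=
        mul_nonneg (cst_nonneg v _) (mul_nonneg (cst_nonneg v _) (mul_nonneg (Real.exp_pos _).le
          (mul_nonneg (pow_nonneg hx.le _) (Real.exp_pos _).le)))
      rw [A_ev_sum B k hy]
      refine ((SN_self v).sum_le _ _ h0 fun a ha => ?_).trans
        (mul_le_mul_of_nonneg_right (cst_mono v (by omega)) h0)
      refine (L1_pt B v (hg k) (Real.exp_pos (l v)).le (fun μ m => hlc v k μ m) (n₁ := n₁)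
        (n₂ := n₂) ?_ ?_ a hy).trans ?_
      · intro μ hμ
        have h2 := Finset.single_le_sum (f := fun μ => (coeff μ (g k)).support.card)
          (fun μ _ => Nat.zero_le _) hμ
        have h3 := Finset.single_le_sum (f := fun k => ∑ μ ∈ (g k).support,
          (coeff μ (g k)).support.card) (fun μ _ => Nat.zero_le _) (Finset.mem_univ k)
        omega
      · have h3 := Finset.single_le_sum (f := fun k => (g k).support.card)
          (fun μ _ => Nat.zero_le _) (Finset.mem_univ k)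
        omega
      · refine mul_le_mul_of_nonneg_left (mul_le_mul_of_nonneg_left (mul_le_mul_of_nonneg_left
          (mul_le_mul_of_nonneg_left (Real.exp_le_exp.2 ?_) (pow_nonneg hx.le _))
          (Real.exp_pos _).le) (cst_nonneg v _)) (cst_nonneg v _)
        exact A_sup_le B ((A_new_fin B g).mem_toFinset.1 ha) _
    have hc : ∀ n, 1 ≤ n → cst v n ≠ 0 := fun n hn =>
      (lt_of_lt_of_le one_pos (one_le_cst v hn)).ne'
    have h2 := Real.log_le_log (v.pos hk) h1
    rw [Real.log_mul (hc _ h₃) (mul_ne_zero (hc _ h₂) (mul_ne_zero (hc _ h₁) (mul_ne_zero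
        (Real.exp_pos _).ne' (mul_ne_zero (pow_pos hx _).ne' (Real.exp_pos _).ne')))),
      Real.log_mul (hc _ h₂) (mul_ne_zero (hc _ h₁) (mul_ne_zero
        (Real.exp_pos _).ne' (mul_ne_zero (pow_pos hx _).ne' (Real.exp_pos _).ne'))),
      Real.log_mul (hc _ h₁) (mul_ne_zero
        (Real.exp_pos _).ne' (mul_ne_zero (pow_pos hx _).ne' (Real.exp_pos _).ne')),
      Real.log_mul (Real.exp_pos _).ne' (mul_ne_zero (pow_pos hx _).ne' (Real.exp_pos _).ne'),
      Real.log_mul (pow_pos hx _).ne' (Real.exp_pos _).ne', Real.log_exp, Real.log_exp,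
      Real.log_pow] at h2
    refine h2.trans (le_of_eq ?_)
    ring

end

end Pool.Agent.Lib.MP_17a322_nt.SV3
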