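import Pool.Agent.Lib.MP_17a322_nt.SV3.G3
import Pool.Agent.Lib.MP_17a322_nt.SV3.E1
import Pool.Agent.Lib.MP_17a322_nt.SV3.L1

/-!
The inequality for a fixed size of the box.
-/

universe u

namespace Pool.Agent.Lib.MP_17a322_nt.SV3

open MvPolynomial Height
open Pool.Agent.Lib.MP_17a322_nt.VA
open Pool.Agent.Lib.MP_17a322_nt.VJ
open Pool.Agent.Lib.MP_17a322_nt.SL
open Pool.Agent.Lib.MP_17a322_nt.SV2 (Box Rw Cf Tm fs sp ps be mn Tm_zero Tm_one Tm_fib col_card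
  Rw_card_le ps_add ps_smul ps_sum ps_le)

/-- The numerical part of `G_one`. -/
theorem G_num4 {r β M a1 a1' a2 a2' a3 a4 a5 a5' a6 a6' lW H hP hY bH k NS E5 E6 C₁ C₂ ε₁ ε X a4' : ℝ}
    (hr : 0 ≤ r) (hβ : 0 ≤ β) (hM : 0 ≤ M) (hNS : 0 ≤ NS)
    (hE5 : 0 ≤ E5) (hE6 : 0 ≤ E6) (hε₁ : 0 ≤ ε₁)
    (h1 : r * a1 + r * M * a2 - a3 - r * a4 - a5 - β * a6 + bH ≤
      r * hY + ε₁ * (hY + hP) + C₁)
    (h2 : r * M * k * hP + a5' + β * lW - C₂ ≤ bH)
    (h3 : hY = a1' + M * H) (h4 : M * H = M * k * hP + M * a2')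
    (h5 : a2' - a2 ≤ NS) (h6 : |a5' - a5| ≤ E5 * NS) (h7 : |a6' - a6| ≤ E6 * NS)
    (h8 : hY + hP ≤ X * (hP + H) + a4') (h9 : ε₁ * X = ε) :
    β * (lW - a6') ≤ r * (a1' - a1) + a3 + ε * (hP + H) +
      (r * M + E5 + β * E6 + r * |a4| + |C₁| + |C₂| + ε₁ * |a4'|) * (1 + NS) := by
  have e1 : r * M * (a2' - a2) ≤ r * M * NS := mul_le_mul_of_nonneg_left h5 (mul_nonneg hr hM)
  have e2 := (abs_le.1 h6).1
  have e3 := (abs_le.1 h7).1
  have e4 : β * (a6 - a6') ≤ β * (E6 * NS) := mul_le_mul_of_nonneg_left (by linarith) hβ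
  have e5 : ε₁ * (hY + hP) ≤ ε₁ * (X * (hP + H) + a4') := mul_le_mul_of_nonneg_left h8 hε₁
  have e6 : ε₁ * (X * (hP + H) + a4') = ε * (hP + H) + ε₁ * a4' := by rw [← h9]; ring
  have e7 : ε₁ * a4' ≤ ε₁ * |a4'| := mul_le_mul_of_nonneg_left (le_abs_self _) hε₁
  have e8 : r * a4 ≤ r * |a4| := mul_le_mul_of_nonneg_left (le_abs_self _) hr
  have e9 := le_abs_self C₁
  have e10 := le_abs_self C₂
  have e11 : 0 ≤ (r * |a4| + |C₁| + |C₂| + ε₁ * |a4'|) * NS +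
      (r * M + E5 + β * E6) := by positivity
  have e12 : r * hY = r * a1' + r * M * k * hP + r * M * a2' := by
    rw [h3, h4]; ring
  linarith

section

variable {K : Type u} [Field K] [NumberField K] {N q p p' m : ℕ} {A : AV K N}
  (B : Bun A q p p')

/-- The support function is bounded by the positive parts. -/
theorem G_sup_le {D : ℕ} {ch : Fin q → Fin p'}
    {g : Fin 2 → MvPolynomial (Fin q × Fin p) (MvPolynomial (Fin (N + 1)) K)}
    (R : B.Red ch D g) (τ : Fin q → ℝ) :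
    B.sup g τ ≤ ∑ j, ((R.o j : ℝ) + R.d j) * max (τ j) 0 := by
  obtain ⟨a, ha, hsup⟩ := A_sup_ex B (R_new_ne B R) τ
  rw [hsup]
  refine Finset.sum_le_sum fun j _ => ?_
  have h1 : ((a j : ℕ) : ℝ) ≤ (R.o j : ℝ) + R.d j := by exact_mod_cast R.hi a ha j
  calc (a j : ℝ) * τ j ≤ (a j : ℝ) * max (τ j) 0 :=
        mul_le_mul_of_nonneg_left (le_max_left _ _) (Nat.cast_nonneg _)
    _ ≤ _ := mul_le_mul_of_nonneg_right h1 (le_max_right _ _)

theorem G_one (Γ : AddSubgroup (A.Pts K)) (hΓ : Γ.FG) {D : ℕ} {ch : Fin q → Fin p'}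
    {g : Fin 2 → MvPolynomial (Fin q × Fin p) (MvPolynomial (Fin (N + 1)) K)}
    (R : B.Red ch D g) (S : Finset (NumberField.FinitePlace K)) (M : ℕ) (ε : ℝ)
    (hε : 0 < ε) :
    ∃ (C : ℝ) (G : MvPolynomial (Fin q × Fin p) (MvPolynomial (Fin (N + 1)) K)) (E : ℕ),
      B.WH E G ∧ ¬ B.Van G ∧ ∀ P ∈ Γ, B.In ch P → (∀ i, sp A P (R.Q i) ≠ 0) →
        ∀ y, B.On P y → ev P y G ≠ 0 →
        (∀ i, ev P y (g i) ≠ 0) ∧
        (Fintype.card (Rw q M R.d) : ℝ) * (gs (fun v => B.lW ch R.d R.Q v P) -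
            gs (fun v => ∑ i, (R.o i : ℝ) * B.tau v P y i)) ≤
          (2 * ((M : ℝ) + 1) ^ q - Fintype.card (Rw q M R.d)) *
            (gs (fun v => Real.log (⨆ i, v (ev P y (g i)))) -
              ps S (fun v => Real.log (⨆ i, v (ev P y (g i))))) +
          ps S (fun v => (2 * ((M : ℝ) + 1) ^ q - Fintype.card (Rw q M R.d)) *
              (D * Real.log (⨆ j, v (A.x P j)) + B.sup g (B.tau v P y)) -
            Fintype.card (Rw q M R.d) * B.sup g (B.tau v P y)) +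
          ε * (logHeight (A.x P) + ∑ i, B.ht P y i) + C * (1 + B.NS S P y) := by
  classical
  obtain ⟨H0, hH0⟩ : ∃ x : ℝ, x = (D : ℝ) + 1 + M + ∑ j, ((R.o j : ℝ) + R.d j) := ⟨_, rfl⟩
  have hH0p : 0 < H0 := by rw [hH0]; positivity
  obtain ⟨ε₁, hε₁d⟩ : ∃ x : ℝ, x = ε / H0 := ⟨_, rfl⟩
  have hε₁ : 0 < ε₁ := by rw [hε₁d]; exact div_pos hε hH0p
  have hcardR := Rw_card_le (q := q) (M := M) (d := R.d)
  have hcardC : (Fintype.card (Fin 2 × Box q M) : ℝ) = 2 * ((M : ℝ) + 1) ^ q := by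
    rw [col_card]
    push_cast
    ring
  have hpowpos : (0 : ℝ) < ((M : ℝ) + 1) ^ q := by positivity
  have hlt : Fintype.card (Rw q M R.d) < Fintype.card (Fin 2 × Box q M) := by
    have h1 : (Fintype.card (Rw q M R.d) : ℝ) < Fintype.card (Fin 2 × Box q M) := by
      rw [hcardC]
      linarith
    exact_mod_cast h1
  obtain ⟨C₁, F₀, hF₀, hSL⟩ := TB.W_tw A Γ hΓ
    (r := Fintype.card (Fin 2 × Box q M) - Fintype.card (Rw q M R.d)) (by omega) (by omega) 0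
    (D + ∑ j, B.e j * R.o j)
    (fun b : Rw q M R.d => ∑ j, B.e j * (b.1 j : ℕ) + ∑ j, B.k j * (M - b.1 j) +
      ∑ j, B.k j * R.o j)
    (fun z : Fin 2 × Box q M => TB.ex B.k z.2 + ∑ j, B.e j * z.2 j) (Tm M R.d R.Q)
    (fun b z => G_rows B R M b z) (G_li B R M) (B.w ch M) (fun z κ => G_w_hom B R.hch M z κ)
    (fun z => G_w_ne B R.hch M z) (σ := (Fin 2 × Box q M) × TB.Kp N q p M) Lc
    (fun j x => Lc_hom j x) S ε₁ hε₁
  obtain ⟨G₀, E₀, hG₀, hG₀v, hG₀e⟩ := X_exc B R hF₀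
  obtain ⟨C₂, hC₂⟩ := E_main B R M
  obtain ⟨c, hcFS, hc0, hc⟩ := L_ge B R.wh
  obtain ⟨n, hn⟩ : ∃ n : Fin q → ℝ, n = fun i => 2 * ∑ a : Box q M, (a i : ℝ) -
    ∑ b : Rw q M R.d, (b.1 i : ℝ) := ⟨_, rfl⟩
  obtain ⟨E5, hE5⟩ : ∃ x : ℝ, x = ∑ i, |n i| := ⟨_, rfl⟩
  obtain ⟨E6, hE6⟩ : ∃ x : ℝ, x = ∑ i, (R.o i : ℝ) := ⟨_, rfl⟩
  have hE50 : 0 ≤ E5 := by rw [hE5]; exact Finset.sum_nonneg fun _ _ => abs_nonneg _
  have hE60 : 0 ≤ E6 := by rw [hE6]; positivity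
  obtain ⟨r, hr⟩ : ∃ x : ℝ, x = 2 * ((M : ℝ) + 1) ^ q - Fintype.card (Rw q M R.d) := ⟨_, rfl⟩
  have hr0 : 0 ≤ r := by rw [hr]; linarith
  refine ⟨r * M + E5 + Fintype.card (Rw q M R.d) * E6 + r * |ps S c| + |C₁| + |C₂| +
    ε₁ * |gs c|, G₀ * (g 0 * g 1), E₀ + (D + D),
    A_WH_mul B hG₀ (A_WH_mul B (R.wh 0) (R.wh 1)),
    A_van_mul B hG₀ (A_WH_mul B (R.wh 0) (R.wh 1)) hG₀v
      (A_van_mul B (R.wh 0) (R.wh 1) (R_g_van B R 0) (R_g_van B R 1)), ?_⟩
  intro P hP hIn hQ y hy hne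
  rw [A_ev_mul, A_ev_mul] at hne
  have hne1 := left_ne_zero_of_mul hne
  have hne2 := right_ne_zero_of_mul hne
  have hZ : ∀ i, ev P y (g i) ≠ 0 := by
    intro i
    fin_cases i
    · exact left_ne_zero_of_mul hne2
    · exact right_ne_zero_of_mul hne2
  refine ⟨hZ, ?_⟩
  obtain ⟨Z, hZd⟩ : ∃ Z : Fin 2 → K, Z = fun i => ev P y (g i) := ⟨_, rfl⟩
  have hZ' : ∀ i, Z i ≠ 0 := by rw [hZd]; exact hZ
  have hZ0 : Z ≠ 0 := fun h => hZ' 0 (congrFun h 0)
  obtain ⟨t, ht, hyt⟩ := A_on B hIn hy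
  obtain ⟨Y, hYd⟩ : ∃ Y, Y = B.Y M (A.x P) y Z := ⟨_, rfl⟩
  have hYx : ∀ x, Y x = aeval (A.x P) (B.w ch M x.1 x.2) * ((∏ j, t j ^ R.o j) *
      eval t (sp A P (R.Q x.1.1) * monomial (be x.1.2) 1)) := by
    intro x
    rw [hYd, hZd, hyt, X_Y_yt B R]
    ring
  have hY0 : Y ≠ 0 := by
    obtain ⟨a, ha⟩ := A.exists_x_ne P
    intro h0
    have h1 := congrFun h0 (((0 : Fin 2), fun _ => (0 : Fin (M + 1))),
      (a, fun _ => (0 : Fin (M + 1))))
    rw [hYd] at h1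
    unfold Bun.Y TB.phi at h1
    rw [if_pos (by
      intro i
      simp)] at h1
    refine mul_ne_zero (mul_ne_zero (pow_ne_zero _ ha) ?_) (hZ' 0) h1
    simp
  have hF : aeval (Sum.elim (A.x P) Y) F₀ ≠ 0 := by
    rw [hYd, hZd, ← hG₀e P y]
    exact hne1
  obtain ⟨-, -, hW⟩ := hSL P hP _ (G_fib B R M P t) Y hY0 hYx hF
  have hv : ∀ v : AbsoluteValue K ℝ, ∃ J : Finset ((Fin 2 × Box q M) × TB.Kp N q p M),
      SG.IndT A (Tm M R.d R.Q) (fun j => TB.redT (B.w ch M) (Lc j)) J ∧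
      ∀ bd, (∀ i, Real.log (v (Z i)) ≤ bd) →
        ((Fintype.card (Fin 2 × Box q M) : ℝ) - Fintype.card (Rw q M R.d)) *
            (Real.log (⨆ i, v (Z i)) + M * ∑ i, max (B.tau v P y i) 0 - bd) -
          (2 * ∑ a : Box q M, ∑ j, (a j : ℝ) * B.tau v P y j -
            ∑ b : Rw q M R.d, ∑ j, (b.1 j : ℝ) * B.tau v P y j) +
          Fintype.card (Rw q M R.d) * (B.sup g (B.tau v P y) -
            ∑ j, (R.o j : ℝ) * B.tau v P y j) ≤
        ∑ j ∈ J, SG.lamT A v 0 (Lc j) P Y := by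
    intro v
    obtain ⟨a, b, ha, hb, ha0, hb0⟩ := G_maxc B v P hy
    obtain ⟨e, he1, he2, he3⟩ := G_ind B R M (B.tau v P y)
    refine ⟨_, he3 a b ?_ ?_, fun bd hbd => ?_⟩
    · intro h
      have h1 := A.x_isPt P _ h
      rw [aeval_X] at h1
      exact ha0 h1
    · intro i h
      have h1 := A.x_isPt P _ h
      apply hb0 i
      rw [hyt]
      unfold Bun.yt
      simp only
      rw [h1, mul_zero]
    · rw [hYd]
      exact G_loc B v P hy hZ' hbd he1 he2 a ha b hb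
  choose J hJ1 hJ2 using hv
  obtain ⟨-, hW1⟩ := hW (fun v => J v.val) (fun v => J v.val) (fun v => hJ1 _) (fun v _ => hJ1 _)
  rw [hcardC] at hJ2
  have hb : ∀ v, Pl v → ∀ i, Real.log (v (Z i)) ≤
      D * Real.log (⨆ j, v (A.x P j)) + B.sup g (B.tau v P y) + c v := by
    intro v hv i
    rw [hZd]
    exact hc v hv P y hy i (hZ i)
  obtain ⟨φ, hφ⟩ : ∃ φ : AbsoluteValue K ℝ → ℝ, φ = fun v =>
      (2 * ((M : ℝ) + 1) ^ q - Fintype.card (Rw q M R.d)) *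
            (Real.log (⨆ i, v (Z i)) + M * ∑ i, max (B.tau v P y i) 0 -
              (D * Real.log (⨆ j, v (A.x P j)) + B.sup g (B.tau v P y) + c v)) -
          (2 * ∑ a : Box q M, ∑ j, (a j : ℝ) * B.tau v P y j -
            ∑ b : Rw q M R.d, ∑ j, (b.1 j : ℝ) * B.tau v P y j) +
          Fintype.card (Rw q M R.d) * (B.sup g (B.tau v P y) -
            ∑ j, (R.o j : ℝ) * B.tau v P y j) := ⟨_, rfl⟩
  have hloc : ps S φ ≤ (∑ v : NumberField.InfinitePlace K, (v.mult : ℝ) *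
              ∑ j ∈ J v.val, SG.lamT A v.val 0 (Lc j) P Y) +
            (∑ v ∈ S, ∑ j ∈ J v.val, SG.lamT A v.val 0 (Lc j) P Y) := by
    unfold SV2.ps
    refine add_le_add (Finset.sum_le_sum fun v _ => mul_le_mul_of_nonneg_left ?_
      (Nat.cast_nonneg _)) (Finset.sum_le_sum fun v _ => ?_)
    · rw [hφ]
      exact hJ2 v.val _ (hb _ (Or.inl (NumberField.mem_multisetInfinitePlace.2 v.2)))
    · rw [hφ]
      exact hJ2 v.val _ (hb _ (Or.inr v.isFinitePlace))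
  have hφ2 : φ = fun v => r * Real.log (⨆ i, v (Z i)) + (r * M * (∑ i, max (B.tau v P y i) 0) +
      ((-1) * ((2 * ((M : ℝ) + 1) ^ q - Fintype.card (Rw q M R.d)) *
              (D * Real.log (⨆ j, v (A.x P j)) + B.sup g (B.tau v P y)) -
            Fintype.card (Rw q M R.d) * B.sup g (B.tau v P y)) + ((-r) * c v +
        ((-1) * (∑ i, n i * B.tau v P y i) +
          (-(Fintype.card (Rw q M R.d) : ℝ)) * ∑ i, (R.o i : ℝ) * B.tau v P y i)))) := by
    rw [hφ, hr]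
    funext v
    have h1 : ∑ i, n i * B.tau v P y i = 2 * ∑ a : Box q M, ∑ j, (a j : ℝ) * B.tau v P y j -
            ∑ b : Rw q M R.d, ∑ j, (b.1 j : ℝ) * B.tau v P y j := by
      rw [Finset.sum_comm (s := (Finset.univ : Finset (Box q M))),
        Finset.sum_comm (s := (Finset.univ : Finset (Rw q M R.d))), Finset.mul_sum,
        ← Finset.sum_sub_distrib, hn]
      refine Finset.sum_congr rfl fun i _ => ?_
      rw [← Finset.sum_mul, ← Finset.sum_mul]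
      ring
    rw [h1]
    ring
  have hps : ps S φ = r * ps S (fun v => Real.log (⨆ i, v (Z i))) +
      r * M * ps S (fun v => ∑ i, max (B.tau v P y i) 0) -
      ps S (fun v => (2 * ((M : ℝ) + 1) ^ q - Fintype.card (Rw q M R.d)) *
              (D * Real.log (⨆ j, v (A.x P j)) + B.sup g (B.tau v P y)) -
            Fintype.card (Rw q M R.d) * B.sup g (B.tau v P y)) - r * ps S c -
      ps S (fun v => ∑ i, n i * B.tau v P y i) -
      Fintype.card (Rw q M R.d) * ps S (fun v => ∑ i, (R.o i : ℝ) * B.tau v P y i) := by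
    rw [hφ2]
    simp only [ps_add, ps_smul]
    ring
  have hE := hC₂ P hIn hQ
  have hFSt : ∀ n : Fin q → ℝ, FS fun v => ∑ i, n i * B.tau v P y i := fun n =>
    FS_sum _ fun i _ => FS_const_mul _ (N_FS_tau B hy i)
  have hFSm : ∀ i, FS fun v => max (B.tau v P y i) 0 := fun i => N_FS_max (N_FS_tau B hy i)
  have hht : ∀ i, 0 ≤ B.ht P y i := fun i => Height.logHeight_nonneg _
  have hH0' : ∀ i, B.ht P y i ≤ ∑ i, B.ht P y i := fun i =>
    Finset.single_le_sum (f := fun i => B.ht P y i) (fun i _ => hht i) (Finset.mem_univ i)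
  have hP0 : 0 ≤ logHeight (A.x P) := Height.logHeight_nonneg _
  have hgsn : ∀ n : Fin q → ℝ, gs (fun v => ∑ i, n i * B.tau v P y i) =
      ∑ i, n i * gs (fun v => B.lr ch v P i) := by
    intro n
    rw [gs_sum _ fun i _ => FS_const_mul _ (N_FS_tau B hy i)]
    refine Finset.sum_congr rfl fun i _ => ?_
    rw [gs_const_mul, N_gs_tau B hy hIn]
  have hgsm : gs (fun v => ∑ i, max (B.tau v P y i) 0) =
      ∑ i, (B.ht P y i - B.k i * logHeight (A.x P)) := by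
    rw [gs_sum _ fun i _ => hFSm i]
    exact Finset.sum_congr rfl fun i _ => N_gs_max B hy i
  have hYH : logHeight Y = gs (fun v => Real.log (⨆ i, v (Z i))) + M * ∑ i, B.ht P y i := by
    rw [hYd, V_H B M hy hZ0, gs_log_iSup hZ0]
  have hgsZ : gs (fun v => Real.log (⨆ i, v (Z i))) ≤
      D * logHeight (A.x P) + (∑ j, ((R.o j : ℝ) + R.d j)) * (∑ i, B.ht P y i) + gs c := by
    have hFS1 : FS fun v : AbsoluteValue K ℝ => D * Real.log (⨆ j, v (A.x P j)) :=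
      FS_const_mul _ (N_FS_X P)
    have hFS2 : FS fun v => ∑ j, ((R.o j : ℝ) + R.d j) * max (B.tau v P y j) 0 :=
      FS_sum _ fun j _ => FS_const_mul _ (hFSm j)
    have h1 : gs (fun v => Real.log (⨆ i, v (Z i))) ≤
        gs (fun v => D * Real.log (⨆ j, v (A.x P j)) +
          (∑ j, ((R.o j : ℝ) + R.d j) * max (B.tau v P y j) 0) + c v) := by
      refine gs_le (FS_log_iSup hZ0) (FS_add (FS_add hFS1 hFS2) hcFS) fun v hv => ?_
      have h2 : ∃ i, (⨆ i, v (Z i)) = v (Z i) := by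
        obtain ⟨i, hi⟩ := exists_eq_ciSup_of_finite (f := fun i => v (Z i))
        exact ⟨i, hi.symm⟩
      obtain ⟨i, hi⟩ := h2
      rw [hi]
      have h3 := hb v hv i
      have h4 := G_sup_le B R (B.tau v P y)
      linarith
    rw [gs_add (FS_add hFS1 hFS2) hcFS, gs_add hFS1 hFS2, gs_const_mul,
      gs_log_iSup (A.x_ne P), gs_sum _ fun j _ => FS_const_mul _ (hFSm j)] at h1
    have h2 : ∑ j, gs (fun v => ((R.o j : ℝ) + R.d j) * max (B.tau v P y j) 0) ≤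
        (∑ j, ((R.o j : ℝ) + R.d j)) * (∑ i, B.ht P y i) := by
      rw [Finset.sum_mul]
      refine Finset.sum_le_sum fun j _ => ?_
      rw [gs_const_mul, N_gs_max B hy]
      refine mul_le_mul_of_nonneg_left ?_ (by positivity)
      have h3 : 0 ≤ (B.k j : ℝ) * logHeight (A.x P) := mul_nonneg (Nat.cast_nonneg _) hP0
      have := hH0' j
      linarith
    linarith
  have hHs : 0 ≤ ∑ i, B.ht P y i := Finset.sum_nonneg fun i _ => hht i
  rw [Nat.cast_sub hlt.le, hcardC, ← hr] at hW1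
  rw [← hr] at hps hE
  rw [show (fun v : AbsoluteValue K ℝ => Real.log (⨆ i, v (ev P y (g i)))) =
    fun v => Real.log (⨆ i, v (Z i)) by rw [hZd], ← hr]
  refine G_num4 (a5 := ps S (fun v => ∑ i, n i * B.tau v P y i))
    (a5' := gs (fun v => ∑ i, n i * B.tau v P y i))
    (a6 := ps S (fun v => ∑ i, (R.o i : ℝ) * B.tau v P y i))
    (a2 := ps S (fun v => ∑ i, max (B.tau v P y i) 0))
    (a2' := gs (fun v => ∑ i, max (B.tau v P y i) 0)) (hY := logHeight Y)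
    (k := ∑ i, (B.k i : ℝ)) (X := H0) (ε₁ := ε₁) (M := (M : ℝ)) hr0 (Nat.cast_nonneg _)
    (Nat.cast_nonneg _) (N_NS_nonneg B S P y) hE50 hE60 hε₁.le
    (le_trans (le_of_eq (by rw [hps])) ((add_le_add_left hloc _).trans hW1))
    (le_trans (le_of_eq (by rw [hgsn, hn])) hE) hYH ?_ ?_ ?_ ?_ ?_ ?_
  · rw [hgsm, Finset.sum_sub_distrib, ← Finset.sum_mul]
    ring
  · have h1 := N_out B S hy (FS_sum (f := fun i v => max (B.tau v P y i) 0) Finset.univ
      fun i _ => hFSm i) zero_le_one fun v _ => by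
      rw [one_mul]
      exact Finset.sum_le_sum fun i _ => max_le (le_abs_self _) (abs_nonneg _)
    linarith
  · exact G_ps_tau B S hy n hE50 fun i => by
      rw [hE5]
      exact Finset.single_le_sum (f := fun i => |n i|) (fun _ _ => abs_nonneg _)
        (Finset.mem_univ i)
  · exact G_ps_tau B S hy (fun i => (R.o i : ℝ)) hE60 fun i => by
      rw [hE6, abs_of_nonneg (Nat.cast_nonneg _)]
      exact Finset.single_le_sum (f := fun i => (R.o i : ℝ)) (fun _ _ => Nat.cast_nonneg _)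
        (Finset.mem_univ i)
  · rw [hYH]
    have e1 : H0 * (logHeight (A.x P) + ∑ i, B.ht P y i) =
        (D + 1) * logHeight (A.x P) + (M + ∑ j, ((R.o j : ℝ) + R.d j)) *
          (∑ i, B.ht P y i) + ((M + ∑ j, ((R.o j : ℝ) + R.d j)) * logHeight (A.x P) +
            (D + 1) * (∑ i, B.ht P y i)) := by
      rw [hH0]
      ring
    have e2 : 0 ≤ (M + ∑ j, ((R.o j : ℝ) + R.d j)) * logHeight (A.x P) +
            ((D : ℝ) + 1) * (∑ i, B.ht P y i) := by positivity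
    rw [e1]
    linarith
  · rw [hε₁d]
    field_simp

end

end Pool.Agent.Lib.MP_17a322_nt.SV3
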