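import Pool.Agent.Lib.MP_17a322_nt.VA.Z15
import Pool.Agent.Lib.MP_17a322_nt.SV3.A1
import Pool.Agent.Lib.MP_17a322_nt.SV3.N1
import Pool.Agent.Lib.MP_17a322_nt.SV3.R1
import Pool.Agent.Lib.MP_17a322_nt.SV3.C1

/-!
The coefficients: from Vojta's inequality for subschemes of codimension two of `A`.
-/

universe u

namespace Pool.Agent.Lib.MP_17a322_nt.SV3

open MvPolynomial Height
open Pool.Agent.Lib.MP_17a322_nt.VA
open Pool.Agent.Lib.MP_17a322_nt.VJ
open Pool.Agent.Lib.MP_17a322_nt.SL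
open Pool.Agent.Lib.MP_17a322_nt.SV2 (Box Rw Cf Tm fs sp ps)

/-! ### The size of a form -/

/-- The size of the coefficients of a form. -/
noncomputable def Q1_c {K : Type*} [Field K] {n : ℕ} (f : MvPolynomial (Fin n) K)
    (v : AbsoluteValue K ℝ) : ℝ :=
  |Real.log (cst v f.support.card)| + |Real.log (NV v f)|

theorem Q1_c_nonneg {K : Type*} [Field K] {n : ℕ} (f : MvPolynomial (Fin n) K)
    (v : AbsoluteValue K ℝ) : 0 ≤ Q1_c f v := add_nonneg (abs_nonneg _) (abs_nonneg _)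

theorem Q1_FS {K : Type*} [Field K] [NumberField K] {n : ℕ} (f : MvPolynomial (Fin n) K) :
    FS fun v => Q1_c f v := by
  unfold Q1_c
  refine FS_add ?_ ?_
  · have h1 : FS (fun v : AbsoluteValue K ℝ => Real.log (cst v f.support.card)) :=
      FS_log_cst _
    refine h1.subset fun v hv h2 => hv ?_
    simp only [h2, abs_zero]
  · by_cases h0 : f = 0
    · have h1 : (fun v : AbsoluteValue K ℝ => |Real.log (NV v f)|) = fun _ => 0 := by
        funext v
        have h2 : NV v f = 0 := by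
          rw [h0]
          exact (SN_NV v).zero
        rw [h2, Real.log_zero, abs_zero]
      rw [h1]
      simp [FS]
    · refine (FS_log_NV h0).subset fun v hv h2 => hv ?_
      simp only [h2, abs_zero]

theorem Q1_form {K : Type*} [Field K] {n e : ℕ} (v : AbsoluteValue K ℝ)
    {f : MvPolynomial (Fin n) K} (hf : f.IsHomogeneous e) (x : Fin n → K) (h0 : aeval x f ≠ 0) :
    Real.log (v (aeval x f)) ≤ Q1_c f v + e * Real.log (⨆ i, v (x i)) := by
  have hf0 : f ≠ 0 := by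
    rintro rfl
    rw [map_zero] at h0
    exact h0 rfl
  have hc : 0 < cst v f.support.card :=
    zero_lt_one.trans_le (one_le_cst v (Finset.card_pos.2 (support_nonempty.2 hf0)))
  have hN : 0 < NV v f := NV_pos v hf0
  have hs : ∀ i, v (x i) ≤ ⨆ i, v (x i) := fun i =>
    le_ciSup (Set.finite_range fun i => v (x i)).bddAbove i
  have hs0 : 0 ≤ ⨆ i, v (x i) := Real.iSup_nonneg fun i => v.nonneg _
  have h1 : v (aeval x f) ≤ cst v f.support.card * (NV v f * (⨆ i, v (x i)) ^ e) := by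
    rw [aeval_def, eval₂_eq']
    refine (SN_self v).sum_le _ _ (mul_nonneg hN.le (pow_nonneg hs0 _)) fun m hm => ?_
    show v (algebraMap K K (coeff m f) * ∏ i, x i ^ m i) ≤ _
    rw [map_mul, map_prod]
    refine mul_le_mul (coeff_le_NV v f m) ?_ (Finset.prod_nonneg fun i _ => v.nonneg _) hN.le
    have h2 : ∑ i, m i = e := by
      have h8 := hf (mem_support_iff.1 hm)
      rw [← h8, Finsupp.weight_apply, Finsupp.sum_fintype _ _ fun i => by simp]
      refine Finset.sum_congr rfl fun i _ => ?_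
      simp
    rw [← h2, ← Finset.prod_pow_eq_pow_sum]
    refine Finset.prod_le_prod (fun i _ => v.nonneg _) fun i _ => ?_
    rw [map_pow]
    exact pow_le_pow_left₀ (v.nonneg _) (hs i) _
  have h2 : 0 < v (aeval x f) := v.pos h0
  have h3 : 0 < (⨆ i, v (x i)) ^ e := by
    rcases (pow_nonneg hs0 e).lt_or_eq with h4 | h4
    · exact h4
    · rw [← h4, mul_zero, mul_zero] at h1
      exact absurd h1 (not_le.2 h2)
  have h4 := Real.log_le_log h2 h1
  rw [Real.log_mul hc.ne' (mul_pos hN h3).ne', Real.log_mul hN.ne' h3.ne', Real.log_pow] at h4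
  unfold Q1_c
  have h5 := le_abs_self (Real.log (cst v f.support.card))
  have h6 := le_abs_self (Real.log (NV v f))
  linarith

/-! ### The forms -/

section

variable {K : Type u} [Field K] {N q p p' m : ℕ} {A : AV K N} (B : Bun A q p p')

/-- The exponent of the coordinate. -/
def Q1_s (o d : Fin q → ℕ) (a : Fin q → ℕ) : ℕ :=
  ∑ l, (B.k l * a l + B.e l * (o l + d l - a l))

theorem Q1_s_eq {o d a : Fin q → ℕ} (h : ∀ l, a l ≤ o l + d l) :
    (Q1_s B o d a : ℝ) = ∑ l, (B.k l : ℝ) * a l + ∑ l, (B.e l : ℝ) * (o l + d l) -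
      ∑ l, (B.e l : ℝ) * a l := by
  unfold Q1_s
  rw [Nat.cast_sum, ← Finset.sum_add_distrib, ← Finset.sum_sub_distrib]
  refine Finset.sum_congr rfl fun l _ => ?_
  rw [Nat.cast_add, Nat.cast_mul, Nat.cast_mul, Nat.cast_sub (h l)]
  push_cast
  ring

theorem Q1_hom {D : ℕ} {b : MvPolynomial (Fin q × Fin p) (MvPolynomial (Fin (N + 1)) K)}
    (hb : B.WH D b) {o d a : Fin q → ℕ} (h : ∀ l, a l ≤ o l + d l) (ch' : Fin q → Fin p')
    (j : Fin (N + 1)) :
    (coeff (fs a) (B.gen ch' b) * X j ^ Q1_s B o d a).IsHomogeneous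
      (D + ∑ l, B.e l * (o l + d l)) := by
  by_cases h0 : coeff (fs a) (B.gen ch' b) = 0
  · rw [h0, zero_mul]
    exact isHomogeneous_zero _ _ _
  · obtain ⟨δ, h1, h2⟩ := A_hom B hb (fs a) h0
    have h3 := h1.mul (isHomogeneous_X_pow (R := K) j (Q1_s B o d a))
    have h4 : δ + Q1_s B o d a = D + ∑ l, B.e l * (o l + d l) := by
      have h5 : ((δ + Q1_s B o d a : ℕ) : ℝ) = ((D + ∑ l, B.e l * (o l + d l) : ℕ) : ℝ) := by
        have h6 : (((δ + ∑ i, B.k i * fs a i : ℕ)) : ℝ) = ((D + ∑ i, B.e i * fs a i : ℕ) : ℝ) := by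
          rw [h2]
        have h7 : ∀ i, fs a i = a i := fun i => rfl
        simp only [h7] at h6
        push_cast at h6 ⊢
        rw [Q1_s_eq B h]
        linarith
      exact_mod_cast h5
    rwa [h4] at h3

theorem Q1_In {ch : Fin q → Fin p'} {b : Fin q → Fin p} {L : Type u} [Field L] [Algebra K L]
    {P : A.Pts L} (h : ∏ i, aeval (A.x P) (B.ζ i (b i) (ch i)) ≠ 0) : B.In ch P := fun i =>
  ⟨b i, (Finset.prod_ne_zero_iff.1 h) i (Finset.mem_univ i)⟩

end

section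

variable {K : Type u} [Field K] [NumberField K] {N q p p' m : ℕ} {A : AV K N}
  (B : Bun A q p p')

omit [NumberField K] in
theorem Q1_sup {n : ℕ} (v : AbsoluteValue K ℝ) {x : Fin n → K} {i : Fin n} (hi : x i ≠ 0) :
    Real.log (v (x i)) ≤ Real.log (⨆ j, v (x j)) :=
  Real.log_le_log (v.pos hi) (le_ciSup (Set.finite_range fun j => v (x j)).bddAbove i)

omit [NumberField K] in
/-- The bound for one form. -/
theorem Q1_bound {D : ℕ} {ch : Fin q → Fin p'}
    {g : Fin 2 → MvPolynomial (Fin q × Fin p) (MvPolynomial (Fin (N + 1)) K)}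
    (R : B.Red ch D g) (v : AbsoluteValue K ℝ) (P : A.Pts K) (hP : B.In ch P)
    (i : Fin 2) {a : Fin q → ℕ} (ha : a ∈ B.New g) (ch' : Fin q → Fin p') (j : Fin (N + 1))
    (h0 : aeval (A.x P) (coeff (fs a) (B.gen ch' (g i)) * X j ^ Q1_s B R.o R.d a) ≠ 0) :
    Real.log (v (aeval (A.x P) (coeff (fs a) (B.gen ch' (g i)) * X j ^ Q1_s B R.o R.d a))) ≤
      (∑ l, ((R.o l : ℝ) + R.d l)) * (∑ z : Fin q × Fin p × Fin p', Q1_c (B.ζ z.1 z.2.1 z.2.2) v) +
        B.lW ch R.d R.Q v P - ∑ l, (R.o l : ℝ) * B.lr ch v P l +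
        (∑ l, (B.e l : ℝ) * (R.o l + R.d l)) * Real.log (⨆ j, v (A.x P j)) := by
  classical
  obtain ⟨X₀, hX₀⟩ : ∃ X₀, X₀ = Real.log (⨆ j, v (A.x P j)) := ⟨_, rfl⟩
  obtain ⟨cz, hcz⟩ : ∃ cz, cz = ∑ z : Fin q × Fin p × Fin p', Q1_c (B.ζ z.1 z.2.1 z.2.2) v :=
    ⟨_, rfl⟩
  have hcz0 : 0 ≤ cz := by
    rw [hcz]
    exact Finset.sum_nonneg fun z _ => Q1_c_nonneg _ _
  have hcz1 : ∀ l b c, Q1_c (B.ζ l b c) v ≤ cz := by
    intro l b c
    obtain ⟨fz, hfz⟩ : ∃ fz : Fin q × Fin p × Fin p' → ℝ, fz = fun z =>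
      Q1_c (B.ζ z.1 z.2.1 z.2.2) v := ⟨_, rfl⟩
    have h1 : ∀ z, 0 ≤ fz z := fun z => by
      rw [hfz]
      exact Q1_c_nonneg _ _
    have h2 := Finset.single_le_sum (fun z _ => h1 z) (Finset.mem_univ (l, b, c))
    rw [hfz] at h2
    rw [hcz]
    exact h2
  rw [map_mul, map_pow, aeval_X] at h0 ⊢
  have h1 := left_ne_zero_of_mul h0
  have h2 := right_ne_zero_of_mul h0
  -- the maximal coordinate of the line
  have hmax : ∀ l : Fin q, ∃ b : Fin p,
      v (aeval (A.x P) (B.ζ l b (ch l))) = ⨆ b, v (aeval (A.x P) (B.ζ l b (ch l))) := by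
    intro l
    obtain ⟨b₀, -⟩ := hP l
    have : Nonempty (Fin p) := ⟨b₀⟩
    obtain ⟨b, hb⟩ := exists_eq_ciSup_of_finite (f := fun b => v (aeval (A.x P) (B.ζ l b (ch l))))
    exact ⟨b, hb⟩
  choose c hc using hmax
  have hcne : ∀ l, aeval (A.x P) (B.ζ l (c l) (ch l)) ≠ 0 := by
    intro l h3
    obtain ⟨b₀, hb₀⟩ := hP l
    have h4 := hc l
    rw [h3, map_zero] at h4
    have h5 : v (aeval (A.x P) (B.ζ l b₀ (ch l))) ≤ 0 := by
      rw [h4]
      exact le_ciSup (Set.finite_range fun b => v (aeval (A.x P) (B.ζ l b (ch l)))).bddAbove b₀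
    exact absurd h5 (not_le.2 (v.pos hb₀))
  have hchart := A_charts B (R.wh i) ch ch' c (fs a) P
  have hfs : ∀ l, fs a l = a l := fun l => rfl
  simp only [hfs] at hchart
  have hR : aeval (A.x P) (coeff (fs a) (B.gen ch' (g i))) *
      ∏ l, aeval (A.x P) (B.ζ l (c l) (ch l)) ^ a l ≠ 0 :=
    mul_ne_zero h1 (Finset.prod_ne_zero_iff.2 fun l _ => pow_ne_zero _ (hcne l))
  have hL := hR
  rw [← hchart] at hL
  have hL1 := left_ne_zero_of_mul hL
  have hL2 := right_ne_zero_of_mul hL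
  have hL3 : ∀ l, aeval (A.x P) (B.ζ l (c l) (ch' l)) ^ a l ≠ 0 := fun l =>
    Finset.prod_ne_zero_iff.1 hL2 l (Finset.mem_univ l)
  have hlog : Real.log (v (aeval (A.x P) (coeff (fs a) (B.gen ch (g i))))) +
      ∑ l, (a l : ℝ) * Real.log (v (aeval (A.x P) (B.ζ l (c l) (ch' l)))) =
      Real.log (v (aeval (A.x P) (coeff (fs a) (B.gen ch' (g i))))) +
      ∑ l, (a l : ℝ) * Real.log (v (aeval (A.x P) (B.ζ l (c l) (ch l)))) := by
    have h3 := congrArg (fun t => Real.log (v t)) hchart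
    simp only [map_mul, map_prod, map_pow] at h3
    rw [Real.log_mul (v.pos hL1).ne', Real.log_mul (v.pos h1).ne', Real.log_prod, Real.log_prod]
      at h3
    · simp only [Real.log_pow] at h3
      exact h3
    · intro l _
      exact pow_ne_zero _ (v.pos (hcne l)).ne'
    · intro l _
      rw [← map_pow]
      exact (v.pos (hL3 l)).ne'
    · exact Finset.prod_ne_zero_iff.2 fun l _ => pow_ne_zero _ (v.pos (hcne l)).ne'
    · refine Finset.prod_ne_zero_iff.2 fun l _ => ?_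
      rw [← map_pow]
      exact (v.pos (hL3 l)).ne'
  -- the other chart
  have h3 : ∀ l, (a l : ℝ) * Real.log (v (aeval (A.x P) (B.ζ l (c l) (ch' l)))) ≤
      a l * (cz + B.e l * X₀) := by
    intro l
    rcases Nat.eq_zero_or_pos (a l) with h4 | h4
    · rw [h4, Nat.cast_zero, zero_mul, zero_mul]
    · have h5 : aeval (A.x P) (B.ζ l (c l) (ch' l)) ≠ 0 := fun h6 => hL3 l (by
        rw [h6]
        exact zero_pow h4.ne')
      refine mul_le_mul_of_nonneg_left ?_ (Nat.cast_nonneg _)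
      refine (Q1_form v (B.hom l (c l) (ch' l)) (A.x P) h5).trans ?_
      rw [hX₀]
      linarith [hcz1 l (c l) (ch' l)]
  have h4 : ∀ l, Real.log (v (aeval (A.x P) (B.ζ l (c l) (ch l)))) =
      B.lr ch v P l + B.k l * X₀ := by
    intro l
    rw [hc l, hX₀]
    unfold Bun.lr
    ring
  have h3' := Finset.sum_le_sum fun l (_ : l ∈ Finset.univ) => h3 l
  have h4' : ∑ l, (a l : ℝ) * Real.log (v (aeval (A.x P) (B.ζ l (c l) (ch l)))) =
      ∑ l, (a l : ℝ) * B.lr ch v P l + (∑ l, (B.k l : ℝ) * a l) * X₀ := by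
    rw [Finset.sum_mul, ← Finset.sum_add_distrib]
    refine Finset.sum_congr rfl fun l _ => ?_
    rw [h4 l]
    ring
  have h3'' : ∑ l, (a l : ℝ) * (cz + B.e l * X₀) = (∑ l, (a l : ℝ)) * cz +
      (∑ l, (B.e l : ℝ) * a l) * X₀ := by
    rw [Finset.sum_mul, Finset.sum_mul, ← Finset.sum_add_distrib]
    refine Finset.sum_congr rfl fun l _ => ?_
    ring
  -- the reduced polynomial
  obtain ⟨a', ha'⟩ : ∃ a' : Fin q → ℕ, a' = fun l => a l - R.o l := ⟨_, rfl⟩
  have haa : a' + R.o = a := by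
    funext l
    rw [ha', Pi.add_apply]
    exact Nat.sub_add_cancel (R.lo a ha l)
  have hle : ∀ l, a' l < R.d l + 1 := by
    intro l
    have h5 := R.hi a ha l
    rw [ha']
    show a l - R.o l < R.d l + 1
    omega
  have hco := R.co i a' (by rw [haa]; exact ha)
  rw [haa] at hco
  have h5 : Real.log (v (aeval (A.x P) (coeff (fs a) (B.gen ch (g i))))) -
      ∑ l, (a' l : ℝ) * B.lr ch v P l ≤ B.lW ch R.d R.Q v P := by
    have h6 : v (aeval (A.x P) (coeff (fs a) (B.gen ch (g i)))) *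
        Real.exp (-∑ l, (a' l : ℝ) * B.lr ch v P l) ≤
        ⨆ z : Fin 2 × Cf q R.d, v (aeval (A.x P) (coeff (fs fun j => (z.2 j : ℕ)) (R.Q z.1))) *
          Real.exp (-∑ i, (z.2 i : ℝ) * B.lr ch v P i) := by
      have h7 := le_ciSup (Set.finite_range fun z : Fin 2 × Cf q R.d =>
        v (aeval (A.x P) (coeff (fs fun j => (z.2 j : ℕ)) (R.Q z.1))) *
          Real.exp (-∑ i, (z.2 i : ℝ) * B.lr ch v P i)).bddAbove
        (i, fun l => (⟨a' l, hle l⟩ : Fin (R.d l + 1)))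
      rw [← hco]
      refine le_trans (le_of_eq ?_) h7
      rfl
    have h7 : 0 < v (aeval (A.x P) (coeff (fs a) (B.gen ch (g i)))) := v.pos hL1
    have h8 := Real.log_le_log (mul_pos h7 (Real.exp_pos _)) h6
    rw [Real.log_mul h7.ne' (Real.exp_pos _).ne', Real.log_exp] at h8
    unfold Bun.lW
    linarith
  have h6 : ∑ l, (a l : ℝ) * B.lr ch v P l = ∑ l, (a' l : ℝ) * B.lr ch v P l +
      ∑ l, (R.o l : ℝ) * B.lr ch v P l := by
    rw [← Finset.sum_add_distrib]
    refine Finset.sum_congr rfl fun l _ => ?_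
    rw [← haa, Pi.add_apply]
    push_cast
    ring
  -- the coordinate
  have h7 : Real.log (v (A.x P j ^ Q1_s B R.o R.d a)) ≤ Q1_s B R.o R.d a * X₀ := by
    rw [map_pow, Real.log_pow]
    rcases Nat.eq_zero_or_pos (Q1_s B R.o R.d a) with h8 | h8
    · rw [h8, Nat.cast_zero, zero_mul, zero_mul]
    · refine mul_le_mul_of_nonneg_left ?_ (Nat.cast_nonneg _)
      rw [hX₀]
      refine Q1_sup v fun h9 => h2 ?_
      rw [h9]
      exact zero_pow h8.ne'
  rw [Q1_s_eq B (R.hi a ha)] at h7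
  have h8 : (∑ l, (a l : ℝ)) * cz ≤ (∑ l, ((R.o l : ℝ) + R.d l)) * cz := by
    refine mul_le_mul_of_nonneg_right (Finset.sum_le_sum fun l _ => ?_) hcz0
    exact_mod_cast R.hi a ha l
  rw [map_mul, Real.log_mul (v.pos h1).ne' (v.pos h2).ne', ← hcz, ← hX₀]
  rw [h4'] at hlog
  rw [h3''] at h3'
  have h9 : (∑ l, (B.k l : ℝ) * a l + ∑ l, (B.e l : ℝ) * (R.o l + R.d l) -
      ∑ l, (B.e l : ℝ) * a l) * X₀ = (∑ l, (B.k l : ℝ) * a l) * X₀ +
      (∑ l, (B.e l : ℝ) * (R.o l + R.d l)) * X₀ - (∑ l, (B.e l : ℝ) * a l) * X₀ := by ring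
  rw [h9] at h7
  linarith

theorem Q_main (Γ : AddSubgroup (A.Pts K)) (hΓ : Γ.FG) {D : ℕ} {ch : Fin q → Fin p'}
    {g : Fin 2 → MvPolynomial (Fin q × Fin p) (MvPolynomial (Fin (N + 1)) K)}
    (R : B.Red ch D g) (hY : B.CodTwo g) (ε : ℝ) (hε : 0 < ε) :
    ∃ (F : MvPolynomial (Fin (N + 1)) K) (E : ℕ) (C : ℝ), F.IsHomogeneous E ∧ F ∉ A.I ∧
      ∀ P ∈ Γ, aeval (A.x P) F ≠ 0 → B.In ch P ∧ (∀ i, sp A P (R.Q i) ≠ 0) ∧
        (D - ε) * logHeight (A.x P) + ∑ i, (R.o i : ℝ) * gs (fun v => B.lr ch v P i) - C ≤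
          gs fun v => B.lW ch R.d R.Q v P := by
  classical
  have hIp : A.I.IsPrime := Z_prime A
  -- one exponent
  obtain ⟨a₁, ha₁⟩ : (B.New g).Nonempty := by
    by_contra hcon
    rw [Set.not_nonempty_iff_eq_empty] at hcon
    obtain ⟨L, _, _, _, P, hP, hcop⟩ := R.cop
    have h1 : ∀ i, R.Q i = 0 := by
      intro i
      ext1 a
      have h2 := R.co' i (fun l => a l) (by rw [hcon]; exact Set.notMem_empty _)
      have h3 : fs (fun l => a l) = a := by
        ext l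
        rfl
      rw [h3] at h2
      rw [h2, coeff_zero]
    rw [h1, h1] at hcop
    have h2 : sp A P (0 : MvPolynomial (Fin q) (MvPolynomial (Fin (N + 1)) K)) = 0 := map_zero _
    rw [h2, isRelPrime_zero_left] at hcop
    exact not_isUnit_zero hcop
  obtain ⟨a₀, ha₀⟩ : ∃ a₀ : Fin q → ℕ, a₀ + R.o = a₁ := ⟨fun l => a₁ l - R.o l, by
    funext l
    exact Nat.sub_add_cancel (R.lo a₁ ha₁ l)⟩
  have hco : ∀ i, coeff (fs a₀) (R.Q i) = coeff (fs a₁) (B.gen ch (g i)) := by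
    intro i
    have h1 := R.co i a₀ (by rw [ha₀]; exact ha₁)
    rwa [ha₀] at h1
  have hcoI : ∀ i, coeff (fs a₀) (R.Q i) ∉ A.I := by
    intro i
    rw [hco i]
    have h1 : a₁ ∈ B.New (fun _ : Fin 1 => g i) := by
      rw [R.new i]
      exact ha₁
    obtain ⟨-, h2⟩ := (A_new B R.hch (fun _ => R.wh i) a₁).1 h1
    exact h2
  have hchb := R.hch
  choose b hb using hchb
  -- the forms
  obtain ⟨e⟩ : Nonempty ((Fin 2 × (A_new_fin B g).toFinset × (Fin q → Fin p') × Fin (N + 1)) ≃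
      Fin (Fintype.card (Fin 2 × (A_new_fin B g).toFinset × (Fin q → Fin p') × Fin (N + 1)))) :=
    ⟨Fintype.equivFin _⟩
  obtain ⟨H, hH⟩ : ∃ H : Fin 2 × (A_new_fin B g).toFinset × (Fin q → Fin p') × Fin (N + 1) →
      MvPolynomial (Fin (N + 1)) K, H = fun z =>
        coeff (fs z.2.1.1) (B.gen z.2.2.1 (g z.1)) * X z.2.2.2 ^ Q1_s B R.o R.d z.2.1.1 :=
    ⟨_, rfl⟩
  have hmem : ∀ a : (A_new_fin B g).toFinset, a.1 ∈ B.New g := fun a =>
    (Set.Finite.mem_toFinset _).1 a.2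
  obtain ⟨G₀, C₀, hG₀, ⟨E₀, hE₀⟩, h⟩ := VA.final A Γ hΓ (D + ∑ l, B.e l * (R.o l + R.d l))
    (Fintype.card (Fin 2 × (A_new_fin B g).toFinset × (Fin q → Fin p') × Fin (N + 1)))
    (fun k => H (e.symm k)) (fun k => by
      rw [hH]
      exact Q1_hom B (R.wh _) (R.hi _ (hmem _)) _ _) (fun F _ _ P hP => by
      obtain ⟨ch', hch'⟩ := A_in B P
      refine C_coef B R.wh hY hch' fun k => ?_
      ext a
      have h1 : coeff a (sp A P (B.gen ch' (g k))) =
          aeval (A.x P) (coeff a (B.gen ch' (g k))) := coeff_map _ _ _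
      have h3 : fs (fun l => a l) = a := by
        ext l
        rfl
      rw [h1, coeff_zero]
      by_cases ha : (fun l => a l) ∈ B.New g
      · obtain ⟨j, hj⟩ := Function.ne_iff.1 (A.x_ne P)
        have h2 := hP (e (k, ⟨fun l => a l, (Set.Finite.mem_toFinset _).2 ha⟩, ch', j))
        rw [Equiv.symm_apply_apply, hH] at h2
        simp only [map_mul, map_pow, aeval_X] at h2
        rw [h3] at h2
        exact (mul_eq_zero.1 h2).resolve_right (pow_ne_zero _ hj)
      · have h2 : ¬ ∃ k, coeff (fs fun l => a l) (B.gen ch' (g k)) ∉ A.I := fun h4 =>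
          ha ((A_new B (A_in_ch B hch') R.wh _).2 h4)
        push Not at h2
        have h4 := h2 k
        rw [h3] at h4
        exact P.2 _ h4) ε hε
  obtain ⟨cv, hcv⟩ : ∃ cv : AbsoluteValue K ℝ → ℝ, cv = fun v =>
      (∑ l, ((R.o l : ℝ) + R.d l)) *
        (∑ z : Fin q × Fin p × Fin p', Q1_c (B.ζ z.1 z.2.1 z.2.2) v) := ⟨_, rfl⟩
  have hcvF : FS cv := by
    rw [hcv]
    exact FS_const_mul _ (FS_sum _ fun z _ => Q1_FS _)
  -- the degree of the coefficients
  have hQh : ∀ i, ∃ μ, (coeff (fs a₀) (R.Q i)).IsHomogeneous μ := by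
    intro i
    have h1 : coeff (fs a₁) (B.gen ch (g i)) ≠ 0 := by
      rw [← hco i]
      intro h2
      exact hcoI i (by rw [h2]; exact A.I.zero_mem)
    obtain ⟨δ, h2, -⟩ := A_hom B (R.wh i) (fs a₁) h1
    exact ⟨δ, by rw [hco i]; exact h2⟩
  choose μ hμ using hQh
  refine ⟨G₀ * ((∏ i, B.ζ i (b i) (ch i)) * ∏ i, coeff (fs a₀) (R.Q i)),
    E₀ + (∑ i, B.e i + ∑ i, μ i), C₀ + gs cv, ?_, ?_, ?_⟩
  · exact hE₀.mul ((IsHomogeneous.prod _ _ _ fun i _ => B.hom _ _ _).mul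
      (IsHomogeneous.prod _ _ _ fun i _ => hμ i))
  · intro h1
    rcases hIp.mem_or_mem h1 with h1 | h1
    · exact hG₀ h1
    · rcases hIp.mem_or_mem h1 with h1 | h1
      · obtain ⟨i, -, h2⟩ := hIp.prod_mem_iff.1 h1
        exact hb i h2
      · obtain ⟨i, -, h2⟩ := hIp.prod_mem_iff.1 h1
        exact hcoI i h2
  · intro P hP hne
    rw [map_mul, map_mul, map_prod, map_prod] at hne
    have h1 := left_ne_zero_of_mul hne
    have h2 := left_ne_zero_of_mul (right_ne_zero_of_mul hne)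
    have h3 := right_ne_zero_of_mul (right_ne_zero_of_mul hne)
    have h4 : ∀ i, aeval (A.x P) (coeff (fs a₀) (R.Q i)) ≠ 0 := fun i =>
      Finset.prod_ne_zero_iff.1 h3 i (Finset.mem_univ i)
    have hIn : B.In ch P := Q1_In B h2
    have hsp : ∀ i, sp A P (R.Q i) ≠ 0 := by
      intro i h5
      apply h4 i
      have h6 : coeff (fs a₀) (sp A P (R.Q i)) = aeval (A.x P) (coeff (fs a₀) (R.Q i)) :=
        coeff_map _ _ _
      rw [← h6, h5, coeff_zero]
    refine ⟨hIn, hsp, ?_⟩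
    have h5 := h P hP h1
    -- the vector does not vanish
    have hHne : (fun k => aeval (A.x P) (H (e.symm k))) ≠ 0 := by
      obtain ⟨j, hj⟩ := Function.ne_iff.1 (A.x_ne P)
      intro h6
      have h7 := congrFun h6 (e (0, ⟨a₁, (Set.Finite.mem_toFinset _).2 ha₁⟩, ch, j))
      simp only [Equiv.symm_apply_apply, hH, map_mul, map_pow, aeval_X, Pi.zero_apply] at h7
      rcases mul_eq_zero.1 h7 with h8 | h8
      · apply h4 0
        rw [hco 0]
        exact h8
      · exact pow_ne_zero _ hj h8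
    have hFSlr : FS fun v => ∑ l, (R.o l : ℝ) * B.lr ch v P l :=
      FS_sum _ fun l _ => FS_const_mul _ (N_FS_lr B hIn l)
    have hFSlW : FS fun v => B.lW ch R.d R.Q v P :=
      N_FS_lW B hIn R.d (R_deg B R) (hsp 0)
    have hFSX : FS fun v : AbsoluteValue K ℝ =>
        (∑ l, (B.e l : ℝ) * (R.o l + R.d l)) * Real.log (⨆ j, v (A.x P j)) :=
      FS_const_mul _ (N_FS_X P)
    have h6 : logHeight (fun k => aeval (A.x P) (H (e.symm k))) ≤
        gs cv + gs (fun v => B.lW ch R.d R.Q v P) -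
          ∑ l, (R.o l : ℝ) * gs (fun v => B.lr ch v P l) +
          (∑ l, (B.e l : ℝ) * (R.o l + R.d l)) * logHeight (A.x P) := by
      have h7 : gs (fun v => cv v + B.lW ch R.d R.Q v P - ∑ l, (R.o l : ℝ) * B.lr ch v P l +
          (∑ l, (B.e l : ℝ) * (R.o l + R.d l)) * Real.log (⨆ j, v (A.x P j))) =
          gs cv + gs (fun v => B.lW ch R.d R.Q v P) -
          ∑ l, (R.o l : ℝ) * gs (fun v => B.lr ch v P l) +
          (∑ l, (B.e l : ℝ) * (R.o l + R.d l)) * logHeight (A.x P) := by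
        rw [gs_add (FS_sub (FS_add hcvF hFSlW) hFSlr) hFSX, gs_sub (FS_add hcvF hFSlW) hFSlr,
          gs_add hcvF hFSlW, gs_const_mul, gs_log_iSup (A.x_ne P),
          gs_sum _ fun l _ => FS_const_mul _ (N_FS_lr B hIn l)]
        simp only [gs_const_mul]
      rw [← h7, ← gs_log_iSup hHne]
      refine gs_le (FS_log_iSup hHne) (FS_add (FS_sub (FS_add hcvF hFSlW) hFSlr) hFSX)
        fun v _ => ?_
      obtain ⟨k₀, hk₀⟩ := Function.ne_iff.1 hHne
      have : Nonempty (Fin (Fintype.card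
        (Fin 2 × (A_new_fin B g).toFinset × (Fin q → Fin p') × Fin (N + 1)))) := ⟨k₀⟩
      obtain ⟨k, hk⟩ := exists_eq_ciSup_of_finite (f := fun k => v (aeval (A.x P) (H (e.symm k))))
      have h8 : aeval (A.x P) (H (e.symm k)) ≠ 0 := by
        intro h9
        have h10 : v (aeval (A.x P) (H (e.symm k₀))) ≤ v (aeval (A.x P) (H (e.symm k))) := by
          rw [hk]
          exact le_ciSup (Set.finite_range fun k => v (aeval (A.x P) (H (e.symm k)))).bddAbove k₀
        rw [h9, map_zero] at h10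
        exact absurd h10 (not_le.2 (v.pos hk₀))
      rw [← hk, hcv]
      rw [hH] at h8 ⊢
      have h11 := Q1_bound B R v P hIn (e.symm k).1 (hmem (e.symm k).2.1) (e.symm k).2.2.1
        (e.symm k).2.2.2 h8
      exact h11
    push_cast at h5
    have h9 : (∑ l, (B.e l : ℝ) * (R.o l + R.d l)) * logHeight (A.x P) =
        (∑ l, (B.e l : ℝ) * (R.o l + R.d l)) * logHeight (A.x P) := rfl
    linarith

end

end Pool.Agent.Lib.MP_17a322_nt.SV3
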