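import Pool.Agent.Lib.MP_17a322_nt.SV3.G4
import Pool.Agent.Lib.MP_17a322_nt.SV3.Q1

/-!
The inequality for two polynomials.
-/

universe u

namespace Pool.Agent.Lib.MP_17a322_nt.SV3

open MvPolynomial Height
open Pool.Agent.Lib.MP_17a322_nt.VA
open Pool.Agent.Lib.MP_17a322_nt.VJ
open Pool.Agent.Lib.MP_17a322_nt.SL
open Pool.Agent.Lib.MP_17a322_nt.SV2 (Box Rw Cf Tm fs sp ps ps_add ps_smul ps_sum ps_le
  Rw_card_ge Rw_card_le)

/-- The numerical part of `G_part`. -/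
theorem G_num5 {R B M mq hP H lW gZ pZ psup gsup pX n C C₁ ε δ D T : ℝ}
    (hR : R = 2 * mq - B) (hB0 : 0 ≤ B) (hBm : B ≤ mq) (hmq : 1 ≤ mq) (hM : 0 ≤ M) (hn : 0 ≤ n)
    (hP0 : 0 ≤ hP) (hH0 : 0 ≤ H) (hD : 0 ≤ D) (hε : 0 < ε) (hT : 0 ≤ T)
    (hBge : mq * (1 - δ / (M + 1)) ≤ B) (hδ : 0 ≤ δ)
    (hMε : 2 * δ * (D + T) / (M + 1) ≤ ε / 3)
    (h1 : B * (lW) ≤ R * (gZ - pZ) + (R * (pX + psup) - B * psup) + ε / 3 * (hP + H) +
      C * (1 + n))
    (h2 : (D - ε / 3) * hP - C₁ ≤ lW)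
    (h3 : gsup - psup ≤ T * n) (h4 : psup ≤ T * H) :
    (D * hP + gsup - gZ) - (pX + psup - pZ) ≤ ε * (hP + H) + (T + |C₁| + |C|) * (1 + n) := by
  have hR1 : 1 ≤ R := by linarith
  have hR0 : 0 < R := by linarith
  have hBR : B ≤ R := by linarith
  have hM1 : 0 < M + 1 := by linarith
  have e1 : R - B ≤ R * (2 * δ / (M + 1)) := by
    have e1 : 2 * mq - 2 * B ≤ mq * (2 * δ / (M + 1)) := by
      have e2 : mq * (1 - δ / (M + 1)) = mq - mq * (δ / (M + 1)) := by ring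
      have e3 : mq * (2 * δ / (M + 1)) = 2 * (mq * (δ / (M + 1))) := by ring
      linarith
    have e4 : mq * (2 * δ / (M + 1)) ≤ R * (2 * δ / (M + 1)) :=
      mul_le_mul_of_nonneg_right (by linarith) (by positivity)
    linarith
  have e2 : D * hP + T * H ≤ (D + T) * (hP + H) := by
    have a1 : 0 ≤ D * H := mul_nonneg hD hH0
    have a2 : 0 ≤ T * hP := mul_nonneg hT hP0
    linarith
  have e3 : (R - B) * (D * hP + T * H) ≤ R * (ε / 3 * (hP + H)) := by
    have e0 : 0 ≤ D * hP + T * H := add_nonneg (mul_nonneg hD hP0) (mul_nonneg hT hH0)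
    calc (R - B) * (D * hP + T * H) ≤ (R * (2 * δ / (M + 1))) * (D * hP + T * H) :=
          mul_le_mul_of_nonneg_right e1 e0
      _ ≤ (R * (2 * δ / (M + 1))) * ((D + T) * (hP + H)) :=
          mul_le_mul_of_nonneg_left e2 (by positivity)
      _ = R * (2 * δ * (D + T) / (M + 1) * (hP + H)) := by ring
      _ ≤ R * (ε / 3 * (hP + H)) := by
          refine mul_le_mul_of_nonneg_left ?_ hR0.le
          exact mul_le_mul_of_nonneg_right hMε (by linarith)
  have e4 : B * ((D - ε / 3) * hP - C₁) ≤ B * lW := mul_le_mul_of_nonneg_left h2 hB0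
  have e5 : B * (ε / 3 * hP) ≤ R * (ε / 3 * hP) :=
    mul_le_mul_of_nonneg_right hBR (by positivity)
  have e6 : B * C₁ ≤ R * |C₁| := by
    calc B * C₁ ≤ B * |C₁| := mul_le_mul_of_nonneg_left (le_abs_self _) hB0
      _ ≤ R * |C₁| := mul_le_mul_of_nonneg_right hBR (abs_nonneg _)
  have e7 : C * (1 + n) ≤ R * (|C| * (1 + n)) := by
    have a1 : C * (1 + n) ≤ |C| * (1 + n) :=
      mul_le_mul_of_nonneg_right (le_abs_self _) (by linarith)
    have a2 : 0 ≤ |C| * (1 + n) := by positivity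
    exact a1.trans (le_mul_of_one_le_left a2 hR1)
  have e8 : ε / 3 * (hP + H) ≤ R * (ε / 3 * (hP + H)) := by
    have a2 : 0 ≤ ε / 3 * (hP + H) := by positivity
    exact le_mul_of_one_le_left a2 hR1
  have e9 : (R - B) * psup ≤ (R - B) * (T * H) := mul_le_mul_of_nonneg_left h4 (by linarith)
  have e10 : R * (gsup - psup) ≤ R * (T * n) := mul_le_mul_of_nonneg_left h3 hR0.le
  have e11 : R * ((D * hP + gsup - gZ) - (pX + psup - pZ)) ≤
      R * (ε / 3 * (hP + H) + ε / 3 * hP + |C₁| + ε / 3 * (hP + H) + |C| * (1 + n) + T * n) := by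
    have a1 : R * ((D * hP + gsup - gZ) - (pX + psup - pZ)) =
        (R - B) * (D * hP) + B * (D * hP) + R * (gsup - psup) - R * (gZ - pZ) - R * pX := by
      ring
    rw [a1]
    linarith
  have e12 := le_of_mul_le_mul_left e11 hR0
  have e13 : 0 ≤ ε / 3 * H := by positivity
  have e14 : 0 ≤ |C₁| * n := by positivity
  have e15 : 0 ≤ T := hT
  linarith

section

variable {K : Type u} [Field K] [NumberField K] {N q p p' m : ℕ} {A : AV K N}
  (B : Bun A q p p')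

theorem G_ps_le_gs (S : Finset (NumberField.FinitePlace K)) {φ : AbsoluteValue K ℝ → ℝ}
    (hφ : FS φ) (h : ∀ v, 0 ≤ φ v) : ps S φ ≤ gs φ := by
  have h0 : FS fun _ : AbsoluteValue K ℝ => (0 : ℝ) := by
    have h1 := FS_const_mul 0 hφ
    simp only [zero_mul] at h1
    exact h1
  have h1 := N_mono S h0 hφ fun v _ => h _
  have h2 : gs (fun _ : AbsoluteValue K ℝ => (0 : ℝ)) = 0 := by simp [gs]
  have h3 : ps S (fun _ : AbsoluteValue K ℝ => (0 : ℝ)) = 0 := by simp [SV2.ps]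
  linarith

theorem G_part (Γ : AddSubgroup (A.Pts K)) (hΓ : Γ.FG) {D : ℕ} {ch : Fin q → Fin p'}
    {g : Fin 2 → MvPolynomial (Fin q × Fin p) (MvPolynomial (Fin (N + 1)) K)}
    (R : B.Red ch D g) (hY : B.CodTwo g) (S : Finset (NumberField.FinitePlace K)) (ε : ℝ)
    (hε : 0 < ε) :
    ∃ (C : ℝ) (G : MvPolynomial (Fin q × Fin p) (MvPolynomial (Fin (N + 1)) K)) (E : ℕ),
      B.WH E G ∧ ¬ B.Van G ∧ ∀ P ∈ Γ, ∀ y, B.On P y → ev P y G ≠ 0 →
        (∀ i, ev P y (g i) ≠ 0) ∧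
        gs (fun v => B.loc v D g P y) - ps S (fun v => B.loc v D g P y) ≤
          ε * (logHeight (A.x P) + ∑ i, B.ht P y i) + C * (1 + B.NS S P y) := by
  obtain ⟨T, hT⟩ : ∃ x : ℝ, x = ∑ j, ((R.o j : ℝ) + R.d j) := ⟨_, rfl⟩
  have hT0 : 0 ≤ T := by rw [hT]; positivity
  obtain ⟨M, hM, hMε⟩ : ∃ M : ℕ, (∀ j, R.d j ≤ M) ∧
      2 * (∑ j, (R.d j : ℝ)) * ((D : ℝ) + T) / ((M : ℝ) + 1) ≤ ε / 3 := by
    obtain ⟨n, hn⟩ := exists_nat_ge
      (2 * (∑ j, (R.d j : ℝ)) * ((D : ℝ) + T) / (ε / 3))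
    refine ⟨n + ∑ j, R.d j, fun j => ?_, ?_⟩
    · have := Finset.single_le_sum (f := R.d) (fun _ _ => Nat.zero_le _) (Finset.mem_univ j)
      omega
    · have h3 : (0 : ℝ) < ε / 3 := by positivity
      rw [div_le_iff₀ h3] at hn
      rw [div_le_iff₀ (by positivity)]
      have h4 : (n : ℝ) ≤ ((n + ∑ j, R.d j : ℕ) : ℝ) + 1 := by
        push_cast
        have : (0 : ℝ) ≤ ∑ j, (R.d j : ℝ) := by positivity
        linarith
      nlinarith
  obtain ⟨FQ, EQ, C₁, hFQ, hFQI, hQ⟩ := Q_main B Γ hΓ R hY (ε / 3) (by positivity)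
  obtain ⟨C₀, G₁, E₁, hG₁, hG₁v, hG⟩ := G_one B Γ hΓ R S M (ε / 3) (by positivity)
  refine ⟨T + |C₁| + |C₀|, G₁ * MvPolynomial.C FQ, E₁ + EQ, A_WH_mul B hG₁ (A_WH_C B hFQ),
    A_van_mul B hG₁ (A_WH_C B hFQ) hG₁v (A_van_C B hFQ hFQI), ?_⟩
  intro P hP y hy hne
  rw [A_ev_mul, A_ev_C] at hne
  obtain ⟨hIn, hQ0, hQ1⟩ := hQ P hP (right_ne_zero_of_mul hne)
  obtain ⟨hZ, h1⟩ := hG P hP hIn hQ0 y hy (left_ne_zero_of_mul hne)
  refine ⟨hZ, ?_⟩
  have hZ0 : (fun i => ev P y (g i)) ≠ 0 := fun h => hZ 0 (congrFun h 0)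
  have hFSm : ∀ i, FS fun v => max (B.tau v P y i) 0 := fun i => N_FS_max (N_FS_tau B hy i)
  have hht : ∀ i, 0 ≤ B.ht P y i := fun i => Height.logHeight_nonneg _
  have hH0' : ∀ i, B.ht P y i ≤ ∑ i, B.ht P y i := fun i =>
    Finset.single_le_sum (f := fun i => B.ht P y i) (fun i _ => hht i) (Finset.mem_univ i)
  have hP0 : 0 ≤ logHeight (A.x P) := Height.logHeight_nonneg _
  have hHs : 0 ≤ ∑ i, B.ht P y i := Finset.sum_nonneg fun i _ => hht i
  have hFSX : FS fun v : AbsoluteValue K ℝ => D * Real.log (⨆ j, v (A.x P j)) :=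
    FS_const_mul _ (N_FS_X P)
  have hFSs : FS fun v => B.sup g (B.tau v P y) := N_FS_sup B hy g
  have hFSZ : FS fun v : AbsoluteValue K ℝ => Real.log (⨆ i, v (ev P y (g i))) :=
    FS_log_iSup hZ0
  have hgo : gs (fun v => ∑ i, (R.o i : ℝ) * B.tau v P y i) =
      ∑ i, (R.o i : ℝ) * gs (fun v => B.lr ch v P i) := by
    rw [gs_sum _ fun i _ => FS_const_mul _ (N_FS_tau B hy i)]
    refine Finset.sum_congr rfl fun i _ => ?_
    rw [gs_const_mul, N_gs_tau B hy hIn]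
  have hgl : gs (fun v => B.loc v D g P y) = D * logHeight (A.x P) +
      gs (fun v => B.sup g (B.tau v P y)) -
      gs (fun v => Real.log (⨆ i, v (ev P y (g i)))) := by
    have e1 : (fun v => B.loc v D g P y) = fun v => D * Real.log (⨆ j, v (A.x P j)) +
        B.sup g (B.tau v P y) - Real.log (⨆ i, v (ev P y (g i))) := rfl
    rw [e1, gs_sub (FS_add hFSX hFSs) hFSZ, gs_add hFSX hFSs, gs_const_mul,
      gs_log_iSup (A.x_ne P)]
  have hpl : ps S (fun v => B.loc v D g P y) =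
      ps S (fun v => D * Real.log (⨆ j, v (A.x P j))) + ps S (fun v => B.sup g (B.tau v P y)) -
      ps S (fun v => Real.log (⨆ i, v (ev P y (g i)))) := by
    have e1 : (fun v => B.loc v D g P y) = fun v => D * Real.log (⨆ j, v (A.x P j)) +
        (B.sup g (B.tau v P y) + (-1) * Real.log (⨆ i, v (ev P y (g i)))) := by
      funext v
      unfold Bun.loc
      ring
    rw [e1, ps_add, ps_add, ps_smul S (-1)]
    ring
  have hps : ps S (fun v => (2 * ((M : ℝ) + 1) ^ q - Fintype.card (Rw q M R.d)) *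
              (D * Real.log (⨆ j, v (A.x P j)) + B.sup g (B.tau v P y)) -
            Fintype.card (Rw q M R.d) * B.sup g (B.tau v P y)) =
      (2 * ((M : ℝ) + 1) ^ q - Fintype.card (Rw q M R.d)) *
        (ps S (fun v => D * Real.log (⨆ j, v (A.x P j))) +
          ps S (fun v => B.sup g (B.tau v P y))) -
        Fintype.card (Rw q M R.d) * ps S (fun v => B.sup g (B.tau v P y)) := by
    have e1 : (fun v : AbsoluteValue K ℝ =>
        (2 * ((M : ℝ) + 1) ^ q - Fintype.card (Rw q M R.d)) *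
              (D * Real.log (⨆ j, v (A.x P j)) + B.sup g (B.tau v P y)) -
            Fintype.card (Rw q M R.d) * B.sup g (B.tau v P y)) = fun v =>
        (2 * ((M : ℝ) + 1) ^ q - Fintype.card (Rw q M R.d)) *
            (D * Real.log (⨆ j, v (A.x P j)) + B.sup g (B.tau v P y)) +
          (-(Fintype.card (Rw q M R.d) : ℝ)) * B.sup g (B.tau v P y) := by
      funext v
      ring
    rw [e1, ps_add, ps_smul, ps_smul S (-(Fintype.card (Rw q M R.d) : ℝ)), ps_add]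
    ring
  rw [hgl, hpl]
  rw [hps] at h1
  refine G_num5 (R := 2 * ((M : ℝ) + 1) ^ q - Fintype.card (Rw q M R.d))
    (B := Fintype.card (Rw q M R.d)) (M := M) (mq := ((M : ℝ) + 1) ^ q) (D := D) (T := T)
    (δ := ∑ j, (R.d j : ℝ)) (C := C₀)
    rfl (Nat.cast_nonneg _) Rw_card_le (one_le_pow₀ (by
      have : (0 : ℝ) ≤ M := Nat.cast_nonneg _
      linarith)) (Nat.cast_nonneg _) (N_NS_nonneg B S P y) hP0 hHs (Nat.cast_nonneg _) hε hT0
      (Rw_card_ge hM) (Finset.sum_nonneg fun j _ => Nat.cast_nonneg _) hMε h1 ?_ ?_ ?_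
  · rw [hgo]
    linarith
  · have h2 := N_out B S hy hFSs hT0 fun v _ => by
      refine (G_sup_le B R _).trans ?_
      rw [Finset.mul_sum]
      refine Finset.sum_le_sum fun j _ => mul_le_mul ?_ (max_le (le_abs_self _) (abs_nonneg _))
        (le_max_right _ _) hT0
      rw [hT]
      exact Finset.single_le_sum (f := fun j => (R.o j : ℝ) + R.d j) (fun _ _ => by positivity)
        (Finset.mem_univ j)
    linarith
  · have h2 : ps S (fun v => B.sup g (B.tau v P y)) ≤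
        ps S (fun v => ∑ j, ((R.o j : ℝ) + R.d j) * max (B.tau v P y j) 0) :=
      ps_le S (fun v => G_sup_le B R _) (fun v _ => G_sup_le B R _)
    refine h2.trans ?_
    rw [ps_sum, hT, Finset.sum_mul]
    refine Finset.sum_le_sum fun j _ => ?_
    rw [ps_smul]
    refine mul_le_mul_of_nonneg_left ?_ (by positivity)
    refine (G_ps_le_gs S (hFSm j) fun v => le_max_right _ _).trans ?_
    rw [N_gs_max B hy]
    have h3 : 0 ≤ (B.k j : ℝ) * logHeight (A.x P) := mul_nonneg (Nat.cast_nonneg _) hP0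
    have := hH0' j
    linarith

end

end Pool.Agent.Lib.MP_17a322_nt.SV3
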