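import Pool.Agent.Lib.MP_17a322_nt.SV3.Defs2
import Pool.Agent.Lib.MP_17a322_nt.SV2.G2

/-!
Exponents.
-/

universe u

namespace Pool.Agent.Lib.MP_17a322_nt.SV3

open MvPolynomial Height
open Pool.Agent.Lib.MP_17a322_nt.VA
open Pool.Agent.Lib.MP_17a322_nt.SL
open Pool.Agent.Lib.MP_17a322_nt.SV2 (Box Rw Cf Tm fs sp ps be be_inj exists_be le_deg)

section

variable {q M : ℕ} {d : Fin q → ℕ}

/-- The position `c + b` in the coordinates with `i = 0`. -/
def kv {c : Fin q → ℕ} (hc : ∀ j, c j ≤ d j) (b : Rw q M d) : Fin 2 × Box q M :=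
  (0, fun j => ⟨(b.1 j : ℕ) + c j, by have := b.2 j; have := hc j; omega⟩)

theorem kv_inj {c : Fin q → ℕ} (hc : ∀ j, c j ≤ d j) :
    Function.Injective (kv (M := M) (d := d) hc) := by
  intro b b' h
  have h1 := congrArg Prod.snd h
  apply Subtype.ext
  funext j
  have h2 := congrArg Fin.val (congrFun h1 j)
  simp only [kv] at h2
  apply Fin.ext
  omega

theorem mem_Jv {c : Fin q → ℕ} (hc : ∀ j, c j ≤ d j) {p : Fin 2 × Box q M} :
    p ∈ Jv M d c ↔ ∀ b : Rw q M d, kv hc b ≠ p := by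
  classical
  unfold Jv
  rw [Finset.mem_filter]
  simp only [Finset.mem_univ, true_and]
  constructor
  · rintro h b rfl
    exact h ⟨rfl, b, fun j => rfl⟩
  · rintro h ⟨h1, b, hb⟩
    refine h b ?_
    ext j
    · rw [h1]; rfl
    · exact (hb j).symm

theorem Jv_eq {c : Fin q → ℕ} (hc : ∀ j, c j ≤ d j) [DecidableEq (Fin 2 × Box q M)] :
    Jv M d c = (Finset.univ.image (kv (M := M) (d := d) hc))ᶜ := by
  ext p
  rw [mem_Jv hc]
  simp

theorem J_sum {c : Fin q → ℕ} (hc : ∀ j, c j ≤ d j) {β : Type*} [AddCommGroup β]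
    (φ : Fin 2 × Box q M → β) :
    ∑ z ∈ Jv M d c, φ z + ∑ b : Rw q M d,
      φ (0, fun j => ⟨(b.1 j : ℕ) + c j, by have := b.2 j; have := hc j; omega⟩) =
      ∑ z, φ z := by
  classical
  rw [Jv_eq hc, add_comm]
  have h1 : ∑ b : Rw q M d,
      φ (0, fun j => ⟨(b.1 j : ℕ) + c j, by have := b.2 j; have := hc j; omega⟩) =
      ∑ b : Rw q M d, φ (kv hc b) := rfl
  rw [h1, ← Finset.sum_image (f := φ) (s := Finset.univ)
    (g := kv (M := M) (d := d) hc) (fun a _ b _ h => kv_inj hc h)]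
  exact Finset.sum_add_sum_compl _ _

theorem J_card {c : Fin q → ℕ} (hc : ∀ j, c j ≤ d j) :
    (Jv M d c).card + Fintype.card (Rw q M d) = Fintype.card (Fin 2 × Box q M) := by
  classical
  have h1 := J_sum (M := M) (d := d) (β := ℤ) hc (fun _ => 1)
  simp only [Finset.sum_const, Finset.card_univ, mul_one, nsmul_eq_mul] at h1
  omega

/-- The sum of the exponents in `Jv`. -/
theorem J_exp {c : Fin q → ℕ} (hc : ∀ j, c j ≤ d j) (l : Fin q → ℝ) :
    ∑ p ∈ Jv M d c, ∑ j, (p.2 j : ℝ) * l j =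
      2 * ∑ a : Box q M, ∑ j, (a j : ℝ) * l j -
        ∑ b : Rw q M d, ∑ j, (b.1 j : ℝ) * l j -
        Fintype.card (Rw q M d) * ∑ j, (c j : ℝ) * l j := by
  classical
  have h0 := J_sum (M := M) (d := d) hc (fun p : Fin 2 × Box q M => ∑ j, (p.2 j : ℝ) * l j)
  rw [Fintype.sum_prod_type, Fin.sum_univ_two] at h0
  have h1 : ∀ b : Rw q M d, ∑ j, (((b.1 j : ℕ) + c j : ℕ) : ℝ) * l j =
      ∑ j, (b.1 j : ℝ) * l j + ∑ j, (c j : ℝ) * l j := by
    intro b
    rw [← Finset.sum_add_distrib]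
    refine Finset.sum_congr rfl fun j _ => ?_
    push_cast
    ring
  simp only [h1] at h0
  rw [Finset.sum_add_distrib, Finset.sum_const, Finset.card_univ, nsmul_eq_mul] at h0
  linarith

/-- The order of the exponents in the direction `τ`. -/
noncomputable def od (τ : Fin q → ℝ) (a : Fin q → ℕ) : ℝ ×ₗ Lex (Fin q → ℕ) :=
  toLex (∑ j, (a j : ℝ) * τ j, toLex a)

theorem od_inj (τ : Fin q → ℝ) : Function.Injective (od τ) := by
  intro a b h
  have h1 := congrArg (fun x => (ofLex x).2) h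
  exact toLex.injective h1

theorem od_lt_iff (τ : Fin q → ℝ) {a b : Fin q → ℕ} : od τ a < od τ b ↔
    (∑ j, (a j : ℝ) * τ j < ∑ j, (b j : ℝ) * τ j) ∨
      (∑ j, (a j : ℝ) * τ j = ∑ j, (b j : ℝ) * τ j ∧ toLex a < toLex b) := by
  unfold od
  rw [Prod.Lex.toLex_lt_toLex]

theorem od_add (τ : Fin q → ℝ) {a b : Fin q → ℕ} (c : Fin q → ℕ) (h : od τ a < od τ b) :
    od τ (a + c) < od τ (b + c) := by
  have e : ∀ x : Fin q → ℕ, ∑ j, ((x + c) j : ℝ) * τ j =
      ∑ j, (x j : ℝ) * τ j + ∑ j, (c j : ℝ) * τ j := by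
    intro x
    rw [← Finset.sum_add_distrib]
    refine Finset.sum_congr rfl fun j _ => ?_
    rw [Pi.add_apply]
    push_cast
    ring
  rw [od_lt_iff] at h ⊢
  rw [e, e]
  rcases h with h | ⟨h, h'⟩
  · left
    linarith
  · right
    refine ⟨by rw [h], ?_⟩
    have h2 : toLex (a + c) = toLex a + toLex c := rfl
    have h3 : toLex (b + c) = toLex b + toLex c := rfl
    rw [h2, h3]
    exact add_lt_add_left h' _

theorem od_le_wt (τ : Fin q → ℝ) {a b : Fin q → ℕ} (h : od τ a ≤ od τ b) :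
    ∑ j, (a j : ℝ) * τ j ≤ ∑ j, (b j : ℝ) * τ j := by
  rcases h.lt_or_eq with h | h
  · rcases (od_lt_iff τ).1 h with h | h
    · exact h.le
    · exact h.1.le
  · rw [od_inj τ h]

/-- Independence of the rows and the coordinates in `Jv`: `c` is the last exponent of `Δ` in the
direction `τ` (and lexicographically). -/
theorem J_ind (Δ : Finset (Fin q → ℕ)) (hΔ : Δ.Nonempty) (τ : Fin q → ℝ) :
    ∃ c ∈ Δ, (∀ a ∈ Δ, ∑ j, (a j : ℝ) * τ j ≤ ∑ j, (c j : ℝ) * τ j) ∧
      ∀ (L : Type u) [Field L] (g : Fin 2 → MvPolynomial (Fin q) L) (M : ℕ) (d : Fin q → ℕ),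
        (∀ i j, degreeOf j (g i) ≤ d j) → (∀ a, coeff (fs a) (g 1) ≠ 0 → a ∈ Δ) →
        coeff (fs c) (g 1) ≠ 0 →
        LinearIndependent L (Sum.elim (fun (b : Rw q M d) (z : Fin 2 × Box q M) => Tm M d g b z)
          fun (x : Jv M d c) (z : Fin 2 × Box q M) => if z = x.1 then 1 else 0) := by
  classical
  obtain ⟨c, hc, hmax⟩ := Finset.exists_max_image Δ (od τ) hΔ
  refine ⟨c, hc, fun a ha => od_le_wt τ (hmax a ha), ?_⟩
  intro L _ g M d hg hgΔ hgc
  have hcd : ∀ j, c j ≤ d j := fun j => (le_deg hgc j).trans (hg 1 j)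
  rw [Fintype.linearIndependent_iff]
  intro y hy
  have h0 : ∀ b : Rw q M d, y (Sum.inl b) = 0 := by
    by_contra h1
    push Not at h1
    have hne : (Finset.univ.filter fun b : Rw q M d => y (Sum.inl b) ≠ 0).Nonempty := by
      obtain ⟨b, hb⟩ := h1
      exact ⟨b, by simpa using hb⟩
    obtain ⟨b', hb', hbmax⟩ := Finset.exists_max_image _
      (fun b : Rw q M d => od τ (fun j => (b.1 j : ℕ))) hne
    rw [Finset.mem_filter] at hb'
    have h2 := congrFun hy (kv hcd b')
    rw [Fintype.sum_sum_type, Pi.add_apply, Finset.sum_apply, Finset.sum_apply,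
      Pi.zero_apply] at h2
    simp only [Sum.elim_inl, Sum.elim_inr, Pi.smul_apply, smul_eq_mul] at h2
    have h3 : ∑ x : Jv M d c, y (Sum.inr x) *
        (if kv hcd b' = x.1 then (1 : L) else 0) = 0 := by
      refine Finset.sum_eq_zero fun x _ => ?_
      rw [if_neg ((mem_Jv hcd).1 x.2 b'), mul_zero]
    rw [h3, add_zero, Finset.sum_eq_single b'] at h2
    · have h4 : Tm M d g b' (kv hcd b') = coeff (fs c) (g 1) := by
        have h5 : be (kv hcd b').2 = be b'.1 + fs c := by
          ext j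
          rfl
        show coeff (be (kv hcd b').2) (monomial (be b'.1) 1 * g 1) = _
        rw [h5, coeff_monomial_mul, one_mul]
      rw [h4] at h2
      exact hb'.2 (by simpa [hgc] using h2)
    · intro b _ hb
      by_contra h4
      have h5 : y (Sum.inl b) ≠ 0 := left_ne_zero_of_mul h4
      have h6 : Tm M d g b (kv hcd b') ≠ 0 := right_ne_zero_of_mul h4
      have h7 : coeff (be (kv hcd b').2) (monomial (be b.1) 1 * g 1) ≠ 0 := h6
      rw [coeff_monomial_mul'] at h7
      split_ifs at h7 with hle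
      swap
      · exact absurd rfl h7
      rw [one_mul] at h7
      obtain ⟨a, ha⟩ : ∃ a : Fin q → ℕ, a = fun j => (b'.1 j : ℕ) + c j - (b.1 j : ℕ) :=
        ⟨_, rfl⟩
      have h8 : be (kv hcd b').2 - be b.1 = fs a := by
        ext j
        rw [ha]
        rfl
      rw [h8] at h7
      have h9 := hmax a (hgΔ a h7)
      have h10 : a + (fun j => (b.1 j : ℕ)) = c + fun j => (b'.1 j : ℕ) := by
        funext j
        have h11 : (b.1 j : ℕ) ≤ (b'.1 j : ℕ) + c j := hle j
        rw [Pi.add_apply, Pi.add_apply, ha]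
        show (b'.1 j : ℕ) + c j - (b.1 j : ℕ) + (b.1 j : ℕ) = c j + (b'.1 j : ℕ)
        omega
      have h12 := hbmax b (by simpa using h5)
      have h13 : od τ (fun j => (b.1 j : ℕ)) ≠ od τ (fun j => (b'.1 j : ℕ)) := by
        intro h14
        have h15 := od_inj τ h14
        exact hb (Subtype.ext (funext fun j => Fin.ext (congrFun h15 j)))
      have h16 := od_add τ a (lt_of_le_of_ne h12 h13)
      rw [add_comm _ a, h10, add_comm c, add_comm _ a] at h16
      rcases h9.lt_or_eq with h17 | h17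
      · have h18 := od_add τ (fun j => (b'.1 j : ℕ)) h17
        rw [add_comm a, add_comm c] at h18
        rw [add_comm a] at h16
        exact lt_asymm h16 h18
      · have h18 := od_inj τ h17
        rw [h18, add_comm c] at h16
        exact lt_irrefl _ h16
    · intro h4
      exact absurd (Finset.mem_univ _) h4
  intro i
  rcases i with b | x
  · exact h0 b
  · have h2 := congrFun hy x.1
    rw [Fintype.sum_sum_type, Pi.add_apply, Finset.sum_apply, Finset.sum_apply,
      Pi.zero_apply] at h2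
    simp only [Sum.elim_inl, Sum.elim_inr, Pi.smul_apply, smul_eq_mul, h0, zero_mul,
      Finset.sum_const_zero, zero_add] at h2
    rw [Finset.sum_eq_single x] at h2
    · simpa using h2
    · intro x' _ hx'
      rw [if_neg, mul_zero]
      intro h4
      exact hx' (Subtype.ext h4.symm)
    · intro h4
      exact absurd (Finset.mem_univ _) h4

end

end Pool.Agent.Lib.MP_17a322_nt.SV3
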