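import Pool.Agent.Lib.MP_17a322_nt.SV3.J1

/-!
Coprime polynomials.
-/

universe u

namespace Pool.Agent.Lib.MP_17a322_nt.SV3

open MvPolynomial
open Pool.Agent.Lib.MP_17a322_nt.SV2

section

variable {q M : ℕ} {d : Fin q → ℕ}

/-- Coprime polynomials. -/
theorem J_exc {L : Type*} [Field L] (g : Fin 2 → MvPolynomial (Fin q) L)
    (hg : ∀ i j, degreeOf j (g i) ≤ d j) (hcop : IsRelPrime (g 0) (g 1))
    (hd : ∀ j, degreeOf j (g 1) = d j) (hg1 : g 1 ≠ 0) (y : Fin 2 × Box q M → L)
    (hy : ∑ p, C (y p) * (g p.1 * monomial (fs fun j => (p.2 j : ℕ)) 1) = 0)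
    (z : Fin 2 × Box q M → L) (hz : ∀ b : Rw q M d, ∑ p, Tm M d g b p * z p = 0) :
    ∑ p, y p * z p = 0 := by
  have _ := hg
  classical
  set Y : Fin 2 → MvPolynomial (Fin q) L :=
    fun i => ∑ a : Box q M, monomial (be a) (y (i, a)) with hY
  have h1 : Y 0 * g 0 + Y 1 * g 1 = 0 := by
    rw [← hy, Fintype.sum_prod_type, Fin.sum_univ_two, hY]
    simp only [Finset.sum_mul]
    congr 1
    · refine Finset.sum_congr rfl fun a _ => ?_
      rw [show (monomial (be a) (y (0, a)) : MvPolynomial (Fin q) L) =
        C (y (0, a)) * monomial (be a) 1 by rw [C_mul_monomial, mul_one]]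
      ring
    · refine Finset.sum_congr rfl fun a _ => ?_
      rw [show (monomial (be a) (y (1, a)) : MvPolynomial (Fin q) L) =
        C (y (1, a)) * monomial (be a) 1 by rw [C_mul_monomial, mul_one]]
      ring
  have h2 : g 1 ∣ Y 0 := by
    refine IsRelPrime.dvd_of_dvd_mul_right (z := g 0) hcop.symm ?_
    refine ⟨- Y 1, ?_⟩
    linear_combination h1
  obtain ⟨h, hh⟩ := h2
  have h3 : Y 1 = h * (- g 0) := by
    apply mul_right_cancel₀ hg1
    rw [hh] at h1
    linear_combination h1
  have hhd : h ≠ 0 → ∀ j, degreeOf j h + d j ≤ M := by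
    intro hne j
    have h4 : degreeOf j (Y 0) ≤ M := deg_sum_mon _ j
    rw [hh, degreeOf_mul_eq hg1 hne] at h4
    have := hd j
    omega
  -- `h` is a combination of the monomials with exponents in `Rw`
  have h4 : h = ∑ b : Rw q M d, monomial (be b.1) (coeff (be b.1) h) := by
    ext m
    rw [coeff_sum]
    simp only [coeff_monomial]
    by_cases h5 : coeff m h = 0
    · rw [h5]
      symm
      refine Finset.sum_eq_zero fun a _ => ?_
      split_ifs with h1
      · rw [h1, h5]
      · rfl
    · have hne : h ≠ 0 := by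
        rintro rfl
        exact h5 (coeff_zero _)
      have h6 : ∀ j, m j + d j ≤ M := fun j => by
        have e1 := hhd hne j
        have e2 := le_deg h5 j
        omega
      obtain ⟨a, ha⟩ := exists_be (M := M) (m := m) fun j => by have := h6 j; omega
      have h7 : ∀ j, (a j : ℕ) + d j ≤ M := fun j => by
        have e1 := h6 j
        have e2 : (be a) j = m j := by rw [ha]
        rw [fs_apply] at e2
        omega
      rw [Finset.sum_eq_single (⟨a, h7⟩ : Rw q M d)]
      · rw [if_pos ha, ha]
      · intro b _ hb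
        rw [if_neg]
        intro h1
        exact hb (Subtype.ext (be_inj (h1.trans ha.symm)))
      · intro h1
        exact absurd (Finset.mem_univ _) h1
  have h5 : ∀ p, y p = ∑ b : Rw q M d, coeff (be b.1) h * Tm M d g b p := by
    have h6 : ∀ (G : MvPolynomial (Fin q) L) (a : Box q M), coeff (be a) (h * G) =
        ∑ b : Rw q M d, coeff (be b.1) h * coeff (be a) (monomial (be b.1) 1 * G) := by
      intro G a
      conv_lhs => rw [h4]
      rw [Finset.sum_mul, coeff_sum]
      refine Finset.sum_congr rfl fun b _ => ?_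
      rw [show (monomial (be b.1) (coeff (be b.1) h) : MvPolynomial (Fin q) L) =
        C (coeff (be b.1) h) * monomial (be b.1) 1 by rw [C_mul_monomial, mul_one],
        mul_assoc, coeff_C_mul]
    rintro ⟨i, a⟩
    have h7 : y (i, a) = coeff (be a) (Y i) := (coeff_sum_mon (fun a => y (i, a)) a).symm
    rw [h7]
    fin_cases i
    · show coeff (be a) (Y 0) = _
      rw [hh, mul_comm, h6]
      rfl
    · show coeff (be a) (Y 1) = _
      rw [h3, h6]
      refine Finset.sum_congr rfl fun b _ => ?_
      rfl
  calc ∑ p, y p * z p = ∑ p, ∑ b : Rw q M d, coeff (be b.1) h * (Tm M d g b p * z p) := by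
        refine Finset.sum_congr rfl fun p _ => ?_
        rw [h5 p, Finset.sum_mul]
        exact Finset.sum_congr rfl fun b _ => by ring
    _ = ∑ b : Rw q M d, coeff (be b.1) h * ∑ p, Tm M d g b p * z p := by
        rw [Finset.sum_comm]
        exact Finset.sum_congr rfl fun b _ => by rw [Finset.mul_sum]
    _ = 0 := by simp [hz]

end

end Pool.Agent.Lib.MP_17a322_nt.SV3
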