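import Pool.Agent.Lib.MP_17a322_nt.SV3.Defs
import Pool.Agent.Lib.MP_17a322_nt.VA.A3b
import Pool.Agent.Lib.MP_17a322_nt.EF.T1

/-!
Semiabelian varieties.
-/

universe u

namespace Pool.Agent.Lib.MP_17a322_nt.SV3

open MvPolynomial Height
open Pool.Agent.Lib.MP_17a322_nt.VA

section

variable {K : Type u} [Field K] {N q : ℕ} {A : AV K N}

theorem semiZ_hom (a : A.Pts K) (b c : Fin (N + 1)) : (semiZ A a b c).IsHomogeneous 2 := by
  unfold semiZ
  rw [aeval_def, eval₂_eq']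
  refine IsHomogeneous.sum _ _ _ fun m hm => ?_
  obtain ⟨h1, -⟩ := A.bihomog b c m hm
  rw [Fintype.prod_sum_type]
  have h2 : (∏ i, (X i : MvPolynomial (Fin (N + 1)) K) ^ m (Sum.inl i)).IsHomogeneous
      (∑ i, m (Sum.inl i)) :=
    IsHomogeneous.prod _ _ _ fun i _ => by
      have h := (isHomogeneous_X K i).pow (m (Sum.inl i))
      rwa [one_mul] at h
  have h3 : (∏ i, (C (A.x a i) : MvPolynomial (Fin (N + 1)) K) ^ m (Sum.inr i)).IsHomogeneous
      (∑ _i : Fin (N + 1), 0) :=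
    IsHomogeneous.prod _ _ _ fun i _ => by
      have h := (isHomogeneous_C (Fin (N + 1)) (A.x a i)).pow (m (Sum.inr i))
      rwa [zero_mul] at h
  have h4 := (isHomogeneous_C (Fin (N + 1)) (coeff m (A.S b c))).mul (h2.mul h3)
  rw [Finset.sum_const_zero, zero_add, add_zero, h1] at h4
  exact h4

theorem semiZ_eval (a : A.Pts K) (b c : Fin (N + 1)) {L : Type u} [Field L] [Algebra K L]
    (P : A.Pts L) : aeval (A.x P) (semiZ A a b c) =
      aeval (Sum.elim (A.x P) fun i => algebraMap K L (A.x a i)) (A.S b c) := by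
  unfold semiZ
  have h0 := DFunLike.congr_fun (comp_aeval (R := K)
    (Sum.elim X fun i => (C (A.x a i) : MvPolynomial (Fin (N + 1)) K)) (aeval (A.x P))) (A.S b c)
  refine Eq.trans h0 ?_
  refine congrArg (fun f => aeval f (A.S b c)) ?_
  funext z
  rcases z with j | j
  · show aeval (A.x P) (X j) = A.x P j
    rw [aeval_X]
  · show aeval (A.x P) (C (A.x a j)) = algebraMap K L (A.x a j)
    rw [aeval_C]

theorem semiZ_spec (a : A.Pts K) {L : Type u} [Field L] [Algebra K L] (P : A.Pts L) :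
    ∃ t : L, t ≠ 0 ∧ ∀ b c, aeval (A.x P) (semiZ A a b c) =
      t * (A.x (P + A.img (Algebra.ofId K L) a) b * A.x (P - A.img (Algebra.ofId K L) a) c) := by
  obtain ⟨a', ha'⟩ : ∃ a' : A.Pts L, a' = A.img (Algebra.ofId K L) a := ⟨_, rfl⟩
  obtain ⟨s, hs, h1⟩ : A.Rep (A.img (Algebra.ofId K L) a) fun i =>
    (Algebra.ofId K L) (A.x a i) := A.img_rep (Algebra.ofId K L) a
  obtain ⟨t, ht, h2⟩ := A.spec L P a'
  rw [← ha'] at h1 ⊢
  refine ⟨s ^ 2 * t, mul_ne_zero (pow_ne_zero _ hs) ht, fun b c => ?_⟩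
  have h3 : aeval (Sum.elim (A.x P) fun i => algebraMap K L (A.x a i)) (A.S b c) =
      s ^ 2 * aeval (Sum.elim (A.x P) (A.x a')) (A.S b c) := by
    rw [aeval_def, aeval_def, eval₂_eq', eval₂_eq', Finset.mul_sum]
    refine Finset.sum_congr rfl fun m hm => ?_
    obtain ⟨-, h4⟩ := A.bihomog b c m hm
    rw [Fintype.prod_sum_type, Fintype.prod_sum_type]
    have h5 : ∏ i, (algebraMap K L (A.x a i)) ^ m (Sum.inr i) =
        s ^ 2 * ∏ i, (A.x a' i) ^ m (Sum.inr i) := by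
      have h6 : ∀ i, (algebraMap K L (A.x a i)) ^ m (Sum.inr i) =
          s ^ m (Sum.inr i) * (A.x a' i) ^ m (Sum.inr i) := by
        intro i
        have h7 : algebraMap K L (A.x a i) = s * A.x a' i := h1 i
        rw [h7, mul_pow]
      rw [Finset.prod_congr rfl fun i _ => h6 i, Finset.prod_mul_distrib,
        Finset.prod_pow_eq_pow_sum, h4]
    simp only [Sum.elim_inl, Sum.elim_inr]
    rw [h5]
    ring
  rw [semiZ_eval, h3]
  have h8 : aeval (Sum.elim (A.x P) (A.x a')) (A.S b c) =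
      t * (A.x (P + a') b * A.x (P - a') c) := h2 b c
  rw [h8]
  ring

/-- The semiabelian variety given by the points `a i`: a point over `P` is given by coordinates `y i`
of the points `P + a i`. -/
noncomputable def semi (A : AV K N) (a : Fin q → A.Pts K) : Bun A q (N + 1) (N + 1) where
  ζ i b c := semiZ A (a i) b c
  e _ := 2
  k _ := 1
  hom i b c := semiZ_hom (a i) b c
  rk i b b' c c' := by
    obtain ⟨L, _, _, _, P, hP⟩ := EF.T_gen A
    obtain ⟨t, -, ht⟩ := semiZ_spec (a i) P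
    refine hP _ (2 + 2) (((semiZ_hom _ _ _).mul (semiZ_hom _ _ _)).sub
      ((semiZ_hom _ _ _).mul (semiZ_hom _ _ _))) ?_
    rw [map_sub, map_mul, map_mul, ht, ht, ht, ht]
    ring
  ne i L _ _ P := by
    obtain ⟨t, ht0, ht⟩ := semiZ_spec (a i) P
    obtain ⟨b, hb⟩ := A.exists_x_ne (P + A.img (Algebra.ofId K L) (a i))
    obtain ⟨c, hc⟩ := A.exists_x_ne (P - A.img (Algebra.ofId K L) (a i))
    exact ⟨b, c, by
      rw [ht]
      exact mul_ne_zero ht0 (mul_ne_zero hb hc)⟩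

theorem semi_On (a : Fin q → A.Pts K) (P : A.Pts K) (y : Fin q × Fin (N + 1) → K) :
    (semi A a).On P y ↔ ∀ i, ∃ t : K, t ≠ 0 ∧ ∀ b, y (i, b) = t * A.x (P + a i) b := by
  have hid : ∀ i, A.img (Algebra.ofId K K) (a i) = a i := by
    intro i
    rw [AV.img_eq_iff]
    exact ⟨1, one_ne_zero, fun j => by
      rw [one_mul]
      rfl⟩
  refine forall_congr' fun i => ?_
  obtain ⟨s, hs0, hs⟩ := semiZ_spec (a i) P
  rw [hid] at hs
  have hζ : ∀ b c, aeval (A.x P) ((semi A a).ζ i b c) = s * (A.x (P + a i) b *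
      A.x (P - a i) c) := hs
  constructor
  · rintro ⟨⟨b₀, hb₀⟩, h⟩
    obtain ⟨b₁, hb₁⟩ := A.exists_x_ne (P + a i)
    obtain ⟨c, hc⟩ := A.exists_x_ne (P - a i)
    have h1 : ∀ b, y (i, b) * A.x (P + a i) b₁ = y (i, b₁) * A.x (P + a i) b := by
      intro b
      have h2 := h b b₁ c
      rw [hζ, hζ] at h2
      have h3 : s * A.x (P - a i) c ≠ 0 := mul_ne_zero hs0 hc
      apply mul_right_cancel₀ h3
      linear_combination h2
    refine ⟨y (i, b₁) / A.x (P + a i) b₁, ?_, fun b => ?_⟩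
    · intro h0
      rw [div_eq_zero_iff] at h0
      have h2 := h1 b₀
      rw [h0.resolve_right hb₁, zero_mul] at h2
      exact (mul_ne_zero hb₀ hb₁) h2
    · rw [div_mul_eq_mul_div, ← h1 b, mul_div_assoc, div_self hb₁, mul_one]
  · rintro ⟨t, ht, h⟩
    refine ⟨?_, fun b b' c => ?_⟩
    · obtain ⟨b₁, hb₁⟩ := A.exists_x_ne (P + a i)
      exact ⟨b₁, by rw [h]; exact mul_ne_zero ht hb₁⟩
    · rw [hζ, hζ, h, h]
      ring

end

end Pool.Agent.Lib.MP_17a322_nt.SV3
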