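import Pool.Agent.Lib.MP_17a322_nt.SV3.A1
import Pool.Agent.Lib.MP_17a322_nt.SV3.R1
import Pool.Agent.Lib.MP_17a322_nt.SV3.J2
import Pool.Agent.Lib.MP_17a322_nt.TB.W4
import Pool.Agent.Lib.MP_17a322_nt.TB.R1

/-!
Exceptional forms.
-/

universe u

namespace Pool.Agent.Lib.MP_17a322_nt.SV3

open MvPolynomial Height
open Pool.Agent.Lib.MP_17a322_nt.VA
open Pool.Agent.Lib.MP_17a322_nt.SL
open Pool.Agent.Lib.MP_17a322_nt.SV2 (Box Rw Cf Tm fs sp ps be Tm_zero Tm_one)

section

variable {K : Type u} [Field K] {N q p p' m : ℕ} {A : AV K N}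

/-- `ev` as a homomorphism of algebras. -/
noncomputable def evA {L : Type u} [Field L] [Algebra K L] (P : A.Pts L) (y : Fin q × Fin p → L) :
    MvPolynomial (Fin q × Fin p) (MvPolynomial (Fin (N + 1)) K) →ₐ[K] L where
  toRingHom := (eval y).comp
    (MvPolynomial.map (aeval (A.x P) : MvPolynomial (Fin (N + 1)) K →ₐ[K] L).toRingHom)
  commutes' r := by
    show eval y (MvPolynomial.map (aeval (A.x P) : MvPolynomial (Fin (N + 1)) K →ₐ[K] L).toRingHom
      (C (C r))) = _
    rw [map_C, eval_C]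
    exact aeval_C _ _

theorem evA_apply {L : Type u} [Field L] [Algebra K L] (P : A.Pts L) (y : Fin q × Fin p → L)
    (b : MvPolynomial (Fin q × Fin p) (MvPolynomial (Fin (N + 1)) K)) :
    evA P y b = ev P y b := rfl

theorem ev_C {L : Type u} [Field L] [Algebra K L] (P : A.Pts L) (y : Fin q × Fin p → L)
    (f : MvPolynomial (Fin (N + 1)) K) :
    ev P y (C f : MvPolynomial (Fin q × Fin p) (MvPolynomial (Fin (N + 1)) K)) =
      aeval (A.x P) f := by
  unfold ev
  rw [map_C, eval_C]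
  rfl

theorem ev_X {L : Type u} [Field L] [Algebra K L] (P : A.Pts L) (y : Fin q × Fin p → L)
    (i : Fin q × Fin p) :
    ev P y (X i : MvPolynomial (Fin q × Fin p) (MvPolynomial (Fin (N + 1)) K)) = y i := by
  unfold ev
  rw [map_X, eval_X]

theorem X_sp_deg {d : Fin q → ℕ} {Q : MvPolynomial (Fin q) (MvPolynomial (Fin (N + 1)) K)}
    (hQ : ∀ j, degreeOf j Q ≤ d j) {L : Type u} [Field L] [Algebra K L] (P : A.Pts L) (j : Fin q) :
    degreeOf j (sp A P Q) ≤ d j := by
  classical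
  refine le_trans ?_ (hQ j)
  unfold SV2.sp
  rw [degreeOf_eq_sup, degreeOf_eq_sup]
  exact Finset.sup_mono (support_map_subset _ _)

theorem X_Tm_sp {L : Type u} [Field L] [Algebra K L] (P : A.Pts L) (M : ℕ) (d : Fin q → ℕ)
    (g : Fin 2 → MvPolynomial (Fin q) (MvPolynomial (Fin (N + 1)) K)) (b : Rw q M d)
    (z : Fin 2 × Box q M) :
    aeval (A.x P) (Tm M d g b z) = Tm M d (fun i => sp A P (g i)) b z := by
  obtain ⟨i, a⟩ := z
  have h1 : ∀ Q : MvPolynomial (Fin q) (MvPolynomial (Fin (N + 1)) K),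
      aeval (A.x P) (coeff (be a) (monomial (be b.1) 1 * Q)) =
        coeff (be a) (monomial (be b.1) 1 * sp A P Q) := by
    intro Q
    have h2 : sp A P (monomial (be b.1) 1 * Q) = monomial (be b.1) 1 * sp A P Q := by
      unfold SV2.sp
      rw [map_mul, map_monomial, map_one]
    rw [← h2]
    exact (coeff_map _ _ _).symm
  fin_cases i
  · exact h1 (g 1)
  · show aeval (A.x P) (Tm M d g b (1, a)) = Tm M d (fun i => sp A P (g i)) b (1, a)
    rw [Tm_one, Tm_one, map_neg, h1]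

variable (B : Bun A q p p')

/-- The vector `Y` is compatible with homomorphisms. -/
theorem X_Y_map {R R' : Type*} [CommRing R] [CommRing R'] (φ : R →+* R') (M : ℕ)
    (x : Fin (N + 1) → R) (y : Fin q × Fin p → R) (Z : Fin 2 → R)
    (z : (Fin 2 × Box q M) × TB.Kp N q p M) :
    φ (B.Y M x y Z z) = B.Y M (fun j => φ (x j)) (fun i => φ (y i)) (fun i => φ (Z i)) z := by
  unfold Bun.Y TB.phi
  split_ifs
  · simp only [map_mul, map_pow, map_prod]
  · exact map_zero φ

/-- The pull back of a form. -/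
noncomputable def Bun.pull (M : ℕ)
    (g : Fin 2 → MvPolynomial (Fin q × Fin p) (MvPolynomial (Fin (N + 1)) K))
    (F : MvPolynomial (Fin (N + 1) ⊕ ((Fin 2 × Box q M) × TB.Kp N q p M)) K) :
    MvPolynomial (Fin q × Fin p) (MvPolynomial (Fin (N + 1)) K) :=
  aeval (Sum.elim (fun j => C (X j)) (B.Y M (fun j => C (X j)) (fun i => X i) g)) F

theorem pull_ev (M : ℕ)
    (g : Fin 2 → MvPolynomial (Fin q × Fin p) (MvPolynomial (Fin (N + 1)) K))
    (F : MvPolynomial (Fin (N + 1) ⊕ ((Fin 2 × Box q M) × TB.Kp N q p M)) K)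
    {L : Type u} [Field L] [Algebra K L] (P : A.Pts L) (y : Fin q × Fin p → L) :
    ev P y (B.pull M g F) =
      aeval (Sum.elim (A.x P) (B.Y M (A.x P) y fun i => ev P y (g i))) F := by
  rw [← evA_apply]
  unfold Bun.pull
  have h0 := DFunLike.congr_fun (comp_aeval (Sum.elim (fun j => C (X j))
    (B.Y M (fun j => C (X j)) (fun i => X i) g)) (evA P y)) F
  refine Eq.trans h0 ?_
  refine congrArg (fun f => aeval f F) ?_
  funext z
  rcases z with j | z
  · show evA P y (C (X j)) = A.x P j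
    rw [evA_apply, ev_C, aeval_X]
  · show evA P y (B.Y M (fun j => C (X j)) (fun i => X i) g z) = _
    obtain ⟨φ, hφ⟩ : ∃ φ : MvPolynomial (Fin q × Fin p) (MvPolynomial (Fin (N + 1)) K) →+* L,
      φ = (evA P y).toRingHom := ⟨_, rfl⟩
    have h1 := X_Y_map B φ M (fun j => C (X j)) (fun i => X i) g z
    have h2 : (fun j => φ (C (X j))) = A.x P := by
      funext j
      rw [hφ]
      show ev P y (C (X j)) = A.x P j
      rw [ev_C, aeval_X]
    have h3 : (fun i => φ (X i)) = y := by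
      funext i
      rw [hφ]
      exact ev_X P y i
    have h4 : (fun i => φ (g i)) = fun i => ev P y (g i) := by
      funext i
      rw [hφ]
      rfl
    rw [h2, h3, h4] at h1
    rw [Sum.elim_inr, ← h1, hφ]
    rfl

theorem X_WH_Y (T : TB.Tor A q p) (M : ℕ) {D : ℕ}
    {g : Fin 2 → MvPolynomial (Fin q × Fin p) (MvPolynomial (Fin (N + 1)) K)}
    (hg : ∀ i, T.WH D (g i)) (z : (Fin 2 × Box q M) × TB.Kp N q p M) :
    T.WH (M * ∑ i, T.k i + D) (TB.phi T.k M (fun j => C (X j)) (fun i => X i) g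
      (z.1.2, z.2, z.1.1)) := by
  classical
  have h0 : ∀ i, T.WH (T.k i.1) (X i : MvPolynomial (Fin q × Fin p)
      (MvPolynomial (Fin (N + 1)) K)) := by
    intro i μ hμ
    rw [coeff_X] at hμ ⊢
    by_cases h : Finsupp.single i 1 = μ
    · rw [if_pos h]
      refine ⟨0, isHomogeneous_one _ _, ?_⟩
      rw [← h, zero_add, Finset.sum_eq_single i]
      · rw [Finsupp.single_eq_same, mul_one]
      · intro j _ hj
        rw [Finsupp.single_eq_of_ne hj, mul_zero]
      · intro h1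
        exact absurd (Finset.mem_univ _) h1
    · rw [if_neg h] at hμ
      exact absurd rfl hμ
  have h1 : ∀ (n : ℕ) (D' : ℕ) (b : MvPolynomial (Fin q × Fin p) (MvPolynomial (Fin (N + 1)) K)),
      T.WH D' b → T.WH (n * D') (b ^ n) := by
    intro n D' b hb
    have h2 := TB.R1_WH_prod T (Finset.range n) (fun _ => D') (fun _ => b) (fun _ _ => hb)
    rwa [Finset.sum_const, Finset.prod_const, Finset.card_range, smul_eq_mul] at h2
  unfold TB.phi
  split_ifs with hM
  · have h2 := h1 (TB.ex T.k z.1.2) 1 (C (X z.2.1)) (TB.R1_WH_C T (isHomogeneous_X _ _))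
    have h3 := TB.R1_WH_prod T Finset.univ (fun i => (z.2.2 i : ℕ) * T.k i.1)
      (fun i => (X i : MvPolynomial (Fin q × Fin p) (MvPolynomial (Fin (N + 1)) K)) ^
        (z.2.2 i : ℕ)) (fun i _ => h1 _ _ _ (h0 i))
    have h4 := TB.R1_WH_mul T (TB.R1_WH_mul T h2 h3) (hg z.1.1)
    have h5 : TB.ex T.k z.1.2 * 1 + ∑ i, (z.2.2 i : ℕ) * T.k i.1 + D =
        M * ∑ i, T.k i + D := by
      congr 1
      unfold TB.ex
      rw [mul_one, Fintype.sum_prod_type, ← Finset.sum_add_distrib, Finset.mul_sum]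
      refine Finset.sum_congr rfl fun i _ => ?_
      have h6 : ∑ c, (z.2.2 (i, c) : ℕ) * T.k i = z.1.2 i * T.k i := by
        rw [← Finset.sum_mul]
        rw [hM i]
      rw [h6]
      have h7 : (z.1.2 i : ℕ) ≤ M := by
        have := (z.1.2 i).2
        omega
      rw [mul_comm (T.k i), ← add_mul, Nat.sub_add_cancel h7]
    rwa [h5] at h4
  · intro μ hμ
    exact absurd (coeff_zero _) hμ

theorem pull_WH {ch : Fin q → Fin p'} (h : B.Ch ch) (M : ℕ) {D : ℕ}
    {g : Fin 2 → MvPolynomial (Fin q × Fin p) (MvPolynomial (Fin (N + 1)) K)}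
    (hg : ∀ i, B.WH D (g i))
    {F : MvPolynomial (Fin (N + 1) ⊕ ((Fin 2 × Box q M) × TB.Kp N q p M)) K}
    (hF : ∃ a b : ℕ, ∀ m ∈ F.support, ∑ i, m (Sum.inl i) = a ∧ ∑ x, m (Sum.inr x) = b) :
    ∃ E, B.WH E (B.pull M g F) := by
  classical
  obtain ⟨a, b, hab⟩ := hF
  obtain ⟨T, hT⟩ : ∃ T : TB.Tor A q p, T = B.tor ch h := ⟨_, rfl⟩
  have hWH : ∀ (E : ℕ) (b : MvPolynomial (Fin q × Fin p) (MvPolynomial (Fin (N + 1)) K)),
      T.WH E b → B.WH E b := by
    intro E b hb
    rw [hT] at hb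
    exact hb
  have hg' : ∀ i, T.WH D (g i) := by
    rw [hT]
    exact hg
  have hk : T.k = B.k := by rw [hT]; rfl
  refine ⟨a + b * (M * ∑ i, T.k i + D), hWH _ _ ?_⟩
  have h1 : ∀ (n : ℕ) (D' : ℕ) (b : MvPolynomial (Fin q × Fin p) (MvPolynomial (Fin (N + 1)) K)),
      T.WH D' b → T.WH (n * D') (b ^ n) := by
    intro n D' b hb
    have h2 := TB.R1_WH_prod T (Finset.range n) (fun _ => D') (fun _ => b) (fun _ _ => hb)
    rwa [Finset.sum_const, Finset.prod_const, Finset.card_range, smul_eq_mul] at h2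
  unfold Bun.pull
  rw [aeval_def, eval₂_eq']
  refine TB.R1_WH_sum T _ _ _ fun m hm => ?_
  obtain ⟨ha, hb⟩ := hab m hm
  rw [Fintype.prod_sum_type]
  have h2 : T.WH 0 (algebraMap K (MvPolynomial (Fin q × Fin p) (MvPolynomial (Fin (N + 1)) K))
      (coeff m F)) := TB.R1_WH_C T (isHomogeneous_C _ _)
  have h3 := TB.R1_WH_prod T Finset.univ (fun i => m (Sum.inl i) * 1)
    (fun i => (C (X i) : MvPolynomial (Fin q × Fin p) (MvPolynomial (Fin (N + 1)) K)) ^
      m (Sum.inl i)) (fun i _ => h1 _ _ _ (TB.R1_WH_C T (isHomogeneous_X _ _)))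
  have h4 := TB.R1_WH_prod T Finset.univ (fun z => m (Sum.inr z) * (M * ∑ i, T.k i + D))
    (fun z => (TB.phi T.k M (fun j => C (X j)) (fun i => X i) g (z.1.2, z.2, z.1.1) :
      MvPolynomial (Fin q × Fin p) (MvPolynomial (Fin (N + 1)) K)) ^
      m (Sum.inr z)) (fun z _ => h1 _ _ _ (X_WH_Y T M hg' z))
  have h5 := TB.R1_WH_mul T h2 (TB.R1_WH_mul T h3 h4)
  rw [← Finset.sum_mul, ← Finset.sum_mul, ha, hb, zero_add, mul_one] at h5
  rw [hk] at h5 ⊢
  exact h5

end

section

variable {K : Type u} [Field K] [NumberField K] {N q p p' m : ℕ} {A : AV K N}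
  (B : Bun A q p p')

/-- The coordinates of `Y` at `y i = t i η i`. -/
theorem X_Y_yt {D : ℕ} {ch : Fin q → Fin p'}
    {g : Fin 2 → MvPolynomial (Fin q × Fin p) (MvPolynomial (Fin (N + 1)) K)}
    (R : B.Red ch D g) {M : ℕ} {L : Type u} [Field L] [Algebra K L] (P : A.Pts L)
    (t : Fin q → L) (z : (Fin 2 × Box q M) × TB.Kp N q p M) :
    B.Y M (A.x P) (B.yt ch P t) (fun i => ev P (B.yt ch P t) (g i)) z =
      (∏ j, t j ^ R.o j) * (aeval (A.x P) (B.w ch M z.1 z.2) *
        eval t (sp A P (R.Q z.1.1) * monomial (be z.1.2) 1)) := by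
  classical
  unfold Bun.Y TB.phi Bun.w
  by_cases hM : TB.Mt z.1.2 z.2.2
  · rw [if_pos hM, if_pos hM]
    have h1 : ∏ i, B.yt ch P t i ^ (z.2.2 i : ℕ) =
        (∏ i, t i ^ (z.1.2 i : ℕ)) * ∏ i : Fin q × Fin p,
          aeval (A.x P) (B.ζ i.1 i.2 (ch i.1)) ^ (z.2.2 i : ℕ) := by
      unfold Bun.yt
      simp only [mul_pow]
      rw [Finset.prod_mul_distrib]
      congr 1
      rw [Fintype.prod_prod_type]
      refine Finset.prod_congr rfl fun i _ => ?_
      show ∏ c, t i ^ (z.2.2 (i, c) : ℕ) = _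
      rw [Finset.prod_pow_eq_pow_sum]
      exact congrArg (fun n => t i ^ n) (hM i)
    have h2 : eval t (monomial (be z.1.2) (1 : L)) = ∏ i, t i ^ (z.1.2 i : ℕ) := by
      rw [eval_monomial, one_mul, Finsupp.prod_fintype _ _ fun i => pow_zero _]
      rfl
    simp only [h1]
    rw [map_mul (eval t), h2, ← R_eval B R P t z.1.1, map_mul, map_pow, aeval_X, map_prod]
    simp only [map_pow]
    ring
  · rw [if_neg hM, if_neg hM, map_zero]
    ring

theorem X_exc {D : ℕ} {ch : Fin q → Fin p'}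
    {g : Fin 2 → MvPolynomial (Fin q × Fin p) (MvPolynomial (Fin (N + 1)) K)}
    (R : B.Red ch D g) {M : ℕ}
    {F : MvPolynomial (Fin (N + 1) ⊕ ((Fin 2 × Box q M) × TB.Kp N q p M)) K}
    (hF : TB.ExcU A (Tm M R.d R.Q) (B.w ch M) F) :
    ∃ (G : MvPolynomial (Fin q × Fin p) (MvPolynomial (Fin (N + 1)) K)) (E : ℕ), B.WH E G ∧
      ¬ B.Van G ∧ ∀ (P : A.Pts K) (y : Fin q × Fin p → K),
        ev P y G = aeval (Sum.elim (A.x P)
          (B.Y M (A.x P) y fun i => ev P y (g i))) F := by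
  classical
  obtain ⟨E, hE⟩ := pull_WH B R.hch M R.wh hF.1
  refine ⟨B.pull M g F, E, hE, ?_, fun P y => pull_ev B M g F P y⟩
  intro hvan
  obtain ⟨L, _, _, _, P, hP, hcop⟩ := R.cop
  obtain ⟨c, n, y, hc, hy, hFy⟩ := hF.2 L P hP
  have hIn : B.In ch P := A_gen_in B hP R.hch
  obtain ⟨yy, hyy⟩ : ∃ yy : Fin n → Fin 2 × Box q M → L, yy = fun k z =>
    ∑ κ, y k (z, κ) * aeval (A.x P) (B.w ch M z κ) := ⟨_, rfl⟩
  obtain ⟨pk, hpk⟩ : ∃ pk : Fin n → MvPolynomial (Fin q) L, pk = fun k =>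
    ∑ z, C (yy k z) * (sp A P (R.Q z.1) * monomial (be z.2) 1) := ⟨_, rfl⟩
  have h1 : (∏ j, (X j : MvPolynomial (Fin q) L)) * ∏ k, pk k = 0 := by
    have : Infinite L := IsAlgClosed.instInfinite
    refine MvPolynomial.funext fun t => ?_
    rw [map_zero, map_mul, map_prod, map_prod]
    simp only [eval_X]
    by_cases ht : ∀ j, t j ≠ 0
    · have h2 := hvan L P (B.yt ch P t) (A_on' B hIn ht)
      rw [pull_ev] at h2
      have h3 := congrArg (eval (B.Y M (A.x P) (B.yt ch P t)
        fun i => ev P (B.yt ch P t) (g i))) hFy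
      have h4 : eval (B.Y M (A.x P) (B.yt ch P t) fun i => ev P (B.yt ch P t) (g i))
          (aeval (Sum.elim (fun i => (C (A.x P i) :
            MvPolynomial ((Fin 2 × Box q M) × TB.Kp N q p M) L)) X) F) =
          aeval (Sum.elim (A.x P) (B.Y M (A.x P) (B.yt ch P t)
            fun i => ev P (B.yt ch P t) (g i))) F := by
        rw [← coe_aeval_eq_eval]
        have h5 := DFunLike.congr_fun (comp_aeval (R := K)
          (Sum.elim (fun i => (C (A.x P i) :
            MvPolynomial ((Fin 2 × Box q M) × TB.Kp N q p M) L)) X)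
          ((aeval (B.Y M (A.x P) (B.yt ch P t) fun i => ev P (B.yt ch P t) (g i)) :
            MvPolynomial ((Fin 2 × Box q M) × TB.Kp N q p M) L →ₐ[L] L).restrictScalars K)) F
        refine Eq.trans h5 ?_
        refine congrArg (fun f => aeval f F) ?_
        funext z
        rcases z with j | z
        · show aeval _ (C (A.x P j)) = A.x P j
          rw [aeval_C]
          rfl
        · show aeval _ (X z) = _
          rw [aeval_X]
          rfl
      rw [h4, h2, map_mul, eval_C, map_prod] at h3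
      have h6 := (mul_eq_zero.1 h3.symm).resolve_left hc
      obtain ⟨k, -, hk⟩ := Finset.prod_eq_zero_iff.1 h6
      have h7 : eval t (pk k) = 0 := by
        rw [map_sum] at hk
        have h8 : ∀ z, eval (B.Y M (A.x P) (B.yt ch P t) fun i => ev P (B.yt ch P t) (g i))
            (C (y k z) * X z) = (∏ j, t j ^ R.o j) * ((y k z *
              aeval (A.x P) (B.w ch M z.1 z.2)) *
                eval t (sp A P (R.Q z.1.1) * monomial (be z.1.2) 1)) := by
          intro z
          rw [map_mul, eval_C, eval_X, X_Y_yt B R]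
          ring
        rw [Finset.sum_congr rfl fun z _ => h8 z, ← Finset.mul_sum, Fintype.sum_prod_type] at hk
        have h9 := (mul_eq_zero.1 hk).resolve_left
          (Finset.prod_ne_zero_iff.2 fun j _ => pow_ne_zero _ (ht j))
        rw [hpk]
        simp only
        rw [map_sum, ← h9]
        refine Finset.sum_congr rfl fun z _ => ?_
        rw [map_mul, eval_C, hyy, Finset.sum_mul]
      rw [Finset.prod_eq_zero (Finset.mem_univ k) h7, mul_zero]
    · push Not at ht
      obtain ⟨j, hj⟩ := ht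
      rw [Finset.prod_eq_zero (Finset.mem_univ j) hj, zero_mul]
  have h2 := (mul_eq_zero.1 h1).resolve_left (Finset.prod_ne_zero_iff.2 fun j _ => X_ne_zero j)
  obtain ⟨k, -, hk⟩ := Finset.prod_eq_zero_iff.1 h2
  obtain ⟨Z, hZ, hne⟩ := hy k
  have hdeg : ∀ i j, degreeOf j (sp A P (R.Q i)) ≤ R.d j := fun i j =>
    X_sp_deg (R_deg B R i) P j
  have hQ1 : sp A P (R.Q 1) ≠ 0 := by
    intro h0
    obtain ⟨k', hk'⟩ : ∃ a, a ∈ B.New g := by
      by_contra hcon
      push Not at hcon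
      have h3 : ∀ i, sp A P (R.Q i) = 0 := by
        intro i
        ext a
        rw [coeff_zero]
        by_contra h4
        have h5 := (R_ne B R hP i (fun j => a j)).1 (by
          have h6 : fs (fun j => a j) = a := by
            ext j
            rfl
          rw [h6]
          exact h4)
        exact hcon _ h5
      rw [h3 0, h3 1] at hcop
      have h4 := hcop (dvd_refl 0) (dvd_refl 0)
      exact not_isUnit_zero h4
    have h5 := (R_ne B R hP 1 (k' - R.o)).2 (by
      have h6 : k' - R.o + R.o = k' := by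
        funext j
        exact Nat.sub_add_cancel (R.lo k' hk' j)
      rw [h6]
      exact hk')
    rw [h0, coeff_zero] at h5
    exact h5 rfl
  have h3 := J_exc (M := M) (fun i => sp A P (R.Q i)) hdeg hcop (fun j => R_gdeg B R hP 1 j) hQ1
    (yy k) (by
      rw [hpk] at hk
      exact hk) Z (fun b => by
      have h4 := hZ b
      rw [← h4]
      exact Finset.sum_congr rfl fun z _ => by rw [X_Tm_sp])
  apply hne
  rw [Fintype.sum_prod_type, ← h3]
  refine Finset.sum_congr rfl fun z _ => ?_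
  rw [hyy, Finset.sum_mul]
  exact Finset.sum_congr rfl fun κ _ => by ring

end

end Pool.Agent.Lib.MP_17a322_nt.SV3
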