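import Pool.Agent.Lib.MP_17a322_nt.SV3.C2
import Pool.Agent.Lib.MP_17a322_nt.SV3.C3
import Pool.Agent.Lib.MP_17a322_nt.SV3.F1
import Pool.Agent.Lib.MP_17a322_nt.SV3.G5

/-!
Vojta's inequality over principal torus bundles over `A`: assembly.
-/

universe u

namespace Pool.Agent.Lib.MP_17a322_nt.SV3

open MvPolynomial Height
open Pool.Agent.Lib.MP_17a322_nt.VA
open Pool.Agent.Lib.MP_17a322_nt.VJ
open Pool.Agent.Lib.MP_17a322_nt.SL
open Pool.Agent.Lib.MP_17a322_nt.SV2 (Box Rw Cf Tm fs sp ps)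

section

variable {K : Type u} [Field K] {N q p p' m : ℕ} {A : AV K N} (B : Bun A q p p')

theorem Z1_coeff (c : Fin m → ℤ)
    (g : Fin m → MvPolynomial (Fin q × Fin p) (MvPolynomial (Fin (N + 1)) K))
    (μ : Fin q × Fin p →₀ ℕ) :
    coeff μ (∑ k, (c k : MvPolynomial (Fin q × Fin p) (MvPolynomial (Fin (N + 1)) K)) * g k) =
      ∑ k, (c k : MvPolynomial (Fin (N + 1)) K) * coeff μ (g k) := by
  rw [coeff_sum]
  refine Finset.sum_congr rfl fun k _ => ?_
  have h : (c k : MvPolynomial (Fin q × Fin p) (MvPolynomial (Fin (N + 1)) K)) =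
      C (c k : MvPolynomial (Fin (N + 1)) K) :=
    (map_intCast (C : MvPolynomial (Fin (N + 1)) K →+*
      MvPolynomial (Fin q × Fin p) (MvPolynomial (Fin (N + 1)) K)) (c k)).symm
  rw [h, coeff_C_mul]

theorem Z1_WH {D : ℕ} (c : Fin m → ℤ)
    {g : Fin m → MvPolynomial (Fin q × Fin p) (MvPolynomial (Fin (N + 1)) K)}
    (hg : ∀ k, B.WH D (g k)) :
    B.WH D (∑ k, (c k : MvPolynomial (Fin q × Fin p) (MvPolynomial (Fin (N + 1)) K)) * g k) := by
  intro μ hμ
  rw [Z1_coeff] at hμ ⊢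
  obtain ⟨k₀, _, hk₀⟩ := Finset.exists_ne_zero_of_sum_ne_zero hμ
  have h0 : coeff μ (g k₀) ≠ 0 := right_ne_zero_of_mul hk₀
  obtain ⟨δ, _, hδ⟩ := hg k₀ μ h0
  refine ⟨δ, IsHomogeneous.sum _ _ _ fun k _ => ?_, hδ⟩
  have h : (c k : MvPolynomial (Fin (N + 1)) K) = C (c k : K) :=
    (map_intCast (C : K →+* MvPolynomial (Fin (N + 1)) K) (c k)).symm
  have h2 : (coeff μ (g k)).IsHomogeneous δ := by
    by_cases hk : coeff μ (g k) = 0
    · rw [hk]
      exact isHomogeneous_zero _ _ _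
    · obtain ⟨δ', hδ', hδ''⟩ := hg k μ hk
      have h3 : δ' = δ := by omega
      rw [← h3]
      exact hδ'
  rw [h]
  have h1 := (isHomogeneous_C (Fin (N + 1)) (c k : K)).mul h2
  rw [zero_add] at h1
  exact h1

theorem Z1_ev (c : Fin m → ℤ)
    (g : Fin m → MvPolynomial (Fin q × Fin p) (MvPolynomial (Fin (N + 1)) K)) {L : Type u}
    [Field L] [Algebra K L] (P : A.Pts L) (y : Fin q × Fin p → L) :
    ev P y (∑ k, (c k : MvPolynomial (Fin q × Fin p) (MvPolynomial (Fin (N + 1)) K)) * g k) =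
      ∑ k, (c k : L) * ev P y (g k) := by
  have h : ∀ Q, ev P y Q = ((eval y).comp (MvPolynomial.map
      (aeval (A.x P) : MvPolynomial (Fin (N + 1)) K →ₐ[K] L).toRingHom)) Q := fun Q => rfl
  rw [h, map_sum]
  refine Finset.sum_congr rfl fun k _ => ?_
  rw [map_mul, map_intCast, h]

variable {B}

/-- The reduced polynomials are not zero, so the polynomials do not vanish on the bundle. -/
theorem Z1_not_van {D : ℕ} {ch : Fin q → Fin p'}
    {g : Fin 2 → MvPolynomial (Fin q × Fin p) (MvPolynomial (Fin (N + 1)) K)}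
    (R : B.Red ch D g) (i : Fin 2) : ¬ B.Van (g i) := by
  intro hv
  have h1 : B.New g = ∅ := by
    rw [← R.new i]
    ext a
    rw [A_new B R.hch (fun _ => R.wh i)]
    simp only [Set.mem_empty_iff_false, iff_false, not_exists, not_not]
    intro _
    exact (A_van B R.hch (R.wh i)).1 hv (fs a)
  obtain ⟨L, _, _, _, P, _, hP⟩ := R.cop
  have h2 : ∀ i, R.Q i = 0 := by
    intro i
    ext1 μ
    have h3 := R.co' i (fun j => μ j) (by rw [h1]; exact Set.notMem_empty _)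
    have h4 : fs (fun j => μ j) = μ := by
      ext j
      rfl
    rw [h4] at h3
    rw [h3, coeff_zero]
  have h5 : ∀ i, sp A P (R.Q i) = 0 := by
    intro i
    rw [h2 i]
    exact map_zero (MvPolynomial.map (aeval (A.x P)).toRingHom)
  rw [h5, h5] at hP
  exact not_isUnit_zero (hP dvd_rfl dvd_rfl)

variable (B)

theorem Z1_sup {m' : ℕ} {g : Fin m → MvPolynomial (Fin q × Fin p) (MvPolynomial (Fin (N + 1)) K)}
    {g' : Fin m' → MvPolynomial (Fin q × Fin p) (MvPolynomial (Fin (N + 1)) K)}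
    (h : B.New g' = B.New g) (τ : Fin q → ℝ) : B.sup g' τ = B.sup g τ := by
  unfold Bun.sup
  rw [h]

end

section

variable {K : Type u} [Field K] [NumberField K]

/-- The combination at a nonarchimedean place. -/
theorem Z1_fin {m : ℕ} (c : Fin 2 → Fin m → ℤ) (T : Fin m → K)
    (v : NumberField.FinitePlace K) (hT : 0 < m) :
    (⨆ i, v.val (∑ k, (c i k : K) * T k)) ≤ ⨆ k, v.val (T k) := by
  have hv : IsNonarchimedean v.val := NumberField.FinitePlace.add_le v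
  have hm : Nonempty (Fin m) := ⟨⟨0, hT⟩⟩
  refine ciSup_le fun i => ?_
  obtain ⟨k, _, hk⟩ := IsNonarchimedean.finset_image_add_of_nonempty hv
    (fun k : Fin m => (c i k : K) * T k) Finset.univ_nonempty
  refine hk.trans ?_
  rw [map_mul]
  have h1 : v.val ((c i k : ℤ) : K) ≤ 1 := by
    obtain ⟨n, hn | hn⟩ := Int.eq_nat_or_neg (c i k)
    · rw [hn]
      push_cast
      exact IsNonarchimedean.apply_natCast_le_one hv
    · rw [hn]
      push_cast
      rw [map_neg_eq_map]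
      exact IsNonarchimedean.apply_natCast_le_one hv
  calc v.val ((c i k : ℤ) : K) * v.val (T k) ≤ 1 * v.val (T k) :=
        mul_le_mul_of_nonneg_right h1 (v.val.nonneg _)
    _ = v.val (T k) := one_mul _
    _ ≤ ⨆ k, v.val (T k) := Finite.le_ciSup (fun k => v.val (T k)) k

omit [NumberField K] in
/-- The combination at an arbitrary place. -/
theorem Z1_all {m : ℕ} (c : Fin m → ℤ) (v : AbsoluteValue K ℝ) :
    ∃ B : ℝ, 0 ≤ B ∧ ∀ T : Fin m → K, ∑ k, (c k : K) * T k ≠ 0 →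
      Real.log (v (∑ k, (c k : K) * T k)) ≤ Real.log (⨆ k, v (T k)) + B := by
  have h0 : 0 ≤ ∑ k, v (c k : K) := Finset.sum_nonneg fun k _ => v.nonneg _
  refine ⟨Real.log (∑ k, v (c k : K) + 1), Real.log_nonneg (by linarith), fun T hT => ?_⟩
  obtain ⟨k₀, _, hk₀⟩ := Finset.exists_ne_zero_of_sum_ne_zero hT
  have hTk : T k₀ ≠ 0 := fun h => hk₀ (by rw [h, mul_zero])
  have hpos : 0 < ⨆ k, v (T k) :=
    (v.pos_iff.2 hTk).trans_le (Finite.le_ciSup (fun k => v (T k)) k₀)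
  have h1 : v (∑ k, (c k : K) * T k) ≤ (⨆ k, v (T k)) * (∑ k, v (c k : K) + 1) := by
    calc v (∑ k, (c k : K) * T k) ≤ ∑ k, v ((c k : K) * T k) := v.sum_le _ _
      _ ≤ ∑ k, v (c k : K) * ⨆ k, v (T k) := by
          refine Finset.sum_le_sum fun k _ => ?_
          rw [map_mul]
          exact mul_le_mul_of_nonneg_left (Finite.le_ciSup (fun k => v (T k)) k) (v.nonneg _)
      _ = (⨆ k, v (T k)) * ∑ k, v (c k : K) := by rw [← Finset.sum_mul, mul_comm]
      _ ≤ _ := mul_le_mul_of_nonneg_left (by linarith) hpos.le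
  have h2 := Real.log_le_log (v.pos_iff.2 hT) h1
  rw [Real.log_mul hpos.ne' (by linarith)] at h2
  exact h2

theorem Z1_ps_le (S : Finset (NumberField.FinitePlace K)) {φ ψ c : AbsoluteValue K ℝ → ℝ}
    (h : ∀ v, φ v ≤ ψ v + c v) : ps S φ ≤ ps S ψ + ps S c := by
  have h1 : ∑ v : NumberField.InfinitePlace K, (v.mult : ℝ) * φ v.val ≤
      ∑ v : NumberField.InfinitePlace K, (v.mult : ℝ) * ψ v.val +
        ∑ v : NumberField.InfinitePlace K, (v.mult : ℝ) * c v.val := by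
    rw [← Finset.sum_add_distrib]
    refine Finset.sum_le_sum fun v _ => ?_
    rw [← mul_add]
    exact mul_le_mul_of_nonneg_left (h v.val) (Nat.cast_nonneg _)
  have h2 : ∑ v ∈ S, φ v.val ≤ ∑ v ∈ S, ψ v.val + ∑ v ∈ S, c v.val := by
    rw [← Finset.sum_add_distrib]
    exact Finset.sum_le_sum fun v _ => h v.val
  unfold SV2.ps
  linarith

theorem Z1_ps_nonneg (S : Finset (NumberField.FinitePlace K)) {c : AbsoluteValue K ℝ → ℝ}
    (h : ∀ v, 0 ≤ c v) : 0 ≤ ps S c :=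
  add_nonneg (Finset.sum_nonneg fun v _ => mul_nonneg (Nat.cast_nonneg _) (h v.val))
    (Finset.sum_nonneg fun v _ => h v.val)

end

theorem final {K : Type u} [Field K] [NumberField K] {N q p p' m : ℕ} {A : AV K N}
    (B : Bun A q p p') (Γ : AddSubgroup (A.Pts K)) (hΓ : Γ.FG) (D : ℕ)
    (g : Fin m → MvPolynomial (Fin q × Fin p) (MvPolynomial (Fin (N + 1)) K))
    (hg : ∀ k, B.WH D (g k)) (hY : B.CodTwo g) (e : ℕ)
    (f : MvPolynomial (Fin q × Fin p) (MvPolynomial (Fin (N + 1)) K)) (hf : B.WH e f)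
    (hf0 : ¬ B.Van f) (S : Finset (NumberField.FinitePlace K)) (ε : ℝ) (hε : 0 < ε) :
    ∃ (G : MvPolynomial (Fin q × Fin p) (MvPolynomial (Fin (N + 1)) K)) (C : ℝ),
      (∃ E, B.WH E G) ∧ ¬ B.Van G ∧ ∀ P ∈ Γ, ∀ y, B.On P y → ev P y G ≠ 0 →
        (∃ k, ev P y (g k) ≠ 0) ∧ ev P y f ≠ 0 ∧
        ((∑ v : NumberField.InfinitePlace K, (v.mult : ℝ) * B.loc v.val D g P y) +
            ∑ᶠ v : NumberField.FinitePlace K, B.loc v.val D g P y) +
          ((∑ v : NumberField.InfinitePlace K, (v.mult : ℝ) *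
              B.loc v.val e (fun _ : Fin 1 => f) P y) +
            ∑ v ∈ S, B.loc v.val e (fun _ : Fin 1 => f) P y) ≤
          ε * (logHeight (A.x P) + ∑ i, B.ht P y i) + C * (1 + B.NS S P y) := by
  classical
  obtain ⟨c, hnew, hcod⟩ := C_two B hg hY
  obtain ⟨h, hh⟩ : ∃ h : Fin 2 → MvPolynomial (Fin q × Fin p) (MvPolynomial (Fin (N + 1)) K),
      h = fun i => ∑ k, (c i k : MvPolynomial (Fin q × Fin p)
        (MvPolynomial (Fin (N + 1)) K)) * g k := ⟨_, rfl⟩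
  have hev : ∀ (i : Fin 2) (P : A.Pts K) (y : Fin q × Fin p → K),
      ev P y (h i) = ∑ k, (c i k : K) * ev P y (g k) := by
    intro i P y
    rw [hh]
    exact Z1_ev (c i) g P y
  have hnew' : ∀ i, B.New (fun _ : Fin 1 => h i) = B.New g := by
    intro i
    rw [hh]
    exact hnew i
  have hNew : B.New h = B.New g := by
    ext a
    constructor
    · rintro ⟨i, hi⟩
      rw [← hnew' i]
      exact ⟨0, hi⟩
    · intro ha
      rw [← hnew' 0] at ha
      obtain ⟨_, hk⟩ := ha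
      exact ⟨0, hk⟩
  have hWH : ∀ i, B.WH D (h i) := by
    intro i
    rw [hh]
    exact Z1_WH B (c i) hg
  have hcod' : B.CodTwo h := by
    rw [hh]
    exact hcod
  obtain ⟨ch, hch⟩ := A_exists_ch B
  obtain ⟨R⟩ := C_red B hWH (fun i => (hnew' i).trans hNew.symm) hcod' hch
  have hε3 : 0 < ε / 3 := by positivity
  obtain ⟨C1, G1, E1, hG1, hG1', h1⟩ := G_part B Γ hΓ R hcod' S (ε / 3) hε3
  obtain ⟨C2, G2, E2, hG2, hG2', h2⟩ := F_part B Γ hΓ (hWH 0) (Z1_not_van R 0) S (ε / 3) hε3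
  obtain ⟨C3, G3, E3, hG3, hG3', h3⟩ := F_part B Γ hΓ hf hf0 S (ε / 3) hε3
  choose cv hcv0 hcv using fun v : AbsoluteValue K ℝ => Z1_all (c 0) v
  refine ⟨G1 * (G2 * G3), C1 + (C2 + ps S cv) + C3,
    ⟨_, A_WH_mul B hG1 (A_WH_mul B hG2 hG3)⟩,
    A_van_mul B hG1 (A_WH_mul B hG2 hG3) hG1' (A_van_mul B hG2 hG3 hG2' hG3'), ?_⟩
  intro P hP y hy hG
  rw [A_ev_mul, A_ev_mul] at hG
  obtain ⟨hh0, h1⟩ := h1 P hP y hy (left_ne_zero_of_mul hG)
  obtain ⟨_, h2⟩ := h2 P hP y hy (left_ne_zero_of_mul (right_ne_zero_of_mul hG))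
  obtain ⟨hf1, h3⟩ := h3 P hP y hy (right_ne_zero_of_mul (right_ne_zero_of_mul hG))
  have hsum : ∑ k, (c 0 k : K) * ev P y (g k) ≠ 0 := by
    rw [← hev 0 P y]
    exact hh0 0
  obtain ⟨k₀, _, hk₀⟩ := Finset.exists_ne_zero_of_sum_ne_zero hsum
  have hgk : ev P y (g k₀) ≠ 0 := right_ne_zero_of_mul hk₀
  refine ⟨⟨k₀, hgk⟩, hf1, ?_⟩
  -- the finite places outside `S`
  have h4 := N_mono S (N_FS_loc B hy D g hgk) (N_FS_loc B hy D h (hh0 0)) (by
    intro v _
    show B.loc v.val D g P y ≤ B.loc v.val D h P y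
    unfold Bun.loc
    rw [Z1_sup B hNew]
    have h5 : (⨆ i, v.val (ev P y (h i))) ≤ ⨆ k, v.val (ev P y (g k)) := by
      simp only [hev _ P y]
      exact Z1_fin c (fun k => ev P y (g k)) v (lt_of_le_of_lt (Nat.zero_le _) k₀.2)
    have h6 : 0 < ⨆ i, v.val (ev P y (h i)) :=
      (v.val.pos (hh0 0)).trans_le (Finite.le_ciSup (fun i => v.val (ev P y (h i))) 0)
    have h7 := Real.log_le_log h6 h5
    linarith)
  -- the places in `S`
  have h5 : ps S (fun v => B.loc v D g P y) ≤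
      ps S (fun v => B.loc v D (fun _ : Fin 1 => h 0) P y) + ps S cv := by
    refine Z1_ps_le S fun v => ?_
    unfold Bun.loc
    rw [Z1_sup B (hnew' 0), ciSup_const]
    have h6 := hcv v (fun k => ev P y (g k)) hsum
    rw [← hev 0 P y] at h6
    linarith
  have h6 : 0 ≤ ps S cv := Z1_ps_nonneg S hcv0
  have h7 := N_NS_nonneg B S P y
  have h8 := N_gs fun v => B.loc v D g P y
  have h9 : (∑ v : NumberField.InfinitePlace K, (v.mult : ℝ) *
        B.loc v.val e (fun _ : Fin 1 => f) P y) +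
      ∑ v ∈ S, B.loc v.val e (fun _ : Fin 1 => f) P y =
        ps S (fun v => B.loc v e (fun _ : Fin 1 => f) P y) := rfl
  rw [h9, h8]
  have h10 : 0 ≤ ps S cv * B.NS S P y := mul_nonneg h6 h7
  nlinarith

end Pool.Agent.Lib.MP_17a322_nt.SV3
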